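import Pool.Agent.BR80.Cx

/-!
# Bicomplexes: systems and obstructions
-/

namespace Pool.Agent.BR80

/-- A sequence of complexes (columns) with homomorphisms `δ` from each column to the next one,
`δ ∘ δ = 0`. -/
structure BiCx where
  /-- the columns -/
  K : ℕ → Cx
  /-- the horizontal differential -/
  δ : ∀ r, Cx.Hom (K r) (K (r + 1))
  δδ : ∀ r m x, (δ (r + 1)).f m ((δ r).f m x) = 0

namespace BiCx

/-- The families of cochains `Y r m` in degree `m` of the column `r`. -/
abbrev TC (D : BiCx) : Type := ∀ r m, (D.K r).C m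

/-- The part `δ Y` of the total differential. -/
def ds (D : BiCx) (Y : D.TC) : D.TC
  | 0, _ => 0
  | r + 1, m => (D.δ r).f m (Y r m)

/-- The total differential `d Y + (-1)^m δ Y`. -/
def tot (D : BiCx) (Y : D.TC) : D.TC
  | r, 0 => D.ds Y r 0
  | r, m + 1 => (D.K r).d m (Y r m) + (-1 : ℤ) ^ (m + 1) • D.ds Y r (m + 1)

/-- `Y` is of total degree `N`. -/
def Deg (D : BiCx) (N : ℕ) (Y : D.TC) : Prop := ∀ r m, r + m ≠ N → Y r m = 0

/-- `Y` is a system of total degree `N` on the columns `< r`: a cocycle of the total complex of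
these columns. The obstruction to extend it to the column `r` is the class of `D.ds Y r m`,
`r + m = N + 1`. -/
def Sys (D : BiCx) (N r : ℕ) (Y : D.TC) : Prop :=
  D.Deg N Y ∧ ∀ j < r, ∀ m, D.tot Y j m = 0

@[simp] theorem ds_zero (D : BiCx) (Y : D.TC) (m : ℕ) : D.ds Y 0 m = 0 := rfl

@[simp] theorem ds_succ (D : BiCx) (Y : D.TC) (r m : ℕ) :
    D.ds Y (r + 1) m = (D.δ r).f m (Y r m) := rfl

@[simp] theorem tot_zero (D : BiCx) (Y : D.TC) (r : ℕ) : D.tot Y r 0 = D.ds Y r 0 := by
  cases r <;> rfl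

@[simp] theorem tot_succ (D : BiCx) (Y : D.TC) (r m : ℕ) :
    D.tot Y r (m + 1) = (D.K r).d m (Y r m) + (-1 : ℤ) ^ (m + 1) • D.ds Y r (m + 1) := by
  cases r <;> rfl

/-- The obstruction is a cocycle. -/
theorem Sys.ds_mem (D : BiCx) {N r : ℕ} {Y : D.TC} (h : D.Sys N r Y) (m : ℕ) :
    D.ds Y r m ∈ (D.K r).Zg m := by
  cases r with
  | zero => exact (D.K 0).Zg m |>.zero_mem
  | succ k =>
    rw [Cx.mem_Zg, ds_succ, ← (D.δ k).comm]
    have h1 := h.2 k (Nat.lt_succ_self k) (m + 1)
    rw [tot_succ] at h1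
    have h2 : (D.δ k).f (m + 1) (D.ds Y k (m + 1)) = 0 := by
      cases k with
      | zero => rw [ds_zero, map_zero]
      | succ j => rw [ds_succ, D.δδ]
    have h3 := congrArg ((D.δ k).f (m + 1)) h1
    rw [map_add, map_zsmul, h2, smul_zero, add_zero, map_zero] at h3
    exact h3

private theorem Bi_upd_lt (D : BiCx) (Y : D.TC) (r : ℕ) (w : ∀ m, (D.K r).C m) {j : ℕ}
    (hj : j < r) {m : ℕ} : D.tot (Function.update Y r w) j m = D.tot Y j m := by
  have h1 : ∀ m, D.ds (Function.update Y r w) j m = D.ds Y j m := by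
    intro m
    cases j with
    | zero => rfl
    | succ k =>
      rw [ds_succ, ds_succ, Function.update_of_ne (by omega)]
  cases m with
  | zero => rw [tot_zero, tot_zero, h1]
  | succ m => rw [tot_succ, tot_succ, h1, Function.update_of_ne hj.ne]

private theorem Bi_upd_eq (D : BiCx) (Y : D.TC) (r : ℕ) (w : ∀ m, (D.K r).C m) (m : ℕ) :
    D.tot (Function.update Y r w) r m = match m with
      | 0 => D.ds Y r 0
      | m + 1 => (D.K r).d m (w m) + (-1 : ℤ) ^ (m + 1) • D.ds Y r (m + 1) := by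
  have h1 : ∀ m, D.ds (Function.update Y r w) r m = D.ds Y r m := by
    intro m
    cases r with
    | zero => rfl
    | succ k =>
      rw [ds_succ, ds_succ, Function.update_of_ne (by omega)]
  cases m with
  | zero => rw [tot_zero, h1]
  | succ m => rw [tot_succ, h1, Function.update_self]

/-- If the obstruction is a coboundary, the system can be extended. -/
theorem Sys.extend (D : BiCx) {N r : ℕ} {Y : D.TC} (h : D.Sys N r Y) (m : ℕ) (hm : r + m = N + 1)
    (hb : D.ds Y r m ∈ (D.K r).Bg m) :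
    ∃ Y' : D.TC, D.Sys N (r + 1) Y' ∧ ∀ j < r, ∀ m, Y' j m = Y j m := by
  have hds : ∀ m', m' ≠ m → D.ds Y r m' = 0 := by
    intro m' hm'
    cases r with
    | zero => rfl
    | succ k => rw [ds_succ, h.1 k m' (by omega), map_zero]
  cases m with
  | zero =>
    refine ⟨Function.update Y r 0, ⟨?_, ?_⟩, fun j hj m => ?_⟩
    · intro j m hj
      by_cases h1 : j = r
      · subst h1
        rw [Function.update_self]
        rfl
      · rw [Function.update_of_ne h1]
        exact h.1 j m hj
    · intro j hj m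
      rcases Nat.lt_succ_iff_lt_or_eq.1 hj with h1 | h1
      · rw [Bi_upd_lt D Y r 0 h1]
        exact h.2 j h1 m
      · subst h1
        rw [Bi_upd_eq D Y j 0 m]
        cases m with
        | zero => exact Cx.mem_Bg_zero.1 hb
        | succ m =>
          show (D.K j).d m ((0 : ∀ m, (D.K j).C m) m) +
            (-1 : ℤ) ^ (m + 1) • D.ds Y j (m + 1) = 0
          rw [hds (m + 1) (Nat.succ_ne_zero m), smul_zero, add_zero]
          exact map_zero _
    · rw [Function.update_of_ne hj.ne]
  | succ m1 =>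
    obtain ⟨y, hy⟩ := hb
    refine ⟨Function.update Y r (Pi.single m1 ((-1 : ℤ) ^ m1 • y)), ⟨?_, ?_⟩,
      fun j hj m => ?_⟩
    · intro j m hj
      by_cases h1 : j = r
      · subst h1
        rw [Function.update_self]
        exact Pi.single_eq_of_ne (by omega) _
      · rw [Function.update_of_ne h1]
        exact h.1 j m hj
    · intro j hj m
      rcases Nat.lt_succ_iff_lt_or_eq.1 hj with h1 | h1
      · rw [Bi_upd_lt D Y r _ h1]
        exact h.2 j h1 m
      · subst h1
        rw [Bi_upd_eq D Y j _ m]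
        cases m with
        | zero => exact hds 0 (by omega)
        | succ m =>
          show (D.K j).d m (Pi.single m1 ((-1 : ℤ) ^ m1 • y) m) +
            (-1 : ℤ) ^ (m + 1) • D.ds Y j (m + 1) = 0
          by_cases h2 : m = m1
          · subst h2
            rw [Pi.single_eq_same, ← hy, map_zsmul, pow_succ, mul_neg_one, neg_smul,
              add_neg_cancel]
          · rw [Pi.single_eq_of_ne h2, map_zero, hds (m + 1) (by omega), smul_zero, add_zero]
    · rw [Function.update_of_ne hj.ne]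

/-- Morphisms of bicomplexes. -/
structure Hom (E D : BiCx) where
  /-- the homomorphisms -/
  f : ∀ r, Cx.Hom (E.K r) (D.K r)
  comm : ∀ r m x, (f (r + 1)).f m ((E.δ r).f m x) = (D.δ r).f m ((f r).f m x)

/-- A contraction of the bicomplex in the direction of the columns, except for the columns `≥ n`;
it commutes with the differentials of the columns. -/
structure Contr (E : BiCx) (n : ℕ) where
  /-- the homotopy -/
  h : ∀ r, Cx.Hom (E.K (r + 1)) (E.K r)
  zero : 0 < n → ∀ m x, (h 0).f m ((E.δ 0).f m x) = x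
  succ : ∀ r, r + 1 < n → ∀ m x,
    (h (r + 1)).f m ((E.δ (r + 1)).f m x) + (E.δ r).f m ((h r).f m x) = x

/-- The extension of a system, if the obstruction is the image of a class `h` of `E` with
`δ h = 0`. The columns `< k`, `r = k + 1`, are not changed. -/
theorem Sys.extend_of_class {E D : BiCx} (θ : Hom E D) {n : ℕ} (c : Contr E n) {N k : ℕ}
    (hk : k + 1 < n) {Y : D.TC} (hY : D.Sys N (k + 1) Y) (m : ℕ) (hm : k + m = N)
    (h : (E.K (k + 1)).C m) (hz : h ∈ (E.K (k + 1)).Zg m)
    (h1 : D.ds Y (k + 1) m - (θ.f (k + 1)).f m h ∈ (D.K (k + 1)).Bg m)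
    (h2 : (E.δ (k + 1)).f m h ∈ (E.K (k + 2)).Bg m) :
    ∃ Y' : D.TC, D.Sys N (k + 2) Y' ∧ ∀ j < k, ∀ m, Y' j m = Y j m := by
  obtain ⟨t, ht⟩ : ∃ t, t = (c.h k).f m h := ⟨_, rfl⟩
  have htz : t ∈ (E.K k).Zg m := by
    rw [ht]
    exact (c.h k).map_Zg hz
  have hδ : h - (E.δ k).f m t ∈ (E.K (k + 1)).Bg m := by
    have h3 := c.succ k hk m h
    rw [← ht] at h3
    rw [← h3, add_sub_cancel_right]
    exact (c.h (k + 1)).map_Bg h2
  have hθ : (θ.f k).f m t ∈ (D.K k).Zg m := (θ.f k).map_Zg htz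
  have hY1 : D.Sys N (k + 1) (Function.update Y k (Y k - Pi.single m ((θ.f k).f m t))) := by
    refine ⟨?_, ?_⟩
    · intro j m' hj
      by_cases h3 : j = k
      · subst h3
        rw [Function.update_self, Pi.sub_apply, hY.1 j m' hj, Pi.single_eq_of_ne (by omega),
          sub_zero]
      · rw [Function.update_of_ne h3]
        exact hY.1 j m' hj
    · intro j hj m'
      rcases Nat.lt_succ_iff_lt_or_eq.1 hj with h3 | h3
      · rw [Bi_upd_lt D Y k _ h3]
        exact hY.2 j hj m'
      · subst h3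
        rw [Bi_upd_eq D Y j _ m']
        have h4 := hY.2 j hj m'
        cases m' with
        | zero =>
          rw [tot_zero] at h4
          exact h4
        | succ m' =>
          rw [tot_succ] at h4
          show (D.K j).d m' ((Y j - Pi.single m ((θ.f j).f m t)) m') +
            (-1 : ℤ) ^ (m' + 1) • D.ds Y j (m' + 1) = 0
          have h5 : (D.K j).d m' ((Pi.single m ((θ.f j).f m t) : ∀ m, (D.K j).C m) m') = 0 := by
            by_cases h6 : m' = m
            · subst h6
              rw [Pi.single_eq_same]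
              exact hθ
            · rw [Pi.single_eq_of_ne h6, map_zero]
          rw [Pi.sub_apply, map_sub, h5, sub_zero]
          exact h4
  have hb : D.ds (Function.update Y k (Y k - Pi.single m ((θ.f k).f m t))) (k + 1) m ∈
      (D.K (k + 1)).Bg m := by
    rw [ds_succ, Function.update_self, Pi.sub_apply, Pi.single_eq_same, map_sub]
    have h3 := (θ.f (k + 1)).map_Bg hδ
    rw [map_sub, θ.comm] at h3
    have h4 := AddSubgroup.add_mem _ h1 h3
    rw [ds_succ] at h4
    have h5 : (D.δ k).f m (Y k m) - (θ.f (k + 1)).f m h +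
        ((θ.f (k + 1)).f m h - (D.δ k).f m ((θ.f k).f m t)) =
        (D.δ k).f m (Y k m) - (D.δ k).f m ((θ.f k).f m t) := by abel
    rwa [h5] at h4
  obtain ⟨Y', h3, h4⟩ := hY1.extend D m (by omega) hb
  refine ⟨Y', h3, fun j hj m' => ?_⟩
  rw [h4 j (by omega) m', Function.update_of_ne hj.ne]

/-- The rows are exact, except for the columns `≥ n`. -/
structure Ex (D : BiCx) (n : ℕ) : Prop where
  zero : 0 < n → ∀ m x, (D.δ 0).f m x = 0 → x = 0
  succ : ∀ r, r + 1 < n → ∀ m x, (D.δ (r + 1)).f m x = 0 → ∃ y, (D.δ r).f m y = x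

private theorem Sys.Bi_step (D : BiCx) {n N k : ℕ} {Y : D.TC} (h : D.Sys N (k + 2) Y)
    (hD : D.Ex n) (hk : k + 1 < n) (m : ℕ) (hm : N = k + 1 + m)
    (h0 : (D.δ (k + 1)).f m (Y (k + 1) m) = 0) :
    ∃ y : (D.K k).C m,
      D.Sys N (k + 1) (Function.update Y k (Y k + Pi.single (m + 1)
        ((-1 : ℤ) ^ (m + 1) • (D.K k).d m y))) ∧
      (D.δ k).f (m + 1) (Function.update Y k (Y k + Pi.single (m + 1)
        ((-1 : ℤ) ^ (m + 1) • (D.K k).d m y)) k (m + 1)) = 0 := by
  obtain ⟨y, hy⟩ := hD.succ k hk m _ h0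
  refine ⟨y, ⟨?_, ?_⟩, ?_⟩
  · intro j m' hj
    by_cases h3 : j = k
    · subst h3
      rw [Function.update_self, Pi.add_apply, h.1 j m' hj, Pi.single_eq_of_ne (by omega),
        add_zero]
    · rw [Function.update_of_ne h3]
      exact h.1 j m' hj
  · intro j hj m'
    rcases Nat.lt_succ_iff_lt_or_eq.1 hj with h3 | h3
    · rw [Bi_upd_lt D Y k _ h3]
      exact h.2 j (by omega) m'
    · subst h3
      rw [Bi_upd_eq D Y j _ m']
      have h4 := h.2 j (by omega) m'
      cases m' with
      | zero =>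
        rw [tot_zero] at h4
        exact h4
      | succ m' =>
        rw [tot_succ] at h4
        show (D.K j).d m' ((Y j + Pi.single (m + 1)
            ((-1 : ℤ) ^ (m + 1) • (D.K j).d m y)) m') +
          (-1 : ℤ) ^ (m' + 1) • D.ds Y j (m' + 1) = 0
        have h5 : (D.K j).d m' ((Pi.single (m + 1)
            ((-1 : ℤ) ^ (m + 1) • (D.K j).d m y) : ∀ m, (D.K j).C m) m') = 0 := by
          by_cases h6 : m' = m + 1
          · subst h6
            rw [Pi.single_eq_same, map_zsmul, (D.K j).dd, smul_zero]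
          · rw [Pi.single_eq_of_ne h6, map_zero]
        rw [Pi.add_apply, map_add, h5, add_zero]
        exact h4
  · rw [Function.update_self, Pi.add_apply, Pi.single_eq_same, map_add, map_zsmul,
      (D.δ k).comm, hy]
    have h4 := h.2 (k + 1) (by omega) (m + 1)
    rw [tot_succ, ds_succ] at h4
    have h5 : (D.δ k).f (m + 1) (Y k (m + 1)) =
        (-1 : ℤ) ^ (m + 1) • ((-1 : ℤ) ^ (m + 1) • (D.δ k).f (m + 1) (Y k (m + 1))) := by
      rw [smul_smul, ← pow_add, Even.neg_one_pow ⟨m + 1, rfl⟩, one_smul]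
    have h6 : (-1 : ℤ) ^ (m + 1) • ((D.K (k + 1)).d m (Y (k + 1) m) +
        (-1 : ℤ) ^ (m + 1) • (D.δ k).f (m + 1) (Y k (m + 1))) = 0 := by
      rw [h4, smul_zero]
    rw [smul_add, ← h5] at h6
    exact (add_comm _ _).trans h6

/-- A complete system: the member in the column `0` is a coboundary. -/
theorem Sys.zero_mem (D : BiCx) {n N : ℕ} (hD : D.Ex n) (hN : N < n) {Y : D.TC}
    (h : D.Sys N (N + 2) Y) : Y 0 N ∈ (D.K 0).Bg N := by
  have key : ∀ k ≤ N, ∀ Y : D.TC, D.Sys N (k + 1) Y → (D.δ k).f (N - k) (Y k (N - k)) = 0 →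
      Y 0 N ∈ (D.K 0).Bg N := by
    intro k
    induction k with
    | zero =>
      intro _ Y hY h0
      have h1 : (D.δ 0).f N (Y 0 N) = 0 := h0
      rw [hD.zero (by omega) _ _ h1]
      exact AddSubgroup.zero_mem _
    | succ k ih =>
      intro hk Y hY h0
      obtain ⟨m, hm⟩ : ∃ m, N = k + 1 + m := ⟨N - (k + 1), by omega⟩
      have e1 : N - (k + 1) = m := by omega
      have e2 : N - k = m + 1 := by omega
      rw [e1] at h0
      obtain ⟨y, h1, h2⟩ := hY.Bi_step D hD (by omega) m hm h0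
      have h3 := ih (by omega) _ h1 (by rw [e2]; exact h2)
      cases k with
      | zero =>
        subst hm
        rw [Function.update_self, Pi.add_apply] at h3
        have e3 : 0 + 1 + m = m + 1 := by omega
        rw [e3] at h3 ⊢
        rw [Pi.single_eq_same] at h3
        have h4 : (-1 : ℤ) ^ (m + 1) • (D.K 0).d m y ∈ (D.K 0).Bg (m + 1) :=
          AddSubgroup.zsmul_mem _ (Cx.d_mem_Bg y) _
        have h5 := AddSubgroup.sub_mem _ h3 h4
        rwa [add_sub_cancel_right] at h5
      | succ j =>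
        rw [Function.update_of_ne (by omega)] at h3
        exact h3
  refine key N le_rfl Y ⟨h.1, fun j hj => h.2 j (by omega)⟩ ?_
  have h1 := h.2 (N + 1) (by omega) 0
  rw [tot_zero, ds_succ] at h1
  rw [Nat.sub_self]
  exact h1

/-- A complete system whose member in the column `0` is zero: the member in the column `1` is
cohomologous to `δ u` with a cocycle `u`. -/
theorem Sys.one_mem (D : BiCx) {n N : ℕ} (hD : D.Ex n) (hN : N + 1 < n) {Y : D.TC}
    (h : D.Sys (N + 1) (N + 3) Y) (h0 : ∀ m, Y 0 m = 0) :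
    ∃ u ∈ (D.K 0).Zg N, Y 1 N - (D.δ 0).f N u ∈ (D.K 1).Bg N := by
  have key : ∀ k ≤ N, ∀ Y : D.TC, D.Sys (N + 1) (k + 2) Y → (∀ m, Y 0 m = 0) →
      (D.δ (k + 1)).f (N - k) (Y (k + 1) (N - k)) = 0 →
      ∃ u ∈ (D.K 0).Zg N, Y 1 N - (D.δ 0).f N u ∈ (D.K 1).Bg N := by
    intro k
    induction k with
    | zero =>
      intro _ Y hY hY0 h1
      rw [Nat.sub_zero] at h1
      obtain ⟨u, hu⟩ := hD.succ 0 (by omega) N _ h1
      have h2 := hY.2 1 (by omega) (N + 1)
      rw [tot_succ, ds_succ, hY0, map_zero, smul_zero, add_zero] at h2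
      refine ⟨u, ?_, ?_⟩
      · rw [Cx.mem_Zg]
        refine hD.zero (by omega) _ _ ?_
        rw [(D.δ 0).comm, hu]
        exact h2
      · rw [hu, sub_self]
        exact AddSubgroup.zero_mem _
    | succ k ih =>
      intro hk Y hY hY0 h1
      obtain ⟨m, hm⟩ : ∃ m, N = k + 1 + m := ⟨N - (k + 1), by omega⟩
      have e1 : N - (k + 1) = m := by omega
      have e2 : N - k = m + 1 := by omega
      rw [e1] at h1
      obtain ⟨y, h2, h3⟩ := hY.Bi_step D hD (by omega) m (by omega) h1
      obtain ⟨u, hu, hu'⟩ := ih (by omega) _ h2 (fun m' => by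
        rw [Function.update_of_ne (by omega)]
        exact hY0 m') (by rw [e2]; exact h3)
      refine ⟨u, hu, ?_⟩
      cases k with
      | zero =>
        subst hm
        rw [Function.update_self, Pi.add_apply] at hu'
        have e3 : 0 + 1 + m = m + 1 := by omega
        revert u
        rw [e3]
        intro u hu hu'
        rw [Pi.single_eq_same] at hu'
        have h4 : (-1 : ℤ) ^ (m + 1) • (D.K 1).d m y ∈ (D.K 1).Bg (m + 1) :=
          AddSubgroup.zsmul_mem _ (Cx.d_mem_Bg y) _
        have h5 := AddSubgroup.sub_mem _ hu' h4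
        have h6 : Y 1 (m + 1) + (-1 : ℤ) ^ (m + 1) • (D.K 1).d m y - (D.δ 0).f (m + 1) u -
            (-1 : ℤ) ^ (m + 1) • (D.K 1).d m y = Y 1 (m + 1) - (D.δ 0).f (m + 1) u := by abel
        rwa [h6] at h5
      | succ j =>
        rw [Function.update_of_ne (by omega)] at hu'
        exact hu'
  refine key N le_rfl Y ⟨h.1, fun j hj => h.2 j (by omega)⟩ h0 ?_
  have h1 := h.2 (N + 2) (by omega) 0
  rw [tot_zero, ds_succ] at h1
  rw [Nat.sub_self]
  exact h1

end BiCx

end Pool.Agent.BR80
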