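import Pool.Agent.BR80.Bi

/-!
# Coefficient systems on a simplex
-/

namespace Pool.Agent.BR80

/-- A coefficient system of complexes on the finite subsets of a linearly ordered set. -/
structure CSys (ι : Type) [LinearOrder ι] where
  /-- the complexes -/
  K : Finset ι → Cx
  /-- the restrictions -/
  res : ∀ {σ τ : Finset ι}, σ ⊆ τ → Cx.Hom (K σ) (K τ)
  res_id : ∀ (σ : Finset ι) (m : ℕ) (x : (K σ).C m), (res (Finset.Subset.refl σ)).f m x = x
  res_comp : ∀ {ρ σ τ : Finset ι} (h : ρ ⊆ σ) (h' : σ ⊆ τ) (m : ℕ) (x : (K ρ).C m),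
    (res h').f m ((res h).f m x) = (res (h.trans h')).f m x

variable {ι : Type} [LinearOrder ι]

/-- The sign of `i` in `τ`. -/
def sgn (i : ι) (τ : Finset ι) : ℤ := (-1) ^ (τ.filter (· < i)).card

theorem sgn_mul_self (i : ι) (τ : Finset ι) : sgn i τ * sgn i τ = 1 := by
  rw [sgn, ← pow_add, ← two_mul, pow_mul, neg_one_sq, one_pow]

private theorem CS_sgn_gt (i j : ι) (τ : Finset ι) (h : i < j) : sgn i (τ.erase j) = sgn i τ := by
  unfold sgn
  congr 2
  ext x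
  simp only [Finset.mem_filter, Finset.mem_erase]
  constructor
  · rintro ⟨⟨-, h1⟩, h2⟩
    exact ⟨h1, h2⟩
  · rintro ⟨h1, h2⟩
    exact ⟨⟨(h2.trans h).ne, h1⟩, h2⟩

private theorem CS_sgn_lt (j i : ι) (τ : Finset ι) (hi : i ∈ τ) (h : i < j) :
    sgn j (τ.erase i) = -sgn j τ := by
  unfold sgn
  have h1 : (τ.erase i).filter (· < j) = (τ.filter (· < j)).erase i := by
    ext x
    simp only [Finset.mem_filter, Finset.mem_erase]
    tauto
  have h2 : i ∈ τ.filter (· < j) := Finset.mem_filter.2 ⟨hi, h⟩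
  rw [h1, ← Finset.card_erase_add_one h2, pow_succ]
  ring

theorem sgn_erase (i j : ι) (τ : Finset ι) (hi : i ∈ τ) (hj : j ∈ τ) (hij : i ≠ j) :
    sgn i τ * sgn j (τ.erase i) = -(sgn j τ * sgn i (τ.erase j)) := by
  rcases lt_or_gt_of_ne hij with h | h
  · rw [CS_sgn_gt i j τ h, CS_sgn_lt j i τ hi h]
    ring
  · rw [CS_sgn_gt j i τ h, CS_sgn_lt i j τ hj h]
    ring

namespace CSys

/-- The families of cochains. -/
abbrev TC (K : CSys ι) : Type := ∀ τ m, (K.K τ).C m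

/-- The part `δ z` of the total differential. -/
def ds (K : CSys ι) (z : K.TC) : K.TC := fun τ m =>
  ∑ i ∈ τ, sgn i τ • (K.res (τ.erase_subset i)).f m (z (τ.erase i) m)

/-- The total differential `d z + (-1)^m δ z`. -/
def tot (K : CSys ι) (z : K.TC) : K.TC
  | τ, 0 => K.ds z τ 0
  | τ, m + 1 => (K.K τ).d m (z τ m) + (-1 : ℤ) ^ (m + 1) • K.ds z τ (m + 1)

@[simp] theorem tot_zero (K : CSys ι) (z : K.TC) (τ : Finset ι) : K.tot z τ 0 = K.ds z τ 0 := rfl

@[simp] theorem tot_succ (K : CSys ι) (z : K.TC) (τ : Finset ι) (m : ℕ) :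
    K.tot z τ (m + 1) = (K.K τ).d m (z τ m) + (-1 : ℤ) ^ (m + 1) • K.ds z τ (m + 1) := rfl

/-- `z` is of total degree `N`. -/
def Deg (K : CSys ι) (N : ℕ) (z : K.TC) : Prop := ∀ τ m, τ.card + m ≠ N → z τ m = 0

/-- `z` is a system of total degree `N` on the subsets of `V` with less than `r` elements. -/
def Sys (K : CSys ι) (V : Finset ι) (N r : ℕ) (z : K.TC) : Prop :=
  K.Deg N z ∧ ∀ τ ⊆ V, τ.card < r → ∀ m, K.tot z τ m = 0

theorem ds_add (K : CSys ι) (z z' : K.TC) (τ : Finset ι) (m : ℕ) :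
    K.ds (z + z') τ m = K.ds z τ m + K.ds z' τ m := by
  simp [ds, Finset.sum_add_distrib]

theorem ds_sub (K : CSys ι) (z z' : K.TC) (τ : Finset ι) (m : ℕ) :
    K.ds (z - z') τ m = K.ds z τ m - K.ds z' τ m := by
  simp [ds, Finset.sum_sub_distrib, smul_sub]

theorem tot_add (K : CSys ι) (z z' : K.TC) (τ : Finset ι) (m : ℕ) :
    K.tot (z + z') τ m = K.tot z τ m + K.tot z' τ m := by
  cases m with
  | zero => exact K.ds_add z z' τ 0
  | succ m =>
    simp only [tot_succ, ds_add, Pi.add_apply, map_add, smul_add]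
    abel

theorem tot_sub (K : CSys ι) (z z' : K.TC) (τ : Finset ι) (m : ℕ) :
    K.tot (z - z') τ m = K.tot z τ m - K.tot z' τ m := by
  cases m with
  | zero => exact K.ds_sub z z' τ 0
  | succ m =>
    simp only [tot_succ, ds_sub, Pi.sub_apply, map_sub, smul_sub]
    abel

theorem Sys.sub {K : CSys ι} {V : Finset ι} {N r : ℕ} {z z' : K.TC} (h : K.Sys V N r z)
    (h' : K.Sys V N r z') : K.Sys V N r (z - z') :=
  ⟨fun τ m hm => by simp [h.1 τ m hm, h'.1 τ m hm],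
    fun τ hτ hr m => by rw [tot_sub, h.2 τ hτ hr m, h'.2 τ hτ hr m, sub_zero]⟩

theorem Sys.add {K : CSys ι} {V : Finset ι} {N r : ℕ} {z z' : K.TC} (h : K.Sys V N r z)
    (h' : K.Sys V N r z') : K.Sys V N r (z + z') :=
  ⟨fun τ m hm => by simp [h.1 τ m hm, h'.1 τ m hm],
    fun τ hτ hr m => by rw [tot_add, h.2 τ hτ hr m, h'.2 τ hτ hr m, add_zero]⟩

/-- `δ δ = 0`. -/
theorem ds_ds (K : CSys ι) (z : K.TC) (τ : Finset ι) (m : ℕ) : K.ds (K.ds z) τ m = 0 := by
  have hcg : ∀ {σ σ' : Finset ι} (h : σ ⊆ τ) (h' : σ' ⊆ τ), σ = σ' →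
      (K.res h).f m (z σ m) = (K.res h').f m (z σ' m) := by
    intro σ σ' h h' e
    subst e
    rfl
  have h1 : K.ds (K.ds z) τ m = ∑ i ∈ τ, ∑ j ∈ τ.erase i,
      (sgn i τ * sgn j (τ.erase i)) •
        (K.res (((τ.erase i).erase_subset j).trans (τ.erase_subset i))).f m
          (z ((τ.erase i).erase j) m) := by
    simp only [ds]
    refine Finset.sum_congr rfl fun i _ => ?_
    rw [map_sum, Finset.smul_sum]
    refine Finset.sum_congr rfl fun j _ => ?_
    rw [map_zsmul, K.res_comp, smul_smul]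
  rw [h1, Finset.sum_sigma']
  refine Finset.sum_involution (fun x _ => ⟨x.2, x.1⟩) ?_ ?_ ?_ ?_
  · rintro ⟨i, j⟩ hx
    obtain ⟨hi, hj⟩ := Finset.mem_sigma.1 hx
    obtain ⟨hji, hj⟩ := Finset.mem_erase.1 hj
    dsimp only
    rw [hcg _ (((τ.erase j).erase_subset i).trans (τ.erase_subset j)) Finset.erase_right_comm,
      sgn_erase i j τ hi hj (fun h => hji h.symm), neg_smul, neg_add_cancel]
  · rintro ⟨i, j⟩ hx _ h
    obtain ⟨hi, hj⟩ := Finset.mem_sigma.1 hx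
    obtain ⟨hji, hj⟩ := Finset.mem_erase.1 hj
    exact hji (congrArg Sigma.fst h)
  · rintro ⟨i, j⟩ hx
    obtain ⟨hi, hj⟩ := Finset.mem_sigma.1 hx
    obtain ⟨hji, hj⟩ := Finset.mem_erase.1 hj
    exact Finset.mem_sigma.2 ⟨hj, Finset.mem_erase.2 ⟨fun h => hji h.symm, hi⟩⟩
  · rintro ⟨i, j⟩ _
    rfl

theorem d_ds (K : CSys ι) (z : K.TC) (τ : Finset ι) (m : ℕ) :
    (K.K τ).d m (K.ds z τ m) = K.ds (fun σ m => match m with
      | 0 => 0
      | m + 1 => (K.K σ).d m (z σ m)) τ (m + 1) := by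
  simp only [ds, map_sum, map_zsmul, (K.res _).comm]

private theorem CS_ds_tot_zero (K : CSys ι) (z : K.TC) (τ : Finset ι) :
    K.ds (K.tot z) τ 0 = 0 := by
  have h1 : K.ds (K.tot z) τ 0 = K.ds (K.ds z) τ 0 := rfl
  rw [h1, K.ds_ds]

private theorem CS_ds_tot_succ (K : CSys ι) (z : K.TC) (τ : Finset ι) (m : ℕ) :
    K.ds (K.tot z) τ (m + 1) = (K.K τ).d m (K.ds z τ m) := by
  have h1 : K.ds (K.tot z) τ (m + 1) = K.ds (fun σ m => match m with
      | 0 => 0
      | m + 1 => (K.K σ).d m (z σ m)) τ (m + 1) +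
      (-1 : ℤ) ^ (m + 1) • K.ds (K.ds z) τ (m + 1) := by
    show ∑ i ∈ τ, sgn i τ • (K.res (τ.erase_subset i)).f (m + 1)
      ((K.K (τ.erase i)).d m (z (τ.erase i) m) +
        (-1 : ℤ) ^ (m + 1) • K.ds z (τ.erase i) (m + 1)) =
      ∑ i ∈ τ, sgn i τ • (K.res (τ.erase_subset i)).f (m + 1)
        ((K.K (τ.erase i)).d m (z (τ.erase i) m)) +
      (-1 : ℤ) ^ (m + 1) • ∑ i ∈ τ, sgn i τ • (K.res (τ.erase_subset i)).f (m + 1)
        (K.ds z (τ.erase i) (m + 1))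
    rw [Finset.smul_sum, ← Finset.sum_add_distrib]
    refine Finset.sum_congr rfl fun i _ => ?_
    rw [map_add, smul_add, map_zsmul, smul_comm]
  rw [h1, ← K.d_ds, K.ds_ds, smul_zero, add_zero]

theorem tot_tot (K : CSys ι) (z : K.TC) (τ : Finset ι) (m : ℕ) : K.tot (K.tot z) τ m = 0 := by
  cases m with
  | zero =>
    rw [tot_zero, K.CS_ds_tot_zero]
  | succ m =>
    rw [tot_succ, K.CS_ds_tot_succ]
    cases m with
    | zero =>
      have h1 : (-1 : ℤ) ^ (0 + 1) = -1 := by norm_num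
      rw [tot_zero, h1, neg_one_smul, add_neg_cancel]
    | succ m =>
      rw [tot_succ, map_add, (K.K τ).dd, zero_add, map_zsmul, ← add_smul, pow_succ (-1 : ℤ) (m + 1),
        mul_neg_one, add_neg_cancel, zero_smul]

/-- The obstruction is a cocycle. -/
theorem Sys.ds_mem {K : CSys ι} {V : Finset ι} {N r : ℕ} {z : K.TC} (h : K.Sys V N r z)
    (τ : Finset ι) (hτ : τ ⊆ V) (hr : τ.card ≤ r) (m : ℕ) : K.ds z τ m ∈ (K.K τ).Zg m := by
  rw [Cx.mem_Zg, K.d_ds]
  have h1 : ∀ i ∈ τ, (K.K (τ.erase i)).d m (z (τ.erase i) m) =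
      -((-1 : ℤ) ^ (m + 1) • K.ds z (τ.erase i) (m + 1)) := by
    intro i hi
    have h2 := h.2 (τ.erase i) ((τ.erase_subset i).trans hτ)
      (lt_of_lt_of_le (Finset.card_erase_lt_of_mem hi) hr) (m + 1)
    rw [tot_succ] at h2
    exact eq_neg_of_add_eq_zero_left h2
  have h3 : K.ds (fun σ m => match m with
      | 0 => 0
      | m + 1 => (K.K σ).d m (z σ m)) τ (m + 1) =
      -((-1 : ℤ) ^ (m + 1) • K.ds (K.ds z) τ (m + 1)) := by
    show ∑ i ∈ τ, sgn i τ • (K.res (τ.erase_subset i)).f (m + 1)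
      ((K.K (τ.erase i)).d m (z (τ.erase i) m)) = -((-1 : ℤ) ^ (m + 1) •
        ∑ i ∈ τ, sgn i τ • (K.res (τ.erase_subset i)).f (m + 1) (K.ds z (τ.erase i) (m + 1)))
    rw [Finset.smul_sum, ← Finset.sum_neg_distrib]
    refine Finset.sum_congr rfl fun i hi => ?_
    rw [h1 i hi, map_neg, map_zsmul, smul_neg, smul_comm]
  rw [h3, K.ds_ds, smul_zero, neg_zero]

/-- Total coboundaries do not change the classes of the obstructions. -/
theorem ds_tot_mem (K : CSys ι) (w : K.TC) (τ : Finset ι) (m : ℕ) :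
    K.ds (K.tot w) τ m ∈ (K.K τ).Bg m := by
  cases m with
  | zero =>
    rw [K.CS_ds_tot_zero]
    exact AddSubgroup.zero_mem _
  | succ m =>
    rw [K.CS_ds_tot_succ]
    exact Cx.d_mem_Bg _

/-- Morphisms of coefficient systems. -/
structure Hom (K K' : CSys ι) where
  /-- the homomorphisms -/
  f : ∀ τ, Cx.Hom (K.K τ) (K'.K τ)
  comm : ∀ {σ τ : Finset ι} (h : σ ⊆ τ) (m : ℕ) (x : (K.K σ).C m),
    (f τ).f m ((K.res h).f m x) = (K'.res h).f m ((f σ).f m x)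

/-- The image of a family of cochains. -/
def Hom.ap {K K' : CSys ι} (a : Hom K K') (z : K.TC) : K'.TC := fun τ m => (a.f τ).f m (z τ m)

theorem Hom.ds_ap {K K' : CSys ι} (a : Hom K K') (z : K.TC) (τ : Finset ι) (m : ℕ) :
    K'.ds (a.ap z) τ m = (a.f τ).f m (K.ds z τ m) := by
  simp only [ds, Hom.ap, map_sum, map_zsmul, a.comm]

theorem Hom.tot_ap {K K' : CSys ι} (a : Hom K K') (z : K.TC) (τ : Finset ι) (m : ℕ) :
    K'.tot (a.ap z) τ m = (a.f τ).f m (K.tot z τ m) := by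
  cases m with
  | zero => exact a.ds_ap z τ 0
  | succ m =>
    simp only [tot_succ, a.ds_ap, map_add, map_zsmul, (a.f τ).comm]
    rfl

theorem Hom.sys {K K' : CSys ι} (a : Hom K K') {V : Finset ι} {N r : ℕ} {z : K.TC}
    (h : K.Sys V N r z) : K'.Sys V N r (a.ap z) :=
  ⟨fun τ m hm => by simp [Hom.ap, h.1 τ m hm],
    fun τ hτ hr m => by rw [a.tot_ap, h.2 τ hτ hr m, map_zero]⟩

end CSys

/-- An evaluation of the cochains of a bicomplex on the subsets: for `τ` with `r` elements a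
homomorphism from the column `r` to `K τ`. -/
structure Eval (D : BiCx) (K : CSys ι) where
  /-- the homomorphisms -/
  f : ∀ (τ : Finset ι) (r : ℕ), τ.card = r → Cx.Hom (D.K r) (K.K τ)
  comm : ∀ (τ : Finset ι) (r : ℕ) (h : τ.card = r + 1) (m : ℕ) (x : (D.K r).C m),
    (f τ (r + 1) h).f m ((D.δ r).f m x) =
      ∑ i : {i // i ∈ τ}, sgn i.1 τ • (K.res (τ.erase_subset i.1)).f m
        ((f (τ.erase i.1) r (by rw [Finset.card_erase_of_mem i.2, h]; rfl)).f m x)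

/-- The same with a shift by two columns; the evaluation at the empty set kills the image
of `δ`. -/
structure Eval2 (D : BiCx) (K : CSys ι) where
  /-- the homomorphisms -/
  f : ∀ (τ : Finset ι) (r : ℕ), τ.card = r → Cx.Hom (D.K (r + 2)) (K.K τ)
  comm : ∀ (τ : Finset ι) (r : ℕ) (h : τ.card = r + 1) (m : ℕ) (x : (D.K (r + 2)).C m),
    (f τ (r + 1) h).f m ((D.δ (r + 2)).f m x) =
      ∑ i : {i // i ∈ τ}, sgn i.1 τ • (K.res (τ.erase_subset i.1)).f m
        ((f (τ.erase i.1) r (by rw [Finset.card_erase_of_mem i.2, h]; rfl)).f m x)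
  zero : ∀ (h : (∅ : Finset ι).card = 0) (m : ℕ) (x : (D.K 1).C m),
    (f ∅ 0 h).f m ((D.δ 1).f m x) = 0

/-- The evaluation of a family of cochains. -/
def Eval.ev {D : BiCx} {K : CSys ι} (a : Eval D K) (Y : D.TC) : K.TC :=
  fun τ m => (a.f τ τ.card rfl).f m (Y τ.card m)

theorem Eval.ev_eq {D : BiCx} {K : CSys ι} (a : Eval D K) (Y : D.TC) (τ : Finset ι) (r : ℕ)
    (h : τ.card = r) (m : ℕ) : a.ev Y τ m = (a.f τ r h).f m (Y r m) := by
  subst h
  rfl

/-- The evaluation of a family of cochains. -/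
def Eval2.ev {D : BiCx} {K : CSys ι} (a : Eval2 D K) (Y : D.TC) : K.TC :=
  fun τ m => (a.f τ τ.card rfl).f m (Y (τ.card + 2) m)

theorem Eval2.ev_eq {D : BiCx} {K : CSys ι} (a : Eval2 D K) (Y : D.TC) (τ : Finset ι) (r : ℕ)
    (h : τ.card = r) (m : ℕ) : a.ev Y τ m = (a.f τ r h).f m (Y (r + 2) m) := by
  subst h
  rfl

theorem Eval.ds_ev {D : BiCx} {K : CSys ι} (a : Eval D K) (Y : D.TC) (τ : Finset ι) (r : ℕ)
    (h : τ.card = r) (m : ℕ) : K.ds (a.ev Y) τ m = (a.f τ r h).f m (D.ds Y r m) := by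
  cases r with
  | zero =>
    have h1 : τ = ∅ := Finset.card_eq_zero.1 h
    subst h1
    rw [BiCx.ds_zero, map_zero]
    rfl
  | succ r =>
    rw [BiCx.ds_succ, a.comm τ r h]
    unfold CSys.ds
    rw [← Finset.sum_coe_sort]
    refine Finset.sum_congr rfl fun i _ => ?_
    rw [a.ev_eq Y _ r (by rw [Finset.card_erase_of_mem i.2, h]; rfl)]

theorem Eval.sys {D : BiCx} {K : CSys ι} (a : Eval D K) (V : Finset ι) {N r : ℕ} {Y : D.TC}
    (h : D.Sys N r Y) : K.Sys V N r (a.ev Y) := by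
  refine ⟨fun τ m hm => ?_, fun τ _ hr m => ?_⟩
  · unfold Eval.ev
    rw [h.1 τ.card m hm, map_zero]
  · have h1 : K.tot (a.ev Y) τ m = (a.f τ τ.card rfl).f m (D.tot Y τ.card m) := by
      cases m with
      | zero => rw [CSys.tot_zero, BiCx.tot_zero, a.ds_ev Y τ τ.card rfl]
      | succ m =>
        rw [CSys.tot_succ, BiCx.tot_succ, a.ds_ev Y τ τ.card rfl, map_add, map_zsmul,
          (a.f τ τ.card rfl).comm]
        rfl
    rw [h1, h.2 τ.card hr m, map_zero]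

theorem Eval2.ds_ev {D : BiCx} {K : CSys ι} (a : Eval2 D K) (Y : D.TC) (τ : Finset ι) (r : ℕ)
    (h : τ.card = r) (m : ℕ) : K.ds (a.ev Y) τ m = (a.f τ r h).f m (D.ds Y (r + 2) m) := by
  cases r with
  | zero =>
    have h1 : τ = ∅ := Finset.card_eq_zero.1 h
    subst h1
    rw [BiCx.ds_succ, a.zero h]
    rfl
  | succ r =>
    rw [BiCx.ds_succ, a.comm τ r h]
    unfold CSys.ds
    rw [← Finset.sum_coe_sort]
    refine Finset.sum_congr rfl fun i _ => ?_
    rw [a.ev_eq Y _ r (by rw [Finset.card_erase_of_mem i.2, h]; rfl)]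

theorem Eval2.sys {D : BiCx} {K : CSys ι} (a : Eval2 D K) (V : Finset ι) {N r : ℕ} {Y : D.TC}
    (h : D.Sys (N + 2) (r + 2) Y) : K.Sys V N r (a.ev Y) := by
  refine ⟨fun τ m hm => ?_, fun τ _ hr m => ?_⟩
  · unfold Eval2.ev
    rw [h.1 (τ.card + 2) m (by omega), map_zero]
  · have h1 : K.tot (a.ev Y) τ m = (a.f τ τ.card rfl).f m (D.tot Y (τ.card + 2) m) := by
      cases m with
      | zero => rw [CSys.tot_zero, BiCx.tot_zero, a.ds_ev Y τ τ.card rfl]
      | succ m =>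
        rw [CSys.tot_succ, BiCx.tot_succ, a.ds_ev Y τ τ.card rfl, map_add, map_zsmul,
          (a.f τ τ.card rfl).comm]
        rfl
    rw [h1, h.2 (τ.card + 2) (by omega) m, map_zero]

end Pool.Agent.BR80
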