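import Pool.Agent.BR80.ECol

/-!
# The chain contraction of the spaces of adelic frames
-/

namespace Pool.Agent.BR80

open Matrix

variable (w : World)

/-- The chains: formal linear combinations of continuous maps `Y → FF n r`. -/
abbrev Ch (Y : Type) [TopologicalSpace Y] (n r : ℕ) : Type := C(Y, w.FF n r) →₀ ℤ

/-- The boundary of a chain. -/
noncomputable def Ch.bd {Y : Type} [TopologicalSpace Y] {n r : ℕ} (c : Ch w Y n (r + 1)) :
    Ch w Y n r :=
  ∑ j : Fin (r + 1), (-1 : ℤ) ^ (j : ℕ) • Finsupp.mapDomain (fun φ => (w.face j).comp φ) c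

private theorem ChF_bd_zero {Y : Type} [TopologicalSpace Y] {n r : ℕ} :
    Ch.bd w (0 : Ch w Y n (r + 1)) = 0 := by
  rw [Ch.bd]
  refine Finset.sum_eq_zero fun j _ => ?_
  rw [Finsupp.mapDomain_zero, smul_zero]

private theorem ChF_md_sum {A B ι : Type} (f : A → B) (s : Finset ι) (c : ι → A →₀ ℤ) :
    Finsupp.mapDomain f (∑ i ∈ s, c i) = ∑ i ∈ s, Finsupp.mapDomain f (c i) :=
  Finsupp.mapDomain_finsetSum

private theorem ChF_md_zsmul {A B : Type} (f : A → B) (k : ℤ) (c : A →₀ ℤ) :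
    Finsupp.mapDomain f (k • c) = k • Finsupp.mapDomain f c :=
  Finsupp.mapDomain_smul k c

/-- A cycle is a boundary (join with a vector in general position: `World.gp`). For `r = 0`
every chain is a cycle. -/
theorem Ch.exact {Y : Type} [TopologicalSpace Y] {n r : ℕ} (hr : r + 1 < n)
    (c : Ch w Y n (r + 1)) (h : Ch.bd w c = 0) : ∃ b : Ch w Y n (r + 2), Ch.bd w b = c := by
  classical
  rcases eq_or_ne c 0 with rfl | hc
  · exact ⟨0, ChF_bd_zero w⟩
  obtain ⟨φ0, hφ0⟩ := Finsupp.support_nonempty_iff.2 hc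
  obtain ⟨ψ, h1, h2⟩ := w.gp hr Y {φ // φ ∈ c.support} (fun φ => φ.1)
  -- the cone
  have hcone : ∀ (i i' : {φ // φ ∈ c.support}) (j j' : Fin (r + 1)),
      (w.face j).comp i.1 = (w.face j').comp i'.1 →
        (w.face j.succ).comp (ψ i) = (w.face j'.succ).comp (ψ i') := by
    intro i i' j j' hij
    refine ContinuousMap.ext fun y => w.vec_inj ?_
    change w.vec (w.face j.succ (ψ i y)) = w.vec (w.face j'.succ (ψ i' y))
    rw [w.vec_face, w.vec_face]
    refine Matrix.ext fun a b => ?_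
    rw [Matrix.submatrix_apply, Matrix.submatrix_apply]
    induction b using Fin.cases with
    | zero =>
      rw [Fin.succ_succAbove_zero, Fin.succ_succAbove_zero]
      exact h2 i i' y a
    | succ b =>
      rw [Fin.succ_succAbove_succ, Fin.succ_succAbove_succ]
      have h3 : ∀ (i : {φ // φ ∈ c.support}) (l : Fin (r + 1)),
          w.vec (ψ i y) (id a) l.succ = w.vec (i.1 y) a l := by
        intro i l
        have h4 : w.face 0 (ψ i y) = i.1 y := DFunLike.congr_fun (h1 i) y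
        rw [← h4, w.vec_face, Matrix.submatrix_apply, Fin.zero_succAbove]
      rw [h3, h3]
      have h5 : w.face j (i.1 y) = w.face j' (i'.1 y) := DFunLike.congr_fun hij y
      have h6 := congrArg (fun q => w.vec q a b) h5
      simp only [w.vec_face, Matrix.submatrix_apply, id] at h6
      exact h6
  obtain ⟨K, hK⟩ : ∃ K : C(Y, w.FF n r) → C(Y, w.FF n (r + 1)),
      ∀ (i : {φ // φ ∈ c.support}) (j : Fin (r + 1)),
        (w.face j.succ).comp (ψ i) = K ((w.face j).comp i.1) := by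
    refine ⟨fun f => if h : ∃ p : {φ // φ ∈ c.support} × Fin (r + 1),
        (w.face p.2).comp p.1.1 = f then (w.face h.choose.2.succ).comp (ψ h.choose.1) else φ0,
      fun i j => ?_⟩
    have h3 : ∃ p : {φ // φ ∈ c.support} × Fin (r + 1),
        (w.face p.2).comp p.1.1 = (w.face j).comp i.1 := ⟨(i, j), rfl⟩
    simp only [dif_pos h3]
    exact hcone _ _ _ _ h3.choose_spec.symm
  refine ⟨∑ i ∈ c.support.attach, Finsupp.single (ψ i) (c i.1), ?_⟩
  have hb : ∀ j : Fin (r + 1 + 1), Finsupp.mapDomain (fun φ => (w.face j).comp φ)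
      (∑ i ∈ c.support.attach, Finsupp.single (ψ i) (c i.1)) =
      ∑ i ∈ c.support.attach, Finsupp.single ((w.face j).comp (ψ i)) (c i.1) := by
    intro j
    rw [Finsupp.mapDomain_finsetSum]
    exact Finset.sum_congr rfl fun i _ => Finsupp.mapDomain_single
  have hsum : ∀ {B : Type} (g : C(Y, w.FF n (r + 1)) → B),
      ∑ i ∈ c.support.attach, Finsupp.single (g i.1) (c i.1) =
        (Finsupp.mapDomain g c : B →₀ ℤ) := by
    intro B g
    rw [Finsupp.mapDomain, Finsupp.sum]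
    exact Finset.sum_attach c.support (fun φ => Finsupp.single (g φ) (c φ))
  have h3 : Ch.bd w (∑ i ∈ c.support.attach, Finsupp.single (ψ i) (c i.1)) =
      c - Finsupp.mapDomain K (Ch.bd w c) := by
    rw [Ch.bd, Fin.sum_univ_succ]
    simp only [hb]
    have e1 : ∑ i ∈ c.support.attach, Finsupp.single ((w.face 0).comp (ψ i)) (c i.1) = c := by
      have := hsum (fun φ => φ)
      rw [Finset.sum_congr rfl (fun i _ => by rw [h1 i]), this]
      exact Finsupp.mapDomain_id
    have e2 : ∀ j : Fin (r + 1),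
        ∑ i ∈ c.support.attach, Finsupp.single ((w.face j.succ).comp (ψ i)) (c i.1) =
          Finsupp.mapDomain K (Finsupp.mapDomain (fun φ => (w.face j).comp φ) c) := by
      intro j
      rw [← Finsupp.mapDomain_comp, ← hsum (K ∘ fun φ => (w.face j).comp φ)]
      exact Finset.sum_congr rfl fun i _ => by rw [hK i j]; rfl
    rw [e1]
    simp only [e2]
    rw [Fin.val_zero, pow_zero, one_smul, sub_eq_add_neg, Ch.bd, ChF_md_sum, ← Finset.sum_neg_distrib]
    congr 1
    refine Finset.sum_congr rfl fun j _ => ?_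
    rw [ChF_md_zsmul, Fin.val_succ, pow_succ, mul_neg_one, neg_smul]
  rw [h3, h, Finsupp.mapDomain_zero, sub_zero]

theorem Ch.exact_zero {Y : Type} [TopologicalSpace Y] {n : ℕ} (hr : 0 < n)
    (c : Ch w Y n 0) : ∃ b : Ch w Y n 1, Ch.bd w b = c := by
  classical
  obtain ⟨ψ, h1, -⟩ := w.gp hr Y {φ // φ ∈ c.support} (fun φ => φ.1)
  refine ⟨∑ i ∈ c.support.attach, Finsupp.single (ψ i) (c i.1), ?_⟩
  rw [Ch.bd, Fin.sum_univ_succ, Fin.sum_univ_zero, add_zero, Fin.val_zero, pow_zero, one_smul,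
    ChF_md_sum]
  have h2 : ∀ i ∈ c.support.attach, Finsupp.mapDomain (fun φ => (w.face 0).comp φ)
      (Finsupp.single (ψ i) (c i.1)) = Finsupp.single i.1 (c i.1) := by
    intro i _
    rw [Finsupp.mapDomain_single, h1 i]
  rw [Finset.sum_congr rfl h2, Finset.sum_attach c.support (fun φ => Finsupp.single φ (c φ))]
  exact Finsupp.sum_single c

private theorem ChF_alt {A : Type} [AddCommGroup A] (r : ℕ) (G : Fin (r + 1 + 1) → Fin (r + 1) → A)
    (hG : ∀ i j, G i j = G (i.succAbove j) (j.predAbove i)) :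
    ∑ i : Fin (r + 1 + 1), (-1 : ℤ) ^ (i : ℕ) • ∑ j : Fin (r + 1), (-1 : ℤ) ^ (j : ℕ) • G i j = 0 := by
  have h1 : ∀ i : Fin (r + 1 + 1), (-1 : ℤ) ^ (i : ℕ) • ∑ j : Fin (r + 1), (-1 : ℤ) ^ (j : ℕ) • G i j =
      ∑ j : Fin (r + 1), (-1 : ℤ) ^ ((i : ℕ) + (j : ℕ)) • G i j := by
    intro i
    rw [Finset.smul_sum]
    exact Finset.sum_congr rfl fun j _ => by rw [smul_smul, pow_add]
  simp_rw [h1]
  rw [← Finset.sum_product']
  have key : ∀ a : Fin (r + 1 + 1) × Fin (r + 1),
      (((a.1.succAbove a.2 : Fin (r + 1 + 1)) : ℕ) + ((a.2.predAbove a.1 : Fin (r + 1)) : ℕ) + 1 =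
        (a.1 : ℕ) + (a.2 : ℕ) ∨
      ((a.1.succAbove a.2 : Fin (r + 1 + 1)) : ℕ) + ((a.2.predAbove a.1 : Fin (r + 1)) : ℕ) =
        (a.1 : ℕ) + (a.2 : ℕ) + 1) ∧
      (a.1.succAbove a.2).succAbove (a.2.predAbove a.1) = a.1 ∧
      (a.2.predAbove a.1).predAbove (a.1.succAbove a.2) = a.2 := by
    rintro ⟨i, j⟩
    rcases lt_or_ge j.castSucc i with h | h
    · have hlt : (j : ℕ) < (i : ℕ) := h
      have e1 : i.succAbove j = j.castSucc := Fin.succAbove_of_castSucc_lt _ _ h
      have e2 : j.predAbove i = i.pred (Fin.ne_zero_of_lt h) := Fin.predAbove_of_castSucc_lt _ _ h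
      simp only
      rw [e1, e2]
      refine ⟨Or.inl ?_, ?_, ?_⟩
      · rw [Fin.val_castSucc, Fin.val_pred]
        omega
      · rw [Fin.succAbove_of_le_castSucc _ _ (by
          rw [Fin.le_def, Fin.val_castSucc, Fin.val_castSucc, Fin.val_pred]
          omega), Fin.succ_pred]
      · rw [Fin.predAbove_of_le_castSucc _ _ (by
          rw [Fin.le_def, Fin.val_castSucc, Fin.val_castSucc, Fin.val_pred]
          omega), Fin.castPred_castSucc]
    · have hle : (i : ℕ) ≤ (j : ℕ) := h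
      have e1 : i.succAbove j = j.succ := Fin.succAbove_of_le_castSucc _ _ h
      have e2 : j.predAbove i = i.castPred (Fin.ne_last_of_lt (lt_of_le_of_lt h
        (Fin.castSucc_lt_last j))) := Fin.predAbove_of_le_castSucc _ _ h
      simp only
      rw [e1, e2]
      refine ⟨Or.inr ?_, ?_, ?_⟩
      · rw [Fin.val_succ, Fin.coe_castPred]
        omega
      · rw [Fin.succAbove_of_castSucc_lt _ _ (by
          rw [Fin.castSucc_castPred, Fin.lt_def, Fin.val_succ]
          omega), Fin.castSucc_castPred]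
      · rw [Fin.predAbove_of_castSucc_lt _ _ (by
          rw [Fin.castSucc_castPred, Fin.lt_def, Fin.val_succ]
          omega), Fin.pred_succ]
  refine Finset.sum_involution (fun a _ => (a.1.succAbove a.2, a.2.predAbove a.1)) ?_ ?_ ?_ ?_
  · intro a _
    simp only
    rw [← hG, ← add_smul]
    have h2 : (-1 : ℤ) ^ ((a.1 : ℕ) + (a.2 : ℕ)) + (-1 : ℤ) ^
        (((a.1.succAbove a.2 : Fin (r + 1 + 1)) : ℕ) + ((a.2.predAbove a.1 : Fin (r + 1)) : ℕ)) = 0 := by
      rcases (key a).1 with h | h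
      · rw [← h, pow_succ]
        ring
      · rw [h, pow_succ]
        ring
    rw [h2, zero_smul]
  · intro a _ _ h
    have h2 : a.1.succAbove a.2 = a.1 := congrArg Prod.fst h
    exact Fin.succAbove_ne a.1 a.2 h2
  · intro a _
    exact Finset.mem_univ _
  · intro a _
    exact Prod.ext (key a).2.1 (key a).2.2

private theorem ChF_bd_sub {Y : Type} [TopologicalSpace Y] {n r : ℕ}
    (a b : Ch w Y n (r + 1)) : Ch.bd w (a - b) = Ch.bd w a - Ch.bd w b := by
  rw [Ch.bd, Ch.bd, Ch.bd, ← Finset.sum_sub_distrib]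
  refine Finset.sum_congr rfl fun j _ => ?_
  rw [← smul_sub]
  congr 1
  exact map_sub (Finsupp.mapDomain.addMonoidHom (fun φ => (w.face j).comp φ)) a b

private theorem ChF_bd_pre {Y Y' : Type} [TopologicalSpace Y] [TopologicalSpace Y'] {n r s : ℕ}
    (f : Fin (s + 1) → C(Y', Y)) (h : Ch w Y n (r + 1)) :
    Ch.bd w (∑ j : Fin (s + 1), (-1 : ℤ) ^ (j : ℕ) •
      Finsupp.mapDomain (fun φ : C(Y, w.FF n (r + 1)) => φ.comp (f j)) h) =
    ∑ j : Fin (s + 1), (-1 : ℤ) ^ (j : ℕ) •
      Finsupp.mapDomain (fun φ : C(Y, w.FF n r) => φ.comp (f j)) (Ch.bd w h) := by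
  rw [Ch.bd]
  simp only [ChF_md_sum, ChF_md_zsmul, Ch.bd, Finset.smul_sum]
  rw [Finset.sum_comm]
  refine Finset.sum_congr rfl fun j _ => Finset.sum_congr rfl fun i _ => ?_
  rw [← Finsupp.mapDomain_comp, ← Finsupp.mapDomain_comp, smul_comm]
  rfl

/-- The contraction. -/
theorem Ch.contraction (n : ℕ) : ∃ h : ∀ r, Ch w (w.FF n r) n (r + 1),
    (0 < n → Ch.bd w (h 0) = Finsupp.single (ContinuousMap.id _) 1) ∧
    ∀ r, r + 1 < n → Ch.bd w (h (r + 1)) +
      ∑ j : Fin (r + 1), (-1 : ℤ) ^ (j : ℕ) •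
        Finsupp.mapDomain (fun φ : C(w.FF n r, w.FF n (r + 1)) => φ.comp (w.face j)) (h r) =
      Finsupp.single (ContinuousMap.id _) 1 := by
  classical
  have step : ∀ r (h : Ch w (w.FF n r) n (r + 1)),
      (r < n → Ch.bd w (∑ j : Fin (r + 1), (-1 : ℤ) ^ (j : ℕ) • Finsupp.mapDomain
        (fun φ : C(w.FF n r, w.FF n (r + 1)) => φ.comp (w.face j)) h) =
          Ch.bd w (Finsupp.single (ContinuousMap.id (w.FF n (r + 1))) 1)) →
      ∃ h' : Ch w (w.FF n (r + 1)) n (r + 1 + 1),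
        (r + 1 < n → Ch.bd w (∑ j : Fin (r + 1 + 1), (-1 : ℤ) ^ (j : ℕ) • Finsupp.mapDomain
          (fun φ : C(w.FF n (r + 1), w.FF n (r + 1 + 1)) => φ.comp (w.face j)) h') =
            Ch.bd w (Finsupp.single (ContinuousMap.id (w.FF n (r + 1 + 1))) 1)) ∧
        (r + 1 < n → Ch.bd w h' + ∑ j : Fin (r + 1), (-1 : ℤ) ^ (j : ℕ) •
          Finsupp.mapDomain (fun φ : C(w.FF n r, w.FF n (r + 1)) => φ.comp (w.face j)) h =
            Finsupp.single (ContinuousMap.id _) 1) := by
    intro r h hh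
    by_cases hr : r + 1 < n
    · have h1 := hh (by omega)
      obtain ⟨h', h2⟩ := Ch.exact w hr (Finsupp.single (ContinuousMap.id (w.FF n (r + 1))) 1 -
        ∑ j : Fin (r + 1), (-1 : ℤ) ^ (j : ℕ) • Finsupp.mapDomain
        (fun φ : C(w.FF n r, w.FF n (r + 1)) => φ.comp (w.face j)) h) (by
          rw [ChF_bd_sub, h1, sub_self])
      refine ⟨h', fun _ => ?_, fun _ => ?_⟩
      · rw [ChF_bd_pre, h2]
        have e1 : ∀ j : Fin (r + 1 + 1),
            Finsupp.mapDomain (fun φ : C(w.FF n (r + 1), w.FF n (r + 1)) => φ.comp (w.face j))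
            (Finsupp.single (ContinuousMap.id (w.FF n (r + 1))) 1 -
            ∑ i : Fin (r + 1), (-1 : ℤ) ^ (i : ℕ) • Finsupp.mapDomain
            (fun φ : C(w.FF n r, w.FF n (r + 1)) => φ.comp (w.face i)) h) =
            Finsupp.single (w.face j) 1 - ∑ i : Fin (r + 1), (-1 : ℤ) ^ (i : ℕ) •
              Finsupp.mapDomain (fun φ : C(w.FF n r, w.FF n (r + 1)) =>
                (φ.comp (w.face i)).comp (w.face j)) h := by
          intro j
          rw [sub_eq_add_neg, Finsupp.mapDomain_add, Finsupp.mapDomain_single,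
            sub_eq_add_neg]
          congr 1
          rw [← neg_one_zsmul, ChF_md_zsmul, ChF_md_sum, neg_one_zsmul]
          congr 1
          refine Finset.sum_congr rfl fun i _ => ?_
          rw [ChF_md_zsmul, ← Finsupp.mapDomain_comp]
          rfl
        simp only [e1, smul_sub, Finset.sum_sub_distrib]
        rw [ChF_alt r (fun j i => Finsupp.mapDomain
          (fun φ : C(w.FF n r, w.FF n (r + 1)) => (φ.comp (w.face i)).comp (w.face j)) h)
          (fun j i => ?_), sub_zero, Ch.bd]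
        · refine Finset.sum_congr rfl fun j _ => ?_
          rw [Finsupp.mapDomain_single]
          rfl
        · have e2 : (w.face (n := n) (r := r) i).comp (w.face j) =
              (w.face (i.predAbove j)).comp (w.face (j.succAbove i)) := by
            refine ContinuousMap.ext fun y => w.vec_inj ?_
            change w.vec (w.face i (w.face j y)) =
              w.vec (w.face (i.predAbove j) (w.face (j.succAbove i) y))
            rw [w.vec_face, w.vec_face, w.vec_face, w.vec_face]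
            refine Matrix.ext fun a b => ?_
            rw [Matrix.submatrix_apply, Matrix.submatrix_apply, Matrix.submatrix_apply,
              Matrix.submatrix_apply, Fin.succAbove_succAbove_succAbove_predAbove]
          congr 1
          funext φ
          rw [ContinuousMap.comp_assoc, ContinuousMap.comp_assoc, e2]
      · rw [h2, sub_add_cancel]
    · exact ⟨0, fun h => absurd h hr, fun h => absurd h hr⟩
  have start : ∃ h : Ch w (w.FF n 0) n (0 + 1), (0 < n → Ch.bd w
      (∑ j : Fin (0 + 1), (-1 : ℤ) ^ (j : ℕ) • Finsupp.mapDomain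
        (fun φ : C(w.FF n 0, w.FF n (0 + 1)) => φ.comp (w.face j)) h) =
          Ch.bd w (Finsupp.single (ContinuousMap.id (w.FF n (0 + 1))) 1)) ∧
      (0 < n → Ch.bd w h = Finsupp.single (ContinuousMap.id _) 1) := by
    by_cases hn : 0 < n
    · obtain ⟨h, hh⟩ := Ch.exact_zero w hn
        (Finsupp.single (ContinuousMap.id (w.FF n 0)) (1 : ℤ))
      refine ⟨h, fun _ => ?_, fun _ => hh⟩
      rw [ChF_bd_pre, hh, Ch.bd]
      refine Finset.sum_congr rfl fun j _ => ?_
      rw [Finsupp.mapDomain_single, Finsupp.mapDomain_single]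
      rfl
    · exact ⟨0, fun h => absurd h hn, fun h => absurd h hn⟩
  obtain ⟨h0, h0P, h0z⟩ := start
  choose! next hn1 hn2 using step
  let H : ∀ r, Ch w (w.FF n r) n (r + 1) := fun r => Nat.rec h0 (fun r h => next r h) r
  have HP : ∀ r, (r < n → Ch.bd w (∑ j : Fin (r + 1), (-1 : ℤ) ^ (j : ℕ) • Finsupp.mapDomain
        (fun φ : C(w.FF n r, w.FF n (r + 1)) => φ.comp (w.face j)) (H r)) =
          Ch.bd w (Finsupp.single (ContinuousMap.id (w.FF n (r + 1))) 1)) := by
    intro r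
    induction r with
    | zero => exact h0P
    | succ r ih => exact hn1 r (H r) ih
  exact ⟨H, h0z, fun r hr => hn2 r (H r) (HP r) hr⟩

/-- pull back of parameters -/
private def ChF_P (n : ℕ) {r s : ℕ} (Z : Type) [TopologicalSpace Z] (φ : C(w.FF n r, w.FF n s)) :
    Cx.Hom (coN w n (w.FF n s × Z)) (coN w n (w.FF n r × Z)) :=
  ((sM w ∅).par (φ.prodMap (ContinuousMap.id Z))).pull w.W

private noncomputable def ChF_L {n r s : ℕ} {Z : Type} [TopologicalSpace Z] {m : ℕ}
    (x : (coN w n (w.FF n s × Z)).C m) (c : C(w.FF n r, w.FF n s) →₀ ℤ) :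
    (coN w n (w.FF n r × Z)).C m := c.sum fun φ k => k • (ChF_P w n Z φ).f m x

private theorem ChF_lin {n r s : ℕ} {Z : Type} [TopologicalSpace Z] {m : ℕ}
    (x : (coN w n (w.FF n s × Z)).C m) (c : C(w.FF n r, w.FF n s) →₀ ℤ) :
    (Cx.Hom.lin c.support (fun φ => c φ) fun φ => ChF_P w n Z φ).f m x = ChF_L w x c := by
  rw [Cx.Hom.lin_f]
  rfl

private theorem ChF_L_add {n r s : ℕ} {Z : Type} [TopologicalSpace Z] {m : ℕ}
    (x : (coN w n (w.FF n s × Z)).C m) (c c' : C(w.FF n r, w.FF n s) →₀ ℤ) :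
    ChF_L w x (c + c') = ChF_L w x c + ChF_L w x c' :=
  Finsupp.sum_add_index' (fun _ => zero_smul _ _) (fun _ _ _ => add_smul _ _ _)

private noncomputable def ChF_LH {n r s : ℕ} {Z : Type} [TopologicalSpace Z] {m : ℕ}
    (x : (coN w n (w.FF n s × Z)).C m) :
    (C(w.FF n r, w.FF n s) →₀ ℤ) →+ (coN w n (w.FF n r × Z)).C m where
  toFun := ChF_L w x
  map_zero' := Finsupp.sum_zero_index
  map_add' := ChF_L_add w x

private theorem ChF_L_one {n r : ℕ} {Z : Type} [TopologicalSpace Z] {m : ℕ}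
    (x : (coN w n (w.FF n r × Z)).C m) :
    ChF_L w x (Finsupp.single (ContinuousMap.id (w.FF n r)) 1) = x := by
  rw [ChF_L, Finsupp.sum_single_index (h := fun φ k => k • (ChF_P w n Z φ).f m x)
    (zero_smul _ _), one_smul]
  rfl

private theorem ChF_δ {n r s : ℕ} {Z : Type} [TopologicalSpace Z] {m : ℕ}
    (x : (coN w n (w.FF n s × Z)).C m) (c : C(w.FF n r, w.FF n (s + 1)) →₀ ℤ) :
    ChF_L w ((eδ w n s Z).f m x) c = ChF_L w x (Ch.bd w c) := by
  have e1 : ChF_L w x (Ch.bd w c) = ∑ j : Fin (s + 1), (-1 : ℤ) ^ (j : ℕ) •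
      ChF_L w x (Finsupp.mapDomain (fun φ => (w.face j).comp φ) c) := by
    rw [Ch.bd]
    change ChF_LH w x (∑ j : Fin (s + 1), (-1 : ℤ) ^ (j : ℕ) •
      Finsupp.mapDomain (fun φ => (w.face j).comp φ) c) = _
    rw [map_sum]
    exact Finset.sum_congr rfl fun j _ => map_zsmul (ChF_LH w x) _ _
  have e2 : ∀ j : Fin (s + 1), ChF_L w x (Finsupp.mapDomain (fun φ => (w.face j).comp φ) c) =
      c.sum fun φ k => k • (ChF_P w n Z φ).f m ((ChF_P w n Z (w.face j)).f m x) := by
    intro j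
    rw [ChF_L, Finsupp.sum_mapDomain_index (h := fun φ k => k • (ChF_P w n Z φ).f m x)
      (fun _ => zero_smul _ _) (fun _ _ _ => add_smul _ _ _)]
    rfl
  rw [e1]
  simp only [e2, Finsupp.sum, Finset.smul_sum]
  rw [Finset.sum_comm, ChF_L, Finsupp.sum]
  refine Finset.sum_congr rfl fun φ _ => ?_
  rw [eδ, Cx.Hom.lin_f, map_sum, Finset.smul_sum]
  refine Finset.sum_congr rfl fun j _ => ?_
  rw [map_zsmul, smul_comm]
  rfl

private theorem ChF_δ' {n r s : ℕ} {Z : Type} [TopologicalSpace Z] {m : ℕ}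
    (x : (coN w n (w.FF n s × Z)).C m) (c : C(w.FF n r, w.FF n s) →₀ ℤ) :
    (eδ w n r Z).f m (ChF_L w x c) = ChF_L w x (∑ j : Fin (r + 1), (-1 : ℤ) ^ (j : ℕ) •
      Finsupp.mapDomain (fun φ : C(w.FF n r, w.FF n s) => φ.comp (w.face j)) c) := by
  have e1 : ChF_L w x (∑ j : Fin (r + 1), (-1 : ℤ) ^ (j : ℕ) •
      Finsupp.mapDomain (fun φ : C(w.FF n r, w.FF n s) => φ.comp (w.face j)) c) =
      ∑ j : Fin (r + 1), (-1 : ℤ) ^ (j : ℕ) •
      ChF_L w x (Finsupp.mapDomain (fun φ : C(w.FF n r, w.FF n s) => φ.comp (w.face j)) c) := by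
    change ChF_LH w x (∑ j : Fin (r + 1), (-1 : ℤ) ^ (j : ℕ) •
      Finsupp.mapDomain (fun φ : C(w.FF n r, w.FF n s) => φ.comp (w.face j)) c) = _
    rw [map_sum]
    exact Finset.sum_congr rfl fun j _ => map_zsmul (ChF_LH w x) _ _
  rw [e1, eδ, Cx.Hom.lin_f]
  refine Finset.sum_congr rfl fun j _ => ?_
  congr 1
  rw [ChF_L, ChF_L, Finsupp.sum_mapDomain_index (h := fun φ k => k • (ChF_P w n Z φ).f m x)
      (fun _ => zero_smul _ _) (fun _ _ _ => add_smul _ _ _), Finsupp.sum, Finsupp.sum, map_sum]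
  refine Finset.sum_congr rfl fun φ _ => ?_
  rw [map_zsmul]
  rfl

/-- The contraction of the bicomplex `biE`. -/
theorem biE_contr (n : ℕ) (Z : Type) [TopologicalSpace Z] :
    Nonempty ((biE w n Z).Contr n) := by
  classical
  obtain ⟨h, h0, h1⟩ := Ch.contraction w n
  refine ⟨⟨fun r => Cx.Hom.lin (h r).support (fun φ => h r φ) fun φ => ChF_P w n Z φ, ?_, ?_⟩⟩
  · intro hn m x
    rw [ChF_lin, ChF_δ, h0 hn, ChF_L_one]
  · intro r hr m x
    rw [ChF_lin, ChF_lin, ChF_δ, ChF_δ', ← ChF_L_add, h1 r hr, ChF_L_one]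

end Pool.Agent.BR80
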