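import Pool.Agent.BR80.Cx

/-!
# Cohomology of groups: inhomogeneous cochains
-/

namespace Pool.Agent.BR80

/-- A group with a module. -/
structure GM where
  /-- the group -/
  G : Type
  [grp : Group G]
  /-- the module -/
  M : Type
  [acg : AddCommGroup M]
  /-- the action -/
  ρ : G →* AddMonoid.End M

attribute [instance] GM.grp GM.acg

namespace GM

theorem ρ_one (S : GM) (x : S.M) : S.ρ 1 x = x := by
  rw [map_one]
  rfl

theorem ρ_mul (S : GM) (g h : S.G) (x : S.M) : S.ρ (g * h) x = S.ρ g (S.ρ h x) := by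
  rw [map_mul]
  rfl

/-- The differential of the complex of inhomogeneous cochains. -/
def dFun (S : GM) (m : ℕ) (f : (Fin m → S.G) → S.M) : (Fin (m + 1) → S.G) → S.M := fun g =>
  S.ρ (g 0) (f fun i => g i.succ) +
    ∑ j : Fin (m + 1), (-1 : ℤ) ^ ((j : ℕ) + 1) • f (Fin.contractNth j (· * ·) g)

/-- The same as a homomorphism. -/
def d (S : GM) (m : ℕ) : ((Fin m → S.G) → S.M) →+ ((Fin (m + 1) → S.G) → S.M) where
  toFun := S.dFun m
  map_zero' := by
    funext g
    simp [dFun]
  map_add' a b := by
    funext g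
    simp only [dFun, Pi.add_apply, map_add, smul_add, Finset.sum_add_distrib]
    abel

/-- The module as a representation over `ℤ`. -/
noncomputable def rep (S : GM) : Rep ℤ S.G :=
  Rep.of (X := S.M)
    { toFun := fun g => (S.ρ g : S.M →+ S.M).toIntLinearMap
      map_one' := by
        ext x
        exact DFunLike.congr_fun (map_one S.ρ) x
      map_mul' := fun g h => by
        ext x
        exact DFunLike.congr_fun (map_mul S.ρ g h) x }

theorem dd (S : GM) (m : ℕ) (f : (Fin m → S.G) → S.M) : S.d (m + 1) (S.d m f) = 0 := by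
  have h := groupCohomology.inhomogeneousCochains.d_comp_d (A := S.rep) (n := m)
  have h2 : ∀ x : (Fin m → S.G) → S.rep,
      (_root_.inhomogeneousCochains.d S.rep (m + 1)).hom
        ((_root_.inhomogeneousCochains.d S.rep m).hom x) = 0 := fun x =>
    congrArg (fun φ => ModuleCat.Hom.hom φ x) h
  exact h2 f

/-- The complex of inhomogeneous cochains. -/
def cx (S : GM) : Cx where
  C := fun m => (Fin m → S.G) → S.M
  d := S.d
  dd := S.dd

theorem cx_d (S : GM) (m : ℕ) (f : S.cx.C m) (g : Fin (m + 1) → S.G) :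
    S.cx.d m f g = S.ρ (g 0) (f fun i => g i.succ) +
      ∑ j : Fin (m + 1), (-1 : ℤ) ^ ((j : ℕ) + 1) • f (Fin.contractNth j (· * ·) g) := rfl

/-- Morphisms from `S` to `T`; they induce homomorphisms of complexes `T.cx → S.cx`. -/
structure Hom (S T : GM) where
  /-- the homomorphism of groups -/
  φ : S.G →* T.G
  /-- the homomorphism of modules -/
  u : T.M →+ S.M
  comm : ∀ g x, u (T.ρ (φ g) x) = S.ρ g (u x)

/-- The homomorphism of complexes. -/
def Hom.cx {S T : GM} (a : Hom S T) : Cx.Hom T.cx S.cx where
  f := fun m =>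
    { toFun := fun c g => a.u (c fun i => a.φ (g i))
      map_zero' := by funext g; exact map_zero a.u
      map_add' := fun x y => by funext g; exact map_add a.u _ _ }
  comm := fun m c => by
    funext g
    change a.u (T.cx.d m c fun i => a.φ (g i)) = S.cx.d m (fun g => a.u (c fun i => a.φ (g i))) g
    rw [cx_d, cx_d, map_add, map_sum, a.comm]
    congr 1
    refine Finset.sum_congr rfl fun j _ => ?_
    rw [map_zsmul]
    congr 3
    funext i
    simp only [Fin.contractNth]
    split_ifs <;> simp

@[simp] theorem Hom.cx_f {S T : GM} (a : Hom S T) (m : ℕ) (c : (Fin m → T.G) → T.M)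
    (g : Fin m → S.G) : a.cx.f m c g = a.u (c fun i => a.φ (g i)) := rfl

end GM

end Pool.Agent.BR80
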