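import Pool.Agent.BR80.Step
import Pool.Agent.BR80.GM

/-!
# Coinduced modules, quotient modules
-/

namespace Pool.Agent.BR80

namespace GM

/-- Restriction to a subgroup. -/
def res (S : GM) (N : Subgroup S.G) : GM where
  G := N
  M := S.M
  ρ := S.ρ.comp N.subtype

/-- The morphism from the restriction. -/
def resHom (S : GM) (N : Subgroup S.G) : Hom (S.res N) S :=
  ⟨N.subtype, AddMonoidHom.id _, fun _ _ => rfl⟩

/-- The module of all functions from the group `G` to `N`, with `(g f) x = f (x g)`. -/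
def coind (G N : Type) [Group G] [AddCommGroup N] : GM where
  G := G
  M := G → N
  ρ :=
    { toFun := fun g =>
        { toFun := fun f x => f (x * g)
          map_zero' := rfl
          map_add' := fun _ _ => rfl }
      map_one' := by
        refine AddMonoidHom.ext fun f => ?_
        funext x
        change f (x * 1) = f x
        rw [mul_one]
      map_mul' := fun g h => by
        refine AddMonoidHom.ext fun f => ?_
        funext x
        change f (x * (g * h)) = f (x * g * h)
        rw [mul_assoc] }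

/-- The short exact sequence of complexes of a short exact sequence of modules. -/
def coI_ses (G : Type) [Group G] (M1 M2 M3 : Type) [AddCommGroup M1] [AddCommGroup M2]
    [AddCommGroup M3] (ρ1 : G →* AddMonoid.End M1) (ρ2 : G →* AddMonoid.End M2)
    (ρ3 : G →* AddMonoid.End M3) (i : M1 →+ M2) (p : M2 →+ M3)
    (hi : ∀ g x, i (ρ1 g x) = ρ2 g (i x)) (hp : ∀ g x, p (ρ2 g x) = ρ3 g (p x))
    (h1 : ∀ x, i x = 0 → x = 0) (h2 : ∀ y, p y = 0 → ∃ x, i x = y) (h3 : ∀ x, p (i x) = 0)
    (h4 : ∀ z, ∃ y, p y = z) :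
    SES (GM.mk G M1 ρ1).cx (GM.mk G M2 ρ2).cx (GM.mk G M3 ρ3).cx where
  i := GM.Hom.cx (S := GM.mk G M2 ρ2) (T := GM.mk G M1 ρ1) ⟨MonoidHom.id G, i, hi⟩
  p := GM.Hom.cx (S := GM.mk G M3 ρ3) (T := GM.mk G M2 ρ2) ⟨MonoidHom.id G, p, hp⟩
  inj := fun m x hx => by
    funext g
    exact h1 _ (congrFun hx g)
  exact := fun m y hy => by
    have h : ∀ g : Fin m → G, ∃ x, i x = y g := fun g => h2 _ (congrFun hy g)
    choose f hf using h
    exact ⟨f, funext hf⟩
  pi := fun m x => by
    funext g
    exact h3 _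
  surj := fun m z => by
    have h : ∀ g : Fin m → G, ∃ y, p y = z g := fun g => h4 _
    choose f hf using h
    exact ⟨f, funext hf⟩

private theorem coI_contract_zero {G : Type} [Group G] {m : ℕ} (x : G) (g : Fin (m + 1) → G) :
    Fin.contractNth (0 : Fin (m + 2)) (· * ·) (Fin.cons x g : Fin (m + 2) → G) =
      (Fin.cons (x * g 0) (fun i => g i.succ) : Fin (m + 1) → G) := by
  funext i
  refine Fin.cases ?_ (fun i => ?_) i
  · simp [Fin.contractNth]
  · simp [Fin.contractNth]

private theorem coI_contract_succ {G : Type} [Group G] {m : ℕ} (x : G) (g : Fin (m + 1) → G)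
    (j : Fin (m + 1)) :
    Fin.contractNth j.succ (· * ·) (Fin.cons x g : Fin (m + 2) → G) =
      (Fin.cons x (Fin.contractNth j (· * ·) g) : Fin (m + 1) → G) := by
  funext i
  refine Fin.cases ?_ (fun i => ?_) i
  · simp [Fin.contractNth]
  · simp [Fin.contractNth]

private theorem coI_key (S : GM) (X N : Type) [AddCommGroup N] (e : S.M ≃+ (X → N))
    (a : X → S.G → X) (he : ∀ g f x, e (S.ρ g f) x = e f (a x g)) (r : X → X) (y : X → S.G)
    (h1 : ∀ x g, r (a x g) = r x) (h2 : ∀ x g, y (a x g) = y x * g)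
    (h3 : ∀ x, a (r x) (y x) = x) (m : ℕ) (c : (Fin (m + 1) → S.G) → S.M)
    (hc : ∀ g, S.dFun (m + 1) c g = 0) (g : Fin (m + 1) → S.G) :
    S.dFun m (fun g => e.symm fun x => e (c (Fin.cons (y x) g)) (r x)) g = c g := by
  apply e.injective
  funext x
  have h := congrFun (congrArg e (hc (Fin.cons (y x) g))) (r x)
  simp only [dFun, Fin.cons_zero, Fin.cons_succ, map_add, Pi.add_apply, map_sum, map_zsmul,
    Finset.sum_apply, Pi.smul_apply, he, map_zero, Pi.zero_apply, h3,
    AddEquiv.apply_symm_apply, h1, h2] at h ⊢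
  rw [Fin.sum_univ_succ, coI_contract_zero] at h
  simp only [coI_contract_succ, Fin.val_zero, Fin.val_succ] at h
  have h4 : ∀ j : Fin (m + 1), (-1 : ℤ) ^ ((j : ℕ) + 1 + 1) • e (c (Fin.cons (y x)
      (Fin.contractNth j (· * ·) g))) (r x) = -((-1 : ℤ) ^ ((j : ℕ) + 1) • e (c (Fin.cons (y x)
      (Fin.contractNth j (· * ·) g))) (r x)) := fun j => by
    rw [pow_succ, mul_neg_one, neg_smul]
  simp only [h4, Finset.sum_neg_distrib] at h
  have h5 : (fun i : Fin (m + 1) => g i) = g := rfl
  rw [h5] at h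
  have h6 := sub_eq_zero.1 (show e (c g) x - (e (c (Fin.cons (y x * g 0) fun i => g i.succ)) (r x) +
    ∑ j : Fin (m + 1), (-1 : ℤ) ^ ((j : ℕ) + 1) • e (c (Fin.cons (y x)
      (Fin.contractNth j (· * ·) g))) (r x)) = 0 by
    rw [← h]
    simp
    abel)
  exact h6.symm

/-- Modules isomorphic to coinduced modules are acyclic. -/
theorem coI_acyc (S : GM) (X N : Type) [AddCommGroup N] (e : S.M ≃+ (X → N))
    (a : X → S.G → X) (he : ∀ g f x, e (S.ρ g f) x = e f (a x g)) (r : X → X) (y : X → S.G)
    (h1 : ∀ x g, r (a x g) = r x) (h2 : ∀ x g, y (a x g) = y x * g)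
    (h3 : ∀ x, a (r x) (y x) = x) (m : ℕ) : S.cx.Acyc (m + 1) := by
  intro c hc
  have h := coI_key S X N e a he r y h1 h2 h3 m c (congrFun hc)
  exact ⟨(fun g => e.symm fun x => e ((show (Fin (m + 1) → S.G) → S.M from c) (Fin.cons (y x) g)) (r x) : (Fin m → S.G) → S.M),
    funext h⟩

/-- Coinduced modules are acyclic. -/
theorem coind_acyc (G N : Type) [Group G] [AddCommGroup N] (m : ℕ) :
    (coind G N).cx.Acyc (m + 1) := by
  exact coI_acyc (coind G N) G N (AddEquiv.refl _) (fun x (g : G) => x * g) (fun _ _ _ => rfl)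
    (fun _ => 1) id (fun _ _ => rfl) (fun _ _ => rfl) (fun x => one_mul x) m

/-- The restriction of a coinduced module to a subgroup is acyclic (it is coinduced: choose
representatives of the cosets). -/
theorem coind_res_acyc (G N : Type) [Group G] [AddCommGroup N] (H : Subgroup G) (m : ℕ) :
    ((coind G N).res H).cx.Acyc (m + 1) := by
  have hr : ∀ (x : G) (h : H), ((QuotientGroup.mk (x * h.1) : G ⧸ H)).out =
      ((QuotientGroup.mk x : G ⧸ H)).out := fun x h => by
    rw [QuotientGroup.mk_mul_of_mem x h.2]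
  have hy : ∀ x : G, ((QuotientGroup.mk x : G ⧸ H)).out⁻¹ * x ∈ H := fun x => by
    rw [← QuotientGroup.eq]
    exact Quotient.out_eq' _
  refine coI_acyc ((coind G N).res H) G N (AddEquiv.refl _) (fun x (h : H) => x * h.1)
    (fun _ _ _ => rfl) (fun x => ((QuotientGroup.mk x : G ⧸ H)).out)
    (fun x => ⟨((QuotientGroup.mk x : G ⧸ H)).out⁻¹ * x, hy x⟩) (fun x h => hr x h)
    (fun x h => ?_) (fun x => ?_) m
  · have h1 : ((QuotientGroup.mk (x * (show H from h).1) : G ⧸ H)).out⁻¹ *
        (x * (show H from h).1) =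
        ((QuotientGroup.mk x : G ⧸ H)).out⁻¹ * x * (show H from h).1 := by
      rw [hr x h, mul_assoc]
    exact Subtype.ext h1
  · change ((QuotientGroup.mk x : G ⧸ H)).out * (((QuotientGroup.mk x : G ⧸ H)).out⁻¹ * x) = x
    group

/-- The embedding of the module in the coinduced module, `x ↦ (g ↦ g x)`. -/
def emb (S : GM) : S.M →+ (S.G → S.M) where
  toFun := fun x g => S.ρ g x
  map_zero' := by funext g; exact map_zero _
  map_add' := fun x y => by funext g; exact map_add _ _ _

/-- The quotient of the coinduced module by the module. -/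
def quo (S : GM) : GM where
  G := S.G
  M := (S.G → S.M) ⧸ S.emb.range
  ρ :=
    { toFun := fun g => QuotientAddGroup.map _ _ ((coind S.G S.M).ρ g) (by
        rintro _ ⟨x, rfl⟩
        refine ⟨S.ρ g x, ?_⟩
        funext y
        change S.ρ y (S.ρ g x) = S.ρ (y * g) x
        rw [map_mul]
        rfl)
      map_one' := by
        refine AddMonoidHom.ext fun f => ?_
        induction f using QuotientAddGroup.induction_on with
        | H f =>
          exact congrArg (fun a : AddMonoid.End (coind S.G S.M).M =>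
            QuotientAddGroup.mk' S.emb.range (a f)) (coind S.G S.M).ρ.map_one'
      map_mul' := fun g h => by
        refine AddMonoidHom.ext fun f => ?_
        induction f using QuotientAddGroup.induction_on with
        | H f =>
          exact congrArg (fun a : AddMonoid.End (coind S.G S.M).M =>
            QuotientAddGroup.mk' S.emb.range (a f)) ((coind S.G S.M).ρ.map_mul' g h) }

/-- The short exact sequence of complexes. -/
theorem exists_ses (S : GM) : ∃ s : SES S.cx (coind S.G S.M).cx S.quo.cx,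
    (∀ m c g, s.i.f m c g = S.emb (c g)) ∧
    ∀ m (c : (Fin m → S.G) → (S.G → S.M)) g, s.p.f m c g = (c g : (S.G → S.M) ⧸ S.emb.range) := by
  refine ⟨coI_ses S.G S.M (S.G → S.M) ((S.G → S.M) ⧸ S.emb.range) S.ρ (coind S.G S.M).ρ S.quo.ρ
    S.emb (QuotientAddGroup.mk' S.emb.range) (fun g x => ?_) (fun g x => rfl) (fun x hx => ?_)
    (fun y hy => ?_) (fun x => ?_) (fun z => ?_), fun m c g => rfl, fun m c g => rfl⟩
  · funext y
    change S.ρ y (S.ρ g x) = S.ρ (y * g) x
    rw [S.ρ_mul]
  · have h : S.ρ 1 x = 0 := congrFun hx 1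
    rwa [S.ρ_one] at h
  · exact (QuotientAddGroup.eq_zero_iff y).1 hy
  · exact (QuotientAddGroup.eq_zero_iff _).2 ⟨x, rfl⟩
  · exact QuotientAddGroup.mk'_surjective _ z

end GM

end Pool.Agent.BR80
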