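import Pool.Agent.BR80.GM

/-!
# Groups acting on topological spaces
-/

namespace Pool.Agent.BR80

/-- A (discrete) group acting on a topological space. -/
structure GS where
  /-- the group -/
  G : Type
  [grp : Group G]
  /-- the space -/
  X : Type
  [top : TopologicalSpace X]
  /-- the action -/
  act : G → X → X
  act_one : ∀ x, act 1 x = x
  act_mul : ∀ g h x, act (g * h) x = act g (act h x)
  act_cont : ∀ g, Continuous (act g)

attribute [instance] GS.grp GS.top

namespace GS

/-- Morphisms. -/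
structure Hom (S T : GS) where
  /-- the homomorphism of groups -/
  φ : S.G →* T.G
  /-- the map of spaces -/
  u : C(S.X, T.X)
  eqv : ∀ g x, u (S.act g x) = T.act (φ g) (u x)

theorem Hom.ext' {S T : GS} {a b : Hom S T} (h : ∀ g, a.φ g = b.φ g) (h' : ∀ x, a.u x = b.u x) :
    a = b := by
  cases a; cases b
  congr 1
  · exact MonoidHom.ext h
  · exact ContinuousMap.ext h'

/-- The identity. -/
def Hom.id (S : GS) : Hom S S := ⟨MonoidHom.id _, ContinuousMap.id _, fun _ _ => rfl⟩

/-- The composition `a ∘ b`. -/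
def Hom.comp {S T U : GS} (a : Hom T U) (b : Hom S T) : Hom S U :=
  ⟨a.φ.comp b.φ, a.u.comp b.u, fun g x => by simp [b.eqv, a.eqv]⟩

variable (W : Type) [AddCommGroup W] [TopologicalSpace W] [IsTopologicalAddGroup W]

/-- The module of continuous functions with values in `W`. -/
def gm (S : GS) : GM where
  G := S.G
  M := C(S.X, W)
  ρ :=
    { toFun := fun g =>
        { toFun := fun f => f.comp ⟨S.act g⁻¹, S.act_cont g⁻¹⟩
          map_zero' := rfl
          map_add' := fun _ _ => rfl }
      map_one' := by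
        refine AddMonoidHom.ext fun f => ContinuousMap.ext fun x => ?_
        change f (S.act 1⁻¹ x) = f x
        rw [inv_one, S.act_one]
      map_mul' := fun g h => by
        refine AddMonoidHom.ext fun f => ContinuousMap.ext fun x => ?_
        change f (S.act (g * h)⁻¹ x) = f (S.act h⁻¹ (S.act g⁻¹ x))
        rw [mul_inv_rev, S.act_mul] }

/-- The complex of cochains with values in the continuous functions. -/
def co (S : GS) : Cx := (S.gm W).cx

variable {W}

/-- The value of a cochain. -/
def ap {S : GS} {m : ℕ} (c : (S.co W).C m) (g : Fin m → S.G) : C(S.X, W) := c g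

/-- The cochain given by a function. -/
def mkc {S : GS} {m : ℕ} (c : (Fin m → S.G) → C(S.X, W)) : (S.co W).C m := c

@[simp] theorem ap_mkc {S : GS} {m : ℕ} (c : (Fin m → S.G) → C(S.X, W)) (g : Fin m → S.G) :
    ap (mkc c) g = c g := rfl

theorem co_ext {S : GS} {m : ℕ} {c c' : (S.co W).C m} (h : ∀ g x, ap c g x = ap c' g x) :
    c = c' := funext fun g => ContinuousMap.ext (h g)

@[simp] theorem ap_zero {S : GS} {m : ℕ} (g : Fin m → S.G) : ap (0 : (S.co W).C m) g = 0 := rfl

@[simp] theorem ap_add {S : GS} {m : ℕ} (c c' : (S.co W).C m) (g : Fin m → S.G) :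
    ap (c + c') g = ap c g + ap c' g := rfl

@[simp] theorem ap_neg {S : GS} {m : ℕ} (c : (S.co W).C m) (g : Fin m → S.G) :
    ap (-c) g = -ap c g := rfl

@[simp] theorem ap_sub {S : GS} {m : ℕ} (c c' : (S.co W).C m) (g : Fin m → S.G) :
    ap (c - c') g = ap c g - ap c' g := rfl

/-- The value of a cochain as a homomorphism. -/
def apHom {S : GS} {m : ℕ} (g : Fin m → S.G) : (S.co W).C m →+ C(S.X, W) where
  toFun := fun c => ap c g
  map_zero' := rfl
  map_add' := fun _ _ => rfl

@[simp] theorem ap_zsmul {S : GS} {m : ℕ} (k : ℤ) (c : (S.co W).C m) (g : Fin m → S.G) :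
    ap (k • c) g = k • ap c g := map_zsmul (apHom g) k c

@[simp] theorem ap_sum {S : GS} {m : ℕ} {ι : Type} (s : Finset ι) (c : ι → (S.co W).C m)
    (g : Fin m → S.G) : ap (∑ i ∈ s, c i) g = ∑ i ∈ s, ap (c i) g := map_sum (apHom g) c s

theorem ap_d {S : GS} {m : ℕ} (f : (S.co W).C m) (g : Fin (m + 1) → S.G) (x : S.X) :
    ap ((S.co W).d m f) g x = ap f (fun i => g i.succ) (S.act (g 0)⁻¹ x) +
      ∑ j : Fin (m + 1), (-1 : ℤ) ^ ((j : ℕ) + 1) • ap f (Fin.contractNth j (· * ·) g) x := by
  have h : ap ((S.co W).d m f) g = (show C(S.X, W) from (S.gm W).ρ (g 0) (ap f fun i => g i.succ)) +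
      ∑ j : Fin (m + 1), (-1 : ℤ) ^ ((j : ℕ) + 1) • ap f (Fin.contractNth j (· * ·) g) :=
    (S.gm W).cx_d m f g
  rw [h, ContinuousMap.add_apply, ContinuousMap.sum_apply]
  rfl

variable (W)

/-- A morphism gives a morphism of modules. -/
def Hom.gm {S T : GS} (a : Hom S T) : GM.Hom (S.gm W) (T.gm W) where
  φ := a.φ
  u :=
    { toFun := fun f => (show C(T.X, W) from f).comp a.u
      map_zero' := rfl
      map_add' := fun _ _ => rfl }
  comm := fun g f => ContinuousMap.ext fun x => by
    change (show C(T.X, W) from f) (T.act (a.φ g)⁻¹ (a.u x)) =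
      (show C(T.X, W) from f) (a.u (S.act g⁻¹ x))
    rw [a.eqv, map_inv]

/-- The pull back of cochains. -/
def Hom.pull {S T : GS} (a : Hom S T) : Cx.Hom (T.co W) (S.co W) := (a.gm W).cx

variable {W}

@[simp] theorem ap_pull {S T : GS} (a : Hom S T) {m : ℕ} (c : (T.co W).C m)
    (g : Fin m → S.G) (x : S.X) :
    ap ((a.pull W).f m c) g x = ap c (fun i => a.φ (g i)) (a.u x) := rfl

theorem Hom.pull_comp {S T U : GS} (a : Hom T U) (b : Hom S T) :
    (a.comp b).pull W = (b.pull W).comp (a.pull W) := rfl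

theorem Hom.pull_id (S : GS) : (Hom.id S).pull W = Cx.Hom.id (S.co W) := rfl

/-- Two mutually inverse morphisms induce isomorphisms in cohomology. -/
theorem Hom.qis {S T : GS} (a : Hom S T) (b : Hom T S) (h : a.comp b = Hom.id T)
    (h' : b.comp a = Hom.id S) : (a.pull W).Qis := by
  have h1 : ∀ m x, (b.pull W).f m ((a.pull W).f m x) = x := fun m x => by
    have := congrArg (fun c => (Hom.pull W c).f m x) h
    exact this
  have h2 : ∀ m x, (a.pull W).f m ((b.pull W).f m x) = x := fun m x => by
    have := congrArg (fun c => (Hom.pull W c).f m x) h'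
    exact this
  refine fun m => ⟨fun x _ hb => ?_, fun z hz => ⟨(b.pull W).f m z, (b.pull W).map_Zg hz, ?_⟩⟩
  · have := (b.pull W).map_Bg hb
    rwa [h1] at this
  · rw [h2, sub_self]
    exact AddSubgroup.zero_mem _

end GS

end Pool.Agent.BR80
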