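import Pool.Agent.BR80.Sha
import Pool.Agent.BR80.GS

/-!
# Shapiro's lemma for spaces
-/

namespace Pool.Agent.BR80

namespace GS

private theorem ShaGS_qis {K L : Cx} (φ : Cx.Hom K L) (h : ∀ m, Function.Bijective (φ.f m)) :
    φ.Qis := by
  refine fun m => ⟨fun x _ hb => ?_, fun z hz => ?_⟩
  · cases m with
    | zero =>
      rw [Cx.mem_Bg_zero] at hb ⊢
      exact (h 0).1 (by rw [hb, map_zero])
    | succ m =>
      obtain ⟨y, hy⟩ := Cx.mem_Bg_succ.1 hb
      obtain ⟨y', rfl⟩ := (h m).2 y
      refine Cx.mem_Bg_succ.2 ⟨y', (h (m + 1)).1 ?_⟩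
      rw [φ.comm, hy]
  · obtain ⟨x, rfl⟩ := (h m).2 z
    refine ⟨x, ?_, ?_⟩
    · rw [Cx.mem_Zg] at hz ⊢
      exact (h (m + 1)).1 (by rw [φ.comm, hz, map_zero])
    · rw [sub_self]
      exact AddSubgroup.zero_mem _

/-- Restriction to a subgroup. -/
def res (S : GS) (H : Subgroup S.G) : GS where
  G := H
  X := S.X
  act := fun h x => S.act h.1 x
  act_one := S.act_one
  act_mul := fun g h x => S.act_mul g.1 h.1 x
  act_cont := fun g => S.act_cont g.1

/-- The product with a discrete space on which the group acts. -/
def prodD (S : GS) (D : Type) [TopologicalSpace D] [DiscreteTopology D] [MulAction S.G D] : GS where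
  G := S.G
  X := S.X × D
  act := fun g x => (S.act g x.1, g • x.2)
  act_one := fun x => by
    ext
    · exact S.act_one x.1
    · exact one_smul _ x.2
  act_mul := fun g h x => by
    ext
    · exact S.act_mul g h x.1
    · exact mul_smul g h x.2
  act_cont := fun g => by
    have h1 : Continuous fun x : S.X × D => S.act g x.1 := (S.act_cont g).comp continuous_fst
    have h2 : Continuous fun x : S.X × D => g • x.2 :=
      (continuous_of_discreteTopology (f := fun d : D => g • d)).comp continuous_snd
    exact h1.prodMk h2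

variable (W : Type) [AddCommGroup W] [TopologicalSpace W] [IsTopologicalAddGroup W]

/-- The inclusion of the fibre over a point of `D`. -/
def shHom (S : GS) (D : Type) [TopologicalSpace D] [DiscreteTopology D] [MulAction S.G D] (d : D) :
    Hom (S.res (MulAction.stabilizer S.G d)) (S.prodD D) where
  φ := (MulAction.stabilizer S.G d).subtype
  u := ⟨fun x => (x, d), by fun_prop⟩
  eqv := fun g x => by
    have h : g.1 • d = d := g.2
    change (S.act g.1 x, d) = (S.act g.1 x, g.1 • d)
    rw [h]

/-- Shapiro's lemma for spaces (from `GM.shapiro`; `C(X × D, W)` is `D → C(X, W)`). -/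
theorem shapiro (S : GS) (D : Type) [TopologicalSpace D] [DiscreteTopology D] [MulAction S.G D]
    [MulAction.IsPretransitive S.G D] (d : D) : ((S.shHom D d).pull W).Qis := by
  letI : MulAction (S.gm W).G D := inferInstanceAs (MulAction S.G D)
  haveI : MulAction.IsPretransitive (S.gm W).G D :=
    inferInstanceAs (MulAction.IsPretransitive S.G D)
  let j : GM.Hom ((S.gm W).fn D) ((S.prodD D).gm W) :=
    { φ := MonoidHom.id _
      u :=
        { toFun := fun f e => (show C(S.X × D, W) from f).comp ⟨fun x => (x, e), by fun_prop⟩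
          map_zero' := rfl
          map_add' := fun _ _ => rfl }
      comm := fun g f => rfl }
  have hj : j.cx.Qis := by
    refine ShaGS_qis _ fun m => ⟨?_, ?_⟩
    · intro c c' h
      refine GS.co_ext fun g x => ?_
      have h1 : j.cx.f m c g = j.cx.f m c' g := congrFun h g
      have h3 : (GS.ap (S := S.prodD D) c g).comp (⟨fun y => (y, x.2), by fun_prop⟩ : C(S.X, S.X × D)) =
          (GS.ap (S := S.prodD D) c' g).comp (⟨fun y => (y, x.2), by fun_prop⟩ : C(S.X, S.X × D)) :=
        congrFun h1 x.2
      exact DFunLike.congr_fun h3 x.1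
    · intro c
      have hc : ∀ F : D → C(S.X, W), Continuous fun p : S.X × D => F p.2 p.1 := by
        intro F
        refine continuous_iff_continuousAt.2 fun p => ?_
        have h1 : ContinuousAt (fun q : S.X × D => F p.2 q.1) p :=
          ((F p.2).continuous.comp continuous_fst).continuousAt
        refine h1.congr ?_
        have h2 : {q : S.X × D | q.2 = p.2} ∈ nhds p :=
          (continuous_snd.isOpen_preimage {p.2} (isOpen_discrete _)).mem_nhds rfl
        filter_upwards [h2] with q hq
        have hq' : q.2 = p.2 := hq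
        rw [hq']
      let c' : (Fin m → S.G) → D → C(S.X, W) := c
      refine ⟨GS.mkc (S := S.prodD D) fun g => ⟨fun p => c' g p.2 p.1, hc _⟩, ?_⟩
      refine funext fun (g : Fin m → S.G) => ?_
      rfl
  have hs := GM.shapiro (S.gm W) D d
  have hcomp : (S.shHom D d).pull W = ((S.gm W).shHom D d).cx.comp j.cx := rfl
  rw [hcomp]
  exact fun m => ⟨(hs m).1.comp (hj m).1, (hs m).2.comp (hj m).2⟩

end GS

end Pool.Agent.BR80
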