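import Pool.Agent.BR80.SG
import Pool.Agent.BR80.ShaGS

/-!
# The columns: cochains on `SL_n(A) × Z × (rational r-frames)`
-/

namespace Pool.Agent.BR80

open Matrix

variable (w : World)

/-- The rational `r`-frames in `F^n`, as matrices with linearly independent columns. -/
def FR (n r : ℕ) : Type := {X : Matrix (Fin n) (Fin r) w.F // LinearIndependent w.F X.col}

instance (n r : ℕ) : TopologicalSpace (FR w n r) := ⊥

instance (n r : ℕ) : DiscreteTopology (FR w n r) := ⟨rfl⟩

variable {w}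

theorem FR.ext' {n r : ℕ} {X Y : FR w n r} (h : X.1 = Y.1) : X = Y := Subtype.ext h

theorem FR.mul_li {n r : ℕ} (g : SL n w.F) (X : FR w n r) :
    LinearIndependent w.F (g.1 * X.1).col := by
  have h1 : LinearMap.ker (Matrix.mulVecLin g.1) = ⊥ := by
    rw [LinearMap.ker_eq_bot']
    intro v hv
    have h2 : g.1⁻¹.mulVec (g.1.mulVec v) = 0 := by
      have : g.1.mulVec v = 0 := hv
      rw [this, Matrix.mulVec_zero]
    rw [Matrix.mulVec_mulVec, Matrix.nonsing_inv_mul _ (by rw [g.2]; exact isUnit_one),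
      Matrix.one_mulVec] at h2
    exact h2
  have h2 := X.2.map' (Matrix.mulVecLin g.1) h1
  have h3 : (g.1 * X.1).col = (Matrix.mulVecLin g.1) ∘ X.1.col := by
    funext j i
    rfl
  rw [h3]
  exact h2

instance (n r : ℕ) : MulAction (SL n w.F) (FR w n r) where
  smul := fun g X => ⟨g.1 * X.1, FR.mul_li g X⟩
  one_smul := fun X => FR.ext' (Matrix.one_mul X.1)
  mul_smul := fun g h X => FR.ext' (Matrix.mul_assoc g.1 h.1 X.1)

theorem FR.smul_val {n r : ℕ} (g : SL n w.F) (X : FR w n r) : (g • X).1 = g.1 * X.1 := rfl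

theorem FR.face_li {n r : ℕ} (j : Fin (r + 1)) (X : FR w n (r + 1)) :
    LinearIndependent w.F (X.1.submatrix id j.succAbove).col := by
  exact X.2.comp j.succAbove Fin.succAbove_right_injective

/-- Omit a vector. -/
def FR.face {n r : ℕ} (j : Fin (r + 1)) (X : FR w n (r + 1)) : FR w n r :=
  ⟨X.1.submatrix id j.succAbove, FR.face_li j X⟩

theorem FR.face_smul {n r : ℕ} (j : Fin (r + 1)) (g : SL n w.F) (X : FR w n (r + 1)) :
    (g • X).face j = g • X.face j := rfl

theorem FR.std_li {n r : ℕ} (c : Fin r → Fin n) (hc : Function.Injective c) :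
    LinearIndependent w.F ((1 : Matrix (Fin n) (Fin n) w.F).submatrix id c).col := by
  have h1 := (Pi.basisFun w.F (Fin n)).linearIndependent.comp c hc
  have h2 : ((1 : Matrix (Fin n) (Fin n) w.F).submatrix id c).col =
      (Pi.basisFun w.F (Fin n)) ∘ c := by
    funext j i
    change (1 : Matrix (Fin n) (Fin n) w.F) i (c j) = (Pi.basisFun w.F (Fin n) (c j)) i
    rw [Pi.basisFun_apply, Matrix.one_apply, Pi.single_apply]
  rw [h2]
  exact h1

/-- The frame `(e_(c 0), e_(c 1), …)`. -/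
def FR.std (w : World) {n r : ℕ} (c : Fin r → Fin n) (hc : Function.Injective c) : FR w n r :=
  ⟨(1 : Matrix (Fin n) (Fin n) w.F).submatrix id c, FR.std_li c hc⟩

/-- The frame of the vectors `e_i`, `i ∈ τ`, in increasing order. -/
def FR.of (w : World) {n : ℕ} (τ : Finset (Fin n)) (r : ℕ) (h : τ.card = r) : FR w n r :=
  FR.std w (τ.orderEmbOfFin h) (τ.orderEmbOfFin h).injective

/-- The frame `e_τ` is fixed by `H_τ(F)`. -/
theorem FR.of_fixed {n : ℕ} (τ : Finset (Fin n)) (r : ℕ) (h : τ.card = r) (g : SL n w.F)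
    (hg : g ∈ Hs w.F τ) : g • FR.of w τ r h = FR.of w τ r h := by
  apply FR.ext'
  rw [FR.smul_val]
  ext i j
  change (g.1 * (1 : Matrix (Fin n) (Fin n) w.F).submatrix id (τ.orderEmbOfFin h)) i j =
    (1 : Matrix (Fin n) (Fin n) w.F) i (τ.orderEmbOfFin h j)
  have h1 : (g.1 * (1 : Matrix (Fin n) (Fin n) w.F).submatrix id (τ.orderEmbOfFin h)) i j =
      (g.1 * (1 : Matrix (Fin n) (Fin n) w.F)) i (τ.orderEmbOfFin h j) := rfl
  rw [h1, Matrix.mul_one]
  exact hg _ (τ.orderEmbOfFin_mem h j) i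

/-- `H_τ(F)` is the stabiliser of `e_τ`. -/
theorem FR.of_stab {n : ℕ} (τ : Finset (Fin n)) (r : ℕ) (h : τ.card = r) :
    MulAction.stabilizer (SL n w.F) (FR.of w τ r h) = Hs w.F τ := by
  ext g
  rw [MulAction.mem_stabilizer_iff]
  refine ⟨fun hg i hi j => ?_, FR.of_fixed τ r h g⟩
  obtain ⟨k, hk⟩ : ∃ k, τ.orderEmbOfFin h k = i := by
    have h1 : i ∈ Set.range (τ.orderEmbOfFin h) := by
      rw [Finset.range_orderEmbOfFin]
      exact hi
    exact h1
  subst hk
  have h2 := congrFun (congrFun (congrArg Subtype.val hg) j) k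
  rw [FR.smul_val] at h2
  have h3 : (g.1 * (FR.of w τ r h).1) j k =
      (g.1 * (1 : Matrix (Fin n) (Fin n) w.F)) j (τ.orderEmbOfFin h k) := rfl
  rw [h3, Matrix.mul_one] at h2
  exact h2

/-- The faces of `e_τ`. -/
theorem FR.face_of {n : ℕ} (τ : Finset (Fin n)) (r : ℕ) (h : τ.card = r + 1) (j : Fin (r + 1))
    (h' : (τ.erase (τ.orderEmbOfFin h j)).card = r) :
    (FR.of w τ (r + 1) h).face j = FR.of w (τ.erase (τ.orderEmbOfFin h j)) r h' := by
  have h1 : (fun k => τ.orderEmbOfFin h (j.succAbove k)) =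
      (τ.erase (τ.orderEmbOfFin h j)).orderEmbOfFin h' := by
    apply Finset.orderEmbOfFin_unique
    · intro k
      rw [Finset.mem_erase]
      refine ⟨fun h2 => Fin.succAbove_ne j k ((τ.orderEmbOfFin h).injective h2),
        τ.orderEmbOfFin_mem h _⟩
    · intro a b hab
      exact (τ.orderEmbOfFin h).strictMono (Fin.strictMono_succAbove j hab)
  apply FR.ext'
  ext a b
  change (1 : Matrix (Fin n) (Fin n) w.F) a (τ.orderEmbOfFin h (j.succAbove b)) =
    (1 : Matrix (Fin n) (Fin n) w.F) a ((τ.erase (τ.orderEmbOfFin h j)).orderEmbOfFin h' b)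
  rw [← h1]

variable (w)

/-- `SL_n(F)` acting on `SL_n(A) × Z`. -/
def gsT (n : ℕ) (Z : Type) [TopologicalSpace Z] : GS where
  G := SL n w.F
  X := SL n w.A × Z
  act := fun g x => (w.toA g * x.1, x.2)
  act_one := fun x => by
    ext : 1
    · simp
    · rfl
  act_mul := fun g h x => by
    ext : 1
    · simp [mul_assoc]
    · rfl
  act_cont := fun g => by fun_prop

/-- `SL_n(F)` acting on `(SL_n(A) × Z) × FR n r`. -/
def gsC (n r : ℕ) (Z : Type) [TopologicalSpace Z] : GS :=
  @GS.prodD (gsT w n Z) (FR w n r) _ _ (inferInstanceAs (MulAction (SL n w.F) (FR w n r)))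

/-- The face maps. -/
def gsFace {n r : ℕ} (j : Fin (r + 1)) (Z : Type) [TopologicalSpace Z] :
    GS.Hom (gsC w n (r + 1) Z) (gsC w n r Z) where
  φ := MonoidHom.id _
  u := ⟨fun x => (x.1, x.2.face j), continuous_fst.prodMk
    ((continuous_of_discreteTopology (f := fun X : FR w n (r + 1) => X.face j)).comp
      continuous_snd)⟩
  eqv := fun _ _ => rfl

/-- The column `r`: the cochains `C^m(SL_n(F), C(SL_n(A) × Z × FR n r, W))`. -/
abbrev colK (n r : ℕ) (Z : Type) [TopologicalSpace Z] : Cx := (gsC w n r Z).co w.W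

/-- The differential `δ = ∑ (-1)^j d_j^*`. -/
def colδ (n r : ℕ) (Z : Type) [TopologicalSpace Z] : Cx.Hom (colK w n r Z) (colK w n (r + 1) Z) :=
  Cx.Hom.lin Finset.univ (fun j : Fin (r + 1) => (-1 : ℤ) ^ (j : ℕ))
    fun j => (gsFace w j Z).pull w.W

theorem colδδ (n r : ℕ) (Z : Type) [TopologicalSpace Z] (m : ℕ) (x : (colK w n r Z).C m) :
    (colδ w n (r + 1) Z).f m ((colδ w n r Z).f m x) = 0 := by
  have h1 : (colδ w n (r + 1) Z).f m ((colδ w n r Z).f m x) =
      ∑ p : Fin (r + 2) × Fin (r + 1), (-1 : ℤ) ^ ((p.1 : ℕ) + (p.2 : ℕ)) •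
        (((gsFace w p.1 Z).pull w.W).f m (((gsFace w p.2 Z).pull w.W).f m x)) := by
    rw [Fintype.sum_prod_type]
    unfold colδ
    rw [Cx.Hom.lin_f]
    refine Finset.sum_congr rfl fun j _ => ?_
    rw [Cx.Hom.lin_f, map_sum, Finset.smul_sum]
    refine Finset.sum_congr rfl fun i _ => ?_
    rw [map_zsmul, smul_smul, pow_add]
  rw [h1]
  refine Finset.sum_involution (fun p _ => (p.1.succAbove p.2, p.2.predAbove p.1)) ?_ ?_ ?_ ?_
  · rintro ⟨j, i⟩ _
    have h2 : ((gsFace w (j.succAbove i) Z).pull w.W).f m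
        (((gsFace w (i.predAbove j) Z).pull w.W).f m x) =
        ((gsFace w j Z).pull w.W).f m (((gsFace w i Z).pull w.W).f m x) := by
      refine GS.co_ext fun g y => ?_
      have h3 : (y.2.face (j.succAbove i)).face (i.predAbove j) = (y.2.face j).face i := by
        apply FR.ext'
        ext a b
        change y.2.1 a ((j.succAbove i).succAbove ((i.predAbove j).succAbove b)) =
          y.2.1 a (j.succAbove (i.succAbove b))
        rw [Fin.succAbove_succAbove_succAbove_predAbove]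
      change GS.ap x g (y.1, (y.2.face (j.succAbove i)).face (i.predAbove j)) =
        GS.ap x g (y.1, (y.2.face j).face i)
      rw [h3]
    change (-1 : ℤ) ^ ((j : ℕ) + (i : ℕ)) • _ +
      (-1 : ℤ) ^ (((j.succAbove i : Fin (r + 2)) : ℕ) + ((i.predAbove j : Fin (r + 1)) : ℕ)) •
        (((gsFace w (j.succAbove i) Z).pull w.W).f m
          (((gsFace w (i.predAbove j) Z).pull w.W).f m x)) = 0
    rw [h2, Fin.neg_one_pow_succAbove_add_predAbove, neg_smul, add_neg_cancel]
  · rintro ⟨j, i⟩ _ _ h2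
    exact Fin.succAbove_ne j i (congrArg Prod.fst h2)
  · intro p _
    exact Finset.mem_univ _
  · rintro ⟨j, i⟩ _
    exact Prod.ext (Fin.succAbove_succAbove_predAbove j i)
      (Fin.predAbove_predAbove_succAbove j i)

/-- The bicomplex of the columns. -/
abbrev biD (n : ℕ) (Z : Type) [TopologicalSpace Z] : BiCx where
  K := fun r => colK w n r Z
  δ := fun r => colδ w n r Z
  δδ := fun r m x => colδδ w n r Z m x

/-- Evaluation: `(x, z') ↦ (x ψ(z'), ζ(z'), X)` for a frame `X` fixed by `K(F)`. -/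
def evG {n r : ℕ} (K : SG w n) {Z Z' : Type} [TopologicalSpace Z] [TopologicalSpace Z']
    (ψ : C(Z', SL n w.A)) (ζ : C(Z', Z)) (X : FR w n r) (hX : ∀ g ∈ K.P, g • X = X) :
    GS.Hom (K.gs Z') (gsC w n r Z) where
  φ := K.P.subtype
  u := ⟨fun x => ((x.1.1 * ψ x.2, ζ x.2), X), by fun_prop⟩
  eqv := fun g x => by
    refine Prod.ext (Prod.ext ?_ rfl) (hX g.1 g.2).symm
    exact mul_assoc _ _ _

/-- The evaluation of cochains. -/
def evC {n r : ℕ} (K : SG w n) {Z Z' : Type} [TopologicalSpace Z] [TopologicalSpace Z']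
    (ψ : C(Z', SL n w.A)) (ζ : C(Z', Z)) (X : FR w n r) (hX : ∀ g ∈ K.P, g • X = X) :
    Cx.Hom (colK w n r Z) (K.co Z') := (evG w K ψ ζ X hX).pull w.W

theorem FR.of_fixedM {n : ℕ} (τ : Finset (Fin n)) (r : ℕ) (h : τ.card = r) :
    ∀ g ∈ (sM w τ).P, g • FR.of w τ r h = FR.of w τ r h :=
  fun g hg => FR.of_fixed τ r h g hg.1

theorem FR.of_fixedH {n : ℕ} (τ : Finset (Fin n)) (r : ℕ) (h : τ.card = r) :
    ∀ g ∈ (sH w τ).P, g • FR.of w τ r h = FR.of w τ r h :=
  fun g hg => FR.of_fixed τ r h g hg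

/-- The evaluation at the frames `e_τ`, with the groups `M_τ`. -/
def evalM (n : ℕ) {Z Z' : Type} [TopologicalSpace Z] [TopologicalSpace Z']
    (ψ : C(Z', SL n w.A)) (ζ : C(Z', Z)) : Eval (biD w n Z) (csM w n Z') where
  f := fun τ r h => evC w (sM w τ) ψ ζ (FR.of w τ r h) (FR.of_fixedM w τ r h)
  comm := by
    intro τ r h m x
    have h1 : (evC w (sM w τ) ψ ζ (FR.of w τ (r + 1) h) (FR.of_fixedM w τ (r + 1) h)).f m
        ((colδ w n r Z).f m x) = ∑ j : Fin (r + 1), (-1 : ℤ) ^ (j : ℕ) •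
        (evC w (sM w τ) ψ ζ (FR.of w τ (r + 1) h) (FR.of_fixedM w τ (r + 1) h)).f m
          (((gsFace w j Z).pull w.W).f m x) := by
      unfold colδ
      rw [Cx.Hom.lin_f, map_sum]
      refine Finset.sum_congr rfl fun j _ => ?_
      rw [map_zsmul]
    change (evC w (sM w τ) ψ ζ (FR.of w τ (r + 1) h) (FR.of_fixedM w τ (r + 1) h)).f m
        ((colδ w n r Z).f m x) = _
    rw [h1]
    refine Fintype.sum_equiv (τ.orderIsoOfFin h).toEquiv _ _ fun j => ?_
    have h2 : (((τ.orderIsoOfFin h).toEquiv j : {i // i ∈ τ}) : Fin n) = τ.orderEmbOfFin h j :=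
      rfl
    have h3 : sgn (τ.orderEmbOfFin h j) τ = (-1 : ℤ) ^ (j : ℕ) := by
      unfold sgn
      have h4 : τ.filter (· < τ.orderEmbOfFin h j) =
          (Finset.univ.filter fun k : Fin (r + 1) => k < j).map
            (τ.orderEmbOfFin h).toEmbedding := by
        ext i
        rw [Finset.mem_filter, Finset.mem_map]
        constructor
        · rintro ⟨hi, hij⟩
          obtain ⟨k, hk⟩ : ∃ k, τ.orderEmbOfFin h k = i := by
            have h5 : i ∈ Set.range (τ.orderEmbOfFin h) := by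
              rw [Finset.range_orderEmbOfFin]
              exact hi
            exact h5
          refine ⟨k, ?_, hk⟩
          rw [Finset.mem_filter]
          refine ⟨Finset.mem_univ _, ?_⟩
          rw [← hk] at hij
          exact (τ.orderEmbOfFin h).lt_iff_lt.mp hij
        · rintro ⟨k, hk, rfl⟩
          rw [Finset.mem_filter] at hk
          exact ⟨τ.orderEmbOfFin_mem h k, (τ.orderEmbOfFin h).strictMono hk.2⟩
      rw [h4, Finset.card_map]
      have h5 : (Finset.univ.filter fun k : Fin (r + 1) => k < j) = Finset.Iio j := by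
        ext k
        simp
      rw [h5, Fin.card_Iio]
    have h6 : (τ.erase (τ.orderEmbOfFin h j)).card = r := by
      rw [Finset.card_erase_of_mem (τ.orderEmbOfFin_mem h j), h]
      rfl
    have h7 : (evC w (sM w τ) ψ ζ (FR.of w τ (r + 1) h) (FR.of_fixedM w τ (r + 1) h)).f m
          (((gsFace w j Z).pull w.W).f m x) =
        ((csM w n Z').res (τ.erase_subset (τ.orderEmbOfFin h j))).f m
          ((evC w (sM w (τ.erase (τ.orderEmbOfFin h j))) ψ ζ
            (FR.of w (τ.erase (τ.orderEmbOfFin h j)) r h6)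
            (FR.of_fixedM w (τ.erase (τ.orderEmbOfFin h j)) r h6)).f m x) := by
      refine GS.co_ext fun g y => ?_
      change GS.ap x _ ((y.1.1 * ψ y.2, ζ y.2), (FR.of w τ (r + 1) h).face j) =
        GS.ap x _ ((y.1.1 * ψ y.2, ζ y.2), FR.of w (τ.erase (τ.orderEmbOfFin h j)) r h6)
      rw [FR.face_of τ r h j h6]
      rfl
    rw [h7]
    change _ = sgn (τ.orderEmbOfFin h j) τ • _
    rw [h3]
    rfl

end Pool.Agent.BR80
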