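import Pool.Agent.BR80.Seg

/-!
# The evaluation of the image of `θ`
-/

namespace Pool.Agent.BR80

open Matrix

variable (w : World)

/-- (E2): the evaluation of `θ(x)`. -/
theorem ev_theta {n r : ℕ} (K : SG w n) {Z Z' : Type} [TopologicalSpace Z] [TopologicalSpace Z']
    (ψ : C(Z', SL n w.A)) (ζ : C(Z', Z)) (X : FR w n r) (hX : ∀ g ∈ K.P, g • X = X)
    (hXA : ∀ g ∈ K.Q, w.mul (g, X.toFF w) = X.toFF w) (m : ℕ)
    (x : (coN w n (w.FF n r × Z)).C m) :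
    (evC w K ψ ζ X hX).f m (((theta w n Z).f r).f m x) =
      (SG.rs (leEmpty w K) Z').f m ((twM w ψ).f m
        ((((sM w ∅).par (eta w ψ ζ X)).pull w.W).f m x)) := by
  refine GS.co_ext fun g y => ?_
  obtain ⟨k, z⟩ := y
  change GS.ap x (fun i => ⟨(g i).1, mem_Ms_empty _⟩) (⟨k.1 * ψ z, mem_Ms_empty _⟩,
      (w.mul ((k.1 * ψ z)⁻¹, X.toFF w), ζ z)) =
    GS.ap x (fun i => ⟨(g i).1, mem_Ms_empty _⟩) (⟨k.1 * ψ z, mem_Ms_empty _⟩,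
      (w.mul ((ψ z)⁻¹, X.toFF w), ζ z))
  have h1 : w.mul ((k.1 * ψ z)⁻¹, X.toFF w) = w.mul ((ψ z)⁻¹, X.toFF w) := by
    have h2 : w.mul ((k.1)⁻¹, X.toFF w) = X.toFF w := hXA _ (K.Q.inv_mem k.2)
    have h3 : w.vec (w.mul ((k.1)⁻¹, X.toFF w)) = w.vec (X.toFF w) := congrArg w.vec h2
    rw [w.vec_mul] at h3
    refine w.vec_inj ?_
    rw [w.vec_mul, w.vec_mul, _root_.mul_inv_rev]
    change ((ψ z)⁻¹).1 * (k.1⁻¹).1 * w.vec (X.toFF w) = _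
    rw [Matrix.mul_assoc, h3]
  rw [h1]

end Pool.Agent.BR80
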