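import Pool.Agent.BR80.E1
import Pool.Agent.BR80.E2

/-!
# The column `0`
-/

namespace Pool.Agent.BR80

open Matrix

variable (w : World)

/-- The column `0` is `V(n; Z)`. -/
def col0G (n : ℕ) (Z : Type) [TopologicalSpace Z] :
    GS.Hom (gsC w n 0 Z) ((sM w (∅ : Finset (Fin n))).gs Z) where
  φ :=
    { toFun := fun g => ⟨g, mem_Ms_empty g⟩
      map_one' := rfl
      map_mul' := fun _ _ => rfl }
  u := ⟨fun x => (⟨x.1.1, mem_Ms_empty x.1.1⟩, x.1.2), by fun_prop⟩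
  eqv := fun _ _ => rfl

/-- The same for the cochains. -/
def col0 (n : ℕ) (Z : Type) [TopologicalSpace Z] : Cx.Hom (coN w n Z) (colK w n 0 Z) :=
  (col0G w n Z).pull w.W

private theorem Col0_FR0 {n : ℕ} (X Y : FR w n 0) : X = Y :=
  FR.ext' (Matrix.ext fun _ j => j.elim0)

/-- The inverse. -/
private def Col0_inv (n : ℕ) (Z : Type) [TopologicalSpace Z] :
    GS.Hom ((sM w (∅ : Finset (Fin n))).gs Z) (gsC w n 0 Z) where
  φ := (sM w (∅ : Finset (Fin n))).P.subtype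
  u := ⟨fun x => ((x.1.1, x.2), FR.of w ∅ 0 rfl), by fun_prop⟩
  eqv := fun g x => Prod.ext rfl (Col0_FR0 w _ _)

theorem col0_qis (n : ℕ) (Z : Type) [TopologicalSpace Z] : (col0 w n Z).Qis := by
  refine GS.Hom.qis (col0G w n Z) (Col0_inv w n Z) ?_ ?_
  · exact GS.Hom.ext' (fun g => rfl) (fun x => rfl)
  · exact GS.Hom.ext' (fun g => rfl) (fun x => Prod.ext rfl (Col0_FR0 w _ _))

/-- The evaluation of the cochains in the column `0`. -/
theorem ev_col0 {n : ℕ} (K : SG w n) {Z Z' : Type} [TopologicalSpace Z] [TopologicalSpace Z']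
    (ψ : C(Z', SL n w.A)) (ζ : C(Z', Z)) (X : FR w n 0) (hX : ∀ g ∈ K.P, g • X = X) (m : ℕ)
    (x : (coN w n Z).C m) :
    (evC w K ψ ζ X hX).f m ((col0 w n Z).f m x) =
      (SG.rs (leEmpty w K) Z').f m ((twM w ψ).f m ((((sM w ∅).par ζ).pull w.W).f m x)) := by
  exact GS.co_ext fun g y => rfl

/-- The evaluation of `δ` of the cochains in the column `0` at a `1`-frame. -/
theorem ev_δcol0 {n : ℕ} (K : SG w n) {Z Z' : Type} [TopologicalSpace Z] [TopologicalSpace Z']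
    (ψ : C(Z', SL n w.A)) (ζ : C(Z', Z)) (X : FR w n 1) (hX : ∀ g ∈ K.P, g • X = X) (m : ℕ)
    (x : (coN w n Z).C m) :
    (evC w K ψ ζ X hX).f m ((colδ w n 0 Z).f m ((col0 w n Z).f m x)) =
      (SG.rs (leEmpty w K) Z').f m ((twM w ψ).f m ((((sM w ∅).par ζ).pull w.W).f m x)) := by
  have h1 : (colδ w n 0 Z).f m ((col0 w n Z).f m x) =
      ((gsFace w 0 Z).pull w.W).f m ((col0 w n Z).f m x) := by
    unfold colδ
    rw [Cx.Hom.lin_f]
    refine (Fin.sum_univ_one _).trans ?_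
    rw [Fin.val_zero, pow_zero, one_smul]
  rw [h1]
  exact GS.co_ext fun g y => rfl

/-- The first obstruction of a class which restricts to zero is zero (Lemma 2). -/
theorem ob_one {n q : ℕ} (hn : 1 < n) (Z : Type) [TopologicalSpace Z] (x : (coN w n Z).C q)
    (hx : x ∈ (coN w n Z).Zg q)
    (h : (SG.rs (w := w) (sM_le (Finset.empty_subset
      {(⟨0, lt_trans one_pos hn⟩ : Fin n)})) Z).f q x ∈ ((sM w _).co Z).Bg q) :
    (colδ w n 0 Z).f q ((col0 w n Z).f q x) ∈ (colK w n 1 Z).Bg q := by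
  have hseg : seg n 1 = {(⟨0, lt_trans one_pos hn⟩ : Fin n)} := by
    ext i
    rw [mem_seg, Finset.mem_singleton, Fin.ext_iff]
    exact Nat.lt_one_iff
  refine (evS_qis w hn Z q).1 _ ((colδ w n 0 Z).map_Zg ((col0 w n Z).map_Zg hx)) ?_
  unfold evS
  rw [ev_δcol0]
  have h' : (SG.rs (w := w) (sM_le (Finset.empty_subset (seg n 1))) Z).f q x ∈
      ((sM w (seg n 1)).co Z).Bg q := by
    rw [hseg]
    exact h
  have hy : (((sM w ∅).par (prZ w Z)).pull w.W).f q x ∈ (coN w n (w.FF n 1 × Z)).Zg q :=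
    Cx.Hom.map_Zg _ hx
  have h1 := lem2 w (seg n 1) ⟨⟨0, lt_trans one_pos hn⟩, mem_seg.2 one_pos⟩ _ (psi0 w hn Z) q _ hy
  have h2 := (((sM w (seg n 1)).par (prZ w (n := n) (r := 1) Z)).pull w.W).map_Bg h'
  have h3 := AddSubgroup.add_mem _ h1 h2
  have e : (((sM w (seg n 1)).par (prZ w (n := n) (r := 1) Z)).pull w.W).f q
      ((SG.rs (w := w) (sM_le (Finset.empty_subset (seg n 1))) Z).f q x) =
      (SG.rs (w := w) (sM_le (Finset.empty_subset (seg n 1))) (w.FF n 1 × Z)).f q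
        ((((sM w ∅).par (prZ w (n := n) (r := 1) Z)).pull w.W).f q x) := rfl
  rw [map_sub, e, sub_add_cancel] at h3
  exact h3

end Pool.Agent.BR80
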