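import Mathlib

/-!
# Cochain complexes of abelian groups in elementary form
-/

namespace Pool.Agent.BR80

/-- A cochain complex of abelian groups. -/
structure Cx where
  /-- the groups -/
  C : ℕ → Type
  [grp : ∀ m, AddCommGroup (C m)]
  /-- the differential -/
  d : ∀ m, C m →+ C (m + 1)
  dd : ∀ m (x : C m), d (m + 1) (d m x) = 0

attribute [instance] Cx.grp

namespace Cx

/-- The cocycles. -/
def Zg (K : Cx) (m : ℕ) : AddSubgroup (K.C m) := (K.d m).ker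

/-- The coboundaries. -/
def Bg (K : Cx) : ∀ m : ℕ, AddSubgroup (K.C m)
  | 0 => ⊥
  | m + 1 => (K.d m).range

variable {K L M : Cx}

theorem mem_Zg {m : ℕ} {x : K.C m} : x ∈ K.Zg m ↔ K.d m x = 0 := Iff.rfl

theorem mem_Bg_zero {x : K.C 0} : x ∈ K.Bg 0 ↔ x = 0 := AddSubgroup.mem_bot

theorem mem_Bg_succ {m : ℕ} {x : K.C (m + 1)} : x ∈ K.Bg (m + 1) ↔ ∃ y, K.d m y = x := Iff.rfl

theorem d_mem_Bg {m : ℕ} (y : K.C m) : K.d m y ∈ K.Bg (m + 1) := ⟨y, rfl⟩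

theorem d_mem_Zg {m : ℕ} (y : K.C m) : K.d m y ∈ K.Zg (m + 1) := K.dd m y

theorem Bg_le_Zg (m : ℕ) : K.Bg m ≤ K.Zg m := by
  cases m with
  | zero => exact bot_le
  | succ m => rintro x ⟨y, rfl⟩; exact K.dd m y

/-- Homomorphisms of complexes. -/
structure Hom (K L : Cx) where
  /-- the homomorphisms in the single degrees -/
  f : ∀ m, K.C m →+ L.C m
  comm : ∀ m (x : K.C m), f (m + 1) (K.d m x) = L.d m (f m x)

theorem Hom.ext' {φ ψ : Hom K L} (h : ∀ m x, φ.f m x = ψ.f m x) : φ = ψ := by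
  cases φ; cases ψ
  congr 1
  funext m
  exact AddMonoidHom.ext (h m)

theorem Hom.map_Zg (φ : Hom K L) {m : ℕ} {x : K.C m} (h : x ∈ K.Zg m) : φ.f m x ∈ L.Zg m := by
  rw [mem_Zg] at h ⊢
  rw [← φ.comm, h, map_zero]

theorem Hom.map_Bg (φ : Hom K L) {m : ℕ} {x : K.C m} (h : x ∈ K.Bg m) : φ.f m x ∈ L.Bg m := by
  cases m with
  | zero => rw [mem_Bg_zero] at h ⊢; rw [h, map_zero]
  | succ m => obtain ⟨y, rfl⟩ := h; exact ⟨φ.f m y, (φ.comm m y).symm⟩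

/-- The identity. -/
def Hom.id (K : Cx) : Hom K K := ⟨fun _ => AddMonoidHom.id _, fun _ _ => rfl⟩

/-- The composition `φ ∘ ψ`. -/
def Hom.comp (φ : Hom L M) (ψ : Hom K L) : Hom K M :=
  ⟨fun m => (φ.f m).comp (ψ.f m), fun m x => by simp [ψ.comm, φ.comm]⟩

/-- Linear combinations. -/
def Hom.lin {ι : Type} (s : Finset ι) (c : ι → ℤ) (φ : ι → Hom K L) : Hom K L :=
  ⟨fun m => ∑ i ∈ s, c i • (φ i).f m, fun m x => by
    simp [AddMonoidHom.finsetSum_apply, (φ _).comm, map_sum, map_zsmul]⟩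

@[simp] theorem Hom.id_f (m : ℕ) (x : K.C m) : (Hom.id K).f m x = x := rfl

@[simp] theorem Hom.comp_f (φ : Hom L M) (ψ : Hom K L) (m : ℕ) (x : K.C m) :
    (φ.comp ψ).f m x = φ.f m (ψ.f m x) := rfl

theorem Hom.lin_f {ι : Type} (s : Finset ι) (c : ι → ℤ) (φ : ι → Hom K L) (m : ℕ) (x : K.C m) :
    (Hom.lin s c φ).f m x = ∑ i ∈ s, c i • (φ i).f m x := by
  simp [Hom.lin, AddMonoidHom.finsetSum_apply]

/-- `φ` is injective on the cohomology in degree `m`. -/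
def Hom.Inj (φ : Hom K L) (m : ℕ) : Prop := ∀ x ∈ K.Zg m, φ.f m x ∈ L.Bg m → x ∈ K.Bg m

/-- `φ` is surjective on the cohomology in degree `m`. -/
def Hom.Surj (φ : Hom K L) (m : ℕ) : Prop := ∀ z ∈ L.Zg m, ∃ x ∈ K.Zg m, z - φ.f m x ∈ L.Bg m

/-- `φ` is an isomorphism on cohomology. -/
def Hom.Qis (φ : Hom K L) : Prop := ∀ m, φ.Inj m ∧ φ.Surj m

theorem Hom.Inj.comp {φ : Hom L M} {ψ : Hom K L} {m : ℕ} (h : φ.Inj m) (h' : ψ.Inj m) :
    (φ.comp ψ).Inj m := fun x hx hb => h' x hx (h _ (ψ.map_Zg hx) hb)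

theorem Hom.Surj.comp {φ : Hom L M} {ψ : Hom K L} {m : ℕ} (h : φ.Surj m) (h' : ψ.Surj m) :
    (φ.comp ψ).Surj m := by
  intro z hz
  obtain ⟨y, hy, hb⟩ := h z hz
  obtain ⟨x, hx, hb'⟩ := h' y hy
  refine ⟨x, hx, ?_⟩
  have := (M.Bg m).add_mem hb (φ.map_Bg hb')
  simpa [map_sub] using this

theorem Hom.Inj.of_comp {φ : Hom L M} {ψ : Hom K L} {m : ℕ} (h : (φ.comp ψ).Inj m) :
    ψ.Inj m := fun x hx hb => h x hx (φ.map_Bg hb)

theorem Hom.Surj.of_comp {φ : Hom L M} {ψ : Hom K L} {m : ℕ} (h : (φ.comp ψ).Surj m) :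
    φ.Surj m := fun z hz => by
  obtain ⟨x, hx, hb⟩ := h z hz
  exact ⟨ψ.f m x, ψ.map_Zg hx, hb⟩

/-- If `φ ∘ ψ` is surjective and `φ` is injective then `ψ` is surjective. -/
theorem Hom.Surj.of_comp_inj {φ : Hom L M} {ψ : Hom K L} {m : ℕ} (h : (φ.comp ψ).Surj m)
    (h' : φ.Inj m) : ψ.Surj m := fun z hz => by
  obtain ⟨x, hx, hb⟩ := h _ (φ.map_Zg hz)
  refine ⟨x, hx, h' _ ((L.Zg m).sub_mem hz (ψ.map_Zg hx)) ?_⟩
  rw [map_sub]
  exact hb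

end Cx

end Pool.Agent.BR80
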