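import Pool.Agent.BR80.SG

/-!
# Density
-/

namespace Pool.Agent.BR80

open Matrix

variable (w : World)

private theorem dens_d0 {S : GS} (f : (S.co w.W).C 0) (g : Fin 1 → S.G) (x : S.X) :
    GS.ap ((S.co w.W).d 0 f) g x =
      GS.ap f Fin.elim0 (S.act (g 0)⁻¹ x) - GS.ap f Fin.elim0 x := by
  rw [GS.ap_d]
  have h2 : ∀ g : Fin 0 → S.G, g = Fin.elim0 := fun g => Subsingleton.elim _ _
  rw [h2 (fun i => g i.succ), sub_eq_add_neg]
  congr 1
  have h3 : ∀ j : Fin (0 + 1), (-1 : ℤ) ^ ((j : ℕ) + 1) •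
      GS.ap f (Fin.contractNth j (· * ·) g) x = -GS.ap f Fin.elim0 x := by
    intro j
    rw [h2 (Fin.contractNth j (· * ·) g)]
    have h4 : (j : ℕ) = 0 := by omega
    rw [h4, zero_add, pow_one, neg_one_zsmul]
  rw [Finset.sum_congr rfl fun j _ => h3 j, Finset.sum_const]
  simp

private theorem dens_cont {n : ℕ} {i j : Fin n} (h : i ≠ j) :
    Continuous fun c : w.A => elt i j h c := by
  refine continuous_induced_rng.2 ?_
  change Continuous fun c : w.A => (1 : Matrix (Fin n) (Fin n) w.A) + Matrix.single i j c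
  refine continuous_const.add (continuous_matrix fun a b => ?_)
  by_cases hab : i = a ∧ j = b
  · simp only [Matrix.single_apply, if_pos hab]
    exact continuous_id
  · simp only [Matrix.single_apply, if_neg hab]
    exact continuous_const

private theorem dens_toA {n : ℕ} {i j : Fin n} (h : i ≠ j) (f : w.F) :
    w.toA (elt i j h f) = elt i j h (algebraMap w.F w.A f) := by
  apply Subtype.ext
  ext a b
  change algebraMap w.F w.A ((1 + Matrix.single i j f : Matrix (Fin n) (Fin n) w.F) a b) =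
    (1 + Matrix.single i j (algebraMap w.F w.A f) : Matrix (Fin n) (Fin n) w.A) a b
  rw [Matrix.add_apply, Matrix.add_apply, map_add]
  congr 1
  · rw [Matrix.one_apply, Matrix.one_apply]
    split_ifs <;> simp
  · rw [Matrix.single_apply, Matrix.single_apply]
    split_ifs <;> simp

/-- `SL_n(F)` is dense in `SL_n(A)` (`World.gen` for a one point space, density of `F` in `A`). -/
theorem dense_toA (n : ℕ) : DenseRange (w.toA : SL n w.F → SL n w.A) := by
  let R : Subgroup (SL n w.A) := (w.toA : SL n w.F →* SL n w.A).range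
  have key : ∀ {i j : Fin n} (h : i ≠ j) (c : w.A), elt i j h c ∈ R.topologicalClosure := by
    intro i j h c
    have h1 : c ∈ closure (Set.range (algebraMap w.F w.A)) := w.dense c
    have h2 : elt i j h c ∈
        closure ((fun c => elt i j h c) '' Set.range (algebraMap w.F w.A)) :=
      image_closure_subset_closure_image (dens_cont w h) ⟨c, h1, rfl⟩
    refine closure_mono ?_ h2
    rintro _ ⟨_, ⟨f, rfl⟩, rfl⟩
    exact ⟨elt i j h f, dens_toA w h f⟩
  let ev : C(Unit, SL n w.A) →* SL n w.A :=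
    { toFun := fun f => f ()
      map_one' := rfl
      map_mul' := fun _ _ => rfl }
  intro a
  have h3 := w.gen n Unit (ContinuousMap.const Unit a)
  have h4 : Subgroup.closure {e : C(Unit, SL n w.A) | ∃ (i j : Fin n) (h : i ≠ j) (c : C(Unit, w.A)),
      ∀ z, e z = elt i j h (c z)} ≤ R.topologicalClosure.comap ev := by
    refine (Subgroup.closure_le _).2 ?_
    rintro e ⟨i, j, h, c, he⟩
    change e () ∈ R.topologicalClosure
    rw [he]
    exact key h (c ())
  exact h4 h3

/-- A continuous function on `SL_n(A) × Z` which is invariant under `SL_n(F)` does not depend on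
the first variable. -/
theorem const_of_inv (n : ℕ) (Z : Type) [TopologicalSpace Z] (f : C(SL n w.A × Z, w.W))
    (h : ∀ (γ : SL n w.F) (x : SL n w.A) (z : Z), f (w.toA γ * x, z) = f (x, z))
    (x y : SL n w.A) (z : Z) : f (x, z) = f (y, z) := by
  have hcl : IsClosed {g : SL n w.A | f (g * x, z) = f (x, z)} :=
    isClosed_eq (by fun_prop) continuous_const
  have h1 : ∀ g, f (g * x, z) = f (x, z) := by
    intro g
    have h2 : g ∈ closure (Set.range (w.toA : SL n w.F → SL n w.A)) := dense_toA w n g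
    refine hcl.closure_subset_iff.2 ?_ h2
    rintro _ ⟨γ, rfl⟩
    exact h γ x z
  have h3 := h1 (y * x⁻¹)
  rw [inv_mul_cancel_right] at h3
  exact h3.symm

/-- The cocycles in degree `0` are the functions of `z`. -/
theorem zero_cocycle (n : ℕ) (Z : Type) [TopologicalSpace Z]
    (f : ((sM w (∅ : Finset (Fin n))).co Z).C 0) :
    f ∈ ((sM w (∅ : Finset (Fin n))).co Z).Zg 0 ↔
      ∃ c : C(Z, w.W), ∀ g x, GS.ap f g x = c x.2 := by
  have h2 : ∀ g : Fin 0 → ((sM w (∅ : Finset (Fin n))).gs Z).G, g = Fin.elim0 :=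
    fun g => Subsingleton.elim _ _
  constructor
  · intro hf
    rw [Cx.mem_Zg] at hf
    let F : C(SL n w.A × Z, w.W) :=
      (GS.ap f Fin.elim0).comp ⟨fun x => (⟨x.1, mem_Ms_empty x.1⟩, x.2), by fun_prop⟩
    have hF : ∀ (γ : SL n w.F) (x : SL n w.A) (z : Z), F (w.toA γ * x, z) = F (x, z) := by
      intro γ x z
      have hγ : γ⁻¹ ∈ (sM w (∅ : Finset (Fin n))).P := mem_Ms_empty _
      have hx : x ∈ (sM w (∅ : Finset (Fin n))).Q := mem_Ms_empty _
      have h1 : (0 : w.W) = GS.ap f Fin.elim0 (((sM w (∅ : Finset (Fin n))).gs Z).act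
          (⟨γ⁻¹, hγ⟩ : (sM w (∅ : Finset (Fin n))).P)⁻¹ (⟨x, hx⟩, z)) -
            GS.ap f Fin.elim0 (⟨x, hx⟩, z) := by
        refine Eq.trans ?_ (dens_d0 w f (fun _ => (⟨γ⁻¹, hγ⟩ :
          (sM w (∅ : Finset (Fin n))).P)) (⟨x, hx⟩, z))
        rw [hf]
        rfl
      have h3 : GS.ap f Fin.elim0 (((sM w (∅ : Finset (Fin n))).gs Z).act
          (⟨γ⁻¹, hγ⟩ : (sM w (∅ : Finset (Fin n))).P)⁻¹ (⟨x, hx⟩, z)) =
            F (w.toA γ * x, z) := by
        change GS.ap f Fin.elim0 _ = GS.ap f Fin.elim0 _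
        congr 1
        refine Prod.ext (Subtype.ext ?_) rfl
        change w.toA (γ⁻¹)⁻¹ * x = w.toA γ * x
        rw [inv_inv]
      rw [h3] at h1
      exact (sub_eq_zero.1 h1.symm)
    refine ⟨F.comp ⟨fun z => (1, z), by fun_prop⟩, fun g x => ?_⟩
    rw [h2 g]
    exact const_of_inv w n Z F hF x.1.1 1 x.2
  · rintro ⟨c, hc⟩
    rw [Cx.mem_Zg]
    refine GS.co_ext fun g x => ?_
    refine (dens_d0 w f g x).trans ?_
    refine sub_eq_zero.2 ?_
    exact (hc Fin.elim0 (((sM w (∅ : Finset (Fin n))).gs Z).act (g 0)⁻¹ x)).trans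
      (hc Fin.elim0 x).symm

/-- The theorem for `n ≤ 2`. -/
theorem thT_small (n : ℕ) (hn : n ≤ 2) : ThT w n := by
  refine ⟨fun q hq => ?_, fun q hq => by omega⟩
  obtain rfl : q = 0 := by omega
  intro h Z _ x hx hf
  obtain ⟨c, hc⟩ := (zero_cocycle w n Z x).1 hx
  rw [Cx.mem_Bg_zero] at hf ⊢
  have h1 : ∀ z, c z = 0 := by
    intro z
    have h2 := congrArg (fun y => GS.ap y Fin.elim0 (1, z)) hf
    exact (hc _ _).symm.trans h2
  refine GS.co_ext fun g y => ?_
  exact (hc g y).trans (h1 y.2)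

end Pool.Agent.BR80
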