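import Pool.Agent.BR80.Col

/-!
# Transitivity on the rational frames
-/

namespace Pool.Agent.BR80

open Matrix

variable (w : World)

/-- Extension to a matrix of determinant `1`. -/
private theorem tra_ex {F : Type} [Field F] {n r : ℕ} (hr : r < n) (X : Matrix (Fin n) (Fin r) F)
    (hX : LinearIndependent F X.col) :
    ∃ g : SL n F, ∀ i j, g.1 i (Fin.castLE hr.le j) = X i j := by
  classical
  let b := Module.Basis.sumExtend hX
  have hb : ∀ j, b (Sum.inl j) = X.col j := fun j => by
    simp only [b, Module.Basis.sumExtend, Module.Basis.reindex_apply, Module.Basis.coe_extend]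
    rfl
  have hfin : Finite (Fin r ⊕ Module.Basis.sumExtendIndex hX) := Module.Finite.finite_basis b
  have hfin2 : Finite (Module.Basis.sumExtendIndex hX) := Finite.sum_right (Fin r)
  have : Fintype (Module.Basis.sumExtendIndex hX) := Fintype.ofFinite _
  have hcard : r + Fintype.card (Module.Basis.sumExtendIndex hX) = n := by
    have h1 := Module.finrank_eq_card_basis b
    rw [Module.finrank_fin_fun, Fintype.card_sum, Fintype.card_fin] at h1
    exact h1.symm
  let e : Fin r ⊕ Module.Basis.sumExtendIndex hX ≃ Fin n :=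
    ((Equiv.refl _).sumCongr (Fintype.equivFin _)).trans (finSumFinEquiv.trans (finCongr hcard))
  have he : ∀ j, e (Sum.inl j) = Fin.castLE hr.le j := fun j => rfl
  let A : Matrix (Fin n) (Fin n) F := Matrix.of fun i k => (b.reindex e k) i
  have hA : LinearIndependent F A.col := by
    have h1 : A.col = b.reindex e := by
      funext k i
      rfl
    rw [h1]
    exact (b.reindex e).linearIndependent
  have hd : IsUnit A.det := (Matrix.isUnit_iff_isUnit_det _).1 (Matrix.linearIndependent_cols_iff_isUnit.1 hA)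
  let v : Fin n → F := fun k => if k = ⟨r, hr⟩ then A.det⁻¹ else 1
  refine ⟨⟨A * Matrix.diagonal v, ?_⟩, fun i j => ?_⟩
  · rw [Matrix.det_mul, Matrix.det_diagonal]
    simp only [v]
    rw [Finset.prod_ite_eq' Finset.univ (⟨r, hr⟩ : Fin n) (fun _ => A.det⁻¹), if_pos (Finset.mem_univ _)]
    exact mul_inv_cancel₀ hd.ne_zero
  · change (A * Matrix.diagonal v) i (Fin.castLE hr.le j) = X i j
    have h2 : v (Fin.castLE hr.le j) = 1 := by
      have h3 : (Fin.castLE hr.le j) ≠ (⟨r, hr⟩ : Fin n) := by
        intro h4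
        have h5 := congrArg Fin.val h4
        simp only [Fin.val_castLE] at h5
        omega
      simp only [v, if_neg h3]
    rw [Matrix.mul_diagonal, h2, mul_one]
    change (b.reindex e (Fin.castLE hr.le j)) i = X i j
    rw [Module.Basis.reindex_apply, ← he, Equiv.symm_apply_apply, hb]
    rfl

/-- `SL_n(F)` acts transitively on the `r`-frames, `r < n`. -/
theorem FR.transitive {n r : ℕ} (hr : r < n) :
    MulAction.IsPretransitive (SL n w.F) (FR w n r) := by
  let E : Matrix (Fin n) (Fin r) w.F := (1 : Matrix (Fin n) (Fin n) w.F).submatrix id (Fin.castLE hr.le)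
  have h1 : ∀ X : FR w n r, ∃ g : SL n w.F, g.1 * E = X.1 := by
    intro X
    obtain ⟨g, hg⟩ := tra_ex hr X.1 X.2
    refine ⟨g, ?_⟩
    ext i j
    rw [Matrix.mul_apply]
    simp only [E, Matrix.submatrix_apply, id, Matrix.one_apply, mul_ite, mul_one, mul_zero,
      Finset.sum_ite_eq', Finset.mem_univ, if_true]
    exact hg i j
  refine ⟨fun X Y => ?_⟩
  obtain ⟨g, hg⟩ := h1 X
  obtain ⟨h, hh⟩ := h1 Y
  refine ⟨h * g⁻¹, FR.ext' ?_⟩
  rw [FR.smul_val, ← hg, ← Matrix.mul_assoc]
  have h2 : (h * g⁻¹).1 * g.1 = h.1 := congrArg Subtype.val (inv_mul_cancel_right h g)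
  rw [h2, hh]

end Pool.Agent.BR80
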