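import Pool.Agent.BR80.Seg
import Pool.Agent.BR80.Tra

/-!
# The universal evaluation is a quasi-isomorphism
-/

namespace Pool.Agent.BR80

open Matrix

variable (w : World)

private theorem E1_mul {n r : ℕ} (g h : SL n w.A) (φ : w.FF n r) :
    w.mul (g * h, φ) = w.mul (g, w.mul (h, φ)) := by
  refine w.vec_inj ?_
  rw [w.vec_mul, w.vec_mul, w.vec_mul, ← Matrix.mul_assoc]
  rfl

private theorem E1_one {n r : ℕ} (φ : w.FF n r) : w.mul (1, φ) = φ := by
  refine w.vec_inj ?_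
  rw [w.vec_mul]
  exact Matrix.one_mul _

private theorem E1_vec_eF {n r : ℕ} (hr : r ≤ n) (a : Fin n) (j : Fin r) :
    w.vec ((eF w hr).toFF w) a j =
      (1 : Matrix (Fin n) (Fin n) w.A) a ((seg n r).orderEmbOfFin (card_seg hr) j) := by
  rw [FR.toFF, w.vec_rat]
  change algebraMap w.F w.A ((1 : Matrix (Fin n) (Fin n) w.F) a
    ((seg n r).orderEmbOfFin (card_seg hr) j)) = _
  rw [Matrix.one_apply, Matrix.one_apply]
  split_ifs
  · exact map_one _
  · exact map_zero _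

private theorem E1_fixed_iff {n r : ℕ} (hr : r ≤ n) (g : SL n w.A) :
    w.mul (g, (eF w hr).toFF w) = (eF w hr).toFF w ↔ g ∈ Hs w.A (seg n r) := by
  have h1 : ∀ a j, w.vec (w.mul (g, (eF w hr).toFF w)) a j =
      g.1 a ((seg n r).orderEmbOfFin (card_seg hr) j) := by
    intro a j
    rw [w.vec_mul, Matrix.mul_apply,
      Finset.sum_eq_single ((seg n r).orderEmbOfFin (card_seg hr) j)]
    · rw [E1_vec_eF, Matrix.one_apply_eq, mul_one]
    · intro b _ hb
      rw [E1_vec_eF, Matrix.one_apply_ne hb, mul_zero]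
    · intro hh
      exact absurd (Finset.mem_univ _) hh
  constructor
  · intro h i hi a
    have hi' : i ∈ Set.range ((seg n r).orderEmbOfFin (card_seg hr)) := by
      rw [Finset.range_orderEmbOfFin]
      exact hi
    obtain ⟨j, rfl⟩ := hi'
    rw [← h1, h, E1_vec_eF]
  · intro h
    refine w.vec_inj (Matrix.ext fun a j => ?_)
    rw [h1, E1_vec_eF]
    exact h _ (Finset.orderEmbOfFin_mem _ _ _) a

private theorem E1_stab {n r : ℕ} (hr : r ≤ n) :
    MulAction.stabilizer (SL n w.F) (eF w hr) = Hs w.F (seg n r) :=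
  FR.of_stab (seg n r) r (card_seg hr)

private theorem E1_mem {n r : ℕ} (hr : r < n) (g : SL n w.A) :
    g * w.sec hr (w.mul (g⁻¹, (eF w hr.le).toFF w)) ∈ Hs w.A (seg n r) := by
  rw [← E1_fixed_iff w hr.le, E1_mul, sec_eF, ← E1_mul, mul_inv_cancel, E1_one]

private instance E1_inst (n r : ℕ) (Z : Type) [TopologicalSpace Z] :
    MulAction (gsT w n Z).G (FR w n r) := inferInstanceAs (MulAction (SL n w.F) (FR w n r))

private def E1_φ {n r : ℕ} (hr : r < n) : (sH w (seg n r)).P →*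
    MulAction.stabilizer (SL n w.F) (eF w hr.le) :=
  Subgroup.inclusion (le_of_eq (E1_stab w hr.le).symm)

private def E1_φ' {n r : ℕ} (hr : r < n) : MulAction.stabilizer (SL n w.F) (eF w hr.le) →*
    (sH w (seg n r)).P := Subgroup.inclusion (le_of_eq (E1_stab w hr.le))

/-- the homeomorphism -/
private def E1_a {n r : ℕ} (hr : r < n) (Z : Type) [TopologicalSpace Z] :
    GS.Hom ((sH w (seg n r)).gs (w.FF n r × Z))
      ((gsT w n Z).res (MulAction.stabilizer (SL n w.F) (eF w hr.le))) where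
  φ := E1_φ w hr
  u := ⟨fun x => (x.1.1 * (w.sec hr x.2.1)⁻¹, x.2.2), by
    have h1 : Continuous fun x : (sH w (seg n r)).Q × (w.FF n r × Z) =>
        x.1.1 * (w.sec hr x.2.1)⁻¹ :=
      (continuous_subtype_val.comp continuous_fst).mul
        ((w.sec hr).continuous.comp (continuous_fst.comp continuous_snd)).inv
    exact h1.prodMk (continuous_snd.comp continuous_snd)⟩
  eqv := fun g x => Prod.ext (mul_assoc _ _ _) rfl

private def E1_b {n r : ℕ} (hr : r < n) (Z : Type) [TopologicalSpace Z] :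
    GS.Hom ((gsT w n Z).res (MulAction.stabilizer (SL n w.F) (eF w hr.le)))
      ((sH w (seg n r)).gs (w.FF n r × Z)) where
  φ := E1_φ' w hr
  u := ⟨fun x => (⟨x.1 * w.sec hr (w.mul (x.1⁻¹, (eF w hr.le).toFF w)), E1_mem w hr x.1⟩,
      (w.mul (x.1⁻¹, (eF w hr.le).toFF w), x.2)), by
    have h1 : Continuous fun x : SL n w.A × Z => w.mul (x.1⁻¹, (eF w hr.le).toFF w) :=
      w.mul.continuous.comp (continuous_fst.inv.prodMk continuous_const)
    exact (Continuous.subtype_mk (continuous_fst.mul ((w.sec hr).continuous.comp h1)) _).prodMk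
      (h1.prodMk continuous_snd)⟩
  eqv := fun g x => by
    have h1 : w.toA g.1 ∈ Hs w.A (seg n r) :=
      toA_mem_Hs w _ (by rw [← E1_stab w hr.le]; exact g.2)
    have h2 : w.mul ((w.toA g.1 * x.1)⁻¹, (eF w hr.le).toFF w) =
        w.mul (x.1⁻¹, (eF w hr.le).toFF w) := by
      rw [_root_.mul_inv_rev, E1_mul]
      congr 2
      exact (E1_fixed_iff w hr.le _).2 (Subgroup.inv_mem _ h1)
    refine Prod.ext (Subtype.ext ?_) (Prod.ext h2 rfl)
    change (w.toA g.1 * x.1) * w.sec hr (w.mul ((w.toA g.1 * x.1)⁻¹, (eF w hr.le).toFF w)) =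
      w.toA g.1 * (x.1 * w.sec hr (w.mul (x.1⁻¹, (eF w hr.le).toFF w)))
    rw [h2, mul_assoc]

private theorem E1_ab {n r : ℕ} (hr : r < n) (Z : Type) [TopologicalSpace Z] :
    (E1_a w hr Z).comp (E1_b w hr Z) = GS.Hom.id _ := by
  refine GS.Hom.ext' (fun g => rfl) fun x => ?_
  refine Prod.ext ?_ rfl
  change x.1 * w.sec hr (w.mul (x.1⁻¹, (eF w hr.le).toFF w)) *
    (w.sec hr (w.mul (x.1⁻¹, (eF w hr.le).toFF w)))⁻¹ = x.1
  rw [mul_inv_cancel_right]

private theorem E1_ba {n r : ℕ} (hr : r < n) (Z : Type) [TopologicalSpace Z] :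
    (E1_b w hr Z).comp (E1_a w hr Z) = GS.Hom.id _ := by
  refine GS.Hom.ext' (fun g => rfl) fun x => ?_
  obtain ⟨h, φ, z⟩ := x
  have h1 : w.mul ((h.1 * (w.sec hr φ)⁻¹)⁻¹, (eF w hr.le).toFF w) = φ := by
    rw [_root_.mul_inv_rev, inv_inv, E1_mul,
      (E1_fixed_iff w hr.le _).2 (Subgroup.inv_mem _ h.2), sec_eF]
  refine Prod.ext (Subtype.ext ?_) (Prod.ext h1 rfl)
  change (h.1 * (w.sec hr φ)⁻¹) *
    w.sec hr (w.mul ((h.1 * (w.sec hr φ)⁻¹)⁻¹, (eF w hr.le).toFF w)) = h.1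
  rw [h1, inv_mul_cancel_right]

/-- (E1): the universal evaluation is a quasi-isomorphism: Shapiro's lemma (`GS.shapiro`,
`FR.transitive`, `FR.of_stab`), the homeomorphism `H_e(A) × FF n r → SL_n(A)`,
`(h, φ) ↦ h s(φ)⁻¹` (inverse `g ↦ (g s(g⁻¹ e), g⁻¹ e)`), and `qisH`. -/
theorem evS_qis {n r : ℕ} (hr : r < n) (Z : Type) [TopologicalSpace Z] : (evS w hr Z).Qis := by
  classical
  have htr : @MulAction.IsPretransitive (gsT w n Z).G (FR w n r) (E1_inst w n r Z).toSMul :=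
    FR.transitive w hr
  have h1 := GS.shapiro (W := w.W) (gsT w n Z) (FR w n r) (eF w hr.le)
  have h2 := GS.Hom.qis (W := w.W) (E1_a w hr Z) (E1_b w hr Z) (E1_ab w hr Z) (E1_ba w hr Z)
  have h3 := qisH w (seg n r) (w.FF n r × Z)
  intro m
  have h4 : (evS w hr Z).f m = ((SG.rs (w := w) (sM_le_sH (seg n r)) (w.FF n r × Z)).comp
      (((E1_a w hr Z).pull w.W).comp
        ((GS.shHom (gsT w n Z) (FR w n r) (eF w hr.le)).pull w.W))).f m := rfl
  have h5 : ((SG.rs (w := w) (sM_le_sH (seg n r)) (w.FF n r × Z)).comp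
      (((E1_a w hr Z).pull w.W).comp
        ((GS.shHom (gsT w n Z) (FR w n r) (eF w hr.le)).pull w.W))).Inj m :=
    (h3 m).1.comp ((h2 m).1.comp (h1 m).1)
  have h6 : ((SG.rs (w := w) (sM_le_sH (seg n r)) (w.FF n r × Z)).comp
      (((E1_a w hr Z).pull w.W).comp
        ((GS.shHom (gsT w n Z) (FR w n r) (eF w hr.le)).pull w.W))).Surj m :=
    (h3 m).2.comp ((h2 m).2.comp (h1 m).2)
  exact ⟨h5, h6⟩

end Pool.Agent.BR80
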