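import Pool.Agent.BR80.E1
import Pool.Agent.BR80.E2

/-!
# The comparison `θ` in cohomology
-/

namespace Pool.Agent.BR80

open Matrix

variable (w : World)

private theorem E3_ev {n r m : ℕ} (hr : r < n) (Z : Type) [TopologicalSpace Z]
    (h : (coN w n (w.FF n r × Z)).C m) :
    (evS w hr Z).f m (((theta w n Z).f r).f m h) =
      (SG.rs (w := w) (sM_le (Finset.empty_subset (seg n r))) (w.FF n r × Z)).f m
        ((twM w (psi0 w hr Z)).f m h) := by
  have h1 := ev_theta w (sM w (seg n r)) (psi0 w hr Z) (prZ w Z) (eF w hr.le)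
    (eF_fixed w hr.le) (toFF_fixed w (seg n r) r (card_seg hr.le)) m h
  have h2 : (((sM w ∅).par (eta w (psi0 w hr Z) (prZ w Z) (eF w hr.le))).pull w.W).f m h = h := by
    refine GS.co_ext fun g y => ?_
    obtain ⟨k, φ, z⟩ := y
    change GS.ap h g (k, (w.mul (((w.sec hr φ)⁻¹)⁻¹, (eF w hr.le).toFF w), z)) =
      GS.ap h g (k, (φ, z))
    rw [inv_inv, sec_eF]
  rw [h2] at h1
  exact h1

/-- If the twists act trivially, a cocycle `x` of the column `r` whose universal evaluation is the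
restriction of `h` is cohomologous to `θ(h)`. -/
theorem theta_of_ev {n r m : ℕ} (hr : r < n) (htw : TwN w n m) (Z : Type) [TopologicalSpace Z]
    (x : (colK w n r Z).C m) (hx : x ∈ (colK w n r Z).Zg m)
    (h : (coN w n (w.FF n r × Z)).C m) (hh : h ∈ (coN w n (w.FF n r × Z)).Zg m)
    (he : (evS w hr Z).f m x - (SG.rs (sM_le (Finset.empty_subset (seg n r)))
      (w.FF n r × Z)).f m h ∈ ((sM w (seg n r)).co (w.FF n r × Z)).Bg m) :
    x - ((theta w n Z).f r).f m h ∈ (colK w n r Z).Bg m := by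
  refine (evS_qis w hr Z m).1 _ (AddSubgroup.sub_mem _ hx (((theta w n Z).f r).map_Zg hh)) ?_
  have h1 := E3_ev w hr Z h
  have h2 := (SG.rs (sM_le (Finset.empty_subset (seg n r))) (w.FF n r × Z)).map_Bg
    (htw (w.FF n r × Z) (psi0 w hr Z) h hh)
  rw [map_sub] at h2 ⊢
  rw [h1]
  have h3 := AddSubgroup.sub_mem _ he h2
  have h4 : ∀ {A : Type} [AddCommGroup A] (a b c : A), a - b - (c - b) = a - c := by
    intro A _ a b c
    abel
  rw [h4] at h3
  exact h3

/-- If moreover the restriction to `M_[r]` is injective, `θ` is injective. -/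
theorem theta_inj {n r m : ℕ} (hr : r < n) (htw : TwN w n m) (Z : Type) [TopologicalSpace Z]
    (hi : (SG.rs (w := w) (sM_le (Finset.empty_subset (seg n r))) (w.FF n r × Z)).Inj m) :
    ((theta w n Z).f r).Inj m := by
  intro h hh hb
  have h1 := (evS w hr Z).map_Bg hb
  rw [E3_ev w hr Z h] at h1
  refine hi h hh ?_
  have h2 := (SG.rs (sM_le (Finset.empty_subset (seg n r))) (w.FF n r × Z)).map_Bg
    (htw (w.FF n r × Z) (psi0 w hr Z) h hh)
  rw [map_sub] at h2
  have h3 := AddSubgroup.sub_mem _ h1 h2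
  rw [sub_sub_cancel] at h3
  exact h3

end Pool.Agent.BR80
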