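import Pool.Agent.BR80.Col

/-!
# The bicomplex `V^m(n; FF n r × Z)` and the comparison `θ`
-/

namespace Pool.Agent.BR80

open Matrix

variable (w : World)

/-- The complex of `V^m(n; Z)`. -/
abbrev coN (n : ℕ) (Z : Type) [TopologicalSpace Z] : Cx := (sM w (∅ : Finset (Fin n))).co Z

/-- The face map of the parameter spaces. -/
def parFace {n r : ℕ} (j : Fin (r + 1)) (Z : Type) [TopologicalSpace Z] :
    C(w.FF n (r + 1) × Z, w.FF n r × Z) := (w.face j).prodMap (ContinuousMap.id Z)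

/-- The differential `δ = ∑ (-1)^j d_j^*`. -/
def eδ (n r : ℕ) (Z : Type) [TopologicalSpace Z] :
    Cx.Hom (coN w n (w.FF n r × Z)) (coN w n (w.FF n (r + 1) × Z)) :=
  Cx.Hom.lin Finset.univ (fun j : Fin (r + 1) => (-1 : ℤ) ^ (j : ℕ))
    fun j => ((sM w ∅).par (parFace w j Z)).pull w.W

private theorem ECol_alt {A : Type} [AddCommGroup A] (r : ℕ) (G : Fin (r + 1 + 1) → Fin (r + 1) → A)
    (hG : ∀ i j, G i j = G (i.succAbove j) (j.predAbove i)) :
    ∑ i : Fin (r + 1 + 1), (-1 : ℤ) ^ (i : ℕ) • ∑ j : Fin (r + 1), (-1 : ℤ) ^ (j : ℕ) • G i j = 0 := by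
  have h1 : ∀ i : Fin (r + 1 + 1), (-1 : ℤ) ^ (i : ℕ) • ∑ j : Fin (r + 1), (-1 : ℤ) ^ (j : ℕ) • G i j =
      ∑ j : Fin (r + 1), (-1 : ℤ) ^ ((i : ℕ) + (j : ℕ)) • G i j := by
    intro i
    rw [Finset.smul_sum]
    exact Finset.sum_congr rfl fun j _ => by rw [smul_smul, pow_add]
  simp_rw [h1]
  rw [← Finset.sum_product']
  have key : ∀ a : Fin (r + 1 + 1) × Fin (r + 1),
      (((a.1.succAbove a.2 : Fin (r + 1 + 1)) : ℕ) + ((a.2.predAbove a.1 : Fin (r + 1)) : ℕ) + 1 =
        (a.1 : ℕ) + (a.2 : ℕ) ∨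
      ((a.1.succAbove a.2 : Fin (r + 1 + 1)) : ℕ) + ((a.2.predAbove a.1 : Fin (r + 1)) : ℕ) =
        (a.1 : ℕ) + (a.2 : ℕ) + 1) ∧
      (a.1.succAbove a.2).succAbove (a.2.predAbove a.1) = a.1 ∧
      (a.2.predAbove a.1).predAbove (a.1.succAbove a.2) = a.2 := by
    rintro ⟨i, j⟩
    rcases lt_or_ge j.castSucc i with h | h
    · have hlt : (j : ℕ) < (i : ℕ) := h
      have e1 : i.succAbove j = j.castSucc := Fin.succAbove_of_castSucc_lt _ _ h
      have e2 : j.predAbove i = i.pred (Fin.ne_zero_of_lt h) := Fin.predAbove_of_castSucc_lt _ _ h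
      simp only
      rw [e1, e2]
      refine ⟨Or.inl ?_, ?_, ?_⟩
      · rw [Fin.val_castSucc, Fin.val_pred]
        omega
      · rw [Fin.succAbove_of_le_castSucc _ _ (by
          rw [Fin.le_def, Fin.val_castSucc, Fin.val_castSucc, Fin.val_pred]
          omega), Fin.succ_pred]
      · rw [Fin.predAbove_of_le_castSucc _ _ (by
          rw [Fin.le_def, Fin.val_castSucc, Fin.val_castSucc, Fin.val_pred]
          omega), Fin.castPred_castSucc]
    · have hle : (i : ℕ) ≤ (j : ℕ) := h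
      have e1 : i.succAbove j = j.succ := Fin.succAbove_of_le_castSucc _ _ h
      have e2 : j.predAbove i = i.castPred (Fin.ne_last_of_lt (lt_of_le_of_lt h
        (Fin.castSucc_lt_last j))) := Fin.predAbove_of_le_castSucc _ _ h
      simp only
      rw [e1, e2]
      refine ⟨Or.inr ?_, ?_, ?_⟩
      · rw [Fin.val_succ, Fin.coe_castPred]
        omega
      · rw [Fin.succAbove_of_castSucc_lt _ _ (by
          rw [Fin.castSucc_castPred, Fin.lt_def, Fin.val_succ]
          omega), Fin.castSucc_castPred]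
      · rw [Fin.predAbove_of_castSucc_lt _ _ (by
          rw [Fin.castSucc_castPred, Fin.lt_def, Fin.val_succ]
          omega), Fin.pred_succ]
  refine Finset.sum_involution (fun a _ => (a.1.succAbove a.2, a.2.predAbove a.1)) ?_ ?_ ?_ ?_
  · intro a _
    simp only
    rw [← hG, ← add_smul]
    have h2 : (-1 : ℤ) ^ ((a.1 : ℕ) + (a.2 : ℕ)) + (-1 : ℤ) ^
        (((a.1.succAbove a.2 : Fin (r + 1 + 1)) : ℕ) + ((a.2.predAbove a.1 : Fin (r + 1)) : ℕ)) = 0 := by
      rcases (key a).1 with h | h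
      · rw [← h, pow_succ]
        ring
      · rw [h, pow_succ]
        ring
    rw [h2, zero_smul]
  · intro a _ _ h
    have h2 : a.1.succAbove a.2 = a.1 := congrArg Prod.fst h
    exact Fin.succAbove_ne a.1 a.2 h2
  · intro a _
    exact Finset.mem_univ _
  · intro a _
    exact Prod.ext (key a).2.1 (key a).2.2

theorem eδδ (n r : ℕ) (Z : Type) [TopologicalSpace Z] (m : ℕ)
    (x : (coN w n (w.FF n r × Z)).C m) : (eδ w n (r + 1) Z).f m ((eδ w n r Z).f m x) = 0 := by
  rw [eδ, Cx.Hom.lin_f]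
  have h1 : ∀ i : Fin (r + 1 + 1),
      (((sM w ∅).par (parFace w i Z)).pull w.W).f m ((eδ w n r Z).f m x) =
      ∑ j : Fin (r + 1), (-1 : ℤ) ^ (j : ℕ) •
        (((sM w ∅).par (parFace w i Z)).pull w.W).f m
          ((((sM w ∅).par (parFace w j Z)).pull w.W).f m x) := by
    intro i
    rw [eδ, Cx.Hom.lin_f, map_sum]
    exact Finset.sum_congr rfl fun j _ => map_zsmul _ _ _
  simp_rw [h1]
  refine ECol_alt r (fun i j => (((sM w ∅).par (parFace w i Z)).pull w.W).f m
      ((((sM w ∅).par (parFace w j Z)).pull w.W).f m x)) fun i j => ?_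
  refine GS.co_ext fun g y => ?_
  change GS.ap x (fun i => g i) (y.1, (w.face j (w.face i y.2.1), y.2.2)) =
    GS.ap x (fun i => g i) (y.1, (w.face (j.predAbove i) (w.face (i.succAbove j) y.2.1), y.2.2))
  have h2 : w.face j (w.face i y.2.1) =
      w.face (j.predAbove i) (w.face (i.succAbove j) y.2.1) := by
    refine w.vec_inj ?_
    rw [w.vec_face, w.vec_face, w.vec_face, w.vec_face]
    refine Matrix.ext fun a b => ?_
    rw [Matrix.submatrix_apply, Matrix.submatrix_apply, Matrix.submatrix_apply,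
      Matrix.submatrix_apply, Fin.succAbove_succAbove_succAbove_predAbove]
  rw [h2]

/-- The bicomplex of the `V^m(n; FF n r × Z)`. -/
abbrev biE (n : ℕ) (Z : Type) [TopologicalSpace Z] : BiCx where
  K := fun r => coN w n (w.FF n r × Z)
  δ := fun r => eδ w n r Z
  δδ := fun r m x => eδδ w n r Z m x

/-- The adelic frame of a rational frame. -/
def FR.toFF {n r : ℕ} (X : FR w n r) : w.FF n r := w.rat X.1 X.2

private theorem ECol_eqv {n r : ℕ} (g : SL n w.F) (x : SL n w.A) (X : FR w n r) :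
    w.mul ((w.toA g * x)⁻¹, (g • X).toFF w) = w.mul (x⁻¹, X.toFF w) := by
  refine w.vec_inj ?_
  rw [w.vec_mul, w.vec_mul, FR.toFF, FR.toFF, w.vec_rat, w.vec_rat, FR.smul_val, Matrix.map_mul]
  have h1 : (w.toA g).1 = g.1.map (algebraMap w.F w.A) := rfl
  have h2 : ((w.toA g * x)⁻¹).1 * (w.toA g).1 = (x⁻¹).1 := by
    have h3 : (w.toA g * x)⁻¹ * w.toA g = x⁻¹ := by group
    exact congrArg Subtype.val h3
  rw [← h1, ← Matrix.mul_assoc, h2]

/-- The map `(x, z, X) ↦ (x, (x⁻¹ X, z))`. -/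
def thG (n r : ℕ) (Z : Type) [TopologicalSpace Z] :
    GS.Hom (gsC w n r Z) ((sM w (∅ : Finset (Fin n))).gs (w.FF n r × Z)) where
  φ :=
    { toFun := fun g => ⟨g, mem_Ms_empty g⟩
      map_one' := rfl
      map_mul' := fun _ _ => rfl }
  u := ⟨fun x => (⟨x.1.1, mem_Ms_empty x.1.1⟩, (w.mul (x.1.1⁻¹, x.2.toFF w), x.1.2)), by
    have h1 : Continuous fun x : (SL n w.A × Z) × FR w n r => x.2.toFF w :=
      (continuous_of_discreteTopology (f := fun X : FR w n r => X.toFF w)).comp continuous_snd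
    have h2 : Continuous fun x : (SL n w.A × Z) × FR w n r => x.1.1⁻¹ :=
      (continuous_fst.comp continuous_fst).inv
    exact ((continuous_fst.comp continuous_fst).subtype_mk _).prodMk
      ((w.mul.continuous.comp (h2.prodMk h1)).prodMk (continuous_snd.comp continuous_fst))⟩
  eqv := by
    rintro g ⟨⟨x, z⟩, X⟩
    refine Prod.ext (Subtype.ext rfl) (Prod.ext ?_ rfl)
    exact ECol_eqv w (show SL n w.F from g) x X

/-- The comparison `θ`. -/
def theta (n : ℕ) (Z : Type) [TopologicalSpace Z] : BiCx.Hom (biE w n Z) (biD w n Z) where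
  f := fun r => (thG w n r Z).pull w.W
  comm := by
    intro r m x
    change ((thG w n (r + 1) Z).pull w.W).f m ((eδ w n r Z).f m x) =
      (colδ w n r Z).f m (((thG w n r Z).pull w.W).f m x)
    rw [eδ, colδ, Cx.Hom.lin_f, Cx.Hom.lin_f, map_sum]
    refine Finset.sum_congr rfl fun j _ => ?_
    rw [map_zsmul]
    congr 1
    refine GS.co_ext fun g y => ?_
    obtain ⟨⟨a, z⟩, X⟩ := y
    change GS.ap x (fun i => ⟨g i, mem_Ms_empty _⟩) (⟨a, mem_Ms_empty a⟩,
        (w.face j (w.mul (a⁻¹, X.toFF w)), z)) =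
      GS.ap x (fun i => ⟨g i, mem_Ms_empty _⟩) (⟨a, mem_Ms_empty a⟩,
        (w.mul (a⁻¹, (X.face j).toFF w), z))
    have h2 : w.face j (w.mul (a⁻¹, X.toFF w)) = w.mul (a⁻¹, (X.face j).toFF w) := by
      refine w.vec_inj ?_
      rw [w.vec_face, w.vec_mul, w.vec_mul, FR.toFF, FR.toFF, w.vec_rat, w.vec_rat]
      refine Matrix.ext fun i k => ?_
      rfl
    rw [h2]

end Pool.Agent.BR80
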