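import Pool.Agent.BR80.Y1

/-!
# The obstruction in the column `2`
-/

namespace Pool.Agent.BR80

open Matrix

variable (w : World)

private theorem Ob2_e1_val {n : ℕ} (i a : Fin n) (b : Fin 1) :
    (e1 w i).1 a b = (1 : Matrix (Fin n) (Fin n) w.F) a i := by
  have h1 : ∀ b : Fin 1, ({i} : Finset (Fin n)).orderEmbOfFin (Finset.card_singleton i) b = i :=
    fun b => Finset.mem_singleton.1 (Finset.orderEmbOfFin_mem _ _ b)
  change (1 : Matrix (Fin n) (Fin n) w.F) a (({i} : Finset (Fin n)).orderEmbOfFin _ b) = _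
  rw [h1]

private theorem Ob2_face {n : ℕ} (hn : 2 < n) (j : Fin 2) (i : Fin n)
    (h : (i : ℕ) + (j : ℕ) = 1) : (eF w hn.le).face j = e1 w i := by
  refine FR.ext' (Matrix.ext fun a b => ?_)
  rw [Ob2_e1_val]
  change (1 : Matrix (Fin n) (Fin n) w.F) a ((seg n 2).orderEmbOfFin (card_seg hn.le)
    (j.succAbove b)) = _
  rw [seg_emb hn.le]
  refine congrArg (fun k => (1 : Matrix (Fin n) (Fin n) w.F) a k) (Fin.ext ?_)
  rw [Fin.val_castLE]
  have hb : b = 0 := Subsingleton.elim _ _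
  subst hb
  fin_cases j
  · have h1 : (i : ℕ) = 1 := by simpa using h
    rw [h1]
    rfl
  · have h1 : (i : ℕ) = 0 := by simpa using h
    rw [h1]
    rfl

/-- For such a cocycle `δ y` is a coboundary. -/
theorem ob_two {n q : ℕ} (hn : 2 < n) (Z : Type) [TopologicalSpace Z]
    (o : Fin n) (ho : (o : ℕ) = 0) (y : (colK w n 1 Z).C q) (hy : y ∈ (colK w n 1 Z).Zg q)
    (h3 : ∀ (j : Fin n) (Z' : Type) [TopologicalSpace Z'] (ψ : C(Z', SL n w.A)) (ζ : C(Z', Z))
        (h : {o} ⊆ ({o, j} : Finset (Fin n))) (h' : {j} ⊆ ({o, j} : Finset (Fin n))),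
        (SG.rs (sM_le h) Z').f q ((ev1 w o ψ ζ).f q y) -
          (SG.rs (sM_le h') Z').f q ((ev1 w j ψ ζ).f q y) ∈ ((sM w {o, j}).co Z').Bg q) :
    (colδ w n 1 Z).f q y ∈ (colK w n 2 Z).Bg q := by
  obtain ⟨j, hj⟩ : ∃ j : Fin n, (j : ℕ) = 1 := ⟨⟨1, by omega⟩, rfl⟩
  have hseg : ({o, j} : Finset (Fin n)) = seg n 2 := by
    ext i
    rw [mem_seg, Finset.mem_insert, Finset.mem_singleton, Fin.ext_iff, Fin.ext_iff, ho, hj]
    omega
  refine (evS_qis w hn Z q).1 _ ((colδ w n 1 Z).map_Zg hy) ?_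
  have h4 := h3 j (w.FF n 2 × Z) (psi0 w hn Z) (prZ w Z)
  rw [hseg] at h4
  have ho' : o ∈ seg n 2 := mem_seg.2 (by omega)
  have hj' : j ∈ seg n 2 := mem_seg.2 (by omega)
  have h5 := h4 (Finset.singleton_subset_iff.2 ho') (Finset.singleton_subset_iff.2 hj')
  have h6 : (evS w hn Z).f q ((colδ w n 1 Z).f q y) =
      (SG.rs (sM_le (Finset.singleton_subset_iff.2 hj')) (w.FF n 2 × Z)).f q
        ((ev1 w j (psi0 w hn Z) (prZ w Z)).f q y) -
      (SG.rs (sM_le (Finset.singleton_subset_iff.2 ho')) (w.FF n 2 × Z)).f q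
        ((ev1 w o (psi0 w hn Z) (prZ w Z)).f q y) := by
    have h7 : (colδ w n 1 Z).f q y = ((gsFace w 0 Z).pull w.W).f q y -
        ((gsFace w 1 Z).pull w.W).f q y := by
      unfold colδ
      rw [Cx.Hom.lin_f]
      refine (Fin.sum_univ_two _).trans ?_
      rw [Fin.val_zero, pow_zero, one_smul, Fin.val_one, pow_one, neg_smul, one_smul,
        sub_eq_add_neg]
    rw [h7, map_sub]
    congr 1
    · refine GS.co_ext fun g x => ?_
      change GS.ap y _ ((x.1.1 * psi0 w hn Z x.2, prZ w Z x.2), (eF w hn.le).face 0) =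
        GS.ap y _ ((x.1.1 * psi0 w hn Z x.2, prZ w Z x.2), e1 w j)
      rw [Ob2_face w hn 0 j (by simpa using hj)]
      rfl
    · refine GS.co_ext fun g x => ?_
      change GS.ap y _ ((x.1.1 * psi0 w hn Z x.2, prZ w Z x.2), (eF w hn.le).face 1) =
        GS.ap y _ ((x.1.1 * psi0 w hn Z x.2, prZ w Z x.2), e1 w o)
      rw [Ob2_face w hn 1 o (by simpa using ho)]
      rfl
  rw [h6]
  have h8 := AddSubgroup.neg_mem _ h5
  rw [neg_sub] at h8
  exact h8

end Pool.Agent.BR80
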