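import Pool.Agent.BR80.CoI
import Pool.Agent.BR80.GS

/-!
# Inner automorphisms act trivially on cohomology
-/

namespace Pool.Agent.BR80

/-- The inner automorphism given by `γ`, with the action of `γ⁻¹` on the module. -/
def GM.inner (S : GM) (γ : S.G) : GM.Hom S S where
  φ := (MulAut.conj γ).toMonoidHom
  u := S.ρ γ⁻¹
  comm := fun g x => by
    change S.ρ γ⁻¹ (S.ρ (γ * g * γ⁻¹) x) = S.ρ g (S.ρ γ⁻¹ x)
    rw [← S.ρ_mul, ← S.ρ_mul]
    congr 2
    group

/-- It acts trivially on the cohomology (dimension shifting: `exists_ses`, `SES.step_id`,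
`coind_acyc`; in degree `0` it is clear). -/
theorem GM.inner_trivial (S : GM) (γ : S.G) (m : ℕ) :
    ∀ x ∈ S.cx.Zg m, (S.inner γ).cx.f m x - x ∈ S.cx.Bg m := by
  induction m generalizing S with
  | zero =>
    intro x hx
    rw [Cx.mem_Bg_zero, sub_eq_zero]
    refine funext fun (g : Fin 0 → S.G) => ?_
    have h1 : S.ρ γ⁻¹ (x fun i => (fun _ : Fin 1 => γ⁻¹) i.succ) + ∑ j : Fin 1,
        (-1 : ℤ) ^ ((j : ℕ) + 1) • x (Fin.contractNth j (· * ·) (fun _ : Fin 1 => γ⁻¹)) = 0 :=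
      congrFun (Cx.mem_Zg.1 hx) (fun _ => γ⁻¹)
    have h0 : ∑ j : Fin 1, (-1 : ℤ) ^ ((j : ℕ) + 1) •
        (x (Fin.contractNth j (· * ·) (fun _ : Fin 1 => γ⁻¹)) : S.M) =
        -(x (Fin.contractNth (0 : Fin 1) (· * ·) (fun _ : Fin 1 => γ⁻¹)) : S.M) := by
      rw [Fin.sum_univ_one]
      exact neg_one_zsmul _
    rw [h0] at h1
    have h2 := add_neg_eq_zero.1 h1
    change S.ρ γ⁻¹ (x fun i => (MulAut.conj γ).toMonoidHom (g i)) = x g
    rw [show (fun i => (MulAut.conj γ).toMonoidHom (g i)) = g from Subsingleton.elim _ _]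
    have h3 : (fun i : Fin 0 => (fun _ : Fin 1 => γ⁻¹) i.succ) = g := Subsingleton.elim _ _
    have h4 : Fin.contractNth (0 : Fin 1) (· * ·) (fun _ : Fin 1 => γ⁻¹) = g :=
      Subsingleton.elim _ _
    rw [h3, h4] at h2
    exact h2
  | succ m ih =>
    obtain ⟨s, hi, hp⟩ := S.exists_ses
    refine s.step_id (S.inner γ).cx ((GM.coind S.G S.M).inner γ).cx (S.quo.inner γ).cx ?_ ?_ m
      (ih S.quo γ) (GM.coind_acyc S.G S.M m)
    · intro m x
      refine funext fun (g : Fin m → S.G) => ?_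
      have e1 := hi m ((S.inner γ).cx.f m x) g
      have e3 := hi m x (fun i => γ * g i * γ⁻¹)
      refine Eq.trans ?_ e1.symm
      refine Eq.trans (congrArg (fun F : S.G → S.M => fun y => F (y * γ⁻¹)) e3) ?_
      funext y
      exact S.ρ_mul y γ⁻¹ _
    · intro m y
      refine funext fun (g : Fin m → S.G) => ?_
      have e1 := hp m (((GM.coind S.G S.M).inner γ).cx.f m y) g
      have e3 := hp m y (fun i => γ * g i * γ⁻¹)
      refine Eq.trans ?_ e1.symm
      exact congrArg (fun q => S.quo.ρ γ⁻¹ q) e3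

/-- The same for a group acting on a space. -/
def GS.inner (S : GS) (γ : S.G) : GS.Hom S S where
  φ := (MulAut.conj γ).toMonoidHom
  u := ⟨S.act γ, S.act_cont γ⟩
  eqv := fun g x => by
    change S.act γ (S.act g x) = S.act (γ * g * γ⁻¹) (S.act γ x)
    rw [← S.act_mul, ← S.act_mul]
    congr 1
    group

theorem GS.inner_trivial (W : Type) [AddCommGroup W] [TopologicalSpace W] [IsTopologicalAddGroup W]
    (S : GS) (γ : S.G) (m : ℕ) :
    ∀ x ∈ (S.co W).Zg m, ((S.inner γ).pull W).f m x - x ∈ (S.co W).Bg m := by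
  intro x hx
  have h := GM.inner_trivial (S.gm W) γ m x hx
  have h1 : ((S.inner γ).pull W).f m x = ((S.gm W).inner γ).cx.f m x := by
    refine GS.co_ext fun g z => ?_
    change GS.ap x (fun i => γ * g i * γ⁻¹) (S.act γ z) =
      GS.ap x (fun i => γ * g i * γ⁻¹) (S.act γ⁻¹⁻¹ z)
    rw [inv_inv]
  rw [h1]
  exact h

end Pool.Agent.BR80
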