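import Pool.Agent.BR80.SG

/-!
# Transport: the group `M_τ` is `SL_m`, `m = n - |τ|`
-/

namespace Pool.Agent.BR80

open Matrix

/-! ### Two mutually inverse morphisms from a bijective one -/

private theorem Trans_qis_of_bij (W : Type) [AddCommGroup W] [TopologicalSpace W]
    [IsTopologicalAddGroup W] {S T : GS} (a : GS.Hom S T) (h1 : Function.Bijective a.φ)
    (v : C(T.X, S.X)) (h2 : ∀ x, v (a.u x) = x) (h3 : ∀ y, a.u (v y) = y) :
    (a.pull W).Qis := by
  let e : S.G ≃* T.G := MulEquiv.ofBijective a.φ h1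
  have he : ∀ g, a.φ (e.symm g) = g := fun g => e.apply_symm_apply g
  have he' : ∀ g, e.symm (a.φ g) = g := fun g => e.symm_apply_apply g
  refine GS.Hom.qis a ⟨e.symm.toMonoidHom, v, fun g x => ?_⟩ ?_ ?_
  · change v (T.act g x) = S.act (e.symm g) (v x)
    have h4 := a.eqv (e.symm g) (v x)
    rw [he, h3] at h4
    rw [← h4, h2]
  · exact GS.Hom.ext' he h3
  · exact GS.Hom.ext' he' h2

section phi

variable {m n : ℕ} {τ : Finset (Fin n)}

/-- The embedding of `SL_m` in `SL_n`. -/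
private def Trans_phi (R : Type) [CommRing R] (e : Fin m ⊕ {i // i ∈ τ} ≃ Fin n) :
    SL m R →* SL n R where
  toFun g := ⟨(fromBlocks g.1 0 0 1).submatrix e.symm e.symm, by
    rw [det_submatrix_equiv_self, det_fromBlocks_zero₂₁, g.2, det_one, one_mul]⟩
  map_one' := Subtype.ext (by
    change (fromBlocks (1 : Matrix (Fin m) (Fin m) R) 0 0 1).submatrix e.symm e.symm = 1
    rw [fromBlocks_one, submatrix_one_equiv])
  map_mul' := fun g h => Subtype.ext (by
    change (fromBlocks (g.1 * h.1) 0 0 1).submatrix e.symm e.symm =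
      (fromBlocks g.1 0 0 1).submatrix e.symm e.symm *
        (fromBlocks h.1 0 0 1).submatrix e.symm e.symm
    rw [submatrix_mul_equiv, fromBlocks_multiply]
    simp)

private theorem Trans_phi_ll {R : Type} [CommRing R] (e : Fin m ⊕ {i // i ∈ τ} ≃ Fin n)
    (g : SL m R) (a b : Fin m) :
    (Trans_phi R e g).1 (e (Sum.inl a)) (e (Sum.inl b)) = g.1 a b := by
  simp [Trans_phi]

private theorem Trans_phi_lr {R : Type} [CommRing R] (e : Fin m ⊕ {i // i ∈ τ} ≃ Fin n)
    (g : SL m R) (a : Fin m) (b : {i // i ∈ τ}) :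
    (Trans_phi R e g).1 (e (Sum.inl a)) (e (Sum.inr b)) = 0 := by
  simp [Trans_phi]

private theorem Trans_phi_rl {R : Type} [CommRing R] (e : Fin m ⊕ {i // i ∈ τ} ≃ Fin n)
    (g : SL m R) (a : {i // i ∈ τ}) (b : Fin m) :
    (Trans_phi R e g).1 (e (Sum.inr a)) (e (Sum.inl b)) = 0 := by
  simp [Trans_phi]

private theorem Trans_phi_rr {R : Type} [CommRing R] (e : Fin m ⊕ {i // i ∈ τ} ≃ Fin n)
    (g : SL m R) (a b : {i // i ∈ τ}) :
    (Trans_phi R e g).1 (e (Sum.inr a)) (e (Sum.inr b)) =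
      (1 : Matrix {i // i ∈ τ} {i // i ∈ τ} R) a b := by
  simp [Trans_phi]

private theorem Trans_phi_cont (R : Type) [CommRing R] [TopologicalSpace R]
    [IsTopologicalRing R] (e : Fin m ⊕ {i // i ∈ τ} ≃ Fin n) :
    Continuous (Trans_phi R e) := by
  refine Continuous.subtype_mk ?_ _
  exact (Continuous.matrix_fromBlocks continuous_subtype_val continuous_const continuous_const
    continuous_const).matrix_submatrix _ _

private theorem Trans_phi_inj {R : Type} [CommRing R] (e : Fin m ⊕ {i // i ∈ τ} ≃ Fin n) :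
    Function.Injective (Trans_phi R e) := by
  intro g h hgh
  refine Subtype.ext ?_
  ext a b
  rw [← Trans_phi_ll e g, ← Trans_phi_ll e h, hgh]

/-- The equivalence sends the elements of `τ` to themselves. -/
private def Trans_Good (e : Fin m ⊕ {i // i ∈ τ} ≃ Fin n) : Prop :=
  ∀ i : {i // i ∈ τ}, e (Sum.inr i) = i.1

private theorem Trans_notMem {e : Fin m ⊕ {i // i ∈ τ} ≃ Fin n} (he : Trans_Good e) (a : Fin m) :
    e (Sum.inl a) ∉ τ := by
  intro h
  have h1 : e (Sum.inr ⟨_, h⟩) = e (Sum.inl a) := he ⟨_, h⟩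
  have h2 := e.injective h1
  exact absurd h2 (by simp)

private theorem Trans_blocks {R : Type} [CommRing R] {e : Fin m ⊕ {i // i ∈ τ} ≃ Fin n}
    (he : Trans_Good e) {g : SL n R} (hg : g ∈ Ms R τ) :
    g.1.submatrix e e =
      fromBlocks (g.1.submatrix (fun a => e (Sum.inl a)) fun a => e (Sum.inl a)) 0 0 1 := by
  ext (a | a) (b | b)
  · rfl
  · change g.1 (e (Sum.inl a)) (e (Sum.inr b)) = 0
    rw [he b, hg.1 b.1 b.2, one_apply_ne]
    intro h
    exact Trans_notMem he a (h ▸ b.2)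
  · change g.1 (e (Sum.inr a)) (e (Sum.inl b)) = 0
    rw [he a, hg.2 a.1 a.2, one_apply_ne]
    intro h
    exact Trans_notMem he b (h ▸ a.2)
  · change g.1 (e (Sum.inr a)) (e (Sum.inr b)) = (1 : Matrix {i // i ∈ τ} {i // i ∈ τ} R) a b
    rw [he b, he a, hg.1 b.1 b.2]
    by_cases hab : a = b
    · subst hab
      simp
    · rw [one_apply_ne hab, one_apply_ne]
      intro h
      exact hab (Subtype.ext h)

/-- The inverse map. -/
private def Trans_psi (R : Type) [CommRing R] {e : Fin m ⊕ {i // i ∈ τ} ≃ Fin n}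
    (he : Trans_Good e) (g : {g : SL n R // g ∈ Ms R τ}) : SL m R :=
  ⟨g.1.1.submatrix (fun a => e (Sum.inl a)) fun a => e (Sum.inl a), by
    have h1 := congrArg Matrix.det (Trans_blocks he g.2)
    rw [det_submatrix_equiv_self, det_fromBlocks_zero₂₁, det_one, mul_one, g.1.2] at h1
    exact h1.symm⟩

private theorem Trans_phi_psi {R : Type} [CommRing R] {e : Fin m ⊕ {i // i ∈ τ} ≃ Fin n}
    (he : Trans_Good e) (g : {g : SL n R // g ∈ Ms R τ}) :
    Trans_phi R e (Trans_psi R he g) = g.1 := by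
  refine Subtype.ext ?_
  change (fromBlocks (g.1.1.submatrix (fun a => e (Sum.inl a)) fun a => e (Sum.inl a))
    0 0 1).submatrix e.symm e.symm = g.1.1
  rw [← Trans_blocks he g.2, submatrix_submatrix]
  simp

private theorem Trans_psi_phi {R : Type} [CommRing R] {e : Fin m ⊕ {i // i ∈ τ} ≃ Fin n}
    (he : Trans_Good e) (g : SL m R) (h : Trans_phi R e g ∈ Ms R τ) :
    Trans_psi R he ⟨Trans_phi R e g, h⟩ = g :=
  Trans_phi_inj e (Trans_phi_psi he _)

private theorem Trans_psi_cont (R : Type) [CommRing R] [TopologicalSpace R]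
    [IsTopologicalRing R] {e : Fin m ⊕ {i // i ∈ τ} ≃ Fin n} (he : Trans_Good e) :
    Continuous (Trans_psi R he) := by
  refine Continuous.subtype_mk ?_ _
  exact (continuous_subtype_val.comp continuous_subtype_val).matrix_submatrix _ _

private theorem Trans_mem_iff {R : Type} [CommRing R] {e : Fin m ⊕ {i // i ∈ τ} ≃ Fin n}
    (he : Trans_Good e) {σ : Finset (Fin m)} {τ' : Finset (Fin n)}
    (h : ∀ i, i ∈ τ' ↔ i ∈ τ ∨ ∃ k ∈ σ, e (Sum.inl k) = i) (g : SL m R) :
    Trans_phi R e g ∈ Ms R τ' ↔ g ∈ Ms R σ := by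
  have hone : ∀ s t : Fin m ⊕ {i // i ∈ τ}, (1 : Matrix (Fin n) (Fin n) R) (e s) (e t) =
      (1 : Matrix (Fin m ⊕ {i // i ∈ τ}) (Fin m ⊕ {i // i ∈ τ}) R) s t := by
    intro s t
    by_cases hst : s = t
    · subst hst
      rw [one_apply_eq, one_apply_eq]
    · rw [one_apply_ne hst, one_apply_ne fun h => hst (e.injective h)]
  constructor
  · intro hg
    constructor
    · intro i hi j
      have h1 := hg.1 (e (Sum.inl i)) ((h _).2 (Or.inr ⟨i, hi, rfl⟩)) (e (Sum.inl j))
      rw [Trans_phi_ll, hone] at h1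
      rw [h1]
      by_cases hij : j = i
      · subst hij
        rw [one_apply_eq, one_apply_eq]
      · rw [one_apply_ne hij, one_apply_ne fun h => hij (Sum.inl_injective h)]
    · intro i hi j
      have h1 := hg.2 (e (Sum.inl i)) ((h _).2 (Or.inr ⟨i, hi, rfl⟩)) (e (Sum.inl j))
      rw [Trans_phi_ll, hone] at h1
      rw [h1]
      by_cases hij : i = j
      · subst hij
        rw [one_apply_eq, one_apply_eq]
      · rw [one_apply_ne hij, one_apply_ne fun h => hij (Sum.inl_injective h)]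
  · intro hg
    constructor
    · intro i hi j
      obtain ⟨t, rfl⟩ := e.surjective j
      rcases (h i).1 hi with hi' | ⟨k, hk, rfl⟩
      · obtain ⟨s, rfl⟩ : ∃ s : {i // i ∈ τ}, e (Sum.inr s) = i := ⟨⟨i, hi'⟩, he ⟨i, hi'⟩⟩
        rw [hone]
        rcases t with t | t
        · rw [Trans_phi_lr, one_apply_ne (by simp)]
        · rw [Trans_phi_rr]
          by_cases hst : t = s
          · subst hst
            rw [one_apply_eq, one_apply_eq]
          · rw [one_apply_ne hst, one_apply_ne fun h => hst (Sum.inr_injective h)]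
      · rw [hone]
        rcases t with t | t
        · rw [Trans_phi_ll, hg.1 k hk]
          by_cases hst : t = k
          · subst hst
            rw [one_apply_eq, one_apply_eq]
          · rw [one_apply_ne hst, one_apply_ne fun h => hst (Sum.inl_injective h)]
        · rw [Trans_phi_rl, one_apply_ne (by simp)]
    · intro i hi j
      obtain ⟨t, rfl⟩ := e.surjective j
      rcases (h i).1 hi with hi' | ⟨k, hk, rfl⟩
      · obtain ⟨s, rfl⟩ : ∃ s : {i // i ∈ τ}, e (Sum.inr s) = i := ⟨⟨i, hi'⟩, he ⟨i, hi'⟩⟩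
        rw [hone]
        rcases t with t | t
        · rw [Trans_phi_rl, one_apply_ne (by simp)]
        · rw [Trans_phi_rr]
          by_cases hst : s = t
          · subst hst
            rw [one_apply_eq, one_apply_eq]
          · rw [one_apply_ne hst, one_apply_ne fun h => hst (Sum.inr_injective h)]
      · rw [hone]
        rcases t with t | t
        · rw [Trans_phi_ll, hg.2 k hk]
          by_cases hst : k = t
          · subst hst
            rw [one_apply_eq, one_apply_eq]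
          · rw [one_apply_ne hst, one_apply_ne fun h => hst (Sum.inl_injective h)]
        · rw [Trans_phi_lr, one_apply_ne (by simp)]

private theorem Trans_Ms_mono {R : Type} [CommRing R] {σ τ : Finset (Fin n)} (h : σ ⊆ τ)
    {g : SL n R} (hg : g ∈ Ms R τ) : g ∈ Ms R σ :=
  ⟨fun i hi => hg.1 i (h hi), fun i hi => hg.2 i (h hi)⟩

private theorem Trans_map {R S : Type} [CommRing R] [CommRing S] (f : R →+* S)
    (e : Fin m ⊕ {i // i ∈ τ} ≃ Fin n) (g : SL m R) :
    SpecialLinearGroup.map f (Trans_phi R e g) =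
      Trans_phi S e (SpecialLinearGroup.map f g) := by
  refine Subtype.ext ?_
  change ((fromBlocks g.1 0 0 1).submatrix e.symm e.symm).map f =
    (fromBlocks (g.1.map f) 0 0 1).submatrix e.symm e.symm
  rw [← submatrix_map, fromBlocks_map]
  simp

private theorem Trans_exists_good (τ : Finset (Fin n)) (hm : τ.card + m = n) :
    ∃ e : Fin m ⊕ {i // i ∈ τ} ≃ Fin n, Trans_Good e := by
  have h1 : Fintype.card {i : Fin n // i ∉ τ} = m := by
    rw [Fintype.card_subtype_compl, Fintype.card_fin, Fintype.card_coe]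
    omega
  let e0 : Fin m ≃ {i : Fin n // i ∉ τ} := (Fintype.equivFinOfCardEq h1).symm
  let e1 : Fin m ⊕ {i // i ∈ τ} ≃ {i // i ∈ τ} ⊕ {i // i ∉ τ} :=
    (Equiv.sumComm _ _).trans (Equiv.sumCongr (Equiv.refl _) e0)
  refine ⟨e1.trans (Equiv.sumCompl fun i => i ∈ τ), fun i => ?_⟩
  simp [e1]

private theorem Trans_exists_good' (τ : Finset (Fin n)) (hm : τ.card + m = n) (j : Fin n)
    (hj : j ∉ τ) : ∃ (h0 : 0 < m) (e : Fin m ⊕ {i // i ∈ τ} ≃ Fin n), Trans_Good e ∧
      e (Sum.inl ⟨0, h0⟩) = j := by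
  obtain ⟨e, he⟩ := Trans_exists_good τ hm
  obtain ⟨s, hs⟩ := e.surjective j
  rcases s with k | k
  · have h0 : 0 < m := lt_of_le_of_lt (Nat.zero_le _) k.2
    refine ⟨h0, (Equiv.sumCongr (Equiv.swap ⟨0, h0⟩ k) (Equiv.refl _)).trans e, fun i => ?_, ?_⟩
    · exact he i
    · change e (Sum.inl (Equiv.swap ⟨0, h0⟩ k ⟨0, h0⟩)) = j
      rw [Equiv.swap_apply_left, hs]
  · exact absurd ((he k).symm.trans hs ▸ k.2) hj

end phi

variable (w : World) {n : ℕ}

/-- The morphism from `M_σ` in `SL_m` to `M_τ'` in `SL_n`. -/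
private def Trans_hom {m : ℕ} {τ : Finset (Fin n)} {e : Fin m ⊕ {i // i ∈ τ} ≃ Fin n}
    (he : Trans_Good e) {σ : Finset (Fin m)} {τ' : Finset (Fin n)}
    (h : ∀ i, i ∈ τ' ↔ i ∈ τ ∨ ∃ k ∈ σ, e (Sum.inl k) = i) (Z : Type) [TopologicalSpace Z] :
    GS.Hom ((sM w σ).gs Z) ((sM w τ').gs Z) where
  φ :=
    { toFun := fun g => ⟨Trans_phi w.F e g.1, (Trans_mem_iff he h g.1).2 g.2⟩
      map_one' := Subtype.ext (map_one (Trans_phi w.F e))
      map_mul' := fun g g' => Subtype.ext (map_mul (Trans_phi w.F e) g.1 g'.1) }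
  u := ⟨fun x => (⟨Trans_phi w.A e x.1.1, (Trans_mem_iff he h x.1.1).2 x.1.2⟩, x.2),
    (Continuous.subtype_mk ((Trans_phi_cont w.A e).comp
      (continuous_subtype_val.comp continuous_fst)) _).prodMk continuous_snd⟩
  eqv := fun g x => by
    refine Prod.ext (Subtype.ext ?_) rfl
    change Trans_phi w.A e (w.toA g.1 * x.1.1) =
      w.toA (Trans_phi w.F e g.1) * Trans_phi w.A e x.1.1
    rw [map_mul, Trans_map]

private theorem Trans_hom_qis {m : ℕ} {τ : Finset (Fin n)} {e : Fin m ⊕ {i // i ∈ τ} ≃ Fin n}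
    (he : Trans_Good e) {σ : Finset (Fin m)} {τ' : Finset (Fin n)}
    (h : ∀ i, i ∈ τ' ↔ i ∈ τ ∨ ∃ k ∈ σ, e (Sum.inl k) = i) (Z : Type) [TopologicalSpace Z] :
    ((Trans_hom w he h Z).pull w.W).Qis := by
  have hsub : τ ⊆ τ' := fun i hi => (h i).2 (Or.inl hi)
  refine Trans_qis_of_bij w.W (Trans_hom w he h Z) ⟨?_, ?_⟩
    ⟨fun y => (⟨Trans_psi w.A he ⟨y.1.1, Trans_Ms_mono hsub y.1.2⟩, ?_⟩, y.2), ?_⟩ ?_ ?_
  · intro g g' hgg
    exact Subtype.ext (Trans_phi_inj e (congrArg Subtype.val hgg))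
  · intro g
    refine ⟨⟨Trans_psi w.F he ⟨g.1, Trans_Ms_mono hsub g.2⟩, ?_⟩, ?_⟩
    · refine (Trans_mem_iff he h _).1 ?_
      rw [Trans_phi_psi]
      exact g.2
    · exact Subtype.ext (Trans_phi_psi he _)
  · refine (Trans_mem_iff he h _).1 ?_
    rw [Trans_phi_psi]
    exact y.1.2
  · refine (Continuous.subtype_mk ?_ _).prodMk continuous_snd
    refine (Trans_psi_cont w.A he).comp ?_
    exact Continuous.subtype_mk (continuous_subtype_val.comp continuous_fst) _
  · intro x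
    exact Prod.ext (Subtype.ext (Trans_psi_phi he x.1.1 _)) rfl
  · intro y
    exact Prod.ext (Subtype.ext (Trans_phi_psi he _)) rfl

/-- The square of the restrictions and of the transports. -/
private theorem Trans_square {m : ℕ} {τ : Finset (Fin n)} {e : Fin m ⊕ {i // i ∈ τ} ≃ Fin n}
    (he : Trans_Good e) {σ : Finset (Fin m)} {τ' : Finset (Fin n)}
    (h : ∀ i, i ∈ τ' ↔ i ∈ τ ∨ ∃ k ∈ σ, e (Sum.inl k) = i)
    (h' : ∀ i, i ∈ τ ↔ i ∈ τ ∨ ∃ k ∈ (∅ : Finset (Fin m)), e (Sum.inl k) = i)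
    (hsub : τ ⊆ τ') (Z : Type) [TopologicalSpace Z] :
    ((Trans_hom w he h Z).pull w.W).comp (SG.rs (w := w) (sM_le hsub) Z) =
      (SG.rs (w := w) (sM_le (Finset.empty_subset σ)) Z).comp
        ((Trans_hom w he h' Z).pull w.W) := rfl

private theorem Trans_h' {m : ℕ} {τ : Finset (Fin n)} (e : Fin m ⊕ {i // i ∈ τ} ≃ Fin n) :
    ∀ i, i ∈ τ ↔ i ∈ τ ∨ ∃ k ∈ (∅ : Finset (Fin m)), e (Sum.inl k) = i := by
  intro i
  simp

/-- Injectivity of the restriction from `M_τ` to `M_(τ + j)`. -/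
theorem inj_trans {m q : ℕ} (h : InjN w m q) (τ : Finset (Fin n)) (hm : τ.card + m = n)
    (j : Fin n) (hj : j ∉ τ) (Z : Type) [TopologicalSpace Z] :
    (SG.rs (w := w) (sM_le (Finset.subset_insert j τ)) Z).Inj q := by
  obtain ⟨h0, e, he, hej⟩ := Trans_exists_good' τ hm j hj
  have hh : ∀ i, i ∈ insert j τ ↔
      i ∈ τ ∨ ∃ k ∈ ({⟨0, h0⟩} : Finset (Fin m)), e (Sum.inl k) = i := by
    intro i
    rw [Finset.mem_insert, or_comm]
    simp only [Finset.mem_singleton, exists_eq_left, hej]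
    constructor
    · rintro (h | h)
      · exact Or.inl h
      · exact Or.inr h.symm
    · rintro (h | h)
      · exact Or.inl h
      · exact Or.inr h.symm
  have h1 := (h h0 Z).comp ((Trans_hom_qis w he (Trans_h' e) Z) q).1
  rw [← Trans_square w he hh (Trans_h' e) (Finset.subset_insert j τ) Z] at h1
  exact h1.of_comp

/-- Surjectivity of the restriction from `M_τ` to `M_(τ + j)`. -/
theorem sur_trans {m q : ℕ} (h : SurN w m q) (τ : Finset (Fin n)) (hm : τ.card + m = n)
    (j : Fin n) (hj : j ∉ τ) (Z : Type) [TopologicalSpace Z] :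
    (SG.rs (w := w) (sM_le (Finset.subset_insert j τ)) Z).Surj q := by
  obtain ⟨h0, e, he, hej⟩ := Trans_exists_good' τ hm j hj
  have hh : ∀ i, i ∈ insert j τ ↔
      i ∈ τ ∨ ∃ k ∈ ({⟨0, h0⟩} : Finset (Fin m)), e (Sum.inl k) = i := by
    intro i
    rw [Finset.mem_insert, or_comm]
    simp only [Finset.mem_singleton, exists_eq_left, hej]
    constructor
    · rintro (h | h)
      · exact Or.inl h
      · exact Or.inr h.symm
    · rintro (h | h)
      · exact Or.inl h
      · exact Or.inr h.symm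
  have h1 := (h h0 Z).comp ((Trans_hom_qis w he (Trans_h' e) Z) q).2
  rw [← Trans_square w he hh (Trans_h' e) (Finset.subset_insert j τ) Z] at h1
  exact h1.of_comp_inj ((Trans_hom_qis w he hh Z) q).1

/-- Twists by functions with values in `M_τ(A)`. -/
theorem tw_trans {m q : ℕ} (h : TwN w m q) (τ : Finset (Fin n)) (hm : τ.card + m = n)
    (Z : Type) [TopologicalSpace Z] (a : C(Z, SL n w.A)) (ha : ∀ z, a z ∈ (sM w τ).Q) :
    ∀ x ∈ ((sM w τ).co Z).Zg q,
      (((sM w τ).tw a ha).pull w.W).f q x - x ∈ ((sM w τ).co Z).Bg q := by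
  obtain ⟨e, he⟩ := Trans_exists_good τ hm
  let b : C(Z, SL m w.A) := ⟨fun z => Trans_psi w.A he ⟨a z, ha z⟩,
    (Trans_psi_cont w.A he).comp (Continuous.subtype_mk a.continuous _)⟩
  have hb : ∀ z, Trans_phi w.A e (b z) = a z := fun z => Trans_phi_psi he _
  let θ := (Trans_hom w he (Trans_h' e) Z)
  intro x hx
  have h1 := h Z b _ ((θ.pull w.W).map_Zg hx)
  have h2 : (twM w b).f q ((θ.pull w.W).f q x) =
      (θ.pull w.W).f q ((((sM w τ).tw a ha).pull w.W).f q x) := by
    refine GS.co_ext fun g y => ?_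
    refine congrArg (GS.ap x fun i => θ.φ (g i)) (Prod.ext (Subtype.ext ?_) rfl)
    change Trans_phi w.A e (y.1.1 * b y.2) = Trans_phi w.A e y.1.1 * a y.2
    rw [map_mul, hb]
  rw [h2, ← map_sub] at h1
  exact ((Trans_hom_qis w he (Trans_h' e) Z) q).1 _
    (AddSubgroup.sub_mem _ ((((sM w τ).tw a ha).pull w.W).map_Zg hx) hx) h1

private theorem Trans_path_aux (P : ∀ {K L : Cx}, Cx.Hom K L → Prop)
    (hid : ∀ σ : Finset (Fin n), ∀ (Z : Type) [TopologicalSpace Z],
      P (SG.rs (w := w) (sM_le (Finset.Subset.refl σ)) Z))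
    (hcomp : ∀ {K L M : Cx} (a : Cx.Hom L M) (b : Cx.Hom K L), P a → P b → P (a.comp b))
    (τ : Finset (Fin n)) (Z : Type) [TopologicalSpace Z] :
    ∀ (d : ℕ) (σ : Finset (Fin n)) (hστ : σ ⊆ τ), σ.card + d = τ.card →
      (∀ (ρ : Finset (Fin n)) (j : Fin n), σ ⊆ ρ → ρ ⊆ τ → j ∉ ρ → j ∈ τ →
        P (SG.rs (w := w) (sM_le (Finset.subset_insert j ρ)) Z)) →
      P (SG.rs (w := w) (sM_le hστ) Z) := by
  intro d
  induction d with
  | zero =>
    intro σ hστ hc _
    have h1 : σ = τ := Finset.eq_of_subset_of_card_le hστ (by omega)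
    subst h1
    exact hid σ Z
  | succ d ih =>
    intro σ hστ hc hstep
    have h1 : σ ≠ τ := fun h => by
      rw [h] at hc
      omega
    obtain ⟨j, hjτ, hjσ⟩ := Finset.exists_of_ssubset (lt_of_le_of_ne hστ h1)
    have h2 : insert j σ ⊆ τ := Finset.insert_subset hjτ hστ
    have h3 := ih (insert j σ) h2 (by rw [Finset.card_insert_of_notMem hjσ]; omega)
      (fun ρ k hρ hρ' hk hk' =>
        hstep ρ k ((Finset.subset_insert j σ).trans hρ) hρ' hk hk')
    exact hcomp _ _ h3 (hstep σ j (Finset.Subset.refl σ) hστ hjσ hjτ)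

/-- Injectivity of the restriction from `M_σ` to `M_τ`, `σ ⊆ τ`. -/
theorem inj_path {q : ℕ} {σ τ : Finset (Fin n)} (hστ : σ ⊆ τ)
    (h : ∀ k, k + σ.card ≤ n → n < k + τ.card → InjN w k q) (Z : Type) [TopologicalSpace Z] :
    (SG.rs (w := w) (sM_le hστ) Z).Inj q := by
  refine Trans_path_aux w (P := fun {K L} a => a.Inj q) (fun σ Z _ x hx hb => hb)
    (fun a b ha hb => ha.comp hb) τ Z (τ.card - σ.card) σ hστ
    (by have := Finset.card_le_card hστ; omega) ?_
  intro ρ j hσρ hρτ hjρ hjτ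
  have h1 := Finset.card_le_card hσρ
  have h2 : ρ.card < τ.card :=
    Finset.card_lt_card ⟨hρτ, fun hc => hjρ (hc hjτ)⟩
  have h3 : τ.card ≤ n := by
    have := Finset.card_le_univ τ
    rwa [Fintype.card_fin] at this
  exact inj_trans w (h (n - ρ.card) (by omega) (by omega)) ρ (by omega) j hjρ Z

/-- Surjectivity of the restriction from `M_σ` to `M_τ`, `σ ⊆ τ`. -/
theorem sur_path {q : ℕ} {σ τ : Finset (Fin n)} (hστ : σ ⊆ τ)
    (h : ∀ k, k + σ.card ≤ n → n < k + τ.card → SurN w k q) (Z : Type) [TopologicalSpace Z] :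
    (SG.rs (w := w) (sM_le hστ) Z).Surj q := by
  refine Trans_path_aux w (P := fun {K L} a => a.Surj q)
    (fun σ Z _ z hz => ⟨z, hz, by
      change z - z ∈ _
      rw [sub_self]
      exact AddSubgroup.zero_mem _⟩)
    (fun a b ha hb => ha.comp hb) τ Z (τ.card - σ.card) σ hστ
    (by have := Finset.card_le_card hστ; omega) ?_
  intro ρ j hσρ hρτ hjρ hjτ
  have h1 := Finset.card_le_card hσρ
  have h2 : ρ.card < τ.card :=
    Finset.card_lt_card ⟨hρτ, fun hc => hjρ (hc hjτ)⟩
  have h3 : τ.card ≤ n := by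
    have := Finset.card_le_univ τ
    rwa [Fintype.card_fin] at this
  exact sur_trans w (h (n - ρ.card) (by omega) (by omega)) ρ (by omega) j hjρ Z

end Pool.Agent.BR80
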