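import Pool.Agent.BR80.E1
import Pool.Agent.BR80.E2
import Pool.Agent.BR80.Trans
import Pool.Agent.BR80.Inn

/-!
# Cocycles of the column `1` with constant evaluation
-/

namespace Pool.Agent.BR80

open Matrix

variable (w : World)

/-- The frame `e_i`. -/
def e1 {n : ℕ} (i : Fin n) : FR w n 1 := FR.of w {i} 1 (Finset.card_singleton i)

theorem e1_fixed {n : ℕ} (i : Fin n) : ∀ g ∈ (sM w {i}).P, g • e1 w i = e1 w i :=
  FR.of_fixedM w {i} 1 (Finset.card_singleton i)

/-- The evaluation at `e_i`. -/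
def ev1 {n : ℕ} (i : Fin n) {Z Z' : Type} [TopologicalSpace Z] [TopologicalSpace Z']
    (ψ : C(Z', SL n w.A)) (ζ : C(Z', Z)) : Cx.Hom (colK w n 1 Z) ((sM w {i}).co Z') :=
  evC w (sM w {i}) ψ ζ (e1 w i) (e1_fixed w i)

/-! ### The Weyl element -/

/-- An element of `SL_2` in the coordinates `i`, `j` with `γ e_j = e_i`. -/
private def Y1_gam {n : ℕ} (R : Type) [CommRing R] (i j : Fin n) (h : i ≠ j) : SL n R :=
  elt i j h 1 * (elt j i h.symm (-1) * elt i j h 1)

private theorem Y1_gam_col {n : ℕ} {R : Type} [CommRing R] (i j : Fin n) (h : i ≠ j) (a : Fin n) :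
    (Y1_gam R i j h).1 a j = (1 : Matrix (Fin n) (Fin n) R) a i := by
  change (transvection i j (1 : R) * (transvection j i (-1 : R) * transvection i j (1 : R))) a j = _
  rw [← Matrix.mul_assoc, mul_transvection_apply_same, mul_transvection_apply_of_ne _ _ _ _ h.symm,
    mul_transvection_apply_same, ← Matrix.one_mul (transvection i j (1 : R)),
    mul_transvection_apply_of_ne _ _ _ _ h]
  ring

private theorem Y1_gam_row {n : ℕ} {R : Type} [CommRing R] (i j : Fin n) (h : i ≠ j) (b : Fin n) :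
    (Y1_gam R i j h).1 i b = (1 : Matrix (Fin n) (Fin n) R) j b := by
  change (transvection i j (1 : R) * (transvection j i (-1 : R) * transvection i j (1 : R))) i b = _
  rw [transvection_mul_apply_same, transvection_mul_apply_of_ne _ _ _ _ h,
    transvection_mul_apply_same, ← Matrix.mul_one (transvection i j (1 : R)),
    transvection_mul_apply_of_ne _ _ _ _ h.symm]
  ring

private theorem Y1_elt_map {n : ℕ} (i j : Fin n) (h : i ≠ j) (c : w.F) :
    w.toA (elt i j h c) = elt i j h (algebraMap w.F w.A c) := by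
  refine Subtype.ext ?_
  change (transvection i j c).map (algebraMap w.F w.A) = transvection i j (algebraMap w.F w.A c)
  rw [transvection, transvection, Matrix.map_add _ (map_add _)]
  congr 1
  · exact Matrix.map_one _ (map_zero _) (map_one _)
  · exact Matrix.map_single _ _ _ _

private theorem Y1_gam_map {n : ℕ} (i j : Fin n) (h : i ≠ j) :
    w.toA (Y1_gam w.F i j h) = Y1_gam w.A i j h := by
  rw [Y1_gam, Y1_gam, map_mul, map_mul, Y1_elt_map, Y1_elt_map, map_one, map_neg, map_one]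

private theorem Y1_mul_gam {n : ℕ} {R : Type} [CommRing R] (i j : Fin n) (h : i ≠ j) (x : SL n R)
    (a : Fin n) : (x * Y1_gam R i j h).1 a j = x.1 a i := by
  change (x.1 * (Y1_gam R i j h).1) a j = _
  rw [Matrix.mul_apply]
  simp_rw [Y1_gam_col]
  rw [← Matrix.mul_apply, Matrix.mul_one]

private theorem Y1_gam_mul {n : ℕ} {R : Type} [CommRing R] (i j : Fin n) (h : i ≠ j) (x : SL n R)
    (b : Fin n) : (Y1_gam R i j h * x).1 i b = x.1 j b := by
  change ((Y1_gam R i j h).1 * x.1) i b = _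
  rw [Matrix.mul_apply]
  simp_rw [Y1_gam_row]
  rw [← Matrix.mul_apply, Matrix.one_mul]

private theorem Y1_conj_mem {n : ℕ} {R : Type} [CommRing R] (i j : Fin n) (h : i ≠ j) {g : SL n R}
    (hg : g ∈ Ms R {j}) : Y1_gam R i j h * g * (Y1_gam R i j h)⁻¹ ∈ Ms R {i} := by
  constructor
  · intro k hk a
    rw [Finset.mem_singleton] at hk
    subst hk
    rw [← Y1_mul_gam k j h, inv_mul_cancel_right, ← Y1_gam_col k j h a]
    change ((Y1_gam R k j h).1 * g.1) a j = _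
    have h1 : ∀ l, g.1 l j = (1 : Matrix (Fin n) (Fin n) R) l j :=
      fun l => hg.1 j (Finset.mem_singleton_self j) l
    rw [Matrix.mul_apply]
    simp_rw [h1]
    rw [← Matrix.mul_apply, Matrix.mul_one]
  · intro k hk b
    rw [Finset.mem_singleton] at hk
    subst hk
    rw [mul_assoc, Y1_gam_mul]
    change (g.1 * ((Y1_gam R k j h)⁻¹).1) j b = _
    have h1 : ∀ l, g.1 j l = (1 : Matrix (Fin n) (Fin n) R) j l :=
      fun l => hg.2 j (Finset.mem_singleton_self j) l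
    rw [Matrix.mul_apply]
    simp_rw [h1]
    rw [← Matrix.mul_apply, Matrix.one_mul, ← Y1_gam_mul k j h, mul_inv_cancel]
    rfl

private theorem Y1_elt_comm {n : ℕ} {R : Type} [CommRing R] (τ : Finset (Fin n)) (i j : Fin n)
    (h : i ≠ j) (hi : i ∈ τ) (hj : j ∈ τ) (c : R) {g : SL n R} (hg : g ∈ Ms R τ) :
    elt i j h c * g = g * elt i j h c := by
  refine Subtype.ext (Matrix.ext fun a b => ?_)
  change (transvection i j c * g.1) a b = (g.1 * transvection i j c) a b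
  by_cases ha : a = i
  · subst ha
    rw [transvection_mul_apply_same, hg.2 j hj]
    by_cases hb : b = j
    · subst hb
      rw [mul_transvection_apply_same, Matrix.one_apply_eq, hg.1 a hi, Matrix.one_apply_eq]
    · rw [mul_transvection_apply_of_ne _ _ _ _ hb, Matrix.one_apply_ne (Ne.symm hb), mul_zero,
        add_zero]
  · rw [transvection_mul_apply_of_ne _ _ _ _ ha]
    by_cases hb : b = j
    · subst hb
      rw [mul_transvection_apply_same, hg.1 i hi, Matrix.one_apply_ne ha, mul_zero, add_zero]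
    · rw [mul_transvection_apply_of_ne _ _ _ _ hb]

private theorem Y1_gam_comm {n : ℕ} {R : Type} [CommRing R] (τ : Finset (Fin n)) (i j : Fin n)
    (h : i ≠ j) (hi : i ∈ τ) (hj : j ∈ τ) {g : SL n R} (hg : g ∈ Ms R τ) :
    Y1_gam R i j h * g * (Y1_gam R i j h)⁻¹ = g := by
  have h1 := fun c => Y1_elt_comm τ i j h hi hj c hg
  have h2 := fun c => Y1_elt_comm τ j i h.symm hj hi c hg
  rw [mul_inv_eq_iff_eq_mul, Y1_gam, mul_assoc, mul_assoc, h1, ← mul_assoc (elt j i h.symm (-1)),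
    h2, mul_assoc, ← mul_assoc (elt i j h 1), h1, mul_assoc]

private theorem Y1_gam_e1 {n : ℕ} (i j : Fin n) (h : i ≠ j) :
    Y1_gam w.F i j h • e1 w j = e1 w i := by
  refine FR.ext' ?_
  rw [FR.smul_val]
  ext a b
  have hb : ∀ k : Fin n, ({k} : Finset (Fin n)).orderEmbOfFin (Finset.card_singleton k) b = k := by
    intro k
    exact Finset.mem_singleton.1 (Finset.orderEmbOfFin_mem _ (Finset.card_singleton k) b)
  have h1 : ((Y1_gam w.F i j h).1 * (e1 w j).1) a b =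
      ((Y1_gam w.F i j h).1 * (1 : Matrix (Fin n) (Fin n) w.F)) a
        (({j} : Finset (Fin n)).orderEmbOfFin (Finset.card_singleton j) b) := rfl
  have h2 : (e1 w i).1 a b = (1 : Matrix (Fin n) (Fin n) w.F) a
      (({i} : Finset (Fin n)).orderEmbOfFin (Finset.card_singleton i) b) := rfl
  rw [h1, h2, hb, hb, Matrix.mul_one, Y1_gam_col]

/-- The conjugation by `γ` from `M_j` to `M_i`. -/
private def Y1_cj {n : ℕ} (i j : Fin n) (h : i ≠ j) (Z : Type) [TopologicalSpace Z] :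
    GS.Hom ((sM w {j}).gs Z) ((sM w {i}).gs Z) where
  φ :=
    { toFun := fun g => ⟨Y1_gam w.F i j h * g.1 * (Y1_gam w.F i j h)⁻¹, Y1_conj_mem i j h g.2⟩
      map_one' := Subtype.ext (by
        change Y1_gam w.F i j h * 1 * (Y1_gam w.F i j h)⁻¹ = 1
        rw [mul_one, mul_inv_cancel])
      map_mul' := fun a b => Subtype.ext (by
        change Y1_gam w.F i j h * (a.1 * b.1) * (Y1_gam w.F i j h)⁻¹ =
          (Y1_gam w.F i j h * a.1 * (Y1_gam w.F i j h)⁻¹) *
            (Y1_gam w.F i j h * b.1 * (Y1_gam w.F i j h)⁻¹)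
        group) }
  u := ⟨fun x => (⟨Y1_gam w.A i j h * x.1.1 * (Y1_gam w.A i j h)⁻¹, Y1_conj_mem i j h x.1.2⟩, x.2),
    by
      refine (Continuous.subtype_mk ?_ _).prodMk continuous_snd
      exact (continuous_const.mul (continuous_subtype_val.comp continuous_fst)).mul
        continuous_const⟩
  eqv := fun g x => by
    refine Prod.ext (Subtype.ext ?_) rfl
    change Y1_gam w.A i j h * (w.toA g.1 * x.1.1) * (Y1_gam w.A i j h)⁻¹ =
      w.toA (Y1_gam w.F i j h * g.1 * (Y1_gam w.F i j h)⁻¹) *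
        (Y1_gam w.A i j h * x.1.1 * (Y1_gam w.A i j h)⁻¹)
    rw [map_mul, map_mul, map_inv, Y1_gam_map]
    group

/-- The constant function. -/
private def Y1_mulc {n : ℕ} (i j : Fin n) (h : i ≠ j) {Z : Type} [TopologicalSpace Z]
    (ψ : C(Z, SL n w.A)) : C(Z, SL n w.A) :=
  ⟨fun z => Y1_gam w.A i j h * ψ z, continuous_const.mul ψ.continuous⟩

private theorem Y1_key {n : ℕ} (i j : Fin n) (h : i ≠ j) {Z Z' : Type} [TopologicalSpace Z]
    [TopologicalSpace Z'] (ψ : C(Z', SL n w.A)) (ζ : C(Z', Z)) (q : ℕ) (y : (colK w n 1 Z).C q) :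
    (ev1 w j ψ ζ).f q ((((gsC w n 1 Z).inner (Y1_gam w.F i j h)).pull w.W).f q y) =
      ((Y1_cj w i j h Z').pull w.W).f q ((ev1 w i (Y1_mulc w i j h ψ) ζ).f q y) := by
  refine GS.co_ext fun g x => ?_
  have k1 : GS.ap ((ev1 w j ψ ζ).f q ((((gsC w n 1 Z).inner (Y1_gam w.F i j h)).pull w.W).f q y))
      g x = GS.ap (S := gsC w n 1 Z) y
        (fun k => (Y1_gam w.F i j h * (g k).1 * (Y1_gam w.F i j h)⁻¹ : SL n w.F))
        ((w.toA (Y1_gam w.F i j h) * (x.1.1 * ψ x.2), ζ x.2), Y1_gam w.F i j h • e1 w j) := rfl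
  have k2 : GS.ap (((Y1_cj w i j h Z').pull w.W).f q
      ((ev1 w i (Y1_mulc w i j h ψ) ζ).f q y)) g x = GS.ap (S := gsC w n 1 Z) y
        (fun k => (Y1_gam w.F i j h * (g k).1 * (Y1_gam w.F i j h)⁻¹ : SL n w.F))
        (((Y1_gam w.A i j h * x.1.1 * (Y1_gam w.A i j h)⁻¹) * (Y1_gam w.A i j h * ψ x.2), ζ x.2),
          e1 w i) := rfl
  have k3 : w.toA (Y1_gam w.F i j h) * (x.1.1 * ψ x.2) =
      (Y1_gam w.A i j h * x.1.1 * (Y1_gam w.A i j h)⁻¹) * (Y1_gam w.A i j h * ψ x.2) := by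
    rw [Y1_gam_map]
    group
  rw [k1, k2, Y1_gam_e1, k3]

private theorem Y1_rs_cj {n : ℕ} (i j : Fin n) (h : i ≠ j) (Z : Type) [TopologicalSpace Z]
    (h1 : {i} ⊆ ({i, j} : Finset (Fin n))) (h2 : {j} ⊆ ({i, j} : Finset (Fin n))) (q : ℕ)
    (x : ((sM w {i}).co Z).C q) :
    @Eq (((sM w {i, j}).co Z).C q)
      ((SG.rs (w := w) (sM_le h2) Z).f q (((Y1_cj w i j h Z).pull w.W).f q x))
      ((SG.rs (w := w) (sM_le h1) Z).f q x) := by
  have hi : i ∈ ({i, j} : Finset (Fin n)) := h1 (Finset.mem_singleton_self i)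
  have hj : j ∈ ({i, j} : Finset (Fin n)) := h2 (Finset.mem_singleton_self j)
  refine GS.co_ext fun g y => ?_
  have hg : ∀ k, (⟨Y1_gam w.F i j h * (g k).1 * (Y1_gam w.F i j h)⁻¹,
      Y1_conj_mem i j h (Subgroup.inclusion (sM_le h2).P (g k)).2⟩ : (sM w {i}).P) =
      Subgroup.inclusion (sM_le h1).P (g k) := fun k =>
    Subtype.ext (Y1_gam_comm (R := w.F) ({i, j} : Finset (Fin n)) i j h hi hj (g k).2)
  have hy : (⟨Y1_gam w.A i j h * y.1.1 * (Y1_gam w.A i j h)⁻¹,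
      Y1_conj_mem i j h (Subgroup.inclusion (sM_le h2).Q y.1).2⟩ : (sM w {i}).Q) =
      Subgroup.inclusion (sM_le h1).Q y.1 :=
    Subtype.ext (Y1_gam_comm (R := w.A) ({i, j} : Finset (Fin n)) i j h hi hj y.1.2)
  have k1 : GS.ap ((SG.rs (w := w) (sM_le h2) Z).f q (((Y1_cj w i j h Z).pull w.W).f q x)) g y =
      GS.ap x (fun k => (⟨Y1_gam w.F i j h * (g k).1 * (Y1_gam w.F i j h)⁻¹,
      Y1_conj_mem i j h (Subgroup.inclusion (sM_le h2).P (g k)).2⟩ : (sM w {i}).P))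
      ((⟨Y1_gam w.A i j h * y.1.1 * (Y1_gam w.A i j h)⁻¹,
      Y1_conj_mem i j h (Subgroup.inclusion (sM_le h2).Q y.1).2⟩ : (sM w {i}).Q), y.2) := rfl
  have k2 : GS.ap ((SG.rs (w := w) (sM_le h1) Z).f q x) g y =
      GS.ap x (fun k => Subgroup.inclusion (sM_le h1).P (g k))
      (Subgroup.inclusion (sM_le h1).Q y.1, y.2) := rfl
  rw [k1, k2, hy, funext hg]

/-! ### Twists with values in `H_τ(A)` -/

private theorem Y1_twH {n m q : ℕ} (htw : TwN w m q) (τ : Finset (Fin n)) (hm : τ.card + m = n)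
    (Z : Type) [TopologicalSpace Z] (a : C(Z, SL n w.A)) (ha : ∀ z, a z ∈ (sH w τ).Q) :
    ∀ x ∈ ((sH w τ).co Z).Zg q,
      (((sH w τ).tw a ha).pull w.W).f q x - x ∈ ((sH w τ).co Z).Bg q := by
  intro x hx
  let b : C(Z, SL n w.A) := ⟨fun z => radL τ (a z), (radL_cont w τ).comp a.continuous⟩
  have hb : ∀ z, b z ∈ (sM w τ).Q := fun z => radL_mem (ha z)
  have hb' : ∀ z, b z ∈ (sH w τ).Q := fun z => (hb z).1
  let u : C(Z, SL n w.A) := ⟨fun z => a z * (b z)⁻¹, a.continuous.mul b.continuous.inv⟩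
  have hu : ∀ z, IsU w.A τ (u z) := fun z => radL_isU (ha z)
  have h1 : (((sH w τ).tw a ha).pull w.W).f q x =
      (((sH w τ).tw u fun z => (hu z).mem_Hs).pull w.W).f q
        ((((sH w τ).tw b hb').pull w.W).f q x) := by
    refine GS.co_ext fun g y => ?_
    refine congrArg (GS.ap x g) (Prod.ext (Subtype.ext ?_) rfl)
    change y.1.1 * a y.2 = y.1.1 * (a y.2 * (b y.2)⁻¹) * b y.2
    group
  have h2 : (((sH w τ).tw b hb').pull w.W).f q x ∈ ((sH w τ).co Z).Zg q :=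
    (((sH w τ).tw b hb').pull w.W).map_Zg hx
  have h3 := twH w τ Z u hu q _ h2
  have h4 : (((sH w τ).tw b hb').pull w.W).f q x - x ∈ ((sH w τ).co Z).Bg q := by
    refine (qisH w τ Z q).1 _ (AddSubgroup.sub_mem _ h2 hx) ?_
    have h5 := tw_trans w htw τ hm Z b hb _ ((SG.rs (w := w) (sM_le_sH τ) Z).map_Zg hx)
    rw [map_sub]
    exact h5
  have h6 := AddSubgroup.add_mem _ h3 h4
  rw [sub_add_sub_cancel, ← h1] at h6
  exact h6

private theorem Y1_mul {n r : ℕ} (g h : SL n w.A) (φ : w.FF n r) :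
    w.mul (g * h, φ) = w.mul (g, w.mul (h, φ)) := by
  refine w.vec_inj ?_
  rw [w.vec_mul, w.vec_mul, w.vec_mul, ← Matrix.mul_assoc]
  rfl

private theorem Y1_one {n r : ℕ} (φ : w.FF n r) : w.mul (1, φ) = φ := by
  refine w.vec_inj ?_
  rw [w.vec_mul]
  exact Matrix.one_mul _

private theorem Y1_fixed {n r : ℕ} (hr : r ≤ n) (g : SL n w.A)
    (h : w.mul (g, (eF w hr).toFF w) = (eF w hr).toFF w) : g ∈ Hs w.A (seg n r) := by
  have h2 : ∀ a j, w.vec ((eF w hr).toFF w) a j =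
      (1 : Matrix (Fin n) (Fin n) w.A) a ((seg n r).orderEmbOfFin (card_seg hr) j) := by
    intro a j
    rw [FR.toFF, w.vec_rat]
    change algebraMap w.F w.A ((1 : Matrix (Fin n) (Fin n) w.F) a
      ((seg n r).orderEmbOfFin (card_seg hr) j)) = _
    rw [Matrix.one_apply, Matrix.one_apply]
    split_ifs
    · exact map_one _
    · exact map_zero _
  have h1 : ∀ a j, w.vec (w.mul (g, (eF w hr).toFF w)) a j =
      g.1 a ((seg n r).orderEmbOfFin (card_seg hr) j) := by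
    intro a j
    rw [w.vec_mul, Matrix.mul_apply]
    simp_rw [h2]
    rw [← Matrix.mul_apply, Matrix.mul_one]
  intro i hi a
  have hi' : i ∈ Set.range ((seg n r).orderEmbOfFin (card_seg hr)) := by
    rw [Finset.range_orderEmbOfFin]
    exact hi
  obtain ⟨j, rfl⟩ := hi'
  rw [← h1, h, h2]

private theorem Y1_mem {n r : ℕ} (hr : r < n) (g : SL n w.A) :
    g * w.sec hr (w.mul (g⁻¹, (eF w hr.le).toFF w)) ∈ Hs w.A (seg n r) := by
  refine Y1_fixed w hr.le _ ?_
  rw [Y1_mul, sec_eF, ← Y1_mul, mul_inv_cancel, Y1_one]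

/-- A cocycle of the column `r` with constant evaluations at the standard frame. -/
private theorem Y1_ex {n q r : ℕ} (hr : r < n) (htw : TwN w (n - r) q) (Z : Type)
    [TopologicalSpace Z] (τ : Finset (Fin n)) (hτ : τ = seg n r) (h : τ.card = r)
    (c : ((sM w τ).co Z).C q) (hc : c ∈ ((sM w τ).co Z).Zg q) :
    ∃ y ∈ (colK w n r Z).Zg q, ∀ (Z' : Type) [TopologicalSpace Z'] (ψ : C(Z', SL n w.A))
      (ζ : C(Z', Z)), (evC w (sM w τ) ψ ζ (FR.of w τ r h) (FR.of_fixedM w τ r h)).f q y -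
        (((sM w τ).par ζ).pull w.W).f q c ∈ ((sM w τ).co Z').Bg q := by
  subst hτ
  obtain ⟨y, hy, hyb⟩ := (evS_qis w hr Z q).2 ((((sM w (seg n r)).par (prZ w Z)).pull w.W).f q c)
    ((((sM w (seg n r)).par (prZ w Z)).pull w.W).map_Zg hc)
  refine ⟨y, hy, fun Z' _ ψ ζ => ?_⟩
  let η : C(Z', w.FF n r × Z) := eta w ψ ζ (eF w hr.le)
  let a : C(Z', SL n w.A) := ⟨fun z => ψ z * w.sec hr (w.mul ((ψ z)⁻¹, (eF w hr.le).toFF w)), by
    have h1 : Continuous fun z : Z' => w.mul ((ψ z)⁻¹, (eF w hr.le).toFF w) :=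
      w.mul.continuous.comp (ψ.continuous.inv.prodMk continuous_const)
    exact ψ.continuous.mul ((w.sec hr).continuous.comp h1)⟩
  have ha : ∀ z, a z ∈ (sH w (seg n r)).Q := fun z => Y1_mem w hr (ψ z)
  let yH := (evC w (sH w (seg n r)) (psi0 w hr Z) (prZ w Z) (eF w hr.le)
    (FR.of_fixedH w (seg n r) r h)).f q y
  let yH' := (((sH w (seg n r)).par η).pull w.W).f q yH
  have hyH' : yH' ∈ ((sH w (seg n r)).co Z').Zg q :=
    (((sH w (seg n r)).par η).pull w.W).map_Zg ((evC w (sH w (seg n r)) (psi0 w hr Z) (prZ w Z)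
      (eF w hr.le) (FR.of_fixedH w (seg n r) r h)).map_Zg hy)
  have h1 := Y1_twH w htw (seg n r) (by rw [h]; omega) Z' a ha yH' hyH'
  have h2 := (SG.rs (w := w) (sM_le_sH (seg n r)) Z').map_Bg h1
  rw [map_sub] at h2
  have h3 : (SG.rs (w := w) (sM_le_sH (seg n r)) Z').f q
      ((((sH w (seg n r)).tw a ha).pull w.W).f q yH') =
      (evC w (sM w (seg n r)) ψ ζ (FR.of w (seg n r) r h)
        (FR.of_fixedM w (seg n r) r h)).f q y := by
    refine GS.co_ext fun g x => ?_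
    refine congrArg (GS.ap y fun k => (g k).1) (Prod.ext (Prod.ext ?_ rfl) rfl)
    change x.1.1 * (ψ x.2 * w.sec hr (w.mul ((ψ x.2)⁻¹, (eF w hr.le).toFF w))) *
      (w.sec hr (w.mul ((ψ x.2)⁻¹, (eF w hr.le).toFF w)))⁻¹ = x.1.1 * ψ x.2
    group
  have h4 := (((sM w (seg n r)).par η).pull w.W).map_Bg hyb
  rw [map_sub] at h4
  have h5 : (SG.rs (w := w) (sM_le_sH (seg n r)) Z').f q yH' =
      (((sM w (seg n r)).par η).pull w.W).f q ((evS w hr Z).f q y) := rfl
  have h6 : (((sM w (seg n r)).par η).pull w.W).f q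
      ((((sM w (seg n r)).par (prZ w Z)).pull w.W).f q c) =
      (((sM w (seg n r)).par ζ).pull w.W).f q c := rfl
  rw [h3, h5] at h2
  rw [h6] at h4
  have h7 := AddSubgroup.sub_mem _ h2 h4
  rwa [sub_sub_sub_cancel_right] at h7

/-- Let `c` be a class of `M_0 = SL_(n-1)`. There is a cocycle `y` of the column `1` all of whose
evaluations at `e_0` are the pull backs of `c` (surjectivity of `evS` for `r = 1`; every
evaluation at `e_0` with the group `H_0` is a twist by an `H_0(A)`-valued function of a pull back of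
the universal one: `ψ(z') = h'(z') s(φ(z'))⁻¹`, `φ(z') = ψ(z')⁻¹ e_0`; twists by `H_0(A)` are trivial
because of `twH` and `tw_trans`); the evaluations at `e_j` do not depend on `ψ` either, and those
at `e_0` and `e_j` agree on `M_(0j)` (take `γ` in `SL_2(F)` with `γ e_0 = e_j`,
`GS.inner_trivial`). -/
theorem exists_y1 {n q : ℕ} (hn : 1 < n) (htw : TwN w (n - 1) q) (Z : Type) [TopologicalSpace Z]
    (o : Fin n) (ho : (o : ℕ) = 0) (c : ((sM w {o}).co Z).C q) (hc : c ∈ ((sM w {o}).co Z).Zg q) :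
    ∃ y ∈ (colK w n 1 Z).Zg q,
      (∀ (Z' : Type) [TopologicalSpace Z'] (ψ : C(Z', SL n w.A)) (ζ : C(Z', Z)),
        (ev1 w o ψ ζ).f q y - (((sM w {o}).par ζ).pull w.W).f q c ∈ ((sM w {o}).co Z').Bg q) ∧
      (∀ (j : Fin n) (Z' : Type) [TopologicalSpace Z'] (ψ : C(Z', SL n w.A)) (ζ : C(Z', Z)),
        (ev1 w j ψ ζ).f q y - (ev1 w j 1 ζ).f q y ∈ ((sM w {j}).co Z').Bg q) ∧
      (∀ (j : Fin n) (Z' : Type) [TopologicalSpace Z'] (ψ : C(Z', SL n w.A)) (ζ : C(Z', Z))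
        (h : {o} ⊆ ({o, j} : Finset (Fin n))) (h' : {j} ⊆ ({o, j} : Finset (Fin n))),
        (SG.rs (sM_le h) Z').f q ((ev1 w o ψ ζ).f q y) -
          (SG.rs (sM_le h') Z').f q ((ev1 w j ψ ζ).f q y) ∈ ((sM w {o, j}).co Z').Bg q) := by
  have ho' : ({o} : Finset (Fin n)) = seg n 1 := by
    ext k
    rw [Finset.mem_singleton, mem_seg]
    constructor
    · rintro rfl
      omega
    · intro hk
      exact Fin.ext (by omega)
  obtain ⟨y, hy, h1⟩ := Y1_ex w hn htw Z {o} ho' (Finset.card_singleton o) c hc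
  have h2 : ∀ (Z' : Type) [TopologicalSpace Z'] (ψ : C(Z', SL n w.A)) (ζ : C(Z', Z)),
      (ev1 w o ψ ζ).f q y - (((sM w {o}).par ζ).pull w.W).f q c ∈ ((sM w {o}).co Z').Bg q :=
    fun Z' _ ψ ζ => h1 Z' ψ ζ
  have h3 : ∀ (j : Fin n) (h : o ≠ j) (Z' : Type) [TopologicalSpace Z'] (ψ : C(Z', SL n w.A))
      (ζ : C(Z', Z)), (ev1 w j ψ ζ).f q y - ((Y1_cj w o j h Z').pull w.W).f q
        ((((sM w {o}).par ζ).pull w.W).f q c) ∈ ((sM w {j}).co Z').Bg q := by
    intro j h Z' _ ψ ζ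
    have k1 := (ev1 w j ψ ζ).map_Bg
      (GS.inner_trivial w.W (gsC w n 1 Z) (Y1_gam w.F o j h) q y hy)
    have k2 := ((Y1_cj w o j h Z').pull w.W).map_Bg (h2 Z' (Y1_mulc w o j h ψ) ζ)
    rw [map_sub, Y1_key] at k1
    rw [map_sub] at k2
    have k3 := AddSubgroup.sub_mem _ k2 k1
    rwa [sub_sub_sub_cancel_left] at k3
  refine ⟨y, hy, h2, ?_, ?_⟩
  · intro j Z' _ ψ ζ
    by_cases h : o = j
    · subst h
      have k3 := AddSubgroup.sub_mem _ (h2 Z' ψ ζ) (h2 Z' 1 ζ)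
      rwa [sub_sub_sub_cancel_right] at k3
    · have k3 := AddSubgroup.sub_mem _ (h3 j h Z' ψ ζ) (h3 j h Z' 1 ζ)
      rwa [sub_sub_sub_cancel_right] at k3
  · intro j Z' _ ψ ζ h h'
    by_cases hj : o = j
    · subst hj
      rw [sub_self]
      exact AddSubgroup.zero_mem _
    · have k1 := (SG.rs (w := w) (sM_le h) Z').map_Bg (h2 Z' ψ ζ)
      have k2 := (SG.rs (w := w) (sM_le h') Z').map_Bg (h3 j hj Z' ψ ζ)
      rw [map_sub] at k1
      rw [map_sub, Y1_rs_cj w o j hj Z' h h'] at k2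
      have k3 := AddSubgroup.sub_mem _ k1 k2
      rwa [sub_sub_sub_cancel_right] at k3

end Pool.Agent.BR80
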