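import Pool.Agent.BR80.Loop
import Pool.Agent.BR80.Col0
import Pool.Agent.BR80.Y1

/-!
# Systems starting in the column `1`
-/

namespace Pool.Agent.BR80

open Matrix

variable (w : World)

/-- The start of a system from a cocycle of the column `1` (with `ob_two`). -/
theorem start_y1 {n q : ℕ} (hn : 2 < n) (Z : Type) [TopologicalSpace Z]
    (y : (colK w n 1 Z).C q) (hy : y ∈ (colK w n 1 Z).Zg q)
    (h : (colδ w n 1 Z).f q y ∈ (colK w n 2 Z).Bg q) :
    ∃ Y : (biD w n Z).TC, (biD w n Z).Sys (q + 1) 3 Y ∧ (∀ m, Y 0 m = 0) ∧ Y 1 q = y := by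
  obtain ⟨Y, hY⟩ : ∃ Y : (biD w n Z).TC,
      Y = Function.update (β := fun r => ∀ m, ((biD w n Z).K r).C m) (fun _ _ => 0) 1
        (Pi.single q y) := ⟨_, rfl⟩
  have hY0 : ∀ m, Y 0 m = 0 := by
    intro m
    rw [hY, Function.update_of_ne (by omega)]
  have hY1 : Y 1 = Pi.single q y := by rw [hY, Function.update_self]
  have hY2 : ∀ r, r ≠ 1 → ∀ m, Y r m = 0 := by
    intro r hr m
    rw [hY, Function.update_of_ne hr]
  have hs : (biD w n Z).Sys (q + 1) 2 Y := by
    refine ⟨?_, ?_⟩
    · intro r m hrm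
      by_cases hr : r = 1
      · subst hr
        rw [hY1]
        exact Pi.single_eq_of_ne (by omega) _
      · exact hY2 r hr m
    · intro j hj m
      have h1 : (biD w n Z).ds Y j m = 0 := by
        cases j with
        | zero => rfl
        | succ k =>
          have hk : k = 0 := by omega
          subst hk
          rw [BiCx.ds_succ, hY0, map_zero]
      cases m with
      | zero => rw [BiCx.tot_zero, h1]
      | succ m =>
        rw [BiCx.tot_succ]
        have h2 : (biD w n Z).ds Y j (m + 1) = 0 := by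
          cases j with
          | zero => rfl
          | succ k =>
            have hk : k = 0 := by omega
            subst hk
            rw [BiCx.ds_succ, hY0, map_zero]
        rw [h2, smul_zero, add_zero]
        have h3 : j = 0 ∨ j = 1 := by omega
        rcases h3 with rfl | rfl
        · rw [hY0, map_zero]
        · rw [hY1]
          by_cases hm : m = q
          · subst hm
            rw [Pi.single_eq_same]
            exact hy
          · rw [Pi.single_eq_of_ne hm, map_zero]
  have hob : (biD w n Z).ds Y 2 q ∈ ((biD w n Z).K 2).Bg q := by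
    rw [BiCx.ds_succ, hY1, Pi.single_eq_same]
    exact h
  obtain ⟨Y', h1, h2⟩ := hs.extend _ q (by omega) hob
  refine ⟨Y', h1, fun m => ?_, ?_⟩
  · rw [h2 0 (by omega), hY0]
  · rw [h2 1 (by omega), hY1, Pi.single_eq_same]

/-- The end of the proof of surjectivity (`BiCx.Sys.one_mem`, `col0_qis`, `ev_δcol0`). -/
theorem end_y1 {n q : ℕ} (hn : q + 2 < n) (Z : Type) [TopologicalSpace Z]
    (o : Fin n) (ho : (o : ℕ) = 0) (c : ((sM w {o}).co Z).C q)
    (Y : (biD w n Z).TC) (hY : (biD w n Z).Sys (q + 1) (q + 3) Y) (h0 : ∀ m, Y 0 m = 0)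
    (h1 : (ev1 w o 1 (ContinuousMap.id Z)).f q (Y 1 q) - c ∈ ((sM w {o}).co Z).Bg q) :
    ∃ u ∈ (coN w n Z).Zg q,
      c - (SG.rs (sM_le (Finset.empty_subset {o})) Z).f q u ∈ ((sM w {o}).co Z).Bg q := by
  obtain ⟨u0, hu0, hb⟩ := BiCx.Sys.one_mem _ (biD_ex w n Z) (by omega) hY h0
  obtain ⟨u, hu, hb'⟩ := (col0_qis w n Z q).2 u0 hu0
  refine ⟨u, hu, ?_⟩
  have h2 := (colδ w n 0 Z).map_Bg hb'
  rw [map_sub] at h2
  have h3 := AddSubgroup.add_mem _ hb h2
  have h4 := (ev1 w o 1 (ContinuousMap.id Z)).map_Bg h3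
  have h5 := AddSubgroup.sub_mem _ h4 h1
  have h6 : (ev1 w o 1 (ContinuousMap.id Z)).f q ((colδ w n 0 Z).f q ((col0 w n Z).f q u)) =
      (SG.rs (sM_le (Finset.empty_subset {o})) Z).f q u := by
    unfold ev1
    rw [ev_δcol0, twM_one]
    rfl
  have h7 : ∀ (a b c' : (colK w n 1 Z).C q), a - b + (b - c') = a - c' := fun a b c' => by abel
  have h8 := h5
  rw [show ∀ a b : (colK w n 1 Z).C q, a - b + (b - (colδ w n 0 Z).f q ((col0 w n Z).f q u)) =
    a - (colδ w n 0 Z).f q ((col0 w n Z).f q u) from fun a b => h7 a b _] at h8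
  rw [map_sub, h6] at h8
  have h9 : ∀ (a b c' : ((sM w {o}).co Z).C q), a - b - (a - c') = c' - b := fun a b c' => by abel
  rw [h9] at h8
  exact h8

end Pool.Agent.BR80
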