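import Pool.Agent.BR80.Loop
import Pool.Agent.BR80.Col0
import Pool.Agent.BR80.Ob2
import Pool.Agent.BR80.St1

/-!
# The degrees below the edge
-/

namespace Pool.Agent.BR80

open Matrix

variable (w : World)

/-- The treatment of the obstructions. -/
private theorem Low_obs {n q r m : ℕ} (hr : r + 1 < n) (hmq : m < q) (hmr : m + r + 2 ≤ n)
    (hT : ∀ k < n, ThT w k) (hlow : ∀ m < q, InjN w n m ∧ SurN w n m) (Z : Type)
    [TopologicalSpace Z] (x : (colK w n r Z).C m) (hx : x ∈ (colK w n r Z).Zg m)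
    (hδ : (colδ w n r Z).f m x ∈ (colK w n (r + 1) Z).Bg m) :
    ∃ h ∈ (coN w n (w.FF n r × Z)).Zg m,
      x - ((theta w n Z).f r).f m h ∈ (colK w n r Z).Bg m ∧
      (eδ w n r Z).f m h ∈ (coN w n (w.FF n (r + 1) × Z)).Bg m := by
  refine obs_class w hr (tw_of_inj w (hlow m hmq).1) ?_ ?_ Z x hx hδ
  · intro Z' _
    refine sur_path w (Finset.empty_subset _) (fun k hk hk' => ?_) Z'
    rw [Finset.card_empty] at hk
    rw [card_seg (by omega)] at hk'
    rcases Nat.lt_or_ge k n with h | h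
    · exact (hT k h).2 m (by omega)
    · have h1 : k = n := by omega
      rw [h1]
      exact (hlow m hmq).2
  · intro Z' _
    refine inj_path w (Finset.empty_subset _) (fun k hk hk' => ?_) Z'
    rw [Finset.card_empty] at hk
    rw [card_seg (by omega)] at hk'
    rcases Nat.lt_or_ge k n with h | h
    · exact (hT k h).1 m (by omega)
    · have h1 : k = n := by omega
      rw [h1]
      exact (hlow m hmq).1

/-- `δ` of an obstruction vanishes. -/
private theorem Low_dd {n : ℕ} (Z : Type) [TopologicalSpace Z] (Y : (biD w n Z).TC) (r m : ℕ) :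
    (colδ w n r Z).f m ((biD w n Z).ds Y r m) ∈ (colK w n (r + 1) Z).Bg m := by
  have h1 : (colδ w n r Z).f m ((biD w n Z).ds Y r m) = 0 := by
    cases r with
    | zero => exact map_zero _
    | succ k => exact colδδ w n k Z m _
  rw [h1]
  exact AddSubgroup.zero_mem _

/-- The start of a system from a cocycle of the column `0`. -/
private theorem Low_start {n q : ℕ} (Z : Type) [TopologicalSpace Z]
    (y : (colK w n 0 Z).C q) (hy : y ∈ (colK w n 0 Z).Zg q)
    (h : (colδ w n 0 Z).f q y ∈ (colK w n 1 Z).Bg q) :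
    ∃ Y : (biD w n Z).TC, (biD w n Z).Sys q 2 Y ∧ Y 0 q = y := by
  obtain ⟨Y, hY⟩ : ∃ Y : (biD w n Z).TC,
      Y = Function.update (β := fun r => ∀ m, ((biD w n Z).K r).C m) (fun _ _ => 0) 0
        (Pi.single q y) := ⟨_, rfl⟩
  have hY1 : Y 0 = Pi.single q y := by rw [hY, Function.update_self]
  have hY2 : ∀ r, r ≠ 0 → ∀ m, Y r m = 0 := by
    intro r hr m
    rw [hY, Function.update_of_ne hr]
  have hs : (biD w n Z).Sys q 1 Y := by
    refine ⟨?_, ?_⟩
    · intro r m hrm
      by_cases hr : r = 0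
      · subst hr
        rw [hY1]
        exact Pi.single_eq_of_ne (by omega) _
      · exact hY2 r hr m
    · intro j hj m
      have hj0 : j = 0 := by omega
      subst hj0
      cases m with
      | zero => rw [BiCx.tot_zero, BiCx.ds_zero]
      | succ m =>
        rw [BiCx.tot_succ, BiCx.ds_zero, smul_zero, add_zero, hY1]
        by_cases hm : m = q
        · subst hm
          rw [Pi.single_eq_same]
          exact hy
        · rw [Pi.single_eq_of_ne hm, map_zero]
  have hob : (biD w n Z).ds Y 1 q ∈ ((biD w n Z).K 1).Bg q := by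
    rw [BiCx.ds_succ, hY1, Pi.single_eq_same]
    exact h
  obtain ⟨Y', h1, h2⟩ := hs.extend _ q (by omega) hob
  exact ⟨Y', h1, by rw [h2 0 (by omega), hY1, Pi.single_eq_same]⟩

/-- (4.1): `run` with `N = q`, `r₀ = 2`, starting with `ob_one`; the obstructions are treated with
`obs_class`, `sur_path`, `inj_path`; the end is `BiCx.Sys.zero_mem`. -/
theorem inj_step {n q : ℕ} (hn : q + 3 ≤ n) (hT : ∀ k < n, ThT w k)
    (hlow : ∀ m < q, InjN w n m ∧ SurN w n m) : InjN w n q := by
  intro h0 Z _ x hx hb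
  refine (col0_qis w n Z q).1 x hx ?_
  have h1 := ob_one w (n := n) (q := q) (by omega) Z x hx hb
  obtain ⟨Y, hY, hY0⟩ := Low_start w Z _ ((col0 w n Z).map_Zg hx) h1
  obtain ⟨Y', hY', hj⟩ := run w (n := n) (N := q) (r₀ := 2) le_rfl (by omega) (by omega) Z Y hY
    (fun r hr hr' Y' hY' _ m hm => Low_obs w (by omega) (by omega) (by omega) hT hlow Z _
      (hY'.ds_mem _ m) (Low_dd w Z Y' r m))
  have h2 := BiCx.Sys.zero_mem _ (biD_ex w n Z) (by omega) hY'
  rw [hj 0 (by omega), hY0] at h2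
  exact h2

/-- (4.2): `exists_y1`, `ob_two`, `start_y1`, `run` with `N = q + 1`, `r₀ = 3`, `end_y1`. -/
theorem sur_step {n q : ℕ} (hn : q + 4 ≤ n) (hT : ∀ k < n, ThT w k)
    (hlow : ∀ m < q, InjN w n m ∧ SurN w n m) : SurN w n q := by
  intro h0 Z _ c hc
  obtain ⟨y, hy, hA, -, hC⟩ := exists_y1 w (n := n) (q := q) (by omega)
    (tw_of_inj w ((hT (n - 1) (by omega)).1 q (by omega))) Z ⟨0, h0⟩ rfl c hc
  have h1 := ob_two w (n := n) (q := q) (by omega) Z ⟨0, h0⟩ rfl y hy
    (fun j Z' _ ψ ζ h h' => hC j Z' ψ ζ h h')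
  obtain ⟨Y, hY, hY0, hY1⟩ := start_y1 w (n := n) (q := q) (by omega) Z y hy h1
  obtain ⟨Y', hY', hj⟩ := run w (n := n) (N := q + 1) (r₀ := 3) (by omega) (by omega) (by omega)
    Z Y hY
    (fun r hr hr' Y' hY' _ m hm => Low_obs w (by omega) (by omega) (by omega) hT hlow Z _
      (hY'.ds_mem _ m) (Low_dd w Z Y' r m))
  refine end_y1 w (by omega) Z ⟨0, h0⟩ rfl c Y' hY' (fun m => by rw [hj 0 (by omega), hY0]) ?_
  rw [hj 1 (by omega), hY1]
  exact hA Z 1 (ContinuousMap.id Z)

theorem low {n : ℕ} (hT : ∀ k < n, ThT w k) (q : ℕ) :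
    (q + 3 ≤ n → InjN w n q) ∧ (q + 4 ≤ n → SurN w n q) := by
  induction q using Nat.strong_induction_on with
  | _ q ih =>
    refine ⟨fun h => inj_step w h hT fun m hm => ⟨(ih m hm).1 (by omega), (ih m hm).2 (by omega)⟩,
      fun h => sur_step w h hT fun m hm => ⟨(ih m hm).1 (by omega), (ih m hm).2 (by omega)⟩⟩

end Pool.Agent.BR80
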