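import Pool.Agent.BR80.StB1

/-!
# Step B, second half
-/

namespace Pool.Agent.BR80

open Matrix

variable (w : World)

/-- The value of a pull back at a rational frame. -/
private theorem StB_ptE {n r : ℕ} (X : FR w n r) (Z : Type) [TopologicalSpace Z] (m : ℕ)
    (c : (coN w n Z).C m) :
    (ptE w X Z).f m ((((sM w ∅).par (prZ (n := n) (r := r) w Z)).pull w.W).f m c) = c := by
  refine GS.co_ext fun g y => ?_
  rfl

/-- Second half of STEP B: `δ h = 0`. The value of `δ h` at every rational frame is `η₀`, so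
`η₀` is the alternating sum of the values at the three frames `γ_i e_[r+3]`; this is
`∑ ± T_(rest - i)`, `T_ρ = triE(h)_ρ` (`Eval2.comm`), and by `triple`, `triD_theta` and injectivity the
restriction of `T_ρ` to `SL_n = M_01` is `(δ t)_ρ`; so `η₀` restricts to zero on `M_01`, and
`η₀ = 0`. -/
theorem stepB {n r m : ℕ} (hm : m + r + 1 = n) (hm' : 0 < m) (hT : ∀ k < n + 2, ThT w k)
    (hi : ∀ q, q + 3 ≤ n + 2 → InjN w (n + 2) q)
    (Z : Type) [TopologicalSpace Z] (Y : (biD w (n + 2) Z).TC)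
    (hY : (biD w (n + 2) Z).Sys n (r + 2) Y)
    (hInv : Inv w (seg (n + 2) (r + 3)) ((biD w (n + 2) Z).ds Y (r + 2) m))
    (h : (coN w (n + 2) (w.FF (n + 2) (r + 2) × Z)).C m)
    (hh : h ∈ (coN w (n + 2) (w.FF (n + 2) (r + 2) × Z)).Zg m)
    (hxh : (biD w (n + 2) Z).ds Y (r + 2) m - ((theta w (n + 2) Z).f (r + 2)).f m h ∈
      (colK w (n + 2) (r + 2) Z).Bg m) :
    (eδ w (n + 2) (r + 2) Z).f m h ∈ (coN w (n + 2) (w.FF (n + 2) (r + 3) × Z)).Bg m := by
  have hx : (biD w (n + 2) Z).ds Y (r + 2) m ∈ (colK w (n + 2) (r + 2) Z).Zg m :=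
    BiCx.Sys.ds_mem _ hY m
  obtain ⟨η₀, hη, hη'⟩ := stepB1 w hm hm' hT hi Z _ hx hInv h hh hxh
  have hρ : (seg n (r + 1)).card = r + 1 := card_seg (by omega)
  -- the restriction of the triples
  obtain ⟨t, ht, ht'⟩ := triple w hm hT Z Y hY
  have hT1 : ∀ (τ : Finset (Fin n)) (hτ : τ.card = r),
      (SG.rs (w := w) (sM_le (Finset.empty_subset (emb2 (∅ : Finset (Fin n))))) Z).f m
        (((triE w n Z).f τ r hτ).f m h) - CSys.dt t τ ∈
          ((sM w (emb2 (∅ : Finset (Fin n)))).co Z).Bg m := by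
    intro τ hτ
    have h1 := ht' τ hτ
    have h2 := ((triD w n Z).f τ r hτ).map_Bg hxh
    rw [map_sub, triD_theta] at h2
    have hinj : (SG.rs (w := w) (sM_le (emb2_mono (Finset.empty_subset τ))) Z).Inj m := by
      refine inj_path w (emb2_mono (Finset.empty_subset τ)) (fun k hk1 hk2 => ?_) Z
      rw [emb2_card ∅ 0 Finset.card_empty] at hk1
      rw [emb2_card τ r hτ] at hk2
      exact (hT k (by omega)).1 m (by omega)
    refine hinj _ ?_ ?_
    · exact AddSubgroup.sub_mem _ (Cx.Hom.map_Zg _ (Cx.Hom.map_Zg _ hh))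
        (AddSubgroup.sum_mem _ fun _ _ => AddSubgroup.zsmul_mem _ (ht _) _)
    · rw [map_sub]
      have h3 := AddSubgroup.sub_mem _ h1 h2
      refine (congrArg (· ∈ ((sM w (emb2 τ)).co Z).Bg m) ?_).mp h3
      have h4 : (SG.rs (w := w) (sM_le (emb2_mono (Finset.empty_subset τ))) Z).f m
          ((SG.rs (w := w) (sM_le (Finset.empty_subset (emb2 (∅ : Finset (Fin n))))) Z).f m
            (((triE w n Z).f τ r hτ).f m h)) =
          (SG.rs (leEmpty w (sM w (emb2 τ))) Z).f m (((triE w n Z).f τ r hτ).f m h) := rfl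
      rw [h4]
      abel
  -- the value of `δ h`
  have h1 : η₀ - ((triE w n Z).f (seg n (r + 1)) (r + 1) hρ).f m
      ((eδ w (n + 2) (r + 2) Z).f m h) ∈ (coN w (n + 2) Z).Bg m := by
    have h2 := ((triE w n Z).f (seg n (r + 1)) (r + 1) hρ).map_Bg hη'
    rw [map_sub] at h2
    have h3 : ((triE w n Z).f (seg n (r + 1)) (r + 1) hρ).f m
        ((((sM w ∅).par (prZ (n := n + 2) (r := r + 3) w Z)).pull w.W).f m η₀) = η₀ := by
      show (Cx.Hom.lin Finset.univ (fun i : Fin 3 => (-1 : ℤ) ^ (i : ℕ)) fun i =>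
        ptE w (gfr w i (emb2 (seg n (r + 1))) (r + 1 + 2) (emb2_card _ (r + 1) hρ)) Z).f m _ = _
      rw [Cx.Hom.lin_f, Fin.sum_univ_three]
      have h4 : ∀ i : Fin 3, (ptE w (gfr w i (emb2 (seg n (r + 1))) (r + 1 + 2)
          (emb2_card _ (r + 1) hρ)) Z).f m
          ((((sM w ∅).par (prZ (n := n + 2) (r := r + 3) w Z)).pull w.W).f m η₀) = η₀ :=
        fun i => StB_ptE w _ Z m η₀
      rw [h4, h4, h4]
      simp only [Fin.val_zero, Fin.val_one, Fin.val_two, pow_zero, pow_one, one_smul,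
        neg_smul, neg_one_sq]
      abel
    rw [h3] at h2
    have h5 := AddSubgroup.neg_mem _ h2
    rwa [neg_sub] at h5
  let T : {i // i ∈ seg n (r + 1)} → (coN w (n + 2) Z).C m := fun i =>
    ((triE w n Z).f ((seg n (r + 1)).erase i.1) r
      (by rw [Finset.card_erase_of_mem i.2, hρ]; rfl)).f m h
  have h2 : ((triE w n Z).f (seg n (r + 1)) (r + 1) hρ).f m ((eδ w (n + 2) (r + 2) Z).f m h) =
      ∑ i : {i // i ∈ seg n (r + 1)}, sgn i.1 (seg n (r + 1)) • T i :=
    (triE w n Z).comm (seg n (r + 1)) r hρ m h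
  -- the restriction of `η₀` is zero
  have h3 : (SG.rs (w := w) (sM_le (Finset.empty_subset (emb2 (∅ : Finset (Fin n))))) Z).f m η₀ ∈
      ((sM w (emb2 (∅ : Finset (Fin n)))).co Z).Bg m := by
    rw [h2] at h1
    have h4 := (SG.rs (w := w) (sM_le (Finset.empty_subset
      (emb2 (∅ : Finset (Fin n))))) Z).map_Bg h1
    have h40 : (SG.rs (w := w) (sM_le (Finset.empty_subset (emb2 (∅ : Finset (Fin n))))) Z).f m
        (η₀ - ∑ i : {i // i ∈ seg n (r + 1)}, sgn i.1 (seg n (r + 1)) • T i) =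
        (SG.rs (w := w) (sM_le (Finset.empty_subset (emb2 (∅ : Finset (Fin n))))) Z).f m η₀ -
        ∑ i : {i // i ∈ seg n (r + 1)}, sgn i.1 (seg n (r + 1)) •
          (SG.rs (w := w) (sM_le (Finset.empty_subset (emb2 (∅ : Finset (Fin n))))) Z).f m (T i) := by
      rw [map_sub, map_sum]
      simp only [map_zsmul]
    rw [h40] at h4
    have h5 : ∑ i : {i // i ∈ seg n (r + 1)}, sgn i.1 (seg n (r + 1)) •
        ((SG.rs (w := w) (sM_le (Finset.empty_subset (emb2 (∅ : Finset (Fin n))))) Z).f m (T i) -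
          CSys.dt t ((seg n (r + 1)).erase i.1)) ∈
        ((sM w (emb2 (∅ : Finset (Fin n)))).co Z).Bg m :=
      AddSubgroup.sum_mem _ fun i _ => AddSubgroup.zsmul_mem _ (hT1 _ _) _
    have h6 : ∑ i : {i // i ∈ seg n (r + 1)}, sgn i.1 (seg n (r + 1)) •
        CSys.dt t ((seg n (r + 1)).erase i.1) = 0 := by
      rw [Finset.sum_coe_sort (seg n (r + 1)) fun i => sgn i (seg n (r + 1)) •
        CSys.dt t ((seg n (r + 1)).erase i)]
      exact CSys.dt_dt t (seg n (r + 1))
    have h7 := AddSubgroup.add_mem _ h4 h5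
    refine (congrArg (· ∈ ((sM w (emb2 (∅ : Finset (Fin n)))).co Z).Bg m) ?_).mp h7
    simp only [smul_sub, Finset.sum_sub_distrib]
    rw [h6]
    abel
  have hη0 : η₀ ∈ (coN w (n + 2) Z).Bg m := by
    refine inj_path w (Finset.empty_subset (emb2 (∅ : Finset (Fin n)))) (fun k hk1 hk2 => ?_) Z
      η₀ hη h3
    rw [emb2_card ∅ 0 Finset.card_empty] at hk2
    rw [Finset.card_empty] at hk1
    rcases (by omega : k = n + 2 ∨ k = n + 1) with rfl | rfl
    · exact hi m (by omega)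
    · exact (hT (n + 1) (by omega)).1 m (by omega)
  have h4 := (((sM w ∅).par (prZ (n := n + 2) (r := r + 3) w Z)).pull w.W).map_Bg hη0
  have h5 := AddSubgroup.add_mem _ hη' h4
  rwa [sub_add_cancel] at h5

end Pool.Agent.BR80
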