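import Pool.Agent.BR80.Kap

/-!
# Step C: the last column
-/

namespace Pool.Agent.BR80

open Matrix

variable (w : World)

private theorem StC_alt {A : Type} [AddCommGroup A] (r : ℕ) (G : Fin (r + 1 + 1) → Fin (r + 1) → A)
    (hG : ∀ i j, G i j = G (i.succAbove j) (j.predAbove i)) :
    ∑ i : Fin (r + 1 + 1), (-1 : ℤ) ^ (i : ℕ) • ∑ j : Fin (r + 1), (-1 : ℤ) ^ (j : ℕ) • G i j = 0 := by
  have h1 : ∀ i : Fin (r + 1 + 1), (-1 : ℤ) ^ (i : ℕ) • ∑ j : Fin (r + 1), (-1 : ℤ) ^ (j : ℕ) • G i j =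
      ∑ j : Fin (r + 1), (-1 : ℤ) ^ ((i : ℕ) + (j : ℕ)) • G i j := by
    intro i
    rw [Finset.smul_sum]
    exact Finset.sum_congr rfl fun j _ => by rw [smul_smul, pow_add]
  simp_rw [h1]
  rw [← Finset.sum_product']
  have key : ∀ a : Fin (r + 1 + 1) × Fin (r + 1),
      (((a.1.succAbove a.2 : Fin (r + 1 + 1)) : ℕ) + ((a.2.predAbove a.1 : Fin (r + 1)) : ℕ) + 1 =
        (a.1 : ℕ) + (a.2 : ℕ) ∨
      ((a.1.succAbove a.2 : Fin (r + 1 + 1)) : ℕ) + ((a.2.predAbove a.1 : Fin (r + 1)) : ℕ) =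
        (a.1 : ℕ) + (a.2 : ℕ) + 1) ∧
      (a.1.succAbove a.2).succAbove (a.2.predAbove a.1) = a.1 ∧
      (a.2.predAbove a.1).predAbove (a.1.succAbove a.2) = a.2 := by
    rintro ⟨i, j⟩
    rcases lt_or_ge j.castSucc i with h | h
    · have hlt : (j : ℕ) < (i : ℕ) := h
      have e1 : i.succAbove j = j.castSucc := Fin.succAbove_of_castSucc_lt _ _ h
      have e2 : j.predAbove i = i.pred (Fin.ne_zero_of_lt h) := Fin.predAbove_of_castSucc_lt _ _ h
      simp only
      rw [e1, e2]
      refine ⟨Or.inl ?_, ?_, ?_⟩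
      · rw [Fin.val_castSucc, Fin.val_pred]
        omega
      · rw [Fin.succAbove_of_le_castSucc _ _ (by
          rw [Fin.le_def, Fin.val_castSucc, Fin.val_castSucc, Fin.val_pred]
          omega), Fin.succ_pred]
      · rw [Fin.predAbove_of_le_castSucc _ _ (by
          rw [Fin.le_def, Fin.val_castSucc, Fin.val_castSucc, Fin.val_pred]
          omega), Fin.castPred_castSucc]
    · have hle : (i : ℕ) ≤ (j : ℕ) := h
      have e1 : i.succAbove j = j.succ := Fin.succAbove_of_le_castSucc _ _ h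
      have e2 : j.predAbove i = i.castPred (Fin.ne_last_of_lt (lt_of_le_of_lt h
        (Fin.castSucc_lt_last j))) := Fin.predAbove_of_le_castSucc _ _ h
      simp only
      rw [e1, e2]
      refine ⟨Or.inr ?_, ?_, ?_⟩
      · rw [Fin.val_succ, Fin.coe_castPred]
        omega
      · rw [Fin.succAbove_of_castSucc_lt _ _ (by
          rw [Fin.castSucc_castPred, Fin.lt_def, Fin.val_succ]
          omega), Fin.castSucc_castPred]
      · rw [Fin.predAbove_of_castSucc_lt _ _ (by
          rw [Fin.castSucc_castPred, Fin.lt_def, Fin.val_succ]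
          omega), Fin.pred_succ]
  refine Finset.sum_involution (fun a _ => (a.1.succAbove a.2, a.2.predAbove a.1)) ?_ ?_ ?_ ?_
  · intro a _
    simp only
    rw [← hG, ← add_smul]
    have h2 : (-1 : ℤ) ^ ((a.1 : ℕ) + (a.2 : ℕ)) + (-1 : ℤ) ^
        (((a.1.succAbove a.2 : Fin (r + 1 + 1)) : ℕ) + ((a.2.predAbove a.1 : Fin (r + 1)) : ℕ)) = 0 := by
      rcases (key a).1 with h | h
      · rw [← h, pow_succ]
        ring
      · rw [h, pow_succ]
        ring
    rw [h2, zero_smul]
  · intro a _ _ h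
    have h2 : a.1.succAbove a.2 = a.1 := congrArg Prod.fst h
    exact Fin.succAbove_ne a.1 a.2 h2
  · intro a _
    exact Finset.mem_univ _
  · intro a _
    exact Prod.ext (key a).2.1 (key a).2.2

/-- The value of `δ h` at a point. -/
private theorem StC_val {k : ℕ} (Z : Type) [TopologicalSpace Z]
    (h : (coN w (k + 1) (w.FF (k + 1) k × Z)).C 0) (c : C(w.FF (k + 1) k × Z, w.W))
    (hc : ∀ g x, GS.ap h g x = c x.2) (g : Fin 0 → ((sM w (∅ : Finset (Fin (k + 1)))).gs
      (w.FF (k + 1) (k + 1) × Z)).G) (x : ((sM w (∅ : Finset (Fin (k + 1)))).gs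
      (w.FF (k + 1) (k + 1) × Z)).X) :
    GS.ap ((eδ w (k + 1) k Z).f 0 h) g x =
      ∑ j : Fin (k + 1), (-1 : ℤ) ^ (j : ℕ) • c (w.face j x.2.1, x.2.2) := by
  rw [eδ, Cx.Hom.lin_f]
  refine (congrArg (fun f : C(_, w.W) => f x) (GS.ap_sum Finset.univ _ g)).trans ?_
  rw [ContinuousMap.sum_apply]
  refine Finset.sum_congr rfl fun j _ => ?_
  refine (congrArg (fun f : C(_, w.W) => f x) (GS.ap_zsmul _ _ g)).trans ?_
  rw [ContinuousMap.smul_apply]
  congr 1
  exact hc _ _

/-- STEP C. -/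
theorem stepC {k : ℕ} (hk : 1 ≤ k) (Z : Type) [TopologicalSpace Z]
    (h : (coN w (k + 1) (w.FF (k + 1) k × Z)).C 0)
    (hh : h ∈ (coN w (k + 1) (w.FF (k + 1) k × Z)).Zg 0)
    (hδ : (colδ w (k + 1) k Z).f 0 (((theta w (k + 1) Z).f k).f 0 h) = 0) :
    (eδ w (k + 1) k Z).f 0 h = 0 := by
  obtain ⟨c, hc⟩ := (zero_cocycle w (k + 1) (w.FF (k + 1) k × Z) h).1 hh
  have hth : ((theta w (k + 1) Z).f (k + 1)).f 0 ((eδ w (k + 1) k Z).f 0 h) = 0 := by
    rw [← hδ]
    exact (theta w (k + 1) Z).comm k 0 h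
  -- vanishing at the translates of rational frames
  have hrat : ∀ (x : SL (k + 1) w.A) (z : Z) (X : FR w (k + 1) (k + 1)),
      ∑ j : Fin (k + 1), (-1 : ℤ) ^ (j : ℕ) • c (w.face j (w.mul (x⁻¹, X.toFF w)), z) = 0 := by
    intro x z X
    have h1 : GS.ap (((theta w (k + 1) Z).f (k + 1)).f 0 ((eδ w (k + 1) k Z).f 0 h))
        (fun i => i.elim0) ((x, z), X) = 0 := by
      rw [hth]
      rfl
    have h2 := StC_val w Z h c hc (fun i => i.elim0)
      (⟨x, mem_Ms_empty x⟩, (w.mul (x⁻¹, X.toFF w), z))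
    rw [← h2]
    refine Eq.trans ?_ h1
    refine Eq.trans ?_ (GS.ap_pull (thG w (k + 1) (k + 1) Z) _ _ _).symm
    exact congrArg (fun q => GS.ap ((eδ w (k + 1) k Z).f 0 h) q
      (⟨x, mem_Ms_empty x⟩, (w.mul (x⁻¹, X.toFF w), z))) (Subsingleton.elim _ _)
  -- the function on `GL_n(A)`
  have hmain : ∀ (z : Z) (g : GL (Fin (k + 1)) w.A),
      ∑ j : Fin (k + 1), (-1 : ℤ) ^ (j : ℕ) • c (w.face j (w.ofGL g), z) = 0 := by
    intro z g
    refine kappa w (by omega) (fun g => ∑ j : Fin (k + 1), (-1 : ℤ) ^ (j : ℕ) • c (w.face j (w.ofGL g), z))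
      ?_ ?_ ?_ g
    · refine continuous_finset_sum _ fun j _ => ?_
      refine Continuous.zsmul ?_ _
      exact c.continuous.comp (((w.face j).continuous.comp w.ofGL.continuous).prodMk continuous_const)
    · intro X g hg
      refine StC_alt k (fun i j => c (w.face j (w.ofGL (g i)), z)) fun i j => ?_
      have h2 : w.face j (w.ofGL (g i)) = w.face (j.predAbove i) (w.ofGL (g (i.succAbove j))) := by
        refine w.vec_inj ?_
        rw [w.vec_face, w.vec_face, w.vec_ofGL, w.vec_ofGL]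
        refine Matrix.ext fun a b => ?_
        rw [Matrix.submatrix_apply, Matrix.submatrix_apply]
        change (g i).1 a _ = (g (i.succAbove j)).1 a _
        rw [hg, hg, Fin.succAbove_succAbove_succAbove_predAbove]
      rw [h2]
    · intro g a ha hga
      have hdet : ((Matrix.diagonal (Fin.cons (α := fun _ => w.F) a (fun _ : Fin k => 1))).det : w.F) = a := by
        rw [Matrix.det_diagonal, Fin.prod_univ_succ]
        simp
      have hli : LinearIndependent w.F
          (Matrix.diagonal (Fin.cons (α := fun _ => w.F) a (fun _ : Fin k => 1))).col := by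
        rw [Matrix.linearIndependent_cols_iff_isUnit, Matrix.isUnit_iff_isUnit_det, hdet]
        exact isUnit_iff_ne_zero.2 ha
      have hinv : (Matrix.diagonal (Fin.cons (α := fun _ => w.F) a⁻¹ (fun _ : Fin k => 1))).map
          (algebraMap w.F w.A) * (Matrix.diagonal (Fin.cons (α := fun _ => w.F) a (fun _ : Fin k => 1))).map
          (algebraMap w.F w.A) = 1 := by
        rw [← Matrix.map_mul, Matrix.diagonal_mul_diagonal]
        have : (fun i => (Fin.cons (α := fun _ => w.F) a⁻¹ (fun _ : Fin k => (1 : w.F)) i) *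
            (Fin.cons (α := fun _ => w.F) a (fun _ : Fin k => (1 : w.F)) i)) = fun _ : Fin (k + 1) => (1 : w.F) := by
          funext i
          refine Fin.cases ?_ (fun i => ?_) i
          · simp [ha]
          · simp
        rw [this, Matrix.diagonal_one, Matrix.map_one _ (map_zero _) (map_one _)]
      let y : SL (k + 1) w.A := ⟨g.1 * (Matrix.diagonal (Fin.cons (α := fun _ => w.F) a⁻¹
          (fun _ : Fin k => 1))).map (algebraMap w.F w.A), by
        rw [Matrix.det_mul, hga]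
        have h1 : ((Matrix.diagonal (Fin.cons (α := fun _ => w.F) a⁻¹
          (fun _ : Fin k => (1 : w.F)))).map (algebraMap w.F w.A)).det = algebraMap w.F w.A a⁻¹ := by
          rw [← RingHom.mapMatrix_apply, ← RingHom.map_det, Matrix.det_diagonal, Fin.prod_univ_succ]
          simp
        rw [h1, ← map_mul, mul_inv_cancel₀ ha, map_one]⟩
      have h3 := hrat y⁻¹ z ⟨Matrix.diagonal (Fin.cons (α := fun _ => w.F) a (fun _ : Fin k => 1)), hli⟩
      rw [inv_inv] at h3
      have h4 : w.mul (y, FR.toFF w (⟨Matrix.diagonal (Fin.cons (α := fun _ => w.F) a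
          (fun _ : Fin k => 1)), hli⟩ : FR w (k + 1) (k + 1))) = w.ofGL g := by
        refine w.vec_inj ?_
        rw [w.vec_mul, w.vec_ofGL, FR.toFF, w.vec_rat]
        change (g.1 * _) * _ = _
        rw [Matrix.mul_assoc, hinv, Matrix.mul_one]
      rw [h4] at h3
      exact h3
  -- the end
  refine GS.co_ext fun g x => ?_
  rw [StC_val w Z h c hc g x]
  have hu := w.isUnit_det x.2.1
  have h5 : x.2.1 = w.ofGL (Matrix.nonsingInvUnit (w.vec x.2.1) hu) := by
    refine w.vec_inj ?_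
    rw [w.vec_ofGL]
    rfl
  rw [h5]
  exact hmain _ _

end Pool.Agent.BR80
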