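import Pool.Agent.BR80.StA
import Pool.Agent.BR80.StB
import Pool.Agent.BR80.StC
import Pool.Agent.BR80.Low

/-!
# The edge
-/

namespace Pool.Agent.BR80

open Matrix

variable (w : World)

/-- The class of an obstruction at the edge: `stepA`, `stepB` (for `m > 0`), `stepC` (for
`m = 0`). Here `hInv` is applied first with `V = seg (r+2)`, then with `V = seg (r+3)`. -/
theorem edge_class {n r m : ℕ} (hm : m + r + 1 = n) (hT : ∀ k < n + 2, ThT w k)
    (Z : Type) [TopologicalSpace Z] (Y : (biD w (n + 2) Z).TC)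
    (hY : (biD w (n + 2) Z).Sys n (r + 2) Y)
    (hInv : Inv w (seg (n + 2) (r + 2)) ((biD w (n + 2) Z).ds Y (r + 2) m))
    (hInv' : 0 < m → (∃ h ∈ (coN w (n + 2) (w.FF (n + 2) (r + 2) × Z)).Zg m,
      (biD w (n + 2) Z).ds Y (r + 2) m - ((theta w (n + 2) Z).f (r + 2)).f m h ∈
        (colK w (n + 2) (r + 2) Z).Bg m) →
      Inv w (seg (n + 2) (r + 3)) ((biD w (n + 2) Z).ds Y (r + 2) m)) :
    ∃ h ∈ (coN w (n + 2) (w.FF (n + 2) (r + 2) × Z)).Zg m,
      (biD w (n + 2) Z).ds Y (r + 2) m - ((theta w (n + 2) Z).f (r + 2)).f m h ∈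
        (colK w (n + 2) (r + 2) Z).Bg m ∧
      (eδ w (n + 2) (r + 2) Z).f m h ∈ (coN w (n + 2) (w.FF (n + 2) (r + 3) × Z)).Bg m := by
  have hi : ∀ q, q + 3 ≤ n + 2 → InjN w (n + 2) q := fun q h => (low w hT q).1 h
  have hs : ∀ q, q + 4 ≤ n + 2 → SurN w (n + 2) q := fun q h => (low w hT q).2 h
  obtain ⟨h, hh, hxh⟩ := stepA w hm hT hi hs Z Y hY hInv
  refine ⟨h, hh, hxh, ?_⟩
  rcases Nat.eq_zero_or_pos m with hm0 | hm0
  · subst hm0
    obtain rfl : n = r + 1 := by omega
    rw [Cx.mem_Bg_zero] at hxh ⊢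
    refine stepC w (k := r + 2) (by omega) Z h hh ?_
    have h1 : ((theta w (r + 1 + 2) Z).f (r + 2)).f 0 h =
        (colδ w (r + 1 + 2) (r + 1) Z).f 0 (Y (r + 1) 0) := (sub_eq_zero.1 hxh).symm
    have h2 := (biD w (r + 1 + 2) Z).δδ (r + 1) 0 (Y (r + 1) 0)
    refine Eq.trans ?_ h2
    exact congrArg (fun v => (colδ w (r + 1 + 2) (r + 2) Z).f 0 v) h1
  · exact stepB w hm hm0 hT hi Z Y hY (hInv' hm0 ⟨h, hh, hxh⟩) h hh hxh

/-- Case (b): surjectivity in degree `n - 3` (`exists_y1`, `start_y1`, `run` with `N = n - 2`,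
`r₀ = 3`, `edge_class`, `inv_b`, `end_y1`). -/
theorem edge_sur {n q : ℕ} (hn : q + 3 = n) (hT : ∀ k < n, ThT w k) : SurN w n q := by
  subst hn
  intro h Z _ c hc
  have htw : TwN w (q + 3 - 1) q := tw_of_inj w ((hT (q + 3 - 1) (by omega)).1 q (by omega))
  obtain ⟨y, hy, h1, h2, h3⟩ := exists_y1 w (n := q + 3) (by omega) htw Z ⟨0, h⟩ rfl c hc
  have hob := ob_two w (n := q + 3) (by omega) Z ⟨0, h⟩ rfl y hy h3
  obtain ⟨Y, hY, hY0, hY1⟩ := start_y1 w (n := q + 3) (by omega) Z y hy hob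
  have hi : ∀ q', q' + 3 ≤ q + 3 → InjN w (q + 3) q' := fun q' h => (low w hT q').1 h
  have hs : ∀ q', q' + 4 ≤ q + 3 → SurN w (q + 3) q' := fun q' h => (low w hT q').2 h
  obtain ⟨Y', hY', hj⟩ := run w (n := q + 3) (N := q + 1) (r₀ := 3) (by norm_num) (by omega)
    (by omega) Z Y hY (by
    intro r hr3 hrN Y' hY' hj m hm
    have g0 : ∀ m, Y' 0 m = 0 := fun m => (hj 0 (by norm_num) m).trans (hY0 m)
    have g1 : ∀ (j : Fin (q + 3)) (Z' : Type) [TopologicalSpace Z'] (ψ : C(Z', SL (q + 3) w.A))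
        (ζ : C(Z', Z)), ∀ q', (ev1 w j ψ ζ).f q' (Y' 1 q') - (ev1 w j 1 ζ).f q' (Y' 1 q') ∈
          ((sM w {j}).co Z').Bg q' := by
      intro j Z' _ ψ ζ q'
      rw [hj 1 (by norm_num) q']
      by_cases hq : q' = q
      · subst hq
        rw [hY1]
        exact h2 j Z' ψ ζ
      · rw [hY.1 1 q' (by omega), map_zero, map_zero, sub_zero]
        exact AddSubgroup.zero_mem _
    have hInv : ∀ V : Finset (Fin (q + 3)), Inv w V ((biD w (q + 3) Z).ds Y' r m) := fun V =>
      inv_b w (n := q + 3) (r := r) (m := m) (by omega) hr3 hT hi hs Z Y' hY' g0 g1 V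
    obtain ⟨r, rfl⟩ : ∃ r', r = r' + 2 := ⟨r - 2, by omega⟩
    exact edge_class w (n := q + 1) (r := r) (m := m) (by omega) hT Z Y' hY' (hInv _)
      fun _ _ => hInv _)
  refine end_y1 w (n := q + 3) (by omega) Z ⟨0, h⟩ rfl c Y' hY'
    (fun m => (hj 0 (by norm_num) m).trans (hY0 m)) ?_
  have h4 := h1 Z 1 (ContinuousMap.id Z)
  rw [hj 1 (by norm_num) q, hY1]
  exact h4

/-- The start of the system: only the member in the column `0` and degree `q` is not zero. -/
private theorem Edge_start {n q : ℕ} (Z : Type) [TopologicalSpace Z] (x : (colK w n 0 Z).C q)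
    (hx : x ∈ (colK w n 0 Z).Zg q) :
    ∃ Y : (biD w n Z).TC, (biD w n Z).Sys q 1 Y ∧ Y 0 q = x := by
  classical
  let Y : (biD w n Z).TC := Function.update (fun _ _ => 0) 0 (Function.update (fun _ => 0) q x)
  have h0 : Y 0 q = x := by
    change (Function.update (fun _ _ => 0) 0 (Function.update (fun _ => 0) q x) :
      (biD w n Z).TC) 0 q = x
    rw [Function.update_self, Function.update_self]
  have h1 : ∀ m, m ≠ q → Y 0 m = 0 := by
    intro m hm
    change (Function.update (fun _ _ => 0) 0 (Function.update (fun _ => 0) q x) :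
      (biD w n Z).TC) 0 m = 0
    rw [Function.update_self, Function.update_of_ne hm]
  have h2 : ∀ r m, r ≠ 0 → Y r m = 0 := by
    intro r m hr
    change (Function.update (fun _ _ => 0) 0 (Function.update (fun _ => 0) q x) :
      (biD w n Z).TC) r m = 0
    rw [Function.update_of_ne hr]
  refine ⟨Y, ⟨fun r m hrm => ?_, fun j hj m => ?_⟩, h0⟩
  · rcases Nat.eq_zero_or_pos r with hr | hr
    · subst hr
      exact h1 m (by omega)
    · exact h2 r m (by omega)
  · obtain rfl : j = 0 := by omega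
    cases m with
    | zero => rw [BiCx.tot_zero, BiCx.ds_zero]
    | succ m =>
      rw [BiCx.tot_succ, BiCx.ds_zero, smul_zero, add_zero]
      by_cases hm : m = q
      · subst hm
        rw [h0]
        exact hx
      · rw [h1 m hm, map_zero]

/-- Case (a): injectivity in degree `n - 2` (`ob_one`, `run` with `N = n - 2`, `r₀ = 2`,
`edge_class`, `inv_a`, `BiCx.Sys.zero_mem`). -/
theorem edge_inj {n q : ℕ} (hn : q + 2 = n) (hq : 1 ≤ q) (hT : ∀ k < n, ThT w k)
    (hs : ∀ q, q + 3 ≤ n → SurN w n q) : InjN w n q := by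
  subst hn
  intro h Z _ x hx hb
  have hi : ∀ q', q' + 3 ≤ q + 2 → InjN w (q + 2) q' := fun q' h => (low w hT q').1 h
  have hob := ob_one w (n := q + 2) (by omega) Z x hx hb
  obtain ⟨Y0, hY0, hY00⟩ := Edge_start w (n := q + 2) Z ((col0 w (q + 2) Z).f q x)
    ((col0 w (q + 2) Z).map_Zg hx)
  obtain ⟨Y, hY, hYj⟩ := BiCx.Sys.extend (biD w (q + 2) Z) hY0 q (by omega) (by
    rw [BiCx.ds_succ, hY00]
    exact hob)
  obtain ⟨Y', hY', hj⟩ := run w (n := q + 2) (N := q) (r₀ := 2) le_rfl (by omega)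
    (by omega) Z Y hY (by
    intro r hr2 hrN Y' hY' hj m hm
    obtain ⟨r, rfl⟩ : ∃ r', r = r' + 2 := ⟨r - 2, by omega⟩
    refine edge_class w (n := q) (r := r) (m := m) (by omega) hT Z Y' hY' ?_ ?_
    · refine inv_a w (n := q + 2) (r := r + 2) (m := m) (by omega) (by omega) hT hi hs Z Y' hY'
        _ ⟨⟨0, by omega⟩, mem_seg.2 (by simp)⟩ ?_ ?_
      · intro hu
        have h5 : (⟨q + 1, by omega⟩ : Fin (q + 2)) ∈ seg (q + 2) (r + 2) := by
          rw [hu]; exact Finset.mem_univ _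
        have h6 := mem_seg.1 h5
        have h7 : q + 1 < r + 2 := h6
        omega
      · intro τ hτ hc
        left
        refine Finset.eq_of_subset_of_card_le hτ ?_
        rw [hc, card_seg (by omega)]
    · rintro hm0 ⟨u, hu, hxu⟩
      refine inv_a w (n := q + 2) (r := r + 2) (m := m) (by omega) (by omega) hT hi hs Z Y' hY'
        _ ⟨⟨0, by omega⟩, mem_seg.2 (by simp)⟩ ?_ ?_
      · intro hv
        have h5 : (⟨q + 1, by omega⟩ : Fin (q + 2)) ∈ seg (q + 2) (r + 3) := by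
          rw [hv]; exact Finset.mem_univ _
        have h6 := mem_seg.1 h5
        have h7 : q + 1 < r + 3 := h6
        omega
      · intro τ hτ hc
        right
        have h8 := (evT w τ (r + 2) hc 1 (ContinuousMap.id Z)).map_Bg hxu
        rw [map_sub] at h8
        have h9 := ev_theta w (sM w τ) 1 (ContinuousMap.id Z) (FR.of w τ (r + 2) hc)
          (FR.of_fixedM w τ (r + 2) hc) (toFF_fixed w τ (r + 2) hc) m u
        refine ⟨(twM w 1).f m ((((sM w ∅).par (eta w 1 (ContinuousMap.id Z)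
          (FR.of w τ (r + 2) hc))).pull w.W).f m u), (twM w 1).map_Zg
            (((((sM w ∅).par (eta w 1 (ContinuousMap.id Z)
          (FR.of w τ (r + 2) hc))).pull w.W)).map_Zg hu), ?_⟩
        rw [← h9]
        exact h8)
  have h10 : Y' 0 q = (col0 w (q + 2) Z).f q x :=
    (hj 0 (by norm_num) q).trans ((hYj 0 (by norm_num) q).trans hY00)
  have h11 := BiCx.Sys.zero_mem (biD w (q + 2) Z) (biD_ex w (q + 2) Z) (by omega) hY'
  rw [h10] at h11
  exact (col0_qis w (q + 2) Z q).1 x hx h11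

end Pool.Agent.BR80
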