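import Pool.Agent.BR80.Col

/-!
# Exactness of the rows of the bicomplex of the columns
-/

namespace Pool.Agent.BR80

open Matrix

variable (w : World)

/-- General position over the infinite field `F`: for finitely many `r`-frames, `r < n`, there is
a vector which together with each of them is a frame. -/
theorem FR.gp {n r : ℕ} (hr : r < n) (I : Type) [Finite I] (X : I → FR w n r) :
    ∃ v : Fin n → w.F, ∀ i, ∃ Y : FR w n (r + 1), Y.face 0 = X i ∧ ∀ k, Y.1 k 0 = v k := by
  classical
  have : Fintype I := Fintype.ofFinite I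
  let S : I → Submodule w.F (Fin n → w.F) := fun i => Submodule.span w.F (Set.range (X i).1.col)
  have h1 : (⊤ : Submodule w.F (Fin n → w.F)) ∉ Finset.univ.image S := by
    intro h
    rw [Finset.mem_image] at h
    obtain ⟨i, _, hi⟩ := h
    have h2 := finrank_span_eq_card (X i).2
    have h3 : Module.finrank w.F (S i) = n := by
      rw [hi, finrank_top, Module.finrank_fin_fun]
    have h4 : Module.finrank w.F (S i) = r := by
      rw [h2, Fintype.card_fin]
    omega
  have h2 := Subspace.biUnion_ne_univ_of_top_notMem h1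
  obtain ⟨v, hv⟩ := (Set.ne_univ_iff_exists_notMem _).mp h2
  refine ⟨v, fun i => ?_⟩
  have h3 : v ∉ Submodule.span w.F (Set.range (X i).1.col) := by
    intro h
    apply hv
    rw [Set.mem_iUnion₂]
    exact ⟨S i, Finset.mem_image_of_mem S (Finset.mem_univ i), h⟩
  have h4 : LinearIndependent w.F (Fin.cons v (X i).1.col : Fin (r + 1) → (Fin n → w.F)) :=
    linearIndependent_finCons.mpr ⟨(X i).2, h3⟩
  refine ⟨⟨Matrix.of fun k j => (Fin.cons v (X i).1.col : Fin (r + 1) → (Fin n → w.F)) j k, h4⟩,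
    ?_, fun k => rfl⟩
  apply FR.ext'
  ext k j
  rfl

/-- The boundary of a chain of rational frames. -/
private noncomputable def exD_bd (n r : ℕ) :
    (FR w n (r + 1) →₀ ℤ) →ₗ[ℤ] (FR w n r →₀ ℤ) :=
  Finsupp.linearCombination ℤ fun X =>
    ∑ j : Fin (r + 1), (-1 : ℤ) ^ (j : ℕ) • Finsupp.single (X.face j) (1 : ℤ)

private theorem exD_bd_single (n r : ℕ) (X : FR w n (r + 1)) :
    exD_bd w n r (Finsupp.single X 1) =
      ∑ j : Fin (r + 1), (-1 : ℤ) ^ (j : ℕ) • Finsupp.single (X.face j) (1 : ℤ) := by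
  unfold exD_bd
  rw [Finsupp.linearCombination_single, one_smul]

private theorem exD_face_face {n r : ℕ} (X : FR w n (r + 2)) (j : Fin (r + 2))
    (i : Fin (r + 1)) :
    (X.face (j.succAbove i)).face (i.predAbove j) = (X.face j).face i := by
  apply FR.ext'
  ext a b
  change X.1 a ((j.succAbove i).succAbove ((i.predAbove j).succAbove b)) =
    X.1 a (j.succAbove (i.succAbove b))
  rw [Fin.succAbove_succAbove_succAbove_predAbove]

private theorem exD_bd_bd (n r : ℕ) (c : FR w n (r + 2) →₀ ℤ) :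
    exD_bd w n r (exD_bd w n (r + 1) c) = 0 := by
  have h0 : (exD_bd w n r).comp (exD_bd w n (r + 1)) = 0 := by
    apply Finsupp.lhom_ext'
    intro X
    apply LinearMap.ext_ring
    change exD_bd w n r (exD_bd w n (r + 1) (Finsupp.single X 1)) = 0
    rw [exD_bd_single, map_sum]
    have h1 : ∑ j : Fin (r + 2), exD_bd w n r ((-1 : ℤ) ^ (j : ℕ) •
        Finsupp.single (X.face j) (1 : ℤ)) =
        ∑ p : Fin (r + 2) × Fin (r + 1), (-1 : ℤ) ^ ((p.1 : ℕ) + (p.2 : ℕ)) •
          Finsupp.single ((X.face p.1).face p.2) (1 : ℤ) := by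
      rw [Fintype.sum_prod_type]
      refine Finset.sum_congr rfl fun j _ => ?_
      rw [map_smul, exD_bd_single, Finset.smul_sum]
      refine Finset.sum_congr rfl fun i _ => ?_
      rw [smul_smul, pow_add]
    rw [h1]
    refine Finset.sum_involution (fun p _ => (p.1.succAbove p.2, p.2.predAbove p.1)) ?_ ?_ ?_ ?_
    · rintro ⟨j, i⟩ _
      change (-1 : ℤ) ^ ((j : ℕ) + (i : ℕ)) • Finsupp.single ((X.face j).face i) (1 : ℤ) +
        (-1 : ℤ) ^ (((j.succAbove i : Fin (r + 2)) : ℕ) + ((i.predAbove j : Fin (r + 1)) : ℕ)) •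
          Finsupp.single ((X.face (j.succAbove i)).face (i.predAbove j)) (1 : ℤ) = 0
      rw [exD_face_face, Fin.neg_one_pow_succAbove_add_predAbove, neg_smul, add_neg_cancel]
    · rintro ⟨j, i⟩ _ _ h2
      exact Fin.succAbove_ne j i (congrArg Prod.fst h2)
    · intro p _
      exact Finset.mem_univ _
    · rintro ⟨j, i⟩ _
      exact Prod.ext (Fin.succAbove_succAbove_predAbove j i)
        (Fin.predAbove_predAbove_succAbove j i)
  exact LinearMap.congr_fun h0 c

private theorem exD_single_zero {n : ℕ} (X Y : FR w n 0) : X = Y := by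
  apply FR.ext'
  ext a b
  exact b.elim0

private theorem exD_exact_zero {n : ℕ} (hn : 0 < n) (c : FR w n 0 →₀ ℤ) :
    ∃ b : FR w n 1 →₀ ℤ, exD_bd w n 0 b = c := by
  classical
  obtain ⟨X0⟩ : Nonempty (FR w n 0) :=
    ⟨⟨Matrix.of fun (i : Fin n) (j : Fin 0) => (0 : w.F), linearIndependent_empty_type⟩⟩
  obtain ⟨v, hv⟩ := FR.gp w hn Unit fun _ => X0
  obtain ⟨Y, hY, _⟩ := hv ()
  refine ⟨(c X0) • Finsupp.single Y 1, ?_⟩
  have h1 : ∑ j : Fin (0 + 1), (-1 : ℤ) ^ (j : ℕ) • Finsupp.single (Y.face j) (1 : ℤ) =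
      Finsupp.single X0 1 := by
    rw [Fin.sum_univ_one, hY]
    simp
  rw [map_smul, exD_bd_single, h1, Finsupp.smul_single, smul_eq_mul, mul_one]
  ext Z
  rw [exD_single_zero w Z X0, Finsupp.single_eq_same]

private theorem exD_exact {n r : ℕ} (hr : r + 1 < n) (c : FR w n (r + 1) →₀ ℤ)
    (hc : exD_bd w n r c = 0) : ∃ b : FR w n (r + 2) →₀ ℤ, exD_bd w n (r + 1) b = c := by
  classical
  obtain ⟨v, hv⟩ := FR.gp w hr {X // X ∈ c.support} fun X => X.1
  choose Y hY1 hY2 using hv
  -- the join with `v`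
  let J : FR w n r → (FR w n (r + 1) →₀ ℤ) := fun Z =>
    if h : ∃ T : FR w n (r + 1), T.face 0 = Z ∧ ∀ k, T.1 k 0 = v k then
      Finsupp.single h.choose 1 else 0
  have hJ : ∀ T : FR w n (r + 1), (∀ k, T.1 k 0 = v k) → J (T.face 0) = Finsupp.single T 1 := by
    intro T hT
    have h : ∃ T' : FR w n (r + 1), T'.face 0 = T.face 0 ∧ ∀ k, T'.1 k 0 = v k := ⟨T, rfl, hT⟩
    change (if h : ∃ T' : FR w n (r + 1), T'.face 0 = T.face 0 ∧ ∀ k, T'.1 k 0 = v k then
      Finsupp.single h.choose 1 else 0) = _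
    rw [dif_pos h]
    have h2 := h.choose_spec
    have h3 : h.choose = T := by
      apply FR.ext'
      ext a b
      refine Fin.cases ?_ (fun b => ?_) b
      · rw [h2.2 a, hT a]
      · have h4 := congrFun (congrFun (congrArg Subtype.val h2.1) a) b
        exact h4
    rw [h3]
  let L : (FR w n r →₀ ℤ) →ₗ[ℤ] (FR w n (r + 1) →₀ ℤ) := Finsupp.linearCombination ℤ J
  let YY : FR w n (r + 1) → (FR w n (r + 2) →₀ ℤ) := fun X =>
    if h : X ∈ c.support then Finsupp.single (Y ⟨X, h⟩) 1 else 0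
  have key : ∀ X ∈ c.support, exD_bd w n (r + 1) (YY X) =
      Finsupp.single X 1 - L (exD_bd w n r (Finsupp.single X 1)) := by
    intro X hX
    have h1 : YY X = Finsupp.single (Y ⟨X, hX⟩) 1 := dif_pos hX
    rw [h1, exD_bd_single, Fin.sum_univ_succ]
    have h2 : (Y ⟨X, hX⟩).face 0 = X := hY1 ⟨X, hX⟩
    rw [h2, exD_bd_single, map_sum]
    have h3 : ∀ j : Fin (r + 1), L ((-1 : ℤ) ^ (j : ℕ) • Finsupp.single (X.face j) (1 : ℤ)) =
        (-1 : ℤ) ^ (j : ℕ) • Finsupp.single ((Y ⟨X, hX⟩).face j.succ) 1 := by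
      intro j
      rw [map_smul]
      have h4 : L (Finsupp.single (X.face j) (1 : ℤ)) = J (X.face j) := by
        change Finsupp.linearCombination ℤ J _ = _
        rw [Finsupp.linearCombination_single, one_smul]
      rw [h4]
      have h5 : X.face j = ((Y ⟨X, hX⟩).face j.succ).face 0 := by
        have h7 : X.face j = ((Y ⟨X, hX⟩).face 0).face j := by rw [h2]
        rw [h7]
        apply FR.ext'
        ext a b
        change (Y ⟨X, hX⟩).1 a ((0 : Fin (r + 2)).succAbove (j.succAbove b)) =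
          (Y ⟨X, hX⟩).1 a (j.succ.succAbove ((0 : Fin (r + 1)).succAbove b))
        rw [Fin.zero_succAbove, Fin.zero_succAbove, Fin.succ_succAbove_succ]
      rw [h5, hJ]
      intro k
      have h6 := hY2 ⟨X, hX⟩ k
      change (Y ⟨X, hX⟩).1 k (j.succ.succAbove 0) = v k
      rw [← h6, Fin.succ_succAbove_zero]
    rw [Finset.sum_congr rfl fun j _ => h3 j]
    rw [sub_eq_add_neg, ← Finset.sum_neg_distrib]
    congr 1
    · simp
    · refine Finset.sum_congr rfl fun j _ => ?_
      rw [Fin.val_succ, pow_succ, mul_neg_one, neg_smul]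
  refine ⟨∑ X ∈ c.support, c X • YY X, ?_⟩
  rw [map_sum]
  have h1 : ∀ X ∈ c.support, exD_bd w n (r + 1) (c X • YY X) =
      Finsupp.single X (c X) - L (exD_bd w n r (Finsupp.single X (c X))) := by
    intro X hX
    have h2 : Finsupp.single X (c X) = c X • Finsupp.single X (1 : ℤ) := by
      rw [Finsupp.smul_single, smul_eq_mul, mul_one]
    rw [map_smul, key X hX, h2, map_smul, map_smul, smul_sub]
  rw [Finset.sum_congr rfl h1, Finset.sum_sub_distrib, ← map_sum, ← map_sum]
  have h2 : ∑ X ∈ c.support, Finsupp.single X (c X) = c := Finsupp.sum_single c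
  rw [h2, hc, map_zero, sub_zero]

/-- A section of the boundary over the cycles. -/
private theorem exD_section {n : ℕ} : ∀ r : ℕ, r + 1 ≤ n →
    ∃ k : (FR w n r →₀ ℤ) →ₗ[ℤ] (FR w n (r + 1) →₀ ℤ),
      (∀ c, (∃ b, exD_bd w n r b = c) → exD_bd w n r (k c) = c) ∧
      (∀ b : FR w n (r + 1) →₀ ℤ, r + 1 < n → ∃ b' : FR w n (r + 2) →₀ ℤ,
        exD_bd w n (r + 1) b' + k (exD_bd w n r b) = b) := by
  classical
  intro r
  induction r with
  | zero =>
    intro hr
    have h1 : ∀ X : FR w n 0, ∃ b, exD_bd w n 0 b = Finsupp.single X 1 := fun X =>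
      exD_exact_zero w hr _
    choose k hk using h1
    have h2 : ∀ c, exD_bd w n 0 (Finsupp.linearCombination ℤ k c) = c := by
      intro c
      have h3 : (exD_bd w n 0).comp (Finsupp.linearCombination ℤ k) = LinearMap.id := by
        apply Finsupp.lhom_ext'
        intro X
        apply LinearMap.ext_ring
        change exD_bd w n 0 (Finsupp.linearCombination ℤ k (Finsupp.single X 1)) =
          Finsupp.single X 1
        rw [Finsupp.linearCombination_single, one_smul, hk]
      exact LinearMap.congr_fun h3 c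
    refine ⟨Finsupp.linearCombination ℤ k, fun c _ => h2 c, fun b hn => ?_⟩
    obtain ⟨b', hb'⟩ := exD_exact w hn (b - Finsupp.linearCombination ℤ k (exD_bd w n 0 b))
      (by rw [map_sub, h2, sub_self])
    exact ⟨b', by rw [hb', sub_add_cancel]⟩
  | succ r ih =>
    intro hr
    obtain ⟨k, hk1, hk2⟩ := ih (by omega)
    have h1 : ∀ X : FR w n (r + 1), ∃ b', exD_bd w n (r + 1) b' +
        k (exD_bd w n r (Finsupp.single X 1)) = Finsupp.single X 1 := fun X =>
      hk2 _ (by omega)
    choose l hl using h1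
    have h2 : ∀ c, exD_bd w n (r + 1) (Finsupp.linearCombination ℤ l c) +
        k (exD_bd w n r c) = c := by
      intro c
      have h3 : (exD_bd w n (r + 1)).comp (Finsupp.linearCombination ℤ l) +
          k.comp (exD_bd w n r) = LinearMap.id := by
        apply Finsupp.lhom_ext'
        intro X
        apply LinearMap.ext_ring
        change exD_bd w n (r + 1) (Finsupp.linearCombination ℤ l (Finsupp.single X 1)) +
          k (exD_bd w n r (Finsupp.single X 1)) = Finsupp.single X 1
        rw [Finsupp.linearCombination_single, one_smul, hl]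
      exact LinearMap.congr_fun h3 c
    have h3 : ∀ c, exD_bd w n r c = 0 →
        exD_bd w n (r + 1) (Finsupp.linearCombination ℤ l c) = c := by
      intro c hc
      have h4 := h2 c
      rw [hc, map_zero, add_zero] at h4
      exact h4
    refine ⟨Finsupp.linearCombination ℤ l, fun c hc => ?_, fun b hn => ?_⟩
    · obtain ⟨b, rfl⟩ := hc
      exact h3 _ (exD_bd_bd w n r b)
    · obtain ⟨b', hb'⟩ := exD_exact w hn
        (b - Finsupp.linearCombination ℤ l (exD_bd w n (r + 1) b))
        (by rw [map_sub, h3 _ (exD_bd_bd w n r b), sub_self])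
      exact ⟨b', by rw [hb', sub_add_cancel]⟩

/-- The complex of the functions on the frames with values in an abelian group is exact. -/
theorem FR.fun_exact {n r : ℕ} (hr : r + 1 < n) (N : Type) [AddCommGroup N]
    (f : FR w n (r + 1) → N)
    (h : ∀ X : FR w n (r + 2), ∑ j : Fin (r + 2), (-1 : ℤ) ^ (j : ℕ) • f (X.face j) = 0) :
    ∃ g : FR w n r → N, ∀ X : FR w n (r + 1),
      ∑ j : Fin (r + 1), (-1 : ℤ) ^ (j : ℕ) • g (X.face j) = f X := by
  classical
  obtain ⟨k, _, hk⟩ := exD_section w r (n := n) (by omega)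
  let fl : (FR w n (r + 1) →₀ ℤ) →ₗ[ℤ] N := Finsupp.linearCombination ℤ f
  have hfl : ∀ X, fl (Finsupp.single X 1) = f X := by
    intro X
    change Finsupp.linearCombination ℤ f _ = _
    rw [Finsupp.linearCombination_single, one_smul]
  have h0 : ∀ c, fl (exD_bd w n (r + 1) c) = 0 := by
    intro c
    have h1 : fl.comp (exD_bd w n (r + 1)) = 0 := by
      apply Finsupp.lhom_ext'
      intro X
      apply LinearMap.ext_ring
      change fl (exD_bd w n (r + 1) (Finsupp.single X 1)) = 0
      rw [exD_bd_single, map_sum, ← h X]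
      refine Finset.sum_congr rfl fun j _ => ?_
      rw [map_smul, hfl]
    exact LinearMap.congr_fun h1 c
  refine ⟨fun Y => fl (k (Finsupp.single Y 1)), fun X => ?_⟩
  obtain ⟨b, hb⟩ := hk (Finsupp.single X 1) hr
  have h1 := congrArg fl hb
  rw [map_add, h0, zero_add, hfl, exD_bd_single, map_sum, map_sum] at h1
  rw [← h1]
  refine Finset.sum_congr rfl fun j _ => ?_
  rw [map_smul, map_smul]

private theorem exD_ap_lin {S T : GS} {ι : Type} (s : Finset ι) (c : ι → ℤ)
    (φ : ι → GS.Hom S T) {m : ℕ} (y : (T.co w.W).C m) (g : Fin m → S.G) (x : S.X) :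
    GS.ap ((Cx.Hom.lin s c fun j => (φ j).pull w.W).f m y) g x =
      ∑ j ∈ s, c j • GS.ap y (fun i => (φ j).φ (g i)) ((φ j).u x) := by
  rw [Cx.Hom.lin_f, GS.ap_sum, ContinuousMap.sum_apply]
  refine Finset.sum_congr rfl fun j _ => ?_
  rw [GS.ap_zsmul, ContinuousMap.smul_apply, GS.ap_pull]

private theorem exD_delta {n r : ℕ} {Z : Type} [TopologicalSpace Z] {m : ℕ}
    (y : (colK w n r Z).C m) (g : Fin m → (gsC w n (r + 1) Z).G) (p : SL n w.A × Z)
    (X : FR w n (r + 1)) :
    GS.ap ((colδ w n r Z).f m y) g (p, X) =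
      ∑ j : Fin (r + 1), (-1 : ℤ) ^ (j : ℕ) •
        GS.ap (S := gsC w n r Z) y g (p, X.face j) :=
  exD_ap_lin w Finset.univ (fun j : Fin (r + 1) => (-1 : ℤ) ^ (j : ℕ))
    (fun j => gsFace w j Z) y g (p, X)

/-- The rows of the bicomplex of the columns are exact. -/
theorem biD_ex (n : ℕ) (Z : Type) [TopologicalSpace Z] : (biD w n Z).Ex n := by
  constructor
  · intro hn m x hx
    refine GS.co_ext fun g y => ?_
    obtain ⟨p, X⟩ := y
    obtain ⟨v, hv⟩ := FR.gp w hn Unit fun _ => X
    obtain ⟨Y, hY, _⟩ := hv ()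
    have h1 := exD_delta w x g p Y
    have h3 : (colδ w n 0 Z).f m x = 0 := hx
    rw [h3, Fin.sum_univ_one, hY] at h1
    change GS.ap x g (p, X) = 0
    have h4 : (0 : w.W) = (-1 : ℤ) ^ (((0 : Fin (0 + 1)) : ℕ)) • GS.ap x g (p, X) := h1
    rw [h4]
    simp
  · intro r hr m x hx
    have h1 : ∀ g : Fin m → (gsC w n (r + 1) Z).G, ∃ G : FR w n r → C(SL n w.A × Z, w.W),
        ∀ (X : FR w n (r + 1)) (p : SL n w.A × Z),
          ∑ j : Fin (r + 1), (-1 : ℤ) ^ (j : ℕ) • G (X.face j) p = GS.ap x g (p, X) := by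
      intro g
      have hc : ∀ X : FR w n (r + 1), Continuous fun p : SL n w.A × Z => GS.ap x g (p, X) :=
        fun X => (GS.ap x g).continuous.comp (Continuous.prodMk_left X)
      obtain ⟨G, hG⟩ := FR.fun_exact w hr C(SL n w.A × Z, w.W)
        (fun X => ⟨fun p => GS.ap x g (p, X), hc X⟩) (fun X => by
          refine ContinuousMap.ext fun p => ?_
          rw [ContinuousMap.sum_apply]
          have h2 := exD_delta w x g p X
          have h4 : (colδ w n (r + 1) Z).f m x = 0 := hx
          rw [h4] at h2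
          exact h2.symm)
      refine ⟨G, fun X p => ?_⟩
      have h3 := congrArg (fun φ : C(SL n w.A × Z, w.W) => φ p) (hG X)
      refine Eq.trans ?_ h3
      change _ = (∑ j : Fin (r + 1), (-1 : ℤ) ^ (j : ℕ) • G (X.face j)) p
      rw [ContinuousMap.sum_apply]
      rfl
    choose G hG using h1
    have hc : ∀ g, Continuous fun q : (SL n w.A × Z) × FR w n r => G g q.2 q.1 := by
      intro g
      rw [continuous_prod_of_discrete_right]
      intro X
      exact (G g X).continuous
    refine ⟨GS.mkc (S := gsC w n r Z) fun g => ⟨fun q => G g q.2 q.1, hc g⟩, ?_⟩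
    refine GS.co_ext fun g y => ?_
    obtain ⟨p, X⟩ := y
    refine (exD_delta w _ g p X).trans ?_
    exact hG g X p

end Pool.Agent.BR80
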