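import Pool.Agent.BR80.CS

/-!
# Lifting of systems along quasi-isomorphisms
-/

namespace Pool.Agent.BR80

variable {ι : Type} [LinearOrder ι]

private theorem LemQ_ds_congr (K : CSys ι) {z z' : K.TC} {τ : Finset ι} {m : ℕ}
    (h : ∀ i ∈ τ, z (τ.erase i) m = z' (τ.erase i) m) : K.ds z τ m = K.ds z' τ m := by
  unfold CSys.ds
  refine Finset.sum_congr rfl fun i hi => ?_
  rw [h i hi]

private theorem LemQ_ds_zero (K : CSys ι) {z : K.TC} {τ : Finset ι} {m : ℕ}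
    (h : ∀ i ∈ τ, z (τ.erase i) m = 0) : K.ds z τ m = 0 := by
  unfold CSys.ds
  refine Finset.sum_eq_zero fun i hi => ?_
  rw [h i hi, map_zero, smul_zero]

private theorem LemQ_tot_congr (K : CSys ι) {z z' : K.TC} {τ : Finset ι}
    (h0 : ∀ m, z τ m = z' τ m)
    (h : ∀ i ∈ τ, ∀ m, z (τ.erase i) m = z' (τ.erase i) m) (m : ℕ) :
    K.tot z τ m = K.tot z' τ m := by
  cases m with
  | zero => exact LemQ_ds_congr K fun i hi => h i hi 0
  | succ m =>
    rw [CSys.tot_succ, CSys.tot_succ, h0 m, LemQ_ds_congr K fun i hi => h i hi (m + 1)]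

private theorem LemQ_d_ds (K : CSys ι) (w : K.TC) (τ : Finset ι) (m : ℕ) :
    (K.K τ).d m (K.ds w τ m) = K.ds (K.tot w) τ (m + 1) := by
  have h := K.tot_tot w τ (m + 1)
  rw [CSys.tot_succ] at h
  cases m with
  | zero =>
    rw [CSys.tot_zero] at h
    simp only [zero_add, pow_one, neg_smul, one_smul] at h
    rw [← sub_eq_add_neg, sub_eq_zero] at h
    exact h
  | succ m =>
    rw [CSys.tot_succ, map_add, (K.K τ).dd, zero_add, map_zsmul, pow_succ (-1 : ℤ) (m + 1),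
      mul_neg_one, neg_smul, ← sub_eq_add_neg, ← smul_sub] at h
    have h2 : (-1 : ℤ) ^ (m + 1) * (-1 : ℤ) ^ (m + 1) = 1 := by
      rw [← mul_pow]; norm_num
    have h3 := congrArg (fun y => (-1 : ℤ) ^ (m + 1) • y) h
    simp only [smul_smul, h2, one_smul, smul_zero] at h3
    exact sub_eq_zero.1 h3

private theorem LemQ_row {K K' : CSys ι} (a : CSys.Hom K K') (V : Finset ι)
    (hq : ∀ τ ⊆ V, (a.f τ).Qis) (N r : ℕ) (z' : K'.TC) (hz' : K'.Sys V N (r + 1) z')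
    (z : K.TC) (w : K'.TC) (hz : K.Sys V N r z) (hw : ∀ τ m, τ.card + m + 1 ≠ N → w τ m = 0)
    (h : ∀ τ ⊆ V, τ.card < r → ∀ m, (a.f τ).f m (z τ m) - z' τ m = K'.tot w τ m)
    (τ : Finset ι) (hτ : τ ⊆ V) (hr : τ.card = r) :
    K.ds z τ 0 = 0 ∧ ∀ m, ∃ ζ : (K.K τ).C m, ∃ v ∈ (K'.K τ).Bg m,
      (r + m ≠ N → ζ = 0 ∧ v = 0) ∧
      (K.K τ).d m ζ + (-1 : ℤ) ^ (m + 1) • K.ds z τ (m + 1) = 0 ∧
      (a.f τ).f m ζ - z' τ m = v + (-1 : ℤ) ^ m • K'.ds w τ m := by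
  have hcard : ∀ i ∈ τ, (τ.erase i).card + 1 = r := by
    intro i hi
    have h1 := Finset.card_erase_of_mem hi
    have h2 : 0 < τ.card := Finset.card_pos.2 ⟨i, hi⟩
    omega
  have key1 : ∀ m, (a.f τ).f m (K.ds z τ m) = K'.ds z' τ m + K'.ds (K'.tot w) τ m := by
    intro m
    rw [← a.ds_ap, ← K'.ds_add]
    apply LemQ_ds_congr
    intro i hi
    have h1 := h (τ.erase i) ((τ.erase_subset i).trans hτ) (by have := hcard i hi; omega) m
    show (a.f _).f m (z _ m) = z' _ m + K'.tot w _ m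
    rw [← h1]
    abel
  have key2' : ∀ m, (K'.K τ).d m (z' τ m) = (-1 : ℤ) ^ m • K'.ds z' τ (m + 1) := by
    intro m
    have h1 := hz'.2 τ hτ (by omega) (m + 1)
    rw [CSys.tot_succ, pow_succ, mul_neg_one, neg_smul, ← sub_eq_add_neg, sub_eq_zero] at h1
    exact h1
  have hsq : ∀ m : ℕ, (-1 : ℤ) ^ m * (-1 : ℤ) ^ m = 1 := by
    intro m
    rw [← mul_pow]; norm_num
  have key2 : ∀ m, K'.ds z' τ m ∈ (K'.K τ).Bg m := by
    intro m
    cases m with
    | zero =>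
      have h1 := hz'.2 τ hτ (by omega) 0
      rw [CSys.tot_zero] at h1
      rw [h1]
      exact zero_mem _
    | succ m =>
      refine ⟨(-1 : ℤ) ^ m • z' τ m, ?_⟩
      rw [map_zsmul, key2', smul_smul, hsq, one_smul]
  have key3 : ∀ m, K.ds z τ m ∈ (K.K τ).Bg m := by
    intro m
    refine (hq τ hτ m).1 _ (hz.ds_mem τ hτ hr.le m) ?_
    rw [key1]
    exact add_mem (key2 m) (K'.ds_tot_mem w τ m)
  refine ⟨Cx.mem_Bg_zero.1 (key3 0), fun m => ?_⟩
  by_cases hN : r + m = N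
  · obtain ⟨y, hy⟩ := Cx.mem_Bg_succ.1 (key3 (m + 1))
    have he : (a.f τ).f m ((-1 : ℤ) ^ m • y) - z' τ m - (-1 : ℤ) ^ m • K'.ds w τ m
        ∈ (K'.K τ).Zg m := by
      rw [Cx.mem_Zg, map_sub, map_sub, map_zsmul, map_zsmul, map_zsmul, ← (a.f τ).comm, hy, key1,
        key2', LemQ_d_ds, smul_add]
      abel
    obtain ⟨x, hx, hb⟩ := (hq τ hτ m).2 _ he
    refine ⟨(-1 : ℤ) ^ m • y - x, _, hb, fun hne => absurd hN hne, ?_, ?_⟩
    · rw [map_sub, Cx.mem_Zg.1 hx, sub_zero, map_zsmul, hy, pow_succ, mul_neg_one, neg_smul,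
        ← sub_eq_add_neg, sub_self]
    · rw [map_sub]
      abel
  · refine ⟨0, 0, zero_mem _, fun _ => ⟨rfl, rfl⟩, ?_, ?_⟩
    · rw [map_zero, LemQ_ds_zero K fun i hi => hz.1 _ _ (by have := hcard i hi; omega),
        smul_zero, add_zero]
    · rw [map_zero, LemQ_ds_zero K' fun i hi => hw _ _ (by have := hcard i hi; omega),
        smul_zero, add_zero, hz'.1 τ m (by omega), sub_zero]

private theorem LemQ_core {K K' : CSys ι} (a : CSys.Hom K K') (V : Finset ι)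
    (hq : ∀ τ ⊆ V, (a.f τ).Qis) (N r : ℕ) (z' : K'.TC) (hz' : K'.Sys V N r z') :
    ∃ (z : K.TC) (w : K'.TC), K.Sys V N r z ∧ (∀ τ m, τ.card + m + 1 ≠ N → w τ m = 0) ∧
      ∀ τ ⊆ V, τ.card < r → ∀ m, (a.f τ).f m (z τ m) - z' τ m = K'.tot w τ m := by
  classical
  induction r with
  | zero =>
    refine ⟨0, 0, ⟨fun τ m _ => rfl, fun τ _ hr => absurd hr (Nat.not_lt_zero _)⟩,
      fun _ _ _ => rfl, fun τ _ hr => absurd hr (Nat.not_lt_zero _)⟩
  | succ r ih =>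
    obtain ⟨z, w, hz, hw, h⟩ := ih ⟨hz'.1, fun τ hτ hr => hz'.2 τ hτ (by omega)⟩
    have hrow := fun (τ : Finset ι) (hτ : τ ⊆ V ∧ τ.card = r) =>
      LemQ_row a V hq N r z' hz' z w hz hw h τ hτ.1 hτ.2
    have hrow0 := fun τ hτ => (hrow τ hτ).1
    have hrow1 := fun τ hτ => (hrow τ hτ).2
    choose ζ v hv hdeg hA hB using hrow1
    have hom : ∀ (τ : Finset ι) (hτ : τ ⊆ V ∧ τ.card = r) (m : ℕ),
        ∃ ω : (K'.K τ).C m, (K'.K τ).d m ω = v τ hτ (m + 1) ∧ (r + m + 1 ≠ N → ω = 0) := by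
      intro τ hτ m
      by_cases hN : r + m + 1 = N
      · obtain ⟨y, hy⟩ := Cx.mem_Bg_succ.1 (hv τ hτ (m + 1))
        exact ⟨y, hy, fun hne => absurd hN hne⟩
      · exact ⟨0, by rw [map_zero, (hdeg τ hτ (m + 1) (by omega)).2], fun _ => rfl⟩
    choose ω hω hωdeg using hom
    let zn : K.TC := fun τ m => if hτ : τ ⊆ V ∧ τ.card = r then ζ τ hτ m else z τ m
    let wn : K'.TC := fun τ m => if hτ : τ ⊆ V ∧ τ.card = r then ω τ hτ m else w τ m
    have zn1 : ∀ τ (hτ : τ ⊆ V ∧ τ.card = r) m, zn τ m = ζ τ hτ m :=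
      fun τ hτ m => dif_pos hτ
    have zn2 : ∀ τ, τ.card ≠ r → ∀ m, zn τ m = z τ m :=
      fun τ hτ m => dif_neg fun h => hτ h.2
    have wn1 : ∀ τ (hτ : τ ⊆ V ∧ τ.card = r) m, wn τ m = ω τ hτ m :=
      fun τ hτ m => dif_pos hτ
    have wn2 : ∀ τ, τ.card ≠ r → ∀ m, wn τ m = w τ m :=
      fun τ hτ m => dif_neg fun h => hτ h.2
    have hcard : ∀ τ : Finset ι, τ.card ≤ r → ∀ i ∈ τ, (τ.erase i).card ≠ r := by
      intro τ hτ i hi
      have h1 := Finset.card_erase_of_mem hi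
      have h2 : 0 < τ.card := Finset.card_pos.2 ⟨i, hi⟩
      omega
    have dsz : ∀ τ : Finset ι, τ.card ≤ r → ∀ m, K.ds zn τ m = K.ds z τ m :=
      fun τ hτ m => LemQ_ds_congr K fun i hi => zn2 _ (hcard τ hτ i hi) m
    have dsw : ∀ τ : Finset ι, τ.card ≤ r → ∀ m, K'.ds wn τ m = K'.ds w τ m :=
      fun τ hτ m => LemQ_ds_congr K' fun i hi => wn2 _ (hcard τ hτ i hi) m
    refine ⟨zn, wn, ⟨?_, ?_⟩, ?_, ?_⟩
    · intro τ m hm
      by_cases hτ : τ ⊆ V ∧ τ.card = r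
      · rw [zn1 τ hτ m]
        exact (hdeg τ hτ m (by rw [← hτ.2]; exact hm)).1
      · show (if hτ : τ ⊆ V ∧ τ.card = r then ζ τ hτ m else z τ m) = 0
        rw [dif_neg hτ]
        exact hz.1 τ m hm
    · intro τ hτ hr m
      rcases Nat.lt_or_ge τ.card r with hlt | hge
      · rw [LemQ_tot_congr K (zn2 τ (by omega)) (fun i hi => zn2 _ (hcard τ (by omega) i hi)) m]
        exact hz.2 τ hτ hlt m
      · have hc : τ.card = r := by omega
        cases m with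
        | zero => rw [CSys.tot_zero, dsz τ hc.le]; exact hrow0 τ ⟨hτ, hc⟩
        | succ m => rw [CSys.tot_succ, dsz τ hc.le, zn1 τ ⟨hτ, hc⟩]; exact hA τ ⟨hτ, hc⟩ m
    · intro τ m hm
      by_cases hτ : τ ⊆ V ∧ τ.card = r
      · rw [wn1 τ hτ m]
        exact hωdeg τ hτ m (by rw [← hτ.2]; exact hm)
      · show (if hτ : τ ⊆ V ∧ τ.card = r then ω τ hτ m else w τ m) = 0
        rw [dif_neg hτ]
        exact hw τ m hm
    · intro τ hτ hr m
      rcases Nat.lt_or_ge τ.card r with hlt | hge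
      · rw [LemQ_tot_congr K' (wn2 τ (by omega)) (fun i hi => wn2 _ (hcard τ (by omega) i hi)) m,
          zn2 τ (by omega)]
        exact h τ hτ hlt m
      · have hc : τ.card = r := by omega
        rw [zn1 τ ⟨hτ, hc⟩, hB τ ⟨hτ, hc⟩ m]
        cases m with
        | zero =>
          rw [CSys.tot_zero, dsw τ hc.le, Cx.mem_Bg_zero.1 (hv τ ⟨hτ, hc⟩ 0), zero_add, pow_zero,
            one_smul]
        | succ m => rw [CSys.tot_succ, dsw τ hc.le, wn1 τ ⟨hτ, hc⟩, hω τ ⟨hτ, hc⟩ m]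

/-- LEMMA Q. If `a : K → K'` is a quasi-isomorphism at all subsets of `V`, every system `z'` of
`K'` is, up to total coboundaries, the image of a system `z` of `K`; the classes at `∅` and the
obstructions correspond. -/
theorem CSys.Hom.lift {K K' : CSys ι} (a : CSys.Hom K K') (V : Finset ι)
    (hq : ∀ τ ⊆ V, (a.f τ).Qis) (N r : ℕ) (z' : K'.TC) (hz' : K'.Sys V N r z') :
    ∃ z : K.TC, K.Sys V N r z ∧
      (0 < r → ∀ m, (a.f ∅).f m (z ∅ m) - z' ∅ m ∈ (K'.K ∅).Bg m) ∧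
      ∀ τ ⊆ V, τ.card = r → ∀ m, (a.f τ).f m (K.ds z τ m) - K'.ds z' τ m ∈ (K'.K τ).Bg m := by
  obtain ⟨z, w, hz, -, h⟩ := LemQ_core a V hq N r z' hz'
  refine ⟨z, hz, ?_, ?_⟩
  · intro hr m
    rw [h ∅ (Finset.empty_subset V) (by simpa using hr) m]
    cases m with
    | zero =>
      rw [CSys.tot_zero, LemQ_ds_zero K' fun i hi => absurd hi (Finset.notMem_empty i)]
      exact zero_mem _
    | succ m =>
      rw [CSys.tot_succ, LemQ_ds_zero K' fun i hi => absurd hi (Finset.notMem_empty i), smul_zero,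
        add_zero]
      exact Cx.d_mem_Bg _
  · intro τ hτ hr m
    have h1 : (a.f τ).f m (K.ds z τ m) - K'.ds z' τ m = K'.ds (K'.tot w) τ m := by
      rw [← a.ds_ap, ← K'.ds_sub]
      apply LemQ_ds_congr
      intro i hi
      have h1 := Finset.card_erase_of_mem hi
      have h2 : 0 < τ.card := Finset.card_pos.2 ⟨i, hi⟩
      exact h (τ.erase i) ((τ.erase_subset i).trans hτ) (by omega) m
    rw [h1]
    exact K'.ds_tot_mem w τ m

end Pool.Agent.BR80
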