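import Pool.Agent.BR80.Lem2
import Pool.Agent.BR80.LemQ
import Pool.Agent.BR80.ECol

/-!
# Twists of systems
-/

namespace Pool.Agent.BR80

open Matrix

variable (w : World)

/-- A family of pairs of subgroups between `M_τ` and the whole group. -/
private structure TwsFam (n : ℕ) where
  /-- the pairs -/
  K : Finset (Fin n) → SG w n
  le : ∀ {σ τ : Finset (Fin n)}, σ ⊆ τ → (K τ).Le (K σ)
  leM : ∀ τ, (sM w τ).Le (K τ)

/-- The coefficient system. -/
private abbrev TwsFam.cs {n : ℕ} (D : TwsFam w n) (Z : Type) [TopologicalSpace Z] :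
    CSys (Fin n) where
  K := fun τ => (D.K τ).co Z
  res := fun h => SG.rs (D.le h) Z
  res_id := fun _ _ _ => rfl
  res_comp := fun _ _ _ _ => rfl

/-- The restriction to the groups `M_τ`. -/
private def TwsFam.toM {n : ℕ} (D : TwsFam w n) (Z : Type) [TopologicalSpace Z] :
    CSys.Hom (D.cs w Z) (csM w n Z) where
  f := fun τ => SG.rs (D.leM τ) Z
  comm := fun _ _ _ => rfl

private theorem Tws_ds {n : ℕ} (D : TwsFam w n) (Z : Type) [TopologicalSpace Z]
    (V : Finset (Fin n)) (a : C(Z, SL n w.A)) (ha : ∀ τ ⊆ V, ∀ z, a z ∈ (D.K τ).Q)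
    (y y' : (D.cs w Z).TC)
    (hy : ∀ τ (h : τ ⊆ V) m, y' τ m = (((D.K τ).tw a (ha τ h)).pull w.W).f m (y τ m))
    (τ : Finset (Fin n)) (h : τ ⊆ V) (m : ℕ) :
    (D.cs w Z).ds y' τ m = (((D.K τ).tw a (ha τ h)).pull w.W).f m ((D.cs w Z).ds y τ m) := by
  have h1 : (((D.K τ).tw a (ha τ h)).pull w.W).f m ((D.cs w Z).ds y τ m) =
      ∑ i ∈ τ, sgn i τ • (((D.K τ).tw a (ha τ h)).pull w.W).f m
        (((D.cs w Z).res (τ.erase_subset i)).f m (y (τ.erase i) m)) := by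
    have h2 := map_sum ((((D.K τ).tw a (ha τ h)).pull w.W).f m)
      (fun i => sgn i τ • ((D.cs w Z).res (τ.erase_subset i)).f m (y (τ.erase i) m)) τ
    refine Eq.trans h2 (Finset.sum_congr rfl fun i _ => ?_)
    exact map_zsmul _ _ _
  rw [h1]
  refine Finset.sum_congr rfl fun i _ => ?_
  rw [hy (τ.erase i) ((τ.erase_subset i).trans h) m]
  rfl

private theorem Tws_tot {K : Cx} (φ : Cx.Hom K K) {m : ℕ} (u : K.C m) (v : K.C (m + 1)) (c : ℤ)
    (h : K.d m u + c • v = 0) : K.d m (φ.f m u) + c • φ.f (m + 1) v = 0 := by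
  have h2 := congrArg (φ.f (m + 1)) h
  rwa [map_add, map_zsmul, map_zero, φ.comm] at h2

private theorem Tws_um_inv {n : ℕ} {R : Type} [CommRing R] {τ : Finset (Fin n)} {g : SL n R}
    (h : IsUm R τ g) : IsUm R τ g⁻¹ := by
  have h1 : IsU R τ (SpecialLinearGroup.transpose g) := fun i j hij => by
    change g.1 j i = _
    rw [h j i fun hc => hij ⟨hc.2, hc.1⟩, Matrix.one_apply, Matrix.one_apply]
    simp only [eq_comm]
  have h2 := radU_inv h1
  have h3 : (SpecialLinearGroup.transpose g)⁻¹ = SpecialLinearGroup.transpose g⁻¹ := by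
    rw [inv_eq_iff_mul_eq_one]
    apply Subtype.ext
    change g.1ᵀ * (g⁻¹).1ᵀ = 1
    rw [← Matrix.transpose_mul]
    have h4 : (g⁻¹).1 * g.1 = 1 := congrArg Subtype.val (inv_mul_cancel g)
    rw [h4, Matrix.transpose_one]
  rw [h3] at h2
  intro i j hij
  have h5 : (g⁻¹).1 i j = (1 : Matrix (Fin n) (Fin n) R) j i :=
    h2 j i fun hc => hij ⟨hc.2, hc.1⟩
  rw [h5, Matrix.one_apply, Matrix.one_apply]
  simp only [eq_comm]

private theorem Tws_sys {n : ℕ} (D : TwsFam w n) (Z : Type) [TopologicalSpace Z]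
    (V : Finset (Fin n)) (a : C(Z, SL n w.A)) (ha : ∀ τ ⊆ V, ∀ z, a z ∈ (D.K τ).Q)
    (y : (D.cs w Z).TC) (N r : ℕ) (hs : (D.cs w Z).Sys V N r y) :
    ∃ y' : (D.cs w Z).TC, (D.cs w Z).Sys V N r y' ∧
      ∀ τ (h : τ ⊆ V) m, y' τ m = (((D.K τ).tw a (ha τ h)).pull w.W).f m (y τ m) := by
  classical
  let y' : (D.cs w Z).TC := fun τ m =>
    if h : τ ⊆ V then (((D.K τ).tw a (ha τ h)).pull w.W).f m (y τ m) else 0
  have hy : ∀ τ (h : τ ⊆ V) m, y' τ m = (((D.K τ).tw a (ha τ h)).pull w.W).f m (y τ m) :=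
    fun τ h m => dif_pos h
  refine ⟨y', ⟨fun τ m hm => ?_, fun τ hτ hr m => ?_⟩, hy⟩
  · by_cases h : τ ⊆ V
    · rw [hy τ h, hs.1 τ m hm]
      exact map_zero _
    · exact dif_neg h
  · have h1 := hs.2 τ hτ hr m
    cases m with
    | zero =>
      rw [CSys.tot_zero] at h1 ⊢
      rw [Tws_ds w D Z V a ha y y' hy τ hτ 0, h1]
      exact map_zero _
    | succ m =>
      rw [CSys.tot_succ] at h1 ⊢
      rw [Tws_ds w D Z V a ha y y' hy τ hτ (m + 1), hy τ hτ m]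
      exact Tws_tot (((D.K τ).tw a (ha τ hτ)).pull w.W) (y τ m) _ _ h1

private theorem Tws_alg {K : Cx} {m : ℕ} (φ : Cx.Hom K K) {D h : K.C m}
    (h1 : D - h ∈ K.Bg m) (h2 : φ.f m h - h ∈ K.Bg m) : φ.f m D - D ∈ K.Bg m := by
  have h3 := (K.Bg m).sub_mem ((K.Bg m).add_mem (φ.map_Bg h1) h2) h1
  rw [map_sub] at h3
  have h4 : φ.f m D - φ.f m h + (φ.f m h - h) - (D - h) = φ.f m D - D := by abel
  rwa [h4] at h3

private theorem Tws_gen {n r m : ℕ} (hr : 0 < r) (htw : TwN w n m) (Z : Type)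
    [TopologicalSpace Z] (D : TwsFam w n) (hq : ∀ τ, (SG.rs (D.leM τ) Z).Qis)
    (V : Finset (Fin n)) (a : C(Z, SL n w.A)) (ha : ∀ τ ⊆ V, ∀ z, a z ∈ (D.K τ).Q)
    (hV : ∀ x ∈ ((D.K V).co Z).Zg m,
      (((D.K V).tw a (ha V (Finset.Subset.refl V))).pull w.W).f m x - x ∈ ((D.K V).co Z).Bg m)
    (N : ℕ) (z : (csM w n Z).TC) (hz : (csM w n Z).Sys V N r z)
    (hst : ∀ τ ⊆ V, τ.card = r → τ = V ∨ ∃ h ∈ (coN w n Z).Zg m,
      (csM w n Z).ds z τ m - (SG.rs (w := w) (sM_le (Finset.empty_subset τ)) Z).f m h ∈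
        ((sM w τ).co Z).Bg m) :
    ∃ z' : (csM w n Z).TC, (csM w n Z).Sys V N r z' ∧
      z' ∅ N - (twM w a).f N (z ∅ N) ∈ (coN w n Z).Bg N ∧
      ∀ τ ⊆ V, τ.card = r →
        (csM w n Z).ds z' τ m - (csM w n Z).ds z τ m ∈ ((sM w τ).co Z).Bg m := by
  obtain ⟨y, hy, hy0, hyd⟩ := CSys.Hom.lift (D.toM w Z) V (fun τ _ => hq τ) N r z hz
  obtain ⟨y', hy', hyy⟩ := Tws_sys w D Z V a ha y N r hy
  refine ⟨(D.toM w Z).ap y', (D.toM w Z).sys hy', ?_, fun τ hτ hc => ?_⟩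
  · have h1 := (twM w a).map_Bg (hy0 hr N)
    rw [map_sub] at h1
    have h2 : (D.toM w Z).ap y' ∅ N = (twM w a).f N (((D.toM w Z).f ∅).f N (y ∅ N)) := by
      change ((D.toM w Z).f ∅).f N (y' ∅ N) = _
      rw [hyy ∅ (Finset.empty_subset V) N]
      rfl
    rw [h2]
    exact h1
  · have hD : (D.cs w Z).ds y τ m ∈ ((D.K τ).co Z).Zg m := hy.ds_mem τ hτ hc.le m
    have key : (((D.K τ).tw a (ha τ hτ)).pull w.W).f m ((D.cs w Z).ds y τ m) -
        (D.cs w Z).ds y τ m ∈ ((D.K τ).co Z).Bg m := by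
      rcases hst τ hτ hc with h | ⟨h, hh, hb⟩
      · subst h
        exact hV _ hD
      · have hle : (D.K τ).Le (sM w (∅ : Finset (Fin n))) :=
          ⟨fun g _ => mem_Ms_empty g, fun g _ => mem_Ms_empty g⟩
        have h1 : (D.cs w Z).ds y τ m - (SG.rs hle Z).f m h ∈ ((D.K τ).co Z).Bg m := by
          refine (hq τ m).1 _ (AddSubgroup.sub_mem _ hD ((SG.rs hle Z).map_Zg hh)) ?_
          have h2 := AddSubgroup.add_mem _ (hyd τ hτ hc m) hb
          rw [sub_add_sub_cancel] at h2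
          rw [map_sub]
          exact h2
        have h3 := (SG.rs hle Z).map_Bg (htw Z a h hh)
        rw [map_sub] at h3
        exact Tws_alg (((D.K τ).tw a (ha τ hτ)).pull w.W) h1 h3
    have h5 := ((D.toM w Z).f τ).map_Bg key
    rw [map_sub] at h5
    have h6 := AddSubgroup.add_mem _ h5 (hyd τ hτ hc m)
    rw [sub_add_sub_cancel] at h6
    have h7 : (csM w n Z).ds ((D.toM w Z).ap y') τ m = ((D.toM w Z).f τ).f m
        ((((D.K τ).tw a (ha τ hτ)).pull w.W).f m ((D.cs w Z).ds y τ m)) := by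
      rw [(D.toM w Z).ds_ap, Tws_ds w D Z V a ha y y' hyy τ hτ m]
    rw [h7]
    exact h6

/-- The family of the `H_τ`. -/
private def TwsH (n : ℕ) : TwsFam w n := ⟨fun τ => sH w τ, fun h => sH_le h, sM_le_sH⟩

/-- The family of the `H^-_τ`. -/
private def TwsHm (n : ℕ) : TwsFam w n := ⟨fun τ => sHm w τ, fun h => sHm_le h, sM_le_sHm⟩

/-- TWISTS. Let `z` be an `M`-system on the subsets of `V` with less than `r` elements (`V`
neither empty nor everything), with `o_τ(z)` in the image of `V(n; Z)` for all `τ ≠ V` with `r`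
elements. For every `a : Z → SL_n(A)` there is a system `z'` with `z' ∅ ~ a^* z ∅` and with the same
obstruction classes. (The set of these `a` is closed under products and contains the functions with
values in `U_V(A)` (lift `z` to an `H`-system by `CSys.Hom.lift`, `qisH`; `U_V(A)` lies in all
`H_τ(A)`, so the `H`-system can be twisted; the obstruction classes do not change by `twH` for
`τ = V` and by the triviality of the twists of `V(n; Z)` for `τ ≠ V`; restrict to `M`) and those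
with values in `U^-_V(A)`; `gen_UUm`.) -/
theorem twists {n r m : ℕ} (hr : 0 < r) (hm : m + r + 1 = n) (htw : TwN w n m) (Z : Type)
    [TopologicalSpace Z] (V : Finset (Fin n)) (hV : V.Nonempty) (hV' : V ≠ Finset.univ)
    (z : (csM w n Z).TC) (hz : (csM w n Z).Sys V (n - 2) r z)
    (hst : ∀ τ ⊆ V, τ.card = r → τ = V ∨ ∃ h ∈ (coN w n Z).Zg m,
      (csM w n Z).ds z τ m - (SG.rs (w := w) (sM_le (Finset.empty_subset τ)) Z).f m h ∈
        ((sM w τ).co Z).Bg m)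
    (a : C(Z, SL n w.A)) :
    ∃ z' : (csM w n Z).TC, (csM w n Z).Sys V (n - 2) r z' ∧
      z' ∅ (n - 2) - (twM w a).f (n - 2) (z ∅ (n - 2)) ∈ (coN w n Z).Bg (n - 2) ∧
      ∀ τ ⊆ V, τ.card = r →
        (csM w n Z).ds z' τ m - (csM w n Z).ds z τ m ∈ ((sM w τ).co Z).Bg m := by
  have main : ∀ a : C(Z, SL n w.A), ∀ z : (csM w n Z).TC, (csM w n Z).Sys V (n - 2) r z →
      (∀ τ ⊆ V, τ.card = r → τ = V ∨ ∃ h ∈ (coN w n Z).Zg m,
      (csM w n Z).ds z τ m - (SG.rs (w := w) (sM_le (Finset.empty_subset τ)) Z).f m h ∈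
        ((sM w τ).co Z).Bg m) → ∃ z' : (csM w n Z).TC, (csM w n Z).Sys V (n - 2) r z' ∧
      z' ∅ (n - 2) - (twM w a).f (n - 2) (z ∅ (n - 2)) ∈ (coN w n Z).Bg (n - 2) ∧
      ∀ τ ⊆ V, τ.card = r →
        (csM w n Z).ds z' τ m - (csM w n Z).ds z τ m ∈ ((sM w τ).co Z).Bg m := by
    have base : ∀ e : C(Z, SL n w.A), ((∀ z, IsU w.A V (e z)) ∨ ∀ z, IsUm w.A V (e z)) →
        ∀ z : (csM w n Z).TC, (csM w n Z).Sys V (n - 2) r z →
        (∀ τ ⊆ V, τ.card = r → τ = V ∨ ∃ h ∈ (coN w n Z).Zg m,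
        (csM w n Z).ds z τ m - (SG.rs (w := w) (sM_le (Finset.empty_subset τ)) Z).f m h ∈
        ((sM w τ).co Z).Bg m) → ∃ z' : (csM w n Z).TC, (csM w n Z).Sys V (n - 2) r z' ∧
        z' ∅ (n - 2) - (twM w e).f (n - 2) (z ∅ (n - 2)) ∈ (coN w n Z).Bg (n - 2) ∧
        ∀ τ ⊆ V, τ.card = r →
        (csM w n Z).ds z' τ m - (csM w n Z).ds z τ m ∈ ((sM w τ).co Z).Bg m := by
      rintro e (he | he) z hz hst
      · exact Tws_gen w hr htw Z (TwsH w n) (fun τ => qisH w τ Z) V e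
          (fun τ hτ x => (sH_le (w := w) hτ).Q (he x).mem_Hs) (twH w V Z e he m) (n - 2) z hz hst
      · exact Tws_gen w hr htw Z (TwsHm w n) (fun τ => qisHm w τ Z) V e
          (fun τ hτ x => (sHm_le (w := w) hτ).Q (he x).mem_Hms) (twHm w V Z e he m) (n - 2) z hz
          hst
    have step : ∀ (b c : C(Z, SL n w.A)), (∀ z : (csM w n Z).TC,
        (csM w n Z).Sys V (n - 2) r z →
        (∀ τ ⊆ V, τ.card = r → τ = V ∨ ∃ h ∈ (coN w n Z).Zg m,
        (csM w n Z).ds z τ m - (SG.rs (w := w) (sM_le (Finset.empty_subset τ)) Z).f m h ∈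
        ((sM w τ).co Z).Bg m) → ∃ z' : (csM w n Z).TC, (csM w n Z).Sys V (n - 2) r z' ∧
        z' ∅ (n - 2) - (twM w b).f (n - 2) (z ∅ (n - 2)) ∈ (coN w n Z).Bg (n - 2) ∧
        ∀ τ ⊆ V, τ.card = r →
        (csM w n Z).ds z' τ m - (csM w n Z).ds z τ m ∈ ((sM w τ).co Z).Bg m) →
        (∀ z : (csM w n Z).TC,
        (csM w n Z).Sys V (n - 2) r z →
        (∀ τ ⊆ V, τ.card = r → τ = V ∨ ∃ h ∈ (coN w n Z).Zg m,
        (csM w n Z).ds z τ m - (SG.rs (w := w) (sM_le (Finset.empty_subset τ)) Z).f m h ∈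
        ((sM w τ).co Z).Bg m) → ∃ z' : (csM w n Z).TC, (csM w n Z).Sys V (n - 2) r z' ∧
        z' ∅ (n - 2) - (twM w c).f (n - 2) (z ∅ (n - 2)) ∈ (coN w n Z).Bg (n - 2) ∧
        ∀ τ ⊆ V, τ.card = r →
        (csM w n Z).ds z' τ m - (csM w n Z).ds z τ m ∈ ((sM w τ).co Z).Bg m) →
        (∀ z : (csM w n Z).TC,
        (csM w n Z).Sys V (n - 2) r z →
        (∀ τ ⊆ V, τ.card = r → τ = V ∨ ∃ h ∈ (coN w n Z).Zg m,
        (csM w n Z).ds z τ m - (SG.rs (w := w) (sM_le (Finset.empty_subset τ)) Z).f m h ∈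
        ((sM w τ).co Z).Bg m) → ∃ z' : (csM w n Z).TC, (csM w n Z).Sys V (n - 2) r z' ∧
        z' ∅ (n - 2) - (twM w (b * c)).f (n - 2) (z ∅ (n - 2)) ∈ (coN w n Z).Bg (n - 2) ∧
        ∀ τ ⊆ V, τ.card = r →
        (csM w n Z).ds z' τ m - (csM w n Z).ds z τ m ∈ ((sM w τ).co Z).Bg m) := by
      intro b c hb hc z hz hst
      obtain ⟨z1, h1, h2, h3⟩ := hc z hz hst
      obtain ⟨z2, k1, k2, k3⟩ := hb z1 h1 (fun τ hτ hc' => by
        rcases hst τ hτ hc' with h | ⟨h, hh, hbb⟩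
        · exact Or.inl h
        · refine Or.inr ⟨h, hh, ?_⟩
          have := AddSubgroup.add_mem _ (h3 τ hτ hc') hbb
          rwa [sub_add_sub_cancel] at this)
      refine ⟨z2, k1, ?_, fun τ hτ hc' => ?_⟩
      · have h4 := (twM w b).map_Bg h2
        rw [map_sub, ← twM_mul] at h4
        have := AddSubgroup.add_mem _ k2 h4
        rwa [sub_add_sub_cancel] at this
      · have := AddSubgroup.add_mem _ (k3 τ hτ hc') (h3 τ hτ hc')
        rwa [sub_add_sub_cancel] at this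
    intro a
    refine Subgroup.closure_induction_left (p := fun a _ => ∀ z : (csM w n Z).TC,
        (csM w n Z).Sys V (n - 2) r z →
        (∀ τ ⊆ V, τ.card = r → τ = V ∨ ∃ h ∈ (coN w n Z).Zg m,
        (csM w n Z).ds z τ m - (SG.rs (w := w) (sM_le (Finset.empty_subset τ)) Z).f m h ∈
        ((sM w τ).co Z).Bg m) → ∃ z' : (csM w n Z).TC, (csM w n Z).Sys V (n - 2) r z' ∧
        z' ∅ (n - 2) - (twM w a).f (n - 2) (z ∅ (n - 2)) ∈ (coN w n Z).Bg (n - 2) ∧
        ∀ τ ⊆ V, τ.card = r →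
        (csM w n Z).ds z' τ m - (csM w n Z).ds z τ m ∈ ((sM w τ).co Z).Bg m) ?_ ?_ ?_
      (gen_UUm w V hV hV' Z a)
    · intro z hz _
      refine ⟨z, hz, ?_, fun τ _ _ => ?_⟩
      · rw [twM_one, sub_self]
        exact AddSubgroup.zero_mem _
      · rw [sub_self]
        exact AddSubgroup.zero_mem _
    · intro e he b _ hb
      exact step e b (base e he) hb
    · intro e he b _ hb
      refine step e⁻¹ b (base e⁻¹ ?_) hb
      rcases he with he | he
      · exact Or.inl fun x => radU_inv (he x)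
      · exact Or.inr fun x => Tws_um_inv (he x)
  exact main a z hz hst

end Pool.Agent.BR80
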