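import Pool.Agent.BR80.LemM
import Pool.Agent.BR80.Tws
import Pool.Agent.BR80.Y1

/-!
# The invariance of the obstruction under twists
-/

namespace Pool.Agent.BR80

open Matrix

variable (w : World)

/-- The evaluation at `e_τ` with the group `M_τ`. -/
def evT {n : ℕ} (τ : Finset (Fin n)) (r : ℕ) (h : τ.card = r) {Z Z' : Type} [TopologicalSpace Z]
    [TopologicalSpace Z'] (ψ : C(Z', SL n w.A)) (ζ : C(Z', Z)) :
    Cx.Hom (colK w n r Z) ((sM w τ).co Z') :=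
  evC w (sM w τ) ψ ζ (FR.of w τ r h) (FR.of_fixedM w τ r h)

/-- INVARIANCE: the evaluations of `x` at the `e_τ`, `τ ⊆ V`, twisted by `ψ` and untwisted, differ
by the restriction of a simplicial coboundary with coefficients `V(n; Z')`. -/
def Inv {n r m : ℕ} {Z : Type} [TopologicalSpace Z] (V : Finset (Fin n))
    (x : (colK w n r Z).C m) : Prop :=
  ∀ (Z' : Type) [TopologicalSpace Z'] (ψ : C(Z', SL n w.A)) (ζ : C(Z', Z)),
    ∃ t : Finset (Fin n) → (coN w n Z').C m, (∀ σ, t σ ∈ (coN w n Z').Zg m) ∧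
      ∀ τ ⊆ V, ∀ h : τ.card = r, (evT w τ r h ψ ζ).f m x - (evT w τ r h 1 ζ).f m x -
        (SG.rs (w := w) (sM_le (Finset.empty_subset τ)) Z').f m (CSys.dt t τ) ∈
          ((sM w τ).co Z').Bg m

private theorem invr_alg {A : Type} [AddCommGroup A] (B : AddSubgroup A) {a b c d e : A}
    (h1 : a - d - e ∈ B) (h2 : d - b ∈ B) (h3 : c = e) : a - b - c ∈ B := by
  have h4 := B.add_mem h1 h2
  have h5 : a - d - e + (d - b) = a - b - c := by
    rw [h3]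
    abel
  rwa [h5] at h4

private theorem invr_ds {n : ℕ} {Z Z' : Type} [TopologicalSpace Z] [TopologicalSpace Z']
    (ψ : C(Z', SL n w.A)) (ζ : C(Z', Z)) (Y : (biD w n Z).TC) (τ : Finset (Fin n)) (r : ℕ)
    (h : τ.card = r) (m : ℕ) : (csM w n Z').ds ((evalM w n ψ ζ).ev Y) τ m =
      (evT w τ r h ψ ζ).f m ((biD w n Z).ds Y r m) :=
  (evalM w n ψ ζ).ds_ev Y τ r h m

private theorem invr_par {n r : ℕ} {Z Z' : Type} [TopologicalSpace Z] [TopologicalSpace Z']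
    (ζ : C(Z', Z)) (τ : Finset (Fin n)) (h : τ.card = r) (m : ℕ) (x : (colK w n r Z).C m) :
    (((sM w τ).par ζ).pull w.W).f m ((evT w τ r h 1 (ContinuousMap.id Z)).f m x) =
      (evT w τ r h 1 ζ).f m x := rfl

private theorem invr_tw {n r : ℕ} {Z Z' : Type} [TopologicalSpace Z] [TopologicalSpace Z']
    (ψ : C(Z', SL n w.A)) (ζ : C(Z', Z)) (h : (∅ : Finset (Fin n)).card = r) (m : ℕ)
    (x : (colK w n r Z).C m) :
    (twM w ψ).f m ((evT w ∅ r h 1 ζ).f m x) = (evT w ∅ r h ψ ζ).f m x := by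
  refine GS.co_ext fun g y => ?_
  refine congrArg (GS.ap x fun i => (sM w (∅ : Finset (Fin n))).P.subtype (g i))
    (Prod.ext (Prod.ext ?_ rfl) rfl)
  exact mul_one _

/-- Case (a): by `twists` (for the evaluated system with `ψ = 1`) and the uniqueness `lemU_M`
(for the difference of the twisted system and the system evaluated with `ψ`). -/
theorem inv_a {n r m : ℕ} (hm : m + r + 1 = n) (hr : 2 ≤ r) (hT : ∀ k < n, ThT w k)
    (hi : ∀ q, q + 3 ≤ n → InjN w n q) (hs : ∀ q, q + 3 ≤ n → SurN w n q)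
    (Z : Type) [TopologicalSpace Z] (Y : (biD w n Z).TC) (hY : (biD w n Z).Sys (n - 2) r Y)
    (V : Finset (Fin n)) (hV : V.Nonempty) (hV' : V ≠ Finset.univ)
    (hst : ∀ τ ⊆ V, ∀ h : τ.card = r, τ = V ∨ ∃ h₁ ∈ (coN w n Z).Zg m,
      (evT w τ r h 1 (ContinuousMap.id Z)).f m ((biD w n Z).ds Y r m) -
        (SG.rs (w := w) (sM_le (Finset.empty_subset τ)) Z).f m h₁ ∈ ((sM w τ).co Z).Bg m) :
    Inv w V ((biD w n Z).ds Y r m) := by
  intro Z' _ ψ ζ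
  have h1 : (csM w n Z').Sys V (n - 2) r ((evalM w n 1 ζ).ev Y) := (evalM w n 1 ζ).sys V hY
  have h2 : (csM w n Z').Sys V (n - 2) r ((evalM w n ψ ζ).ev Y) := (evalM w n ψ ζ).sys V hY
  obtain ⟨z', k1, k2, k3⟩ := twists w (by omega) hm (tw_of_inj w (hi m (by omega))) Z' V hV hV'
    _ h1 (fun τ hτ hc => by
      rcases hst τ hτ hc with h | ⟨h₁, hh, hb⟩
      · exact Or.inl h
      · refine Or.inr ⟨(((sM w ∅).par ζ).pull w.W).f m h₁,
          (((sM w ∅).par ζ).pull w.W).map_Zg hh, ?_⟩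
        rw [invr_ds w 1 ζ Y τ r hc m, ← invr_par w ζ τ hc m]
        have h3 := (((sM w τ).par ζ).pull w.W).map_Bg hb
        rw [map_sub] at h3
        exact h3) ψ
  have h0 : ((evalM w n ψ ζ).ev Y - z') ∅ (n - 2) ∈ (coN w n Z').Bg (n - 2) := by
    have e1 : (evalM w n ψ ζ).ev Y ∅ (n - 2) = (twM w ψ).f (n - 2) ((evalM w n 1 ζ).ev Y ∅ (n - 2)) :=
      (invr_tw w ψ ζ rfl (n - 2) _).symm
    have e2 : ((evalM w n ψ ζ).ev Y - z') ∅ (n - 2) =
        -(z' ∅ (n - 2) - (twM w ψ).f (n - 2) ((evalM w n 1 ζ).ev Y ∅ (n - 2))) := by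
      rw [← e1, neg_sub]
      rfl
    rw [e2]
    exact AddSubgroup.neg_mem _ k2
  obtain ⟨t, ht, ht'⟩ := lemU_M w hm hT hi hs Z' V _ (h2.sub k1) (fun _ => h0)
  refine ⟨t, ht, fun τ hτ hc => ?_⟩
  have h3 := ht' τ hτ hc
  rw [CSys.ds_sub, invr_ds w ψ ζ Y τ r hc m] at h3
  have h4 := k3 τ hτ hc
  rw [invr_ds w 1 ζ Y τ r hc m] at h4
  exact invr_alg _ h3 h4 rfl

/-- Case (b): `Y 0 = 0`, and the evaluations of `Y 1` do not depend on `ψ`: the uniqueness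
`lemU_M'`. -/
theorem inv_b {n r m : ℕ} (hm : m + r + 1 = n) (hr : 3 ≤ r) (hT : ∀ k < n, ThT w k)
    (hi : ∀ q, q + 3 ≤ n → InjN w n q) (hs : ∀ q, q + 4 ≤ n → SurN w n q)
    (Z : Type) [TopologicalSpace Z] (Y : (biD w n Z).TC) (hY : (biD w n Z).Sys (n - 2) r Y)
    (h0 : ∀ m, Y 0 m = 0)
    (h1 : ∀ (j : Fin n) (Z' : Type) [TopologicalSpace Z'] (ψ : C(Z', SL n w.A)) (ζ : C(Z', Z)),
      ∀ q, (ev1 w j ψ ζ).f q (Y 1 q) - (ev1 w j 1 ζ).f q (Y 1 q) ∈ ((sM w {j}).co Z').Bg q)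
    (V : Finset (Fin n)) : Inv w V ((biD w n Z).ds Y r m) := by
  intro Z' _ ψ ζ
  have h2 : (csM w n Z').Sys V (n - 2) r ((evalM w n 1 ζ).ev Y) := (evalM w n 1 ζ).sys V hY
  have h3 : (csM w n Z').Sys V (n - 2) r ((evalM w n ψ ζ).ev Y) := (evalM w n ψ ζ).sys V hY
  obtain ⟨t, ht, ht'⟩ := lemU_M' w hm (by omega) hT hi hs Z' V _ (h3.sub h2) (fun q => by
      have e : ∀ ψ' : C(Z', SL n w.A), (evalM w n ψ' ζ).ev Y ∅ q = 0 := fun ψ' => by
        change ((evalM w n ψ' ζ).f ∅ 0 rfl).f q (Y 0 q) = 0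
        rw [h0 q]
        exact map_zero _
      change (evalM w n ψ ζ).ev Y ∅ q - (evalM w n 1 ζ).ev Y ∅ q = 0
      rw [e, e, sub_zero]) (fun j hj q => by
      have e : ∀ ψ' : C(Z', SL n w.A), (evalM w n ψ' ζ).ev Y {j} q =
          (ev1 w j ψ' ζ).f q (Y 1 q) := fun ψ' =>
        (evalM w n ψ' ζ).ev_eq Y {j} 1 (Finset.card_singleton j) q
      change (evalM w n ψ ζ).ev Y {j} q - (evalM w n 1 ζ).ev Y {j} q ∈ _
      rw [e, e]
      exact h1 j Z' ψ ζ q)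
  refine ⟨t, ht, fun τ hτ hc => ?_⟩
  have h4 := ht' τ hτ hc
  rw [CSys.ds_sub, invr_ds w ψ ζ Y τ r hc m, invr_ds w 1 ζ Y τ r hc m] at h4
  exact h4

end Pool.Agent.BR80
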