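import Pool.Agent.BR80.E2
import Pool.Agent.BR80.Inn
import Pool.Agent.BR80.Invr

/-!
# The triple of frames
-/

namespace Pool.Agent.BR80

open Matrix

variable (w : World)

/-- The three elements `1`, `a`, `a b` of `SL_2` in the coordinates `0`, `1`: `a e_0 = e_0`,
`a e_1 = e_1 - e_0`; `(a b) e_0 = e_1`, `(a b) e_1 = e_1 - e_0`. -/
def gam (n : ℕ) (R : Type) [CommRing R] : Fin 3 → SL (n + 2) R :=
  ![1, elt 0 1 (by simp) (-1), elt 0 1 (by simp) (-1) * elt 1 0 (by simp) 1]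

private theorem Gam_toA_elt {n : ℕ} (i j : Fin n) (h : i ≠ j) (c : w.F) :
    w.toA (elt i j h c) = elt i j h (algebraMap w.F w.A c) := by
  refine Subtype.ext (Matrix.ext fun a b => ?_)
  change algebraMap w.F w.A ((Matrix.transvection i j c) a b) =
    (Matrix.transvection i j (algebraMap w.F w.A c)) a b
  unfold Matrix.transvection
  rw [Matrix.add_apply, Matrix.add_apply, map_add]
  congr 1
  · rw [Matrix.one_apply, Matrix.one_apply]
    split_ifs <;> simp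
  · rw [Matrix.single_apply, Matrix.single_apply]
    split_ifs <;> simp

theorem toA_gam (n : ℕ) (i : Fin 3) : w.toA (gam n w.F i) = gam n w.A i := by
  have h1 : ∀ (i j : Fin (n + 2)) (h : i ≠ j) (c : w.F) (d : w.A), algebraMap w.F w.A c = d →
      w.toA (elt i j h c) = elt i j h d := fun i j h c d hd => by
    rw [Gam_toA_elt, hd]
  have e01 : (0 : Fin (n + 2)) ≠ 1 := by simp
  have e10 : (1 : Fin (n + 2)) ≠ 0 := by simp
  fin_cases i
  · exact map_one _
  · exact h1 0 1 e01 _ _ (by simp)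
  · change w.toA (elt 0 1 e01 (-1) * elt 1 0 e10 1) = elt 0 1 e01 (-1) * elt 1 0 e10 1
    rw [map_mul]
    exact congrArg₂ _ (h1 0 1 e01 _ _ (by simp)) (h1 1 0 e10 _ _ (by simp))

/-- The set `{0, 1} ∪ (τ + 2)`. -/
def emb2 {n : ℕ} (τ : Finset (Fin n)) : Finset (Fin (n + 2)) :=
  insert 0 (insert 1 (τ.map ⟨fun i => i.succ.succ, fun _ _ h => by simpa using h⟩))

theorem emb2_card {n : ℕ} (τ : Finset (Fin n)) (r : ℕ) (h : τ.card = r) :
    (emb2 τ).card = r + 2 := by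
  unfold emb2
  rw [Finset.card_insert_of_notMem, Finset.card_insert_of_notMem, Finset.card_map, h]
  · intro h1
    obtain ⟨k, -, hk⟩ := Finset.mem_map.1 h1
    have h2 := congrArg Fin.val hk
    change (k : ℕ) + 1 + 1 = _ at h2
    rw [Fin.val_one] at h2
    omega
  · intro h1
    rcases Finset.mem_insert.1 h1 with h1 | h1
    · exact absurd h1 (by simp)
    · obtain ⟨k, -, hk⟩ := Finset.mem_map.1 h1
      have h2 := congrArg Fin.val hk
      change (k : ℕ) + 1 + 1 = 0 at h2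
      omega

theorem emb2_mono {n : ℕ} {σ τ : Finset (Fin n)} (h : σ ⊆ τ) : emb2 σ ⊆ emb2 τ :=
  Finset.insert_subset_insert _ (Finset.insert_subset_insert _ (Finset.map_subset_map.2 h))

theorem emb2_seg {n r : ℕ} : emb2 (seg n r) = seg (n + 2) (r + 2) := by
  ext i
  rw [mem_seg]
  unfold emb2
  rw [Finset.mem_insert, Finset.mem_insert, Finset.mem_map]
  constructor
  · rintro (rfl | rfl | ⟨k, hk, rfl⟩)
    · exact Nat.succ_pos _
    · rw [Fin.val_one]
      omega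
    · change (k : ℕ) + 1 + 1 < r + 2
      have := mem_seg.1 hk
      omega
  · intro hi
    by_cases h0 : (i : ℕ) = 0
    · exact Or.inl (Fin.ext h0)
    · by_cases h1 : (i : ℕ) = 1
      · refine Or.inr (Or.inl (Fin.ext ?_))
        rw [Fin.val_one]
        exact h1
      · have h2 := i.2
        refine Or.inr (Or.inr ⟨⟨(i : ℕ) - 2, by omega⟩, mem_seg.2 ?_, Fin.ext ?_⟩)
        · change (i : ℕ) - 2 < r
          omega
        · change (i : ℕ) - 2 + 1 + 1 = i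
          omega

private theorem Gam_comm_elt {n : ℕ} {R : Type} [CommRing R] (τ : Finset (Fin n)) (i j : Fin n)
    (hi : i ∈ τ) (hj : j ∈ τ) (h : i ≠ j) (c : R) (g : SL n R) (hg : g ∈ Ms R τ) :
    g * elt i j h c = elt i j h c * g := by
  refine Subtype.ext ?_
  change g.1 * Matrix.transvection i j c = Matrix.transvection i j c * g.1
  unfold Matrix.transvection
  rw [Matrix.mul_add, Matrix.add_mul, Matrix.mul_one, Matrix.one_mul]
  congr 1
  refine Matrix.ext fun a b => ?_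
  by_cases hb : b = j
  · subst hb
    rw [Matrix.mul_single_apply_same]
    by_cases ha : a = i
    · subst ha
      rw [Matrix.single_mul_apply_same, hg.1 _ hi, hg.2 _ hj]
      simp
    · rw [Matrix.single_mul_apply_of_ne _ _ _ _ _ ha, hg.1 _ hi, Matrix.one_apply_ne ha, zero_mul]
  · rw [Matrix.mul_single_apply_of_ne _ _ _ _ _ hb]
    by_cases ha : a = i
    · subst ha
      rw [Matrix.single_mul_apply_same, hg.2 _ hj, Matrix.one_apply_ne (Ne.symm hb), mul_zero]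
    · rw [Matrix.single_mul_apply_of_ne _ _ _ _ _ ha]

/-- `M_τ` commutes with the three elements if `0, 1 ∈ τ`. -/
theorem gam_comm {n : ℕ} {R : Type} [CommRing R] (τ : Finset (Fin (n + 2))) (h0 : 0 ∈ τ)
    (h1 : 1 ∈ τ) (i : Fin 3) (g : SL (n + 2) R) (hg : g ∈ Ms R τ) :
    g * gam n R i = gam n R i * g := by
  have e01 : (0 : Fin (n + 2)) ≠ 1 := by simp
  have e10 : (1 : Fin (n + 2)) ≠ 0 := by simp
  fin_cases i
  · exact (mul_one g).trans (one_mul g).symm
  · exact Gam_comm_elt τ 0 1 h0 h1 e01 _ g hg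
  · change g * (elt 0 1 e01 (-1) * elt 1 0 e10 1) = elt 0 1 e01 (-1) * elt 1 0 e10 1 * g
    rw [← mul_assoc, Gam_comm_elt τ 0 1 h0 h1 e01 _ g hg, mul_assoc,
      Gam_comm_elt τ 1 0 h1 h0 e10 _ g hg, ← mul_assoc]

/-- The three frames `γ_i e_τ`. -/
def gfr {n : ℕ} (i : Fin 3) (τ : Finset (Fin (n + 2))) (r : ℕ) (h : τ.card = r) :
    FR w (n + 2) r := gam n w.F i • FR.of w τ r h

theorem gfr_fixed {n : ℕ} (i : Fin 3) (τ : Finset (Fin (n + 2))) (h0 : 0 ∈ τ) (h1 : 1 ∈ τ)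
    (r : ℕ) (h : τ.card = r) : ∀ g ∈ (sM w τ).P, g • gfr w i τ r h = gfr w i τ r h := by
  intro g hg
  unfold gfr
  rw [← mul_smul, gam_comm τ h0 h1 i g hg, mul_smul, FR.of_fixedM w τ r h g hg]

theorem gfr_toFF_fixed {n : ℕ} (i : Fin 3) (τ : Finset (Fin (n + 2))) (h0 : 0 ∈ τ) (h1 : 1 ∈ τ)
    (r : ℕ) (h : τ.card = r) :
    ∀ g ∈ (sM w τ).Q, w.mul (g, (gfr w i τ r h).toFF w) = (gfr w i τ r h).toFF w := by
  intro g hg
  have h2 := congrArg w.vec (toFF_fixed w τ r h g hg)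
  rw [w.vec_mul, FR.toFF, w.vec_rat] at h2
  have h3 : (w.toA (gam n w.F i)).1 = (gam n w.F i).1.map (algebraMap w.F w.A) := rfl
  have h4 : g.1 * (gam n w.A i).1 = (gam n w.A i).1 * g.1 :=
    congrArg Subtype.val (gam_comm τ h0 h1 i g hg)
  refine w.vec_inj ?_
  rw [w.vec_mul, FR.toFF, w.vec_rat, gfr, FR.smul_val, Matrix.map_mul, ← h3, toA_gam,
    ← Matrix.mul_assoc, h4, Matrix.mul_assoc, h2]

/-- The evaluation at `γ_i e_τ`. -/
def evg {n : ℕ} (i : Fin 3) (τ : Finset (Fin (n + 2))) (h0 : 0 ∈ τ) (h1 : 1 ∈ τ) (r : ℕ)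
    (h : τ.card = r) (Z : Type) [TopologicalSpace Z] :
    Cx.Hom (colK w (n + 2) r Z) ((sM w τ).co Z) :=
  evC w (sM w τ) 1 (ContinuousMap.id Z) (gfr w i τ r h) (gfr_fixed w i τ h0 h1 r h)

/-- The evaluation at `γ_i e_τ` agrees in cohomology with the twisted evaluation at `e_τ`
(`GS.inner_trivial`; `M_τ` commutes with `γ_i`). -/
theorem evg_eq {n : ℕ} (i : Fin 3) (τ : Finset (Fin (n + 2))) (h0 : 0 ∈ τ) (h1 : 1 ∈ τ) (r : ℕ)
    (h : τ.card = r) (Z : Type) [TopologicalSpace Z] (m : ℕ) (x : (colK w (n + 2) r Z).C m)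
    (hx : x ∈ (colK w (n + 2) r Z).Zg m) :
    (evg w i τ h0 h1 r h Z).f m x -
      (evT w τ r h (ContinuousMap.const Z (gam n w.A i)⁻¹) (ContinuousMap.id Z)).f m x ∈
        ((sM w τ).co Z).Bg m := by
  have hc := GS.inner_trivial w.W (gsC w (n + 2) r Z) ((gam n w.F i)⁻¹ : SL (n + 2) w.F) m x hx
  have h2 := (evg w i τ h0 h1 r h Z).map_Bg hc
  rw [map_sub] at h2
  have h3 : (evg w i τ h0 h1 r h Z).f m
      ((((gsC w (n + 2) r Z).inner ((gam n w.F i)⁻¹ : SL (n + 2) w.F)).pull w.W).f m x) =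
      (evT w τ r h (ContinuousMap.const Z (gam n w.A i)⁻¹) (ContinuousMap.id Z)).f m x := by
    refine GS.co_ext fun g y => ?_
    obtain ⟨⟨a, ha⟩, z⟩ := y
    have e1 : ∀ g' : (sM w τ).P, ((gam n w.F i)⁻¹ * g'.1 * ((gam n w.F i)⁻¹)⁻¹ : SL (n + 2) w.F) =
        g'.1 := fun g' => by
      rw [inv_inv, mul_assoc, gam_comm τ h0 h1 i g'.1 g'.2, ← mul_assoc, inv_mul_cancel, one_mul]
    have e2 : w.toA (gam n w.F i)⁻¹ * (a * (1 : SL (n + 2) w.A)) = a * (gam n w.A i)⁻¹ := by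
      rw [map_inv, toA_gam, mul_one, inv_mul_eq_iff_eq_mul, ← mul_assoc,
        ← gam_comm τ h0 h1 i a ha, mul_assoc, mul_inv_cancel, mul_one]
    have e3 : (gam n w.F i)⁻¹ • gfr w i τ r h = FR.of w τ r h := by
      unfold gfr
      rw [← mul_smul, inv_mul_cancel, one_smul]
    change GS.ap x (fun k => ((gam n w.F i)⁻¹ * (g k).1 * ((gam n w.F i)⁻¹)⁻¹ : SL (n + 2) w.F))
      ((w.toA (gam n w.F i)⁻¹ * (a * (1 : SL (n + 2) w.A)), z), (gam n w.F i)⁻¹ • gfr w i τ r h) =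
      GS.ap x (fun k => (g k).1) ((a * (gam n w.A i)⁻¹, z), FR.of w τ r h)
    rw [e2, e3]
    congr 2
    funext k
    exact e1 (g k)
  rw [h3] at h2
  have h4 := AddSubgroup.neg_mem _ h2
  rwa [neg_sub] at h4

end Pool.Agent.BR80
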