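import Pool.Agent.BR80.Gam

/-!
# The triples as evaluations
-/

namespace Pool.Agent.BR80

open Matrix

variable (w : World)

theorem zero_mem_emb2 {n : ℕ} (τ : Finset (Fin n)) : (0 : Fin (n + 2)) ∈ emb2 τ := by
  simp [emb2]

theorem one_mem_emb2 {n : ℕ} (τ : Finset (Fin n)) : (1 : Fin (n + 2)) ∈ emb2 τ := by
  simp [emb2]

/-- The coefficient system of the groups `M_({0,1} ∪ (τ + 2))`. -/
abbrev csM2 (n : ℕ) (Z : Type) [TopologicalSpace Z] : CSys (Fin n) where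
  K := fun τ => (sM w (emb2 τ)).co Z
  res := fun h => SG.rs (sM_le (emb2_mono h)) Z
  res_id := fun _ _ _ => rfl
  res_comp := fun _ _ _ _ => rfl

/-- The constant coefficient system. -/
abbrev csConst (ι : Type) [LinearOrder ι] (K : Cx) : CSys ι where
  K := fun _ => K
  res := fun _ => Cx.Hom.id K
  res_id := fun _ _ _ => rfl
  res_comp := fun _ _ _ _ => rfl

private theorem gam2_sum {B : Type} [AddCommGroup B] {s : ℕ} (G : Fin 3 → Fin (s + 2) → B)
    (h1 : G 0 0 = G 2 1) (h2 : G 0 1 = G 1 1) (h3 : G 1 0 = G 2 0) :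
    ∑ i : Fin 3, (-1 : ℤ) ^ (i : ℕ) • ∑ j : Fin (s + 2), (-1 : ℤ) ^ (j : ℕ) • G i j =
      ∑ j : Fin s, (-1 : ℤ) ^ (j : ℕ) • ∑ i : Fin 3, (-1 : ℤ) ^ (i : ℕ) • G i j.succ.succ := by
  have e : ∀ i : Fin 3, ∑ j : Fin (s + 2), (-1 : ℤ) ^ (j : ℕ) • G i j =
      G i 0 - G i 1 + ∑ j : Fin s, (-1 : ℤ) ^ (j : ℕ) • G i j.succ.succ := fun i => by
    rw [Fin.sum_univ_succ, Fin.sum_univ_succ]
    have e1 : ∀ j : Fin s, (-1 : ℤ) ^ ((j.succ.succ : Fin (s + 2)) : ℕ) = (-1 : ℤ) ^ (j : ℕ) :=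
      fun j => by
        rw [Fin.val_succ, Fin.val_succ, pow_succ, pow_succ]
        ring
    simp only [e1]
    simp only [Fin.val_zero, pow_zero, one_smul, Fin.succ_zero_eq_one, Fin.val_one, pow_one,
      neg_smul]
    abel
  simp only [e]
  rw [Fin.sum_univ_three]
  simp only [Fin.sum_univ_three, smul_add, Finset.sum_add_distrib, Finset.smul_sum]
  simp only [Fin.val_zero, pow_zero, one_smul, Fin.val_one, pow_one, Fin.val_two, neg_smul,
    even_two, Even.neg_pow, one_pow, h1, h2, h3, smul_neg, Finset.sum_neg_distrib]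
  abel

private theorem gam2_std {n : ℕ} (i : Fin 3) (σ : Finset (Fin (n + 2))) (s : ℕ)
    (h : σ.card = s) (a : Fin (n + 2)) (k : Fin s) :
    (gfr w i σ s h).1 a k = (gam n w.F i).1 a (σ.orderEmbOfFin h k) := by
  change ((gam n w.F i).1 * (1 : Matrix (Fin (n + 2)) (Fin (n + 2)) w.F).submatrix id
    (σ.orderEmbOfFin h)) a k = _
  have h1 : ((gam n w.F i).1 * (1 : Matrix (Fin (n + 2)) (Fin (n + 2)) w.F).submatrix id
    (σ.orderEmbOfFin h)) a k = ((gam n w.F i).1 * (1 : Matrix (Fin (n + 2)) (Fin (n + 2)) w.F)) a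
      (σ.orderEmbOfFin h k) := rfl
  rw [h1, Matrix.mul_one]

private theorem gam2_ord {n : ℕ} (σ : Finset (Fin (n + 2))) (h0 : 0 ∈ σ) (h1 : 1 ∈ σ) (s : ℕ)
    (h : σ.card = s + 2) : σ.orderEmbOfFin h 0 = 0 ∧ σ.orderEmbOfFin h 1 = 1 := by
  have e0 : σ.orderEmbOfFin h 0 = 0 := by
    obtain ⟨k, hk⟩ : ∃ k, σ.orderEmbOfFin h k = 0 := by
      have h5 : (0 : Fin (n + 2)) ∈ Set.range (σ.orderEmbOfFin h) := by
        rw [Finset.range_orderEmbOfFin]
        exact h0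
      exact h5
    have : σ.orderEmbOfFin h 0 ≤ σ.orderEmbOfFin h k := (σ.orderEmbOfFin h).monotone (Fin.zero_le _)
    rw [hk] at this
    exact Fin.le_zero_iff.1 this
  refine ⟨e0, ?_⟩
  obtain ⟨k, hk⟩ : ∃ k, σ.orderEmbOfFin h k = 1 := by
    have h5 : (1 : Fin (n + 2)) ∈ Set.range (σ.orderEmbOfFin h) := by
      rw [Finset.range_orderEmbOfFin]
      exact h1
    exact h5
  have hk0 : k ≠ 0 := by
    rintro rfl
    rw [e0] at hk
    exact absurd hk (by simp)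
  have hk1 : (1 : Fin (s + 2)) ≤ k := by
    rw [Fin.le_def, Fin.val_one]
    exact Nat.one_le_iff_ne_zero.2 fun hc => hk0 (Fin.ext hc)
  have h2 : σ.orderEmbOfFin h 1 ≤ 1 := by
    rw [← hk]
    exact (σ.orderEmbOfFin h).monotone hk1
  have h3 : (0 : Fin (n + 2)) < σ.orderEmbOfFin h 1 := by
    rw [← e0]
    exact (σ.orderEmbOfFin h).strictMono (by simp)
  refine le_antisymm h2 ?_
  rw [Fin.le_def, Fin.val_one]
  exact h3

private theorem gam2_g0 {n : ℕ} (a b : Fin (n + 2)) :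
    (gam n w.F 0).1 a b = (1 : Matrix (Fin (n + 2)) (Fin (n + 2)) w.F) a b := rfl

private theorem gam2_g1 {n : ℕ} (a b : Fin (n + 2)) :
    (gam n w.F 1).1 a b = (1 : Matrix (Fin (n + 2)) (Fin (n + 2)) w.F) a b -
      (if a = 0 ∧ b = 1 then 1 else 0) := by
  change (Matrix.transvection 0 1 (-1 : w.F)) a b = _
  rw [Matrix.transvection, Matrix.add_apply, Matrix.single_apply]
  by_cases h : a = 0 ∧ b = 1
  · obtain ⟨rfl, rfl⟩ := h
    simp [sub_eq_add_neg]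
  · have h' : ¬ (0 = a ∧ 1 = b) := fun hc => h ⟨hc.1.symm, hc.2.symm⟩
    rw [if_neg h, if_neg h', add_zero, sub_zero]

private theorem gam2_g2 {n : ℕ} (a b : Fin (n + 2)) :
    (gam n w.F 2).1 a b = if b = 0 then (1 : Matrix (Fin (n + 2)) (Fin (n + 2)) w.F) a 1 else
      (gam n w.F 1).1 a b := by
  have h : (gam n w.F 2).1 = (gam n w.F 1).1 * Matrix.transvection 1 0 (1 : w.F) := rfl
  rw [h]
  by_cases hb : b = 0
  · subst hb
    rw [Matrix.mul_transvection_apply_same, if_pos rfl, gam2_g1, gam2_g1, Matrix.one_apply,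
      Matrix.one_apply]
    by_cases ha : a = 0
    · subst ha
      simp
    · simp [ha]
  · rw [Matrix.mul_transvection_apply_of_ne _ _ _ _ hb, if_neg hb]

private theorem gam2_col {n : ℕ} (i : Fin 3) (a b : Fin (n + 2)) (h0 : b ≠ 0) (h1 : b ≠ 1) :
    (gam n w.F i).1 a b = (1 : Matrix (Fin (n + 2)) (Fin (n + 2)) w.F) a b := by
  have e1 : (gam n w.F 1).1 a b = (1 : Matrix (Fin (n + 2)) (Fin (n + 2)) w.F) a b := by
    rw [gam2_g1, if_neg fun h => h1 h.2, sub_zero]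
  fin_cases i
  · rfl
  · exact e1
  · exact (gam2_g2 w a b).trans ((if_neg h0).trans e1)

private theorem gam2_face {n : ℕ} (i i' : Fin 3) (σ : Finset (Fin (n + 2))) (h0 : 0 ∈ σ)
    (h1 : 1 ∈ σ) (s : ℕ) (h : σ.card = s + 1 + 1) (j j' : Fin (s + 1 + 1)) (hj : j = 0 ∨ j = 1)
    (hj' : j' = 0 ∨ j' = 1)
    (hc : ∀ a, (gfr w i σ (s + 1 + 1) h).1 a (j.succAbove 0) =
      (gfr w i' σ (s + 1 + 1) h).1 a (j'.succAbove 0)) :
    (gfr w i σ (s + 1 + 1) h).face j = (gfr w i' σ (s + 1 + 1) h).face j' := by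
  obtain ⟨o0, o1⟩ := gam2_ord σ h0 h1 s h
  apply FR.ext'
  ext a k
  change (gfr w i σ (s + 1 + 1) h).1 a (j.succAbove k) =
    (gfr w i' σ (s + 1 + 1) h).1 a (j'.succAbove k)
  refine Fin.cases (hc a) (fun k => ?_) k
  have e : ∀ j : Fin (s + 1 + 1), j = 0 ∨ j = 1 → j.succAbove k.succ = k.succ.succ := by
    rintro j (rfl | rfl)
    · exact Fin.zero_succAbove _
    · exact Fin.one_succAbove_succ _
  rw [e j hj, e j' hj', gam2_std, gam2_std, gam2_col, gam2_col]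
  all_goals
    intro hc
    first
    | (rw [← o0] at hc
       exact absurd ((σ.orderEmbOfFin h).injective hc) (Fin.succ_ne_zero _))
    | (rw [← o1] at hc
       have h3 := (σ.orderEmbOfFin h).injective hc
       rw [← Fin.succ_zero_eq_one] at h3
       exact absurd (Fin.succ_injective _ h3) (Fin.succ_ne_zero _))

private theorem gam2_A {n : ℕ} (σ : Finset (Fin (n + 2))) (h0 : 0 ∈ σ)
    (h1 : 1 ∈ σ) (s : ℕ) (h : σ.card = s + 1 + 1) :
    (gfr w 0 σ (s + 1 + 1) h).face 0 = (gfr w 2 σ (s + 1 + 1) h).face 1 := by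
  obtain ⟨o0, o1⟩ := gam2_ord σ h0 h1 s h
  refine gam2_face w 0 2 σ h0 h1 s h 0 1 (Or.inl rfl) (Or.inr rfl) fun a => ?_
  rw [Fin.zero_succAbove, Fin.one_succAbove_zero, gam2_std, gam2_std, Fin.succ_zero_eq_one, o0, o1,
    gam2_g0, gam2_g2, if_pos rfl]

private theorem gam2_B {n : ℕ} (σ : Finset (Fin (n + 2))) (h0 : 0 ∈ σ)
    (h1 : 1 ∈ σ) (s : ℕ) (h : σ.card = s + 1 + 1) :
    (gfr w 0 σ (s + 1 + 1) h).face 1 = (gfr w 1 σ (s + 1 + 1) h).face 1 := by
  obtain ⟨o0, o1⟩ := gam2_ord σ h0 h1 s h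
  refine gam2_face w 0 1 σ h0 h1 s h 1 1 (Or.inr rfl) (Or.inr rfl) fun a => ?_
  rw [Fin.one_succAbove_zero, gam2_std, gam2_std, o0,
    gam2_g0, gam2_g1, if_neg fun h => absurd h.2 (by simp), sub_zero]

private theorem gam2_C {n : ℕ} (σ : Finset (Fin (n + 2))) (h0 : 0 ∈ σ)
    (h1 : 1 ∈ σ) (s : ℕ) (h : σ.card = s + 1 + 1) :
    (gfr w 1 σ (s + 1 + 1) h).face 0 = (gfr w 2 σ (s + 1 + 1) h).face 0 := by
  obtain ⟨o0, o1⟩ := gam2_ord σ h0 h1 s h
  refine gam2_face w 1 2 σ h0 h1 s h 0 0 (Or.inl rfl) (Or.inl rfl) fun a => ?_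
  rw [Fin.zero_succAbove, gam2_std, gam2_std, Fin.succ_zero_eq_one, o1, gam2_g2,
    if_neg (by simp)]

private theorem gam2_emb {n : ℕ} (τ : Finset (Fin n)) (r : ℕ) (h : τ.card = r) (j : Fin r) :
    (emb2 τ).orderEmbOfFin (emb2_card τ r h) j.succ.succ =
      ((τ.orderEmbOfFin h j).succ.succ : Fin (n + 2)) := by
  have hu : (Fin.cons 0 (Fin.cons 1 (fun j => (τ.orderEmbOfFin h j).succ.succ) :
      Fin (r + 1) → Fin (n + 2)) : Fin (r + 2) → Fin (n + 2)) =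
      (emb2 τ).orderEmbOfFin (emb2_card τ r h) := by
    apply Finset.orderEmbOfFin_unique
    · intro k
      refine Fin.cases ?_ (fun k => ?_) k
      · simp [emb2]
      · refine Fin.cases ?_ (fun k => ?_) k
        · simp [emb2]
        · rw [Fin.cons_succ, Fin.cons_succ, emb2, Finset.mem_insert, Finset.mem_insert,
            Finset.mem_map]
          exact Or.inr (Or.inr ⟨_, τ.orderEmbOfFin_mem h k, rfl⟩)
    · have h1 : StrictMono (Fin.cons 1 (fun j => (τ.orderEmbOfFin h j).succ.succ) :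
          Fin (r + 1) → Fin (n + 2)) := by
        intro a b hab
        obtain ⟨b, rfl⟩ := Fin.exists_succ_eq.2 (Fin.ne_zero_of_lt hab)
        rw [Fin.cons_succ]
        refine Fin.cases (fun _ => ?_) (fun a hab => ?_) a hab
        · rw [Fin.cons_zero, ← Fin.succ_zero_eq_one, Fin.succ_lt_succ_iff]
          exact Fin.succ_pos _
        · rw [Fin.cons_succ, Fin.succ_lt_succ_iff, Fin.succ_lt_succ_iff]
          exact (τ.orderEmbOfFin h).strictMono (Fin.succ_lt_succ_iff.1 hab)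
      intro a b hab
      obtain ⟨b, rfl⟩ := Fin.exists_succ_eq.2 (Fin.ne_zero_of_lt hab)
      rw [Fin.cons_succ]
      refine Fin.cases (fun _ => ?_) (fun a hab => ?_) a hab
      · rw [Fin.cons_zero]
        refine Fin.cases ?_ (fun b => ?_) b
        · rw [Fin.cons_zero]
          simp
        · rw [Fin.cons_succ]
          exact Fin.succ_pos _
      · rw [Fin.cons_succ]
        exact h1 (Fin.succ_lt_succ_iff.1 hab)
  rw [← hu, Fin.cons_succ, Fin.cons_succ]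

private theorem gam2_erase {n : ℕ} (τ : Finset (Fin n)) (i : Fin n) :
    (emb2 τ).erase i.succ.succ = emb2 (τ.erase i) := by
  ext x
  rw [emb2, emb2, Finset.mem_erase, Finset.mem_insert, Finset.mem_insert, Finset.mem_insert,
    Finset.mem_insert, Finset.mem_map, Finset.mem_map]
  constructor
  · rintro ⟨h1, h2 | h2 | ⟨a, ha, rfl⟩⟩
    · exact Or.inl h2
    · exact Or.inr (Or.inl h2)
    · refine Or.inr (Or.inr ⟨a, Finset.mem_erase.2 ⟨?_, ha⟩, rfl⟩)
      rintro rfl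
      exact h1 rfl
  · rintro (h2 | h2 | ⟨a, ha, rfl⟩)
    · exact ⟨by rw [h2]; exact (Fin.succ_ne_zero _).symm, Or.inl h2⟩
    · refine ⟨?_, Or.inr (Or.inl h2)⟩
      rw [h2, ← Fin.succ_zero_eq_one]
      intro h3
      exact (Fin.succ_ne_zero _) (Fin.succ_injective _ h3).symm
    · rw [Finset.mem_erase] at ha
      refine ⟨fun h3 => ha.1 ?_, Or.inr (Or.inr ⟨a, ha.2, rfl⟩)⟩
      exact Fin.succ_injective _ (Fin.succ_injective _ h3)

private theorem gam2_of {n : ℕ} {σ τ : Finset (Fin n)} (h : σ = τ) (r : ℕ) (h1 : σ.card = r)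
    (h2 : τ.card = r) : FR.of w σ r h1 = FR.of w τ r h2 := by
  subst h
  rfl

private theorem gam2_D {n : ℕ} (i : Fin 3) (τ : Finset (Fin n)) (r : ℕ) (h : τ.card = r + 1)
    (j : Fin (r + 1)) (h' : (τ.erase (τ.orderEmbOfFin h j)).card = r) :
    (gfr w i (emb2 τ) (r + 1 + 1 + 1) (emb2_card τ (r + 1) h)).face j.succ.succ =
      gfr w i (emb2 (τ.erase (τ.orderEmbOfFin h j))) (r + 1 + 1) (emb2_card _ r h') := by
  change gam n w.F i • (FR.of w (emb2 τ) (r + 1 + 1 + 1) (emb2_card τ (r + 1) h)).face j.succ.succ =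
    gam n w.F i • FR.of w (emb2 (τ.erase (τ.orderEmbOfFin h j))) (r + 1 + 1) (emb2_card _ r h')
  congr 1
  have e1 : (emb2 τ).erase ((emb2 τ).orderEmbOfFin (emb2_card τ (r + 1) h) j.succ.succ) =
      emb2 (τ.erase (τ.orderEmbOfFin h j)) := by
    rw [gam2_emb, gam2_erase]
  have e2 : ((emb2 τ).erase ((emb2 τ).orderEmbOfFin (emb2_card τ (r + 1) h) j.succ.succ)).card =
      r + 1 + 1 := by
    rw [e1]
    exact emb2_card _ r h'
  rw [FR.face_of (emb2 τ) (r + 1 + 1) (emb2_card τ (r + 1) h) j.succ.succ e2]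
  exact gam2_of w e1 _ _ _

private theorem gam2_sgn {n : ℕ} (τ : Finset (Fin n)) (r : ℕ) (h : τ.card = r + 1)
    (j : Fin (r + 1)) : sgn (τ.orderEmbOfFin h j) τ = (-1 : ℤ) ^ (j : ℕ) := by
  unfold sgn
  have h4 : τ.filter (· < τ.orderEmbOfFin h j) =
      (Finset.univ.filter fun k : Fin (r + 1) => k < j).map
        (τ.orderEmbOfFin h).toEmbedding := by
    ext i
    rw [Finset.mem_filter, Finset.mem_map]
    constructor
    · rintro ⟨hi, hij⟩
      obtain ⟨k, hk⟩ : ∃ k, τ.orderEmbOfFin h k = i := by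
        have h5 : i ∈ Set.range (τ.orderEmbOfFin h) := by
          rw [Finset.range_orderEmbOfFin]
          exact hi
        exact h5
      refine ⟨k, ?_, hk⟩
      rw [Finset.mem_filter]
      refine ⟨Finset.mem_univ _, ?_⟩
      rw [← hk] at hij
      exact (τ.orderEmbOfFin h).lt_iff_lt.mp hij
    · rintro ⟨k, hk, rfl⟩
      rw [Finset.mem_filter] at hk
      exact ⟨τ.orderEmbOfFin_mem h k, (τ.orderEmbOfFin h).strictMono hk.2⟩
  rw [h4, Finset.card_map]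
  have h5 : (Finset.univ.filter fun k : Fin (r + 1) => k < j) = Finset.Iio j := by
    ext k
    simp
  rw [h5, Fin.card_Iio]

private theorem gam2_evδ {n s : ℕ} (K : SG w n) {Z Z' : Type} [TopologicalSpace Z]
    [TopologicalSpace Z'] (ψ : C(Z', SL n w.A)) (ζ : C(Z', Z)) (X : FR w n (s + 1))
    (hX : ∀ g ∈ K.P, g • X = X) (hX' : ∀ j, ∀ g ∈ K.P, g • X.face j = X.face j) (m : ℕ)
    (x : (colK w n s Z).C m) : (evC w K ψ ζ X hX).f m ((colδ w n s Z).f m x) =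
      ∑ j : Fin (s + 1), (-1 : ℤ) ^ (j : ℕ) • (evC w K ψ ζ (X.face j) (hX' j)).f m x := by
  unfold colδ
  rw [Cx.Hom.lin_f, map_sum]
  refine Finset.sum_congr rfl fun j _ => ?_
  rw [map_zsmul]
  rfl

open Classical in
/-- the evaluation at a frame, zero if the frame is not fixed -/
private noncomputable def gam2_E {n s : ℕ} (K : SG w n) (Z : Type) [TopologicalSpace Z] (m : ℕ)
    (x : (colK w n s Z).C m) (X : FR w n s) : (K.co Z).C m :=
  if hX : ∀ g ∈ K.P, g • X = X then (evC w K 1 (ContinuousMap.id Z) X hX).f m x else 0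

private theorem gam2_E_pos {n s : ℕ} (K : SG w n) (Z : Type) [TopologicalSpace Z] (m : ℕ)
    (x : (colK w n s Z).C m) (X : FR w n s) (hX : ∀ g ∈ K.P, g • X = X) :
    gam2_E w K Z m x X = (evC w K 1 (ContinuousMap.id Z) X hX).f m x := dif_pos hX

private theorem gam2_E_δ {n s : ℕ} (K : SG w n) (Z : Type) [TopologicalSpace Z] (m : ℕ)
    (x : (colK w n s Z).C m) (X : FR w n (s + 1)) (hX : ∀ g ∈ K.P, g • X = X) :
    (evC w K 1 (ContinuousMap.id Z) X hX).f m ((colδ w n s Z).f m x) =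
      ∑ j : Fin (s + 1), (-1 : ℤ) ^ (j : ℕ) • gam2_E w K Z m x (X.face j) := by
  have hX' : ∀ j, ∀ g ∈ K.P, g • X.face j = X.face j := fun j g hg => by
    rw [← FR.face_smul, hX g hg]
  rw [gam2_evδ w K 1 (ContinuousMap.id Z) X hX hX' m x]
  exact Finset.sum_congr rfl fun j _ => by rw [gam2_E_pos w K Z m x _ (hX' j)]

private theorem gam2_toFF {n s : ℕ} (X : FR w n (s + 1)) (j : Fin (s + 1)) :
    w.face j (X.toFF w) = (X.face j).toFF w := by
  refine w.vec_inj ?_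
  rw [w.vec_face, FR.toFF, FR.toFF, w.vec_rat, w.vec_rat]
  refine Matrix.ext fun i k => ?_
  rfl

/-- The alternating sum of the evaluations at the three frames. -/
def triD (n : ℕ) (Z : Type) [TopologicalSpace Z] : Eval2 (biD w (n + 2) Z) (csM2 w n Z) where
  f := fun τ r h => Cx.Hom.lin Finset.univ (fun i : Fin 3 => (-1 : ℤ) ^ (i : ℕ)) fun i =>
    evg w i (emb2 τ) (zero_mem_emb2 τ) (one_mem_emb2 τ) (r + 2) (emb2_card τ r h) Z
  comm := by
    intro τ r h m x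
    rw [Cx.Hom.lin_f]
    have h1 : ∀ i : Fin 3, (evg w i (emb2 τ) (zero_mem_emb2 τ) (one_mem_emb2 τ) (r + 1 + 2)
        (emb2_card τ (r + 1) h) Z).f m ((colδ w (n + 2) (r + 2) Z).f m x) =
        ∑ j : Fin (r + 1 + 2), (-1 : ℤ) ^ (j : ℕ) • gam2_E w (sM w (emb2 τ)) Z m x
          ((gfr w i (emb2 τ) (r + 1 + 2) (emb2_card τ (r + 1) h)).face j) := fun i =>
      gam2_E_δ w (sM w (emb2 τ)) Z m x _ _
    refine Eq.trans (Finset.sum_congr rfl fun i _ => congrArg ((-1 : ℤ) ^ (i : ℕ) • ·) (h1 i)) ?_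
    rw [gam2_sum (s := r + 1) (fun i j => gam2_E w (sM w (emb2 τ)) Z m x
      ((gfr w i (emb2 τ) (r + 1 + 2) (emb2_card τ (r + 1) h)).face j))
      (congrArg _ (gam2_A w (emb2 τ) (zero_mem_emb2 τ) (one_mem_emb2 τ) (r + 1) _))
      (congrArg _ (gam2_B w (emb2 τ) (zero_mem_emb2 τ) (one_mem_emb2 τ) (r + 1) _))
      (congrArg _ (gam2_C w (emb2 τ) (zero_mem_emb2 τ) (one_mem_emb2 τ) (r + 1) _))]
    refine Fintype.sum_equiv (τ.orderIsoOfFin h).toEquiv _ _ fun j => ?_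
    have h2 : (((τ.orderIsoOfFin h).toEquiv j : {i // i ∈ τ}) : Fin n) = τ.orderEmbOfFin h j :=
      rfl
    have h6 : (τ.erase (τ.orderEmbOfFin h j)).card = r := by
      rw [Finset.card_erase_of_mem (τ.orderEmbOfFin_mem h j), h]
      rfl
    have h7 : ∀ i : Fin 3, gam2_E w (sM w (emb2 τ)) Z m x
        ((gfr w i (emb2 τ) (r + 1 + 2) (emb2_card τ (r + 1) h)).face j.succ.succ) =
        ((csM2 w n Z).res (τ.erase_subset (τ.orderEmbOfFin h j))).f m
          ((evg w i (emb2 (τ.erase (τ.orderEmbOfFin h j))) (zero_mem_emb2 _) (one_mem_emb2 _)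
            (r + 2) (emb2_card _ r h6) Z).f m x) := fun i => by
      have e1 : (gfr w i (emb2 τ) (r + 1 + 2) (emb2_card τ (r + 1) h)).face j.succ.succ =
          gfr w i (emb2 (τ.erase (τ.orderEmbOfFin h j))) (r + 2) (emb2_card _ r h6) :=
        gam2_D w i τ r h j h6
      rw [e1, gam2_E_pos w (sM w (emb2 τ)) Z m x _ (fun g hg =>
        gfr_fixed w i (emb2 (τ.erase (τ.orderEmbOfFin h j))) (zero_mem_emb2 _) (one_mem_emb2 _)
          (r + 2) (emb2_card _ r h6) g ((sM_le (emb2_mono (τ.erase_subset _))).P hg))]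
      rfl
    have h8 : ∑ i : Fin 3, (-1 : ℤ) ^ (i : ℕ) • gam2_E w (sM w (emb2 τ)) Z m x
        ((gfr w i (emb2 τ) (r + 1 + 2) (emb2_card τ (r + 1) h)).face j.succ.succ) =
        ((csM2 w n Z).res (τ.erase_subset (τ.orderEmbOfFin h j))).f m
          ((Cx.Hom.lin Finset.univ (fun i : Fin 3 => (-1 : ℤ) ^ (i : ℕ)) fun i =>
            evg w i (emb2 (τ.erase (τ.orderEmbOfFin h j))) (zero_mem_emb2 _) (one_mem_emb2 _)
            (r + 2) (emb2_card _ r h6) Z).f m x) := by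
      rw [Cx.Hom.lin_f, map_sum]
      refine Finset.sum_congr rfl fun i _ => ?_
      rw [map_zsmul, h7 i]
    have h9 := congrArg ((-1 : ℤ) ^ (j : ℕ) • ·) h8
    refine Eq.trans h9 ?_
    rw [← gam2_sgn τ r h j]
    rfl
  zero := by
    intro h m x
    rw [Cx.Hom.lin_f]
    have h1 : ∀ i : Fin 3, (evg w i (emb2 (∅ : Finset (Fin n))) (zero_mem_emb2 _)
        (one_mem_emb2 _) (0 + 2) (emb2_card _ 0 h) Z).f m ((colδ w (n + 2) 1 Z).f m x) =
        ∑ j : Fin (0 + 2), (-1 : ℤ) ^ (j : ℕ) • gam2_E w (sM w (emb2 (∅ : Finset (Fin n)))) Z m x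
          ((gfr w i (emb2 (∅ : Finset (Fin n))) (0 + 2) (emb2_card _ 0 h)).face j) := fun i =>
      gam2_E_δ w (sM w (emb2 (∅ : Finset (Fin n)))) Z m x _ _
    refine Eq.trans (Finset.sum_congr rfl fun i _ => congrArg ((-1 : ℤ) ^ (i : ℕ) • ·) (h1 i)) ?_
    rw [gam2_sum (s := 0) (fun i j => gam2_E w (sM w (emb2 (∅ : Finset (Fin n)))) Z m x
      ((gfr w i (emb2 (∅ : Finset (Fin n))) (0 + 2) (emb2_card _ 0 h)).face j))
      (congrArg _ (gam2_A w (emb2 (∅ : Finset (Fin n))) (zero_mem_emb2 _) (one_mem_emb2 _) 0 _))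
      (congrArg _ (gam2_B w (emb2 (∅ : Finset (Fin n))) (zero_mem_emb2 _) (one_mem_emb2 _) 0 _))
      (congrArg _ (gam2_C w (emb2 (∅ : Finset (Fin n))) (zero_mem_emb2 _) (one_mem_emb2 _) 0 _))]
    exact Finset.sum_empty

/-- The value at a rational frame. -/
def ptE {n r : ℕ} (X : FR w n r) (Z : Type) [TopologicalSpace Z] :
    Cx.Hom (coN w n (w.FF n r × Z)) (coN w n Z) :=
  ((sM w ∅).par ⟨fun z : Z => (X.toFF w, z), by fun_prop⟩).pull w.W

private theorem gam2_ptδ {n s : ℕ} (Z : Type) [TopologicalSpace Z] (X : FR w n (s + 1)) (m : ℕ)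
    (x : (coN w n (w.FF n s × Z)).C m) : (ptE w X Z).f m ((eδ w n s Z).f m x) =
      ∑ j : Fin (s + 1), (-1 : ℤ) ^ (j : ℕ) • (ptE w (X.face j) Z).f m x := by
  unfold eδ
  rw [Cx.Hom.lin_f, map_sum]
  refine Finset.sum_congr rfl fun j _ => ?_
  rw [map_zsmul]
  congr 1
  refine GS.co_ext fun g y => ?_
  refine congrArg (GS.ap x fun i => g i) (Prod.ext rfl (Prod.ext ?_ rfl))
  exact gam2_toFF w X j

/-- The alternating sum of the values at the three frames. -/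
def triE (n : ℕ) (Z : Type) [TopologicalSpace Z] :
    Eval2 (biE w (n + 2) Z) (csConst (Fin n) (coN w (n + 2) Z)) where
  f := fun τ r h => Cx.Hom.lin Finset.univ (fun i : Fin 3 => (-1 : ℤ) ^ (i : ℕ)) fun i =>
    ptE w (gfr w i (emb2 τ) (r + 2) (emb2_card τ r h)) Z
  comm := by
    intro τ r h m x
    rw [Cx.Hom.lin_f]
    have h1 : ∀ i : Fin 3, (ptE w (gfr w i (emb2 τ) (r + 1 + 2)
        (emb2_card τ (r + 1) h)) Z).f m ((eδ w (n + 2) (r + 2) Z).f m x) =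
        ∑ j : Fin (r + 1 + 2), (-1 : ℤ) ^ (j : ℕ) • (ptE w
          ((gfr w i (emb2 τ) (r + 1 + 2) (emb2_card τ (r + 1) h)).face j) Z).f m x := fun i =>
      gam2_ptδ w Z _ m x
    refine Eq.trans (Finset.sum_congr rfl fun i _ => congrArg ((-1 : ℤ) ^ (i : ℕ) • ·) (h1 i)) ?_
    rw [gam2_sum (s := r + 1) (fun i j => (ptE w
      ((gfr w i (emb2 τ) (r + 1 + 2) (emb2_card τ (r + 1) h)).face j) Z).f m x)
      (congrArg (fun X => (ptE w X Z).f m x)
        (gam2_A w (emb2 τ) (zero_mem_emb2 τ) (one_mem_emb2 τ) (r + 1) _))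
      (congrArg (fun X => (ptE w X Z).f m x)
        (gam2_B w (emb2 τ) (zero_mem_emb2 τ) (one_mem_emb2 τ) (r + 1) _))
      (congrArg (fun X => (ptE w X Z).f m x)
        (gam2_C w (emb2 τ) (zero_mem_emb2 τ) (one_mem_emb2 τ) (r + 1) _))]
    refine Fintype.sum_equiv (τ.orderIsoOfFin h).toEquiv _ _ fun j => ?_
    have h6 : (τ.erase (τ.orderEmbOfFin h j)).card = r := by
      rw [Finset.card_erase_of_mem (τ.orderEmbOfFin_mem h j), h]
      rfl
    have h8 : ∑ i : Fin 3, (-1 : ℤ) ^ (i : ℕ) • (ptE w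
        ((gfr w i (emb2 τ) (r + 1 + 2) (emb2_card τ (r + 1) h)).face j.succ.succ) Z).f m x =
        (Cx.Hom.lin Finset.univ (fun i : Fin 3 => (-1 : ℤ) ^ (i : ℕ)) fun i =>
            ptE w (gfr w i (emb2 (τ.erase (τ.orderEmbOfFin h j)))
            (r + 2) (emb2_card _ r h6)) Z).f m x := by
      rw [Cx.Hom.lin_f]
      refine Finset.sum_congr rfl fun i _ => ?_
      have e1 : (gfr w i (emb2 τ) (r + 1 + 2) (emb2_card τ (r + 1) h)).face j.succ.succ =
          gfr w i (emb2 (τ.erase (τ.orderEmbOfFin h j))) (r + 2) (emb2_card _ r h6) :=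
        gam2_D w i τ r h j h6
      rw [e1]
    have h9 := congrArg ((-1 : ℤ) ^ (j : ℕ) • ·) h8
    refine Eq.trans h9 ?_
    rw [← gam2_sgn τ r h j]
    rfl
  zero := by
    intro h m x
    rw [Cx.Hom.lin_f]
    have h1 : ∀ i : Fin 3, (ptE w (gfr w i (emb2 (∅ : Finset (Fin n))) (0 + 2)
        (emb2_card _ 0 h)) Z).f m ((eδ w (n + 2) 1 Z).f m x) =
        ∑ j : Fin (0 + 2), (-1 : ℤ) ^ (j : ℕ) • (ptE w
          ((gfr w i (emb2 (∅ : Finset (Fin n))) (0 + 2) (emb2_card _ 0 h)).face j) Z).f m x :=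
      fun i => gam2_ptδ w Z _ m x
    refine Eq.trans (Finset.sum_congr rfl fun i _ => congrArg ((-1 : ℤ) ^ (i : ℕ) • ·) (h1 i)) ?_
    rw [gam2_sum (s := 0) (fun i j => (ptE w
      ((gfr w i (emb2 (∅ : Finset (Fin n))) (0 + 2) (emb2_card _ 0 h)).face j) Z).f m x)
      (congrArg (fun X => (ptE w X Z).f m x)
        (gam2_A w (emb2 (∅ : Finset (Fin n))) (zero_mem_emb2 _) (one_mem_emb2 _) 0 _))
      (congrArg (fun X => (ptE w X Z).f m x)
        (gam2_B w (emb2 (∅ : Finset (Fin n))) (zero_mem_emb2 _) (one_mem_emb2 _) 0 _))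
      (congrArg (fun X => (ptE w X Z).f m x)
        (gam2_C w (emb2 (∅ : Finset (Fin n))) (zero_mem_emb2 _) (one_mem_emb2 _) 0 _))]
    exact Finset.sum_empty

/-- The two are compatible with `θ`. -/
theorem triD_theta {n : ℕ} (Z : Type) [TopologicalSpace Z] (τ : Finset (Fin n)) (r : ℕ)
    (h : τ.card = r) (m : ℕ) (x : (coN w (n + 2) (w.FF (n + 2) (r + 2) × Z)).C m) :
    ((triD w n Z).f τ r h).f m (((theta w (n + 2) Z).f (r + 2)).f m x) =
      (SG.rs (leEmpty w (sM w (emb2 τ))) Z).f m (((triE w n Z).f τ r h).f m x) := by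
  rw [triD, triE, Cx.Hom.lin_f, Cx.Hom.lin_f, map_sum]
  refine Finset.sum_congr rfl fun i _ => ?_
  rw [map_zsmul]
  congr 1
  refine GS.co_ext fun g y => ?_
  refine congrArg (GS.ap x fun i => ⟨(g i).1, mem_Ms_empty _⟩)
    (Prod.ext (Subtype.ext ?_) (Prod.ext ?_ rfl))
  · exact mul_one y.1.1
  · have h1 := gfr_toFF_fixed w i (emb2 τ) (zero_mem_emb2 τ) (one_mem_emb2 τ) (r + 2)
      (emb2_card τ r h) (y.1.1)⁻¹ ((sM w (emb2 τ)).Q.inv_mem y.1.2)
    have h2 : (y.1.1 * (1 : C(Z, SL (n + 2) w.A)) y.2)⁻¹ = (y.1.1)⁻¹ :=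
      congrArg (·⁻¹) (mul_one y.1.1)
    exact (congrArg (fun a => w.mul (a, (gfr w i (emb2 τ) (r + 2) (emb2_card τ r h)).toFF w)) h2).trans h1

end Pool.Agent.BR80
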