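import Pool.Agent.BR80.SG

/-!
# Generation by two opposite unipotent radicals
-/

namespace Pool.Agent.BR80

open Matrix

variable (w : World) {n : ℕ}

private theorem genu_cont {i j : Fin n} (h : i ≠ j) : Continuous fun c : w.A => elt i j h c := by
  refine continuous_induced_rng.2 ?_
  change Continuous fun c : w.A => (1 : Matrix (Fin n) (Fin n) w.A) + Matrix.single i j c
  refine continuous_const.add (continuous_matrix fun a b => ?_)
  by_cases hab : i = a ∧ j = b
  · simp only [Matrix.single_apply, if_pos hab]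
    exact continuous_id
  · simp only [Matrix.single_apply, if_neg hab]
    exact continuous_const

private def genu_E {Z : Type} [TopologicalSpace Z] {i j : Fin n} (h : i ≠ j) (c : C(Z, w.A)) :
    C(Z, SL n w.A) := ⟨fun z => elt i j h (c z), (genu_cont w h).comp c.continuous⟩

private theorem genu_mul {R : Type} [CommRing R] {i j k : Fin n} (h : i ≠ j) (hik : i ≠ k)
    (hkj : k ≠ j) (c : R) : elt i j h c * (elt k j hkj 1 * elt i k hik c) =
      elt i k hik c * elt k j hkj 1 := by
  apply Subtype.ext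
  change Matrix.transvection i j c * (Matrix.transvection k j 1 * Matrix.transvection i k c) =
    Matrix.transvection i k c * Matrix.transvection k j 1
  have e1 : Matrix.single i k c * Matrix.single k j (1 : R) = Matrix.single i j c := by
    rw [Matrix.single_mul_single_same, mul_one]
  have e2 : Matrix.single k j (1 : R) * Matrix.single i k c = 0 :=
    Matrix.single_mul_single_of_ne _ _ _ _ h.symm _
  have e3 : Matrix.single i j c * Matrix.single k j (1 : R) = 0 :=
    Matrix.single_mul_single_of_ne _ _ _ _ hkj.symm _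
  have e4 : Matrix.single i j c * Matrix.single i k c = 0 :=
    Matrix.single_mul_single_of_ne _ _ _ _ h.symm _
  unfold Matrix.transvection
  simp only [mul_add, add_mul, mul_one, one_mul, e1, e2, e3, e4, add_zero]
  abel

private theorem genu_comm {Z : Type} [TopologicalSpace Z] {i j k : Fin n} (h : i ≠ j)
    (hik : i ≠ k) (hkj : k ≠ j) (c : C(Z, w.A)) :
    genu_E w h c = genu_E w hik c * genu_E w hkj (1 : C(Z, w.A)) * (genu_E w hik c)⁻¹ *
      (genu_E w hkj (1 : C(Z, w.A)))⁻¹ := by
  rw [eq_mul_inv_iff_mul_eq, eq_mul_inv_iff_mul_eq, mul_assoc]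
  refine ContinuousMap.ext fun z => ?_
  exact genu_mul h hik hkj (c z)

private theorem genu_mem (τ : Finset (Fin n)) {Z : Type} [TopologicalSpace Z] {i j : Fin n}
    (h : i ≠ j) (c : C(Z, w.A)) (hc : (i ∈ τ ∧ j ∉ τ) ∨ (i ∉ τ ∧ j ∈ τ)) :
    genu_E w h c ∈ {e : C(Z, SL n w.A) | (∀ z, IsU w.A τ (e z)) ∨ ∀ z, IsUm w.A τ (e z)} := by
  have key : ∀ z a b, ¬ (a = i ∧ b = j) →
      (genu_E w h c z).1 a b = (1 : Matrix (Fin n) (Fin n) w.A) a b := by
    intro z a b hab
    change ((1 : Matrix (Fin n) (Fin n) w.A) + Matrix.single i j (c z)) a b = _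
    rw [Matrix.add_apply, Matrix.single_apply, if_neg (fun h => hab ⟨h.1.symm, h.2.symm⟩), add_zero]
  rcases hc with hc | hc
  · exact Or.inl fun z a b hab => key z a b fun h => hab ⟨h.1 ▸ hc.1, h.2 ▸ hc.2⟩
  · exact Or.inr fun z a b hab => key z a b fun h => hab ⟨h.1 ▸ hc.1, h.2 ▸ hc.2⟩

/-- `SL_n(A)`-valued functions are generated by the functions with values in the two opposite
unipotent radicals `U_τ(A)`, `U^-_τ(A)`; here `τ` is neither empty nor everything
(`World.gen` and commutators of transvections). -/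
theorem gen_UUm (τ : Finset (Fin n)) (h0 : τ.Nonempty) (h1 : τ ≠ Finset.univ) (Z : Type)
    [TopologicalSpace Z] (a : C(Z, SL n w.A)) :
    a ∈ Subgroup.closure {e : C(Z, SL n w.A) | (∀ z, IsU w.A τ (e z)) ∨ ∀ z, IsUm w.A τ (e z)} := by
  refine (Subgroup.closure_le _).2 ?_ (w.gen n Z a)
  rintro e ⟨i, j, h, c, he⟩
  have he' : e = genu_E w h c := ContinuousMap.ext he
  rw [he']
  by_cases hi : i ∈ τ
  · by_cases hj : j ∈ τ
    · obtain ⟨k, hk⟩ : ∃ k, k ∉ τ := by
        by_contra hcon
        push Not at hcon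
        exact h1 (Finset.eq_univ_iff_forall.2 hcon)
      have hik : i ≠ k := fun h => hk (h ▸ hi)
      have hkj : k ≠ j := fun h => hk (h ▸ hj)
      rw [genu_comm w h hik hkj c]
      have m1 := Subgroup.subset_closure (genu_mem w τ hik c (Or.inl ⟨hi, hk⟩))
      have m2 := Subgroup.subset_closure (genu_mem w τ hkj (1 : C(Z, w.A)) (Or.inr ⟨hk, hj⟩))
      exact mul_mem (mul_mem (mul_mem m1 m2) (inv_mem m1)) (inv_mem m2)
    · exact Subgroup.subset_closure (genu_mem w τ h c (Or.inl ⟨hi, hj⟩))
  · by_cases hj : j ∈ τ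
    · exact Subgroup.subset_closure (genu_mem w τ h c (Or.inr ⟨hi, hj⟩))
    · obtain ⟨k, hk⟩ := h0
      have hik : i ≠ k := fun h => hi (h ▸ hk)
      have hkj : k ≠ j := fun h => hj (h ▸ hk)
      rw [genu_comm w h hik hkj c]
      have m1 := Subgroup.subset_closure (genu_mem w τ hik c (Or.inr ⟨hi, hk⟩))
      have m2 := Subgroup.subset_closure (genu_mem w τ hkj (1 : C(Z, w.A)) (Or.inl ⟨hk, hj⟩))
      exact mul_mem (mul_mem (mul_mem m1 m2) (inv_mem m1)) (inv_mem m2)

end Pool.Agent.BR80
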