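import Pool.Agent.BR80.CoI

/-!
# Invariants of a normal subgroup: acyclic modules
-/

namespace Pool.Agent.BR80

namespace GM

/-- The invariants of a subgroup. -/
def invSub (S : GM) (N : Subgroup S.G) : AddSubgroup S.M where
  carrier := {x | ∀ n ∈ N, S.ρ n x = x}
  zero_mem' := fun n _ => map_zero _
  add_mem' := fun {a b} ha hb n hn => by rw [map_add, ha n hn, hb n hn]
  neg_mem' := fun {a} ha n hn => by rw [map_neg, ha n hn]

theorem mem_invSub {S : GM} {N : Subgroup S.G} {x : S.M} :
    x ∈ S.invSub N ↔ ∀ n ∈ N, S.ρ n x = x := Iff.rfl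

theorem invSub_stable (S : GM) (N : Subgroup S.G) [hN : N.Normal] (g : S.G) {x : S.M}
    (hx : x ∈ S.invSub N) : S.ρ g x ∈ S.invSub N := by
  intro n hn
  have h1 : S.ρ (g⁻¹ * n * g) x = x := hx _ (by simpa using hN.conj_mem n hn g⁻¹)
  rw [← S.ρ_mul, show n * g = g * (g⁻¹ * n * g) by group, S.ρ_mul, h1]

/-- The invariants as a module over the same group. -/
def inv (S : GM) (N : Subgroup S.G) [N.Normal] : GM where
  G := S.G
  M := S.invSub N
  ρ :=
    { toFun := fun g =>
        { toFun := fun x => ⟨S.ρ g x.1, S.invSub_stable N g x.2⟩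
          map_zero' := Subtype.ext (map_zero _)
          map_add' := fun x y => Subtype.ext (map_add _ _ _) }
      map_one' := AddMonoidHom.ext fun x => Subtype.ext (by
        change S.ρ 1 x.1 = x.1
        rw [map_one]
        rfl)
      map_mul' := fun g h => AddMonoidHom.ext fun x => Subtype.ext (by
        change S.ρ (g * h) x.1 = S.ρ g (S.ρ h x.1)
        rw [map_mul]
        rfl) }

/-- The module of the invariants as a module over the quotient group. -/
def invQ (S : GM) (N : Subgroup S.G) [N.Normal] : GM where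
  G := S.G ⧸ N
  M := S.invSub N
  ρ := QuotientGroup.lift N (S.inv N).ρ (fun n hn => AddMonoidHom.ext fun x =>
    Subtype.ext (x.2 n hn))

/-- The morphism which induces the inflation. -/
def infl (S : GM) (N : Subgroup S.G) [N.Normal] : Hom S (S.invQ N) where
  φ := QuotientGroup.mk' N
  u := (S.invSub N).subtype
  comm := fun _ _ => rfl

private theorem inv_ses2 (A B C : GM) (a : GM.Hom B A) (b : GM.Hom C B)
    (ha : Function.Bijective a.φ) (hb : Function.Bijective b.φ)
    (h1 : ∀ x, a.u x = 0 → x = 0) (h2 : ∀ y, b.u y = 0 → ∃ x, a.u x = y)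
    (h3 : ∀ x, b.u (a.u x) = 0) (h4 : ∀ z, ∃ y, b.u y = z) :
    ∃ s : SES A.cx B.cx C.cx, s.i = a.cx ∧ s.p = b.cx := by
  choose a' ha' using ha.2
  choose b' hb' using hb.2
  have ha2 : ∀ x, a' (a.φ x) = x := fun x => ha.1 (ha' _)
  have hb2 : ∀ x, b' (b.φ x) = x := fun x => hb.1 (hb' _)
  refine ⟨⟨a.cx, b.cx, fun m x hx => ?_, fun m y hy => ?_, fun m x => ?_, fun m z => ?_⟩, rfl, rfl⟩
  · funext g
    have e1 := congrFun hx (fun i => a' (g i))
    have e2 : a.u ((show (Fin m → A.G) → A.M from x) fun i => a.φ (a' (g i))) = 0 := e1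
    simp only [ha'] at e2
    exact h1 _ e2
  · have h : ∀ g : Fin m → B.G, ∃ x, a.u x = (show (Fin m → B.G) → B.M from y) g := fun g => by
      apply h2
      have e1 := congrFun hy (fun i => b' (g i))
      have e2 : b.u ((show (Fin m → B.G) → B.M from y) fun i => b.φ (b' (g i))) = 0 := e1
      simp only [hb'] at e2
      exact e2
    choose f hf using h
    refine ⟨(fun g => f fun i => a' (g i) : (Fin m → A.G) → A.M), funext fun g => ?_⟩
    have e3 : a.u (f fun i => a' (a.φ (g i))) = (show (Fin m → B.G) → B.M from y) g := by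
      simp only [ha2]
      exact hf g
    exact e3
  · funext g
    exact h3 _
  · have h : ∀ g : Fin m → C.G, ∃ y, b.u y = (show (Fin m → C.G) → C.M from z) g := fun g => h4 _
    choose f hf using h
    refine ⟨(fun g => f fun i => b' (g i) : (Fin m → B.G) → B.M), funext fun g => ?_⟩
    have e3 : b.u (f fun i => b' (b.φ (g i))) = (show (Fin m → C.G) → C.M from z) g := by
      simp only [hb2]
      exact hf g
    exact e3

private theorem inv_zero (S : GM) (c : (Fin 0 → S.G) → S.M) :
    (∀ g, S.dFun 0 c g = 0) ↔ ∀ g, S.ρ g (c Fin.elim0) = c Fin.elim0 := by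
  have h3 : ∀ w : Fin 0 → S.G, w = Fin.elim0 := fun w => Subsingleton.elim _ _
  have h : ∀ g : Fin 1 → S.G, S.dFun 0 c g = S.ρ (g 0) (c Fin.elim0) - c Fin.elim0 := fun g => by
    rw [dFun, Fin.sum_univ_one, h3 (fun i => g i.succ), h3 (Fin.contractNth _ _ _)]
    simp [sub_eq_add_neg]
  constructor
  · intro hc g
    have h1 := hc fun _ => g
    rw [h, sub_eq_zero] at h1
    exact h1
  · intro hc g
    rw [h, hc, sub_self]

private theorem inv_d0 (S : GM) (c : (Fin 0 → S.G) → S.M) (g : Fin 1 → S.G) :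
    S.dFun 0 c g = S.ρ (g 0) (c Fin.elim0) - c Fin.elim0 := by
  have h3 : ∀ w : Fin 0 → S.G, w = Fin.elim0 := fun w => Subsingleton.elim _ _
  rw [dFun, Fin.sum_univ_one, h3 (fun i => g i.succ), h3 (Fin.contractNth _ _ _)]
  simp [sub_eq_add_neg]

private theorem inv_comm (S : GM) (g y : S.G) (x : S.M) :
    S.ρ y (S.ρ g x) = S.ρ (y * g) x := by
  rw [S.ρ_mul]

private theorem inv_one (S : GM) (x : S.M) (h : S.ρ 1 x = 0) : x = 0 := by
  rwa [S.ρ_one] at h

private def inv_a' (S : GM) (H : Subgroup S.G) :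
    GM.Hom ((coind S.G S.M).res H) (S.res H) where
  φ := MonoidHom.id H
  u := S.emb
  comm := fun g x => by
    funext y
    exact inv_comm S (g : H).1 y x

private def inv_b' (S : GM) (H : Subgroup S.G) :
    GM.Hom (S.quo.res H) ((coind S.G S.M).res H) where
  φ := MonoidHom.id H
  u := QuotientAddGroup.mk' S.emb.range
  comm := fun _ _ => rfl

private theorem inv_ses' (S : GM) (H : Subgroup S.G) :
    ∃ s : SES (S.res H).cx ((coind S.G S.M).res H).cx (S.quo.res H).cx,
    s.i = (inv_a' S H).cx ∧ s.p = (inv_b' S H).cx := by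
  refine inv_ses2 _ _ _ (inv_a' S H) (inv_b' S H) Function.bijective_id Function.bijective_id
    (fun x hx => ?_) (fun y hy => ?_) (fun x => ?_) (fun z => ?_)
  · exact inv_one S _ (congrFun hx 1)
  · exact (QuotientAddGroup.eq_zero_iff _).1 hy
  · exact (QuotientAddGroup.eq_zero_iff _).2 ⟨x, rfl⟩
  · exact QuotientAddGroup.mk'_surjective _ z

private theorem inv_inj0 (S : GM) (N : Subgroup S.G) [N.Normal] : (S.infl N).cx.Inj 0 := by
  intro f hf h0
  rw [Cx.mem_Bg_zero] at h0 ⊢
  funext g
  have h1 := congrFun h0 Fin.elim0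
  have h2 : (show (Fin 0 → S.G ⧸ N) → S.invSub N from f) (fun i => QuotientGroup.mk' N
    ((Fin.elim0 i : S.G))) = 0 := Subtype.ext h1
  have h3 : g = (fun i : Fin 0 => QuotientGroup.mk' N ((Fin.elim0 i : S.G))) :=
    Subsingleton.elim _ _
  rw [h3]
  exact h2

private theorem inv_sur0 (S : GM) (N : Subgroup S.G) [N.Normal] : (S.infl N).cx.Surj 0 := by
  intro z hz
  have h1 := (inv_zero S z).1 (congrFun hz)
  have hf : ∀ g, (S.invQ N).dFun 0 (fun _ =>
      (⟨(show (Fin 0 → S.G) → S.M from z) Fin.elim0, fun n _ => h1 n⟩ : S.invSub N)) g = 0 := by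
    refine (inv_zero (S.invQ N) _).2 fun g => ?_
    obtain ⟨g, rfl⟩ := QuotientGroup.mk'_surjective N g
    exact Subtype.ext (h1 g)
  refine ⟨(fun _ => ⟨(show (Fin 0 → S.G) → S.M from z) Fin.elim0, fun n _ => h1 n⟩ :
    (Fin 0 → S.G ⧸ N) → S.invSub N), funext hf, ?_⟩
  · rw [Cx.mem_Bg_zero, sub_eq_zero]
    funext g
    have h3 : g = Fin.elim0 := Subsingleton.elim _ _
    rw [h3]
    rfl

private theorem inv_out (G : Type) [Group G] (N : Subgroup G) (g : G) :
    ∃ n ∈ N, ((QuotientGroup.mk g : G ⧸ N)).out = g * n := by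
  refine ⟨g⁻¹ * ((QuotientGroup.mk g : G ⧸ N)).out, ?_, ?_⟩
  · rw [← QuotientGroup.eq]
    exact (Quotient.out_eq' _).symm
  · group

private noncomputable def inv_e (G M : Type) [Group G] [AddCommGroup M] (N : Subgroup G) [hN : N.Normal] :
    (@invQ (coind G M) N hN).M ≃+ (G ⧸ N → M) where
  toFun := fun (f : (coind G M).invSub N) q => (show G → M from f.1) q.out
  invFun := fun F => (⟨fun x : G => F (QuotientGroup.mk x), fun n hn => funext fun x : G => by
    have h : F (QuotientGroup.mk (x * (show G from n))) = F (QuotientGroup.mk x) := by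
      rw [QuotientGroup.mk_mul_of_mem x hn]
    exact h⟩ : (coind G M).invSub N)
  left_inv := fun (f : (coind G M).invSub N) => Subtype.ext (funext fun x : G => by
    obtain ⟨n, hn, h⟩ := inv_out G N x
    change (show G → M from f.1) ((QuotientGroup.mk x : G ⧸ N)).out = (show G → M from f.1) x
    rw [h]
    exact congrFun (f.2 n hn) x)
  right_inv := fun F => funext fun q => by
    change F (QuotientGroup.mk q.out) = F q
    congr 1
    exact Quotient.out_eq' q
  map_add' := fun _ _ => rfl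

private theorem inv_e1 (G M : Type) [Group G] [AddCommGroup M] (N : Subgroup G) [hN : N.Normal]
    (g : G ⧸ N) (f : (@invQ (coind G M) N hN).M) (x : G ⧸ N) :
    inv_e G M N ((@invQ (coind G M) N hN).ρ g f) x = inv_e G M N f (x * g) := by
  obtain ⟨g, rfl⟩ := QuotientGroup.mk'_surjective N g
  obtain ⟨x, rfl⟩ := QuotientGroup.mk'_surjective N x
  obtain ⟨n, hn, h⟩ := inv_out G N x
  obtain ⟨n', hn', h'⟩ := inv_out G N (x * g)
  have e1 : ∀ y : G, ∀ n ∈ N, (show G → M from (show (coind G M).invSub N from f).1) (y * n) =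
    (show G → M from (show (coind G M).invSub N from f).1) y := fun y n hn =>
    congrFun ((show (coind G M).invSub N from f).2 n hn) y
  have h1 : (show G → M from (show (coind G M).invSub N from f).1)
    (((QuotientGroup.mk x : G ⧸ N)).out * g) =
    (show G → M from (show (coind G M).invSub N from f).1)
    (((QuotientGroup.mk (x * g) : G ⧸ N)).out) := by
    rw [h, h', e1 (x * g) n' hn', show x * n * g = x * g * (g⁻¹ * n * g) by group]
    exact e1 _ _ (by simpa using hN.conj_mem n hn g⁻¹)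
  exact h1

private theorem inv_acyc (G M : Type) [Group G] [AddCommGroup M] (N : Subgroup G) [hN : N.Normal]
    (m : ℕ) : (@invQ (coind G M) N hN).cx.Acyc (m + 1) :=
  coI_acyc (@invQ (coind G M) N hN) (G ⧸ N) M (inv_e G M N) (fun x (g : G ⧸ N) => x * g)
    (inv_e1 G M N) (fun _ => 1) id (fun _ _ => rfl) (fun _ _ => rfl) (fun x => one_mul x) m

private def inv_ai (S : GM) (N : Subgroup S.G) [hN : N.Normal] :
    GM.Hom (@invQ (coind S.G S.M) N hN) (S.invQ N) where
  φ := MonoidHom.id (S.G ⧸ N)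
  u :=
    { toFun := fun x => (⟨S.emb x.1, fun n hn => funext fun y : S.G => by
          have h : S.ρ (y * (show S.G from n)) x.1 = S.ρ y x.1 := by
            rw [S.ρ_mul, x.2 n hn]
          exact h⟩ : (coind S.G S.M).invSub N)
      map_zero' := Subtype.ext (map_zero S.emb)
      map_add' := fun x y => Subtype.ext (map_add S.emb x.1 y.1) }
  comm := fun g x => by
    obtain ⟨g, rfl⟩ := QuotientGroup.mk'_surjective N g
    exact Subtype.ext (funext fun y => inv_comm S g y _)

private def inv_bi (S : GM) (N : Subgroup S.G) [hN : N.Normal] :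
    GM.Hom (@invQ S.quo N hN) (@invQ (coind S.G S.M) N hN) where
  φ := MonoidHom.id (S.G ⧸ N)
  u :=
    { toFun := fun x => (⟨QuotientAddGroup.mk' S.emb.range x.1, fun n hn =>
          congrArg (QuotientAddGroup.mk' S.emb.range) (x.2 n hn)⟩ : S.quo.invSub N)
      map_zero' := Subtype.ext (map_zero (QuotientAddGroup.mk' S.emb.range))
      map_add' := fun x y => Subtype.ext (map_add (QuotientAddGroup.mk' S.emb.range) x.1 y.1) }
  comm := fun g x => by
    obtain ⟨g, rfl⟩ := QuotientGroup.mk'_surjective N g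
    exact Subtype.ext rfl

private theorem inv_emb_inj (S : GM) {x y : S.M} (h : S.emb x = S.emb y) : x = y := by
  have h1 : S.ρ 1 x = S.ρ 1 y := congrFun h 1
  rwa [S.ρ_one, S.ρ_one] at h1

private theorem inv_lift (S : GM) (N : Subgroup S.G) (hac : (S.res N).cx.Acyc 1)
    (y : S.G → S.M) (hy : ∀ n ∈ N, ∃ x, S.emb x = (fun g => y (g * n)) - y) :
    ∃ b : S.M, ∀ n ∈ N, (fun g => (y - S.emb b) (g * n)) = y - S.emb b := by
  choose c hc using fun n : N => hy n.1 n.2
  have hcc : ∀ g h : N, S.ρ g.1 (c h) - c (g * h) + c g = 0 := fun g h => by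
    have h1 : S.emb (c (g * h)) = S.emb (S.ρ g.1 (c h) + c g) := by
      rw [hc, map_add, hc]
      funext x
      have h2 := congrFun (hc h) (x * g.1)
      have h3 : S.ρ (x * g.1) (c h) = y (x * g.1 * h.1) - y (x * g.1) := h2
      have h4 : S.ρ x (S.ρ g.1 (c h)) = y (x * g.1 * h.1) - y (x * g.1) := by
        rw [← S.ρ_mul, h3]
      change y (x * (g.1 * h.1)) - y x = S.ρ x (S.ρ g.1 (c h)) + (y (x * g.1) - y x)
      rw [h4, mul_assoc]
      abel
    have h2 := inv_emb_inj S h1
    rw [h2]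
    abel
  have hz : ∀ g : Fin 2 → N, (S.res N).dFun 1 (fun g => c (g 0)) g = 0 := fun g => by
    have h1 : S.ρ (g 0).1 (c (g 1)) + ∑ j : Fin 2, (-1 : ℤ) ^ ((j : ℕ) + 1) •
      c (Fin.contractNth j (· * ·) g 0) = 0 := by
      rw [Fin.sum_univ_two]
      have e0 : (Fin.contractNth (0 : Fin 2) (· * ·) g 0) = g 0 * g 1 := by
        simp [Fin.contractNth]
      have e1 : (Fin.contractNth (1 : Fin 2) (· * ·) g 0) = g 0 := by
        simp [Fin.contractNth]
      rw [e0, e1, ← hcc (g 0) (g 1)]
      simp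
      abel
    exact h1
  obtain ⟨b, hb⟩ := hac (fun g => c (g 0)) (funext hz)
  have hb' : ∀ n : N, S.ρ n.1 ((show (Fin 0 → N) → S.M from b) Fin.elim0) -
      (show (Fin 0 → N) → S.M from b) Fin.elim0 = c n := fun n => by
    have h1 : (S.res N).dFun 0 b (fun _ => n) = c n := congrFun hb (fun _ => n)
    exact (inv_d0 (S.res N) b (fun _ => n)).symm.trans h1
  refine ⟨(show (Fin 0 → N) → S.M from b) Fin.elim0, fun n hn => ?_⟩
  funext g
  have h1 := congrFun (hc ⟨n, hn⟩) g
  rw [← hb' ⟨n, hn⟩] at h1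
  have h2 : S.ρ g (S.ρ n ((show (Fin 0 → N) → S.M from b) Fin.elim0) -
      (show (Fin 0 → N) → S.M from b) Fin.elim0) = y (g * n) - y g := h1
  rw [map_sub, ← S.ρ_mul] at h2
  change y (g * n) - S.ρ (g * n) ((show (Fin 0 → N) → S.M from b) Fin.elim0) =
    y g - S.ρ g ((show (Fin 0 → N) → S.M from b) Fin.elim0)
  rw [sub_eq_sub_iff_add_eq_add] at h2 ⊢
  rw [← h2]
  abel

private theorem inv_sesi (S : GM) (N : Subgroup S.G) [hN : N.Normal]
    (hac : (S.res N).cx.Acyc 1) :
    ∃ s : SES (S.invQ N).cx (@invQ (coind S.G S.M) N hN).cx (@invQ S.quo N hN).cx,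
    s.i = (inv_ai S N).cx ∧ s.p = (inv_bi S N).cx := by
  refine inv_ses2 _ _ _ (inv_ai S N) (inv_bi S N) Function.bijective_id Function.bijective_id
    (fun x hx => ?_) (fun y hy => ?_) (fun x => ?_) (fun z => ?_)
  · exact Subtype.ext (inv_one S _ (congrFun (congrArg Subtype.val hx) 1))
  · obtain ⟨x, hx⟩ := (QuotientAddGroup.eq_zero_iff _).1 (congrArg Subtype.val hy)
    refine ⟨(⟨x, fun n hn => inv_emb_inj S ?_⟩ : S.invSub N), Subtype.ext hx⟩
    have h1 : (coind S.G S.M).ρ n y.1 = y.1 := y.2 n hn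
    have h2 : S.emb (S.ρ n x) = (coind S.G S.M).ρ n (S.emb x) :=
      funext fun g => inv_comm S n g x
    rw [h2, hx]
    exact h1
  · exact Subtype.ext ((QuotientAddGroup.eq_zero_iff _).2 ⟨_, rfl⟩)
  · obtain ⟨y, hy⟩ := QuotientAddGroup.mk'_surjective S.emb.range z.1
    have hy' : ∀ n ∈ N, ∃ x, S.emb x = (fun g => y (g * n)) - y := fun n hn => by
      have h1 : S.quo.ρ n z.1 = z.1 := z.2 n hn
      rw [← hy] at h1
      have h2 : QuotientAddGroup.mk' S.emb.range (fun g => y (g * n)) =
        QuotientAddGroup.mk' S.emb.range y := h1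
      have h3 : QuotientAddGroup.mk' S.emb.range ((fun g => y (g * n)) - y) = 0 := by
        rw [map_sub, h2, sub_self]
      exact (QuotientAddGroup.eq_zero_iff _).1 h3
    obtain ⟨b, hb⟩ := inv_lift S N hac y hy'
    refine ⟨(⟨(y - S.emb b : S.G → S.M), hb⟩ : (coind S.G S.M).invSub N), Subtype.ext ?_⟩
    have h5 : QuotientAddGroup.mk' S.emb.range (S.emb b) = 0 :=
      (QuotientAddGroup.eq_zero_iff _).2 ⟨_, rfl⟩
    have h4 : QuotientAddGroup.mk' S.emb.range (y - S.emb b) =
        QuotientAddGroup.mk' S.emb.range y := by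
      rw [map_sub, h5, sub_zero]
    exact h4.trans hy

private def inv_at (S : GM) : GM.Hom (coind S.G S.M) S where
  φ := MonoidHom.id S.G
  u := S.emb
  comm := fun g x => funext fun y => inv_comm S g y x

private def inv_bt (S : GM) : GM.Hom S.quo (coind S.G S.M) where
  φ := MonoidHom.id S.G
  u := QuotientAddGroup.mk' S.emb.range
  comm := fun _ _ => rfl

private theorem inv_sest (S : GM) :
    ∃ s : SES S.cx (coind S.G S.M).cx S.quo.cx,
    s.i = (inv_at S).cx ∧ s.p = (inv_bt S).cx := by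
  refine inv_ses2 _ _ _ (inv_at S) (inv_bt S) Function.bijective_id Function.bijective_id
    (fun x hx => ?_) (fun y hy => ?_) (fun x => ?_) (fun z => ?_)
  · exact inv_one S _ (congrFun hx 1)
  · exact (QuotientAddGroup.eq_zero_iff _).1 hy
  · exact (QuotientAddGroup.eq_zero_iff _).2 ⟨x, rfl⟩
  · exact QuotientAddGroup.mk'_surjective _ z

private theorem inv_main (m : ℕ) : ∀ (S : GM) (N : Subgroup S.G) [N.Normal]
    (_ : ∀ m, (S.res N).cx.Acyc (m + 1)), (S.infl N).cx.Inj m ∧ (S.infl N).cx.Surj m := by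
  induction m with
  | zero => exact fun S N _ _ => ⟨inv_inj0 S N, inv_sur0 S N⟩
  | succ m ih =>
    intro S N hN hac
    obtain ⟨s, hs1, hs2⟩ := inv_sesi S N (hac 0)
    obtain ⟨s', hs1', hs2'⟩ := inv_sest S
    obtain ⟨s'', -, -⟩ := inv_ses' S N
    have hq : ∀ m, (S.quo.res N).cx.Acyc (m + 1) := fun m =>
      s''.acyc_right (m + 1) (hac (m + 1)) (coind_res_acyc S.G S.M N m)
    obtain ⟨hc1, hc2⟩ := @ih S.quo N hN hq
    refine SES.step s s' (S.infl N).cx (@infl (coind S.G S.M) N hN).cx
      (@infl S.quo N hN).cx (fun k c => ?_) (fun k c => ?_) m ?_ hc1 hc2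
      (inv_acyc S.G S.M N m) (coind_acyc S.G S.M m)
    · rw [hs1, hs1']
      rfl
    · rw [hs2, hs2']
      rfl
    · cases m with
      | zero => exact @inv_sur0 (coind S.G S.M) N hN
      | succ m =>
        intro z hz
        refine ⟨0, AddSubgroup.zero_mem _, ?_⟩
        rw [map_zero, sub_zero]
        exact coind_acyc S.G S.M m z hz

/-- If `M` is acyclic for `N`, the inflation is bijective (dimension shifting: `exists_ses`,
`SES.step`; the invariants of `N` in a coinduced module are coinduced for `G / N`, and taking the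
invariants of `N` is exact on the sequence because of the acyclicity). -/
theorem infl_qis (S : GM) (N : Subgroup S.G) [N.Normal]
    (hac : ∀ m, (S.res N).cx.Acyc (m + 1)) : (S.infl N).cx.Qis := by
  exact fun m => inv_main m S N hac

end GM

end Pool.Agent.BR80
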