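import Pool.Agent.BR80.ECol
import Pool.Agent.BR80.Dens

/-!
# A cocycle on `GL_n(A)`
-/

namespace Pool.Agent.BR80

open Matrix

variable (w : World)

section kap

variable {m : ℕ} {R : Type} [CommRing R]

/-- The columns `l, e_(i.succAbove 0), e_(i.succAbove 1), …`. -/
private def kapQ (i : Fin (m + 1)) (l : Fin (m + 1) → R) : Matrix (Fin (m + 1)) (Fin (m + 1)) R :=
  Matrix.of fun p k => Fin.cons (α := fun _ => R) (l p)
    (fun k' : Fin m => if p = i.succAbove k' then 1 else 0) k

private theorem kapQ_zero (i : Fin (m + 1)) (l : Fin (m + 1) → R) (p : Fin (m + 1)) :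
    kapQ i l p 0 = l p := rfl

private theorem kapQ_succ (i : Fin (m + 1)) (l : Fin (m + 1) → R) (p : Fin (m + 1)) (k : Fin m) :
    kapQ i l p k.succ = if p = i.succAbove k then 1 else 0 := rfl

private theorem kapQ_det (i : Fin (m + 1)) (l : Fin (m + 1) → R) :
    (kapQ i l).det = (-1) ^ (i : ℕ) * l i := by
  rw [Matrix.det_succ_column_zero, Finset.sum_eq_single i]
  · have h1 : (kapQ i l).submatrix i.succAbove Fin.succ = 1 := by
      ext p q
      rw [Matrix.submatrix_apply, kapQ_succ, Matrix.one_apply]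
      simp only [Fin.succAbove_right_inj]
    rw [h1, Matrix.det_one, mul_one, kapQ_zero]
  · intro j _ hj
    obtain ⟨k', hk'⟩ := Fin.exists_succAbove_eq hj
    have h1 : ((kapQ i l).submatrix j.succAbove Fin.succ).det = 0 := by
      apply Matrix.det_eq_zero_of_column_eq_zero k'
      intro p
      rw [Matrix.submatrix_apply, kapQ_succ, hk', if_neg (Fin.succAbove_ne j p)]
    rw [h1, mul_zero]
  · intro h
    exact absurd (Finset.mem_univ i) h

/-- The product of a matrix with `kapQ`. -/
private theorem kapQ_mul (V : Matrix (Fin (m + 1)) (Fin (m + 1)) R) (i : Fin (m + 1))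
    (l : Fin (m + 1) → R) (p : Fin (m + 1)) (k : Fin m) :
    (V * kapQ i l) p k.succ = V p (i.succAbove k) := by
  rw [Matrix.mul_apply]
  simp_rw [kapQ_succ]
  rw [Finset.sum_eq_single (i.succAbove k)]
  · rw [if_pos rfl, mul_one]
  · intro b _ hb
    rw [if_neg hb, mul_zero]
  · intro h
    exact absurd (Finset.mem_univ _) h

private theorem kapQ_comp (l : Fin (m + 1) → R) (s : Fin m → R) :
    kapQ 0 l * kapQ 0 (Fin.cons 1 s) = kapQ 0 (fun p => l p + Fin.cons (α := fun _ => R) 0 s p) := by
  ext p q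
  refine Fin.cases ?_ (fun k => ?_) q
  · rw [Matrix.mul_apply, Fin.sum_univ_succ, kapQ_zero, kapQ_zero, kapQ_zero, Fin.cons_zero, mul_one]
    congr 1
    simp_rw [kapQ_succ, kapQ_zero, Fin.cons_succ, Fin.zero_succAbove]
    refine Fin.cases ?_ (fun k => ?_) p
    · rw [Fin.cons_zero]
      refine Finset.sum_eq_zero fun k _ => ?_
      rw [if_neg (Fin.succ_ne_zero k).symm, zero_mul]
    · rw [Fin.cons_succ, Finset.sum_eq_single k]
      · rw [if_pos rfl, one_mul]
      · intro b _ hb
        rw [if_neg (fun h => hb (Fin.succ_injective _ h).symm), zero_mul]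
      · intro h
        exact absurd (Finset.mem_univ _) h
  · rw [kapQ_mul, Fin.zero_succAbove, kapQ_succ, kapQ_succ]

private theorem kapQ_isUnit {l : Fin (m + 1) → R} (i : Fin (m + 1)) (h : IsUnit (l i)) :
    IsUnit (kapQ i l).det := by
  rw [kapQ_det]
  exact (isUnit_one.neg.pow _).mul h

/-- `kapQ` as an invertible matrix. -/
private noncomputable def kapG (i : Fin (m + 1)) (l : Fin (m + 1) → R) (h : IsUnit (l i)) :
    GL (Fin (m + 1)) R :=
  Matrix.nonsingInvUnit (kapQ i l) (kapQ_isUnit i h)

private theorem kapG_val (i : Fin (m + 1)) (l : Fin (m + 1) → R) (h : IsUnit (l i)) :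
    (kapG i l h).1 = kapQ i l := rfl

/-- The unipotent matrix with first column `1, s`. -/
private noncomputable def kapP (s : Fin m → R) : GL (Fin (m + 1)) R where
  val := kapQ 0 (Fin.cons 1 s)
  inv := kapQ 0 (Fin.cons 1 (-s))
  val_inv := by
    rw [kapQ_comp]
    ext p q
    refine Fin.cases ?_ (fun k => ?_) q
    · rw [kapQ_zero]
      refine Fin.cases ?_ (fun k => ?_) p
      · simp
      · simp
    · rw [kapQ_succ, Fin.zero_succAbove, Matrix.one_apply]
  inv_val := by
    rw [kapQ_comp]
    ext p q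
    refine Fin.cases ?_ (fun k => ?_) q
    · rw [kapQ_zero]
      refine Fin.cases ?_ (fun k => ?_) p
      · simp
      · simp
    · rw [kapQ_succ, Fin.zero_succAbove, Matrix.one_apply]

private theorem kapP_val (s : Fin m → R) : (kapP s).1 = kapQ 0 (Fin.cons 1 s) := rfl

private theorem kapP_add (s s' : Fin m → R) : kapP s * kapP s' = kapP (s + s') := by
  apply Units.ext
  show kapQ 0 (Fin.cons 1 s) * kapQ 0 (Fin.cons 1 s') = kapQ 0 (Fin.cons 1 (s + s'))
  rw [kapQ_comp]
  congr 1
  funext p
  refine Fin.cases ?_ (fun k => ?_) p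
  · simp
  · simp

private theorem kapP_cont [TopologicalSpace R] [IsTopologicalRing R] :
    Continuous (kapP : (Fin m → R) → GL (Fin (m + 1)) R) := by
  have h1 : ∀ f : (Fin m → R) → (Fin m → R), Continuous f →
      Continuous fun s : Fin m → R => (kapQ 0 (Fin.cons 1 (f s)) : Matrix (Fin (m + 1)) (Fin (m + 1)) R) := by
    intro f hf
    refine continuous_matrix fun p q => ?_
    refine Fin.cases ?_ (fun k => ?_) q
    · simp_rw [kapQ_zero]
      refine Fin.cases ?_ (fun k => ?_) p
      · simp_rw [Fin.cons_zero]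
        exact continuous_const
      · simp_rw [Fin.cons_succ]
        exact (continuous_apply k).comp hf
    · simp_rw [kapQ_succ]
      exact continuous_const
  rw [Units.continuous_iff]
  exact ⟨h1 (fun s => s) continuous_id, h1 (fun s => -s) continuous_neg⟩

end kap

/-- A continuous function `c` on `GL_n(A)`, `n ≥ 2`, which satisfies the cocycle identity
`∑_(j ≤ n) (-1)^j c(w_0, …, ŵ_j, …, w_n) = 0` for all `w_0, …, w_n` any `n` of which are a basis, and
vanishes on the matrices whose determinant is in `F^×`, is zero. -/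
theorem kappa {n : ℕ} (hn : 2 ≤ n) (c : GL (Fin n) w.A → w.W) (hc : Continuous c)
    (h : ∀ (X : Fin (n + 1) → Fin n → w.A) (g : Fin (n + 1) → GL (Fin n) w.A),
      (∀ (j : Fin (n + 1)) (i k : Fin n), (g j).1 i k = X (j.succAbove k) i) →
      ∑ j : Fin (n + 1), (-1 : ℤ) ^ (j : ℕ) • c (g j) = 0)
    (h0 : ∀ (g : GL (Fin n) w.A) (a : w.F), a ≠ 0 → g.1.det = algebraMap w.F w.A a → c g = 0)
    (g : GL (Fin n) w.A) : c g = 0 := by
  obtain ⟨m, rfl⟩ : ∃ m, n = m + 1 := ⟨n - 1, by omega⟩
  -- the basic identity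
  have key : ∀ (V : GL (Fin (m + 1)) w.A) (b u : w.A) (hu : IsUnit u) (t : Fin m → w.F),
      V.1.det * b = 1 → (∀ k, t k ≠ 0) →
      c V = c (V * kapG 0 (Fin.cons u (fun k => algebraMap w.F w.A (t k) * b)) hu) := by
    intro V b u hu t hb ht
    have hbu : IsUnit b := IsUnit.of_mul_eq_one _ (by rw [mul_comm]; exact hb)
    have hl : ∀ i : Fin (m + 1), IsUnit ((Fin.cons u (fun k => algebraMap w.F w.A (t k) * b) :
        Fin (m + 1) → w.A) i) := by
      intro i
      refine Fin.cases ?_ (fun k => ?_) i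
      · exact hu
      · rw [Fin.cons_succ]
        exact ((isUnit_iff_ne_zero.2 (ht k)).map (algebraMap w.F w.A)).mul hbu
    have h1 := h (Fin.cons (fun i => ∑ p, V.1 i p * (Fin.cons u (fun k => algebraMap w.F w.A (t k) * b) :
        Fin (m + 1) → w.A) p) (fun p i => V.1 i p))
      (Fin.cons V (fun i => V * kapG i (Fin.cons u (fun k => algebraMap w.F w.A (t k) * b)) (hl i))) ?_
    · rw [Fin.sum_univ_succ, Fin.sum_univ_succ] at h1
      have h2 : ∀ k : Fin m, c (V * kapG k.succ (Fin.cons u (fun k => algebraMap w.F w.A (t k) * b))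
          (hl k.succ)) = 0 := by
        intro k
        refine h0 _ ((-1) ^ ((k.succ : Fin (m + 1)) : ℕ) * t k) (mul_ne_zero (pow_ne_zero _ (by simp)) (ht k)) ?_
        have h3 : (V * kapG k.succ (Fin.cons u (fun k => algebraMap w.F w.A (t k) * b)) (hl k.succ)).1 =
            V.1 * kapQ k.succ (Fin.cons u (fun k => algebraMap w.F w.A (t k) * b)) := rfl
        rw [h3, Matrix.det_mul, kapQ_det, Fin.cons_succ, map_mul, map_pow, map_neg, map_one]
        calc V.1.det * ((-1) ^ ((k.succ : Fin (m + 1)) : ℕ) * (algebraMap w.F w.A (t k) * b))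
            = (V.1.det * b) * ((-1) ^ ((k.succ : Fin (m + 1)) : ℕ) * algebraMap w.F w.A (t k)) := by ring
          _ = (-1) ^ ((k.succ : Fin (m + 1)) : ℕ) * algebraMap w.F w.A (t k) := by rw [hb, one_mul]
      simp only [Fin.cons_zero, Fin.cons_succ] at h1
      rw [Finset.sum_eq_zero (fun k _ => by rw [h2 k, smul_zero]), add_zero] at h1
      simp only [Fin.val_zero, pow_zero, one_smul, Fin.val_succ, zero_add, pow_one, neg_smul] at h1
      exact sub_eq_zero.1 (by rw [sub_eq_add_neg]; exact h1)
    · intro j i k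
      refine Fin.cases ?_ (fun j' => ?_) j
      · rw [Fin.cons_zero, Fin.zero_succAbove, Fin.cons_succ]
      · rw [Fin.cons_succ]
        have h3 : (V * kapG j' (Fin.cons u (fun k => algebraMap w.F w.A (t k) * b)) (hl j')).1 =
            V.1 * kapQ j' (Fin.cons u (fun k => algebraMap w.F w.A (t k) * b)) := rfl
        rw [h3]
        refine Fin.cases ?_ (fun k' => ?_) k
        · rw [Fin.succ_succAbove_zero, Fin.cons_zero, Matrix.mul_apply]
          rfl
        · rw [Fin.succ_succAbove_succ, Fin.cons_succ, kapQ_mul]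
  -- determinants
  have hdetP : ∀ (V : GL (Fin (m + 1)) w.A) (s : Fin m → w.A), (V * kapP s).1.det = V.1.det := by
    intro V s
    have h3 : (V * kapP s).1 = V.1 * kapQ 0 (Fin.cons 1 s) := rfl
    rw [h3, Matrix.det_mul, kapQ_det]
    simp
  -- rational translations, all coordinates nonzero
  have step1 : ∀ (V : GL (Fin (m + 1)) w.A) (b : w.A) (t : Fin m → w.F),
      V.1.det * b = 1 → (∀ k, t k ≠ 0) → c V = c (V * kapP (fun k => algebraMap w.F w.A (t k) * b)) := by
    intro V b t hb ht
    rw [key V b 1 isUnit_one t hb ht]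
    refine congrArg (fun Y => c (V * Y)) (Units.ext ?_)
    rfl
  -- rational translations
  have step2 : ∀ (V : GL (Fin (m + 1)) w.A) (b : w.A) (t : Fin m → w.F),
      V.1.det * b = 1 → c V = c (V * kapP (fun k => algebraMap w.F w.A (t k) * b)) := by
    intro V b t hb
    have h1 : ∀ k, ∃ y : w.F, y ≠ 0 ∧ t k - y ≠ 0 := by
      classical
      intro k
      obtain ⟨y, hy⟩ := Infinite.exists_notMem_finset ({0, t k} : Finset w.F)
      rw [Finset.mem_insert, Finset.mem_singleton, not_or] at hy
      exact ⟨y, hy.1, fun h => hy.2 (sub_eq_zero.1 h).symm⟩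
    choose y hy1 hy2 using h1
    rw [step1 V b y hb hy1, step1 _ b (fun k => t k - y k) (by rw [hdetP]; exact hb) hy2, mul_assoc,
      kapP_add]
    congr 3
    funext k
    simp only [Pi.add_apply]
    rw [map_sub]
    ring
  -- all translations
  have step3 : ∀ (V : GL (Fin (m + 1)) w.A) (s : Fin m → w.A), c V = c (V * kapP s) := by
    intro V s
    have hVu : IsUnit V.1.det := (Matrix.isUnit_iff_isUnit_det _).1 V.isUnit
    obtain ⟨b, hb⟩ := hVu.exists_right_inv
    have hcl : IsClosed {s : Fin m → w.A | c V = c (V * kapP s)} :=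
      isClosed_eq continuous_const (hc.comp (continuous_const.mul kapP_cont))
    have hd : DenseRange (fun t : Fin m → w.F => fun k => algebraMap w.F w.A (t k)) :=
      DenseRange.piMap (fun _ => w.dense)
    have hd2 : DenseRange (fun t : Fin m → w.F => fun k => algebraMap w.F w.A (t k) * b) := by
      have hsur : Function.Surjective (fun (s : Fin m → w.A) (k : Fin m) => s k * b) := by
        intro s
        refine ⟨fun k => s k * V.1.det, ?_⟩
        funext k
        simp only
        rw [mul_assoc, hb, mul_one]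
      exact (hsur.denseRange).comp hd (by fun_prop)
    have h1 : (Set.range fun t : Fin m → w.F => fun k => algebraMap w.F w.A (t k) * b) ⊆
        {s : Fin m → w.A | c V = c (V * kapP s)} := by
      rintro _ ⟨t, rfl⟩
      exact step2 V b t hb
    exact hcl.closure_subset_iff.2 h1 (hd2 s)
  -- the end
  have hVu : IsUnit g.1.det := (Matrix.isUnit_iff_isUnit_det _).1 g.isUnit
  obtain ⟨b, hb⟩ := hVu.exists_right_inv
  have hbu : IsUnit b := IsUnit.of_mul_eq_one _ (by rw [mul_comm]; exact hb)
  rw [key g b b hbu (fun _ => 1) hb (fun _ => one_ne_zero)]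
  refine h0 _ 1 one_ne_zero ?_
  have h3 : (g * kapG 0 (Fin.cons b (fun k => algebraMap w.F w.A ((fun _ => 1 : Fin m → w.F) k) * b)) hbu).1 =
      g.1 * kapQ 0 (Fin.cons b (fun k => algebraMap w.F w.A ((fun _ => 1 : Fin m → w.F) k) * b)) := rfl
  rw [h3, Matrix.det_mul, kapQ_det, Fin.cons_zero, Fin.val_zero, pow_zero, one_mul, hb, map_one]

end Pool.Agent.BR80
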