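import Pool.Agent.BR80.Rad

/-!
# Lemma 1: the unipotent radical does not matter
-/

namespace Pool.Agent.BR80

open Matrix

variable (w : World) {n : ℕ}

private theorem inv_mul_cancel_right_lem1 {G : Type} [Group G] (l x : G) :
    l⁻¹ * (x * l⁻¹) * l = l⁻¹ * x := by
  group

/-- Invariant functions do not change under right multiplication by the radical. -/
private theorem lem1_inv (τ : Finset (Fin n)) (Z : Type) [TopologicalSpace Z]
    (f : C((sH w τ).Q × Z, w.W))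
    (h : f ∈ GM.invSub (((sH w τ).gs Z).gm w.W) (radF w τ))
    (x : (sH w τ).Q) (u : SL n w.A) (hu : IsU w.A τ u) (hu' : x.1 * u ∈ (sH w τ).Q) (z : Z) :
    f (⟨x.1 * u, hu'⟩, z) = f (x, z) := by
  refine radF_inv w τ Z f (fun g hg y => ?_) x u hu hu' z
  have h1 : (((sH w τ).gs Z).gm w.W).ρ g⁻¹ f = f := h g⁻¹ ((radF w τ).inv_mem hg)
  have h2 : f (((sH w τ).gs Z).act (g⁻¹)⁻¹ y) = f y := congrArg (fun c : C((sH w τ).Q × Z, w.W) => c y) h1
  rw [inv_inv] at h2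
  exact h2

private theorem lem1_tw {K : Cx} (φ : Cx.Hom K K) {m : ℕ} (x y : K.C m) (h1 : φ.f m y = y)
    (h : x - y ∈ K.Bg m) : φ.f m x - x ∈ K.Bg m := by
  have h3 := (K.Bg m).sub_mem (φ.map_Bg h) h
  rw [map_sub, h1] at h3
  have h4 : φ.f m x - y - (x - y) = φ.f m x - x := by abel
  rwa [h4] at h3

private theorem lem1_range (τ : Finset (Fin n)) :
    (Subgroup.inclusion (sM_le_sH (w := w) τ).P).range = radM w τ := by
  ext g
  constructor
  · rintro ⟨m, rfl⟩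
    exact m.2
  · intro h
    exact ⟨⟨g.1, h⟩, Subtype.ext rfl⟩

private theorem lem1_u (τ : Finset (Fin n)) (Z : Type) [TopologicalSpace Z]
    (f : C((sH w τ).Q × Z, w.W))
    (h : f ∈ GM.invSub (((sH w τ).gs Z).gm w.W) (radF w τ))
    (h0 : ∀ (m : (sM w τ).Q) (z : Z), f (⟨m.1, m.2.1⟩, z) = 0) : f = 0 := by
  refine ContinuousMap.ext fun x => ?_
  have h1 : x.1.1 = radL τ x.1.1 * ((radL τ x.1.1)⁻¹ * x.1.1) := (mul_inv_cancel_left _ _).symm
  have h2 : IsU w.A τ ((radL τ x.1.1)⁻¹ * x.1.1) := by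
    have h3 := radU_conj (x := (radL τ x.1.1)⁻¹) ((Hs w.A τ).inv_mem (radL_mem x.1.2).1)
      (radL_isU x.1.2)
    rw [inv_inv, inv_mul_cancel_right_lem1] at h3
    exact h3
  have h4 : radL τ x.1.1 * ((radL τ x.1.1)⁻¹ * x.1.1) ∈ (sH w τ).Q := by
    rw [← h1]
    exact x.1.2
  have h5 := lem1_inv w τ Z f h ⟨radL τ x.1.1, (radL_mem x.1.2).1⟩ _ h2 h4 x.2
  have h6 : (⟨radL τ x.1.1 * ((radL τ x.1.1)⁻¹ * x.1.1), h4⟩ : (sH w τ).Q) = x.1 :=
    Subtype.ext h1.symm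
  change f ((⟨radL τ x.1.1 * ((radL τ x.1.1)⁻¹ * x.1.1), h4⟩ : (sH w τ).Q), x.2) = _ at h5
  rw [h6] at h5
  change f (x.1, x.2) = 0
  rw [h5]
  exact h0 ⟨radL τ x.1.1, radL_mem x.1.2⟩ x.2

private theorem lem1_s (τ : Finset (Fin n)) (Z : Type) [TopologicalSpace Z]
    (f : C((sM w τ).Q × Z, w.W)) :
    ∃ F : C((sH w τ).Q × Z, w.W), F ∈ GM.invSub (((sH w τ).gs Z).gm w.W) (radF w τ) ∧
      ∀ (m : (sM w τ).Q) (z : Z), F (⟨m.1, m.2.1⟩, z) = f (m, z) := by
  have h := radL_cont w τ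
  have h1 : Continuous fun x : (sH w τ).Q × Z => radL τ x.1.1 := h.comp (by fun_prop)
  refine ⟨⟨fun x => f (⟨radL τ x.1.1, radL_mem x.1.2⟩, x.2), ?_⟩, ?_, ?_⟩
  · exact f.continuous.comp ((h1.subtype_mk _).prodMk continuous_snd)
  · intro g hg
    refine ContinuousMap.ext fun x => ?_
    change f (⟨radL τ (w.toA (g⁻¹).1 * x.1.1), _⟩, x.2) = f (⟨radL τ x.1.1, _⟩, x.2)
    have h2 : radL τ (w.toA (g⁻¹).1 * x.1.1) = radL τ x.1.1 := by
      refine radL_mul ?_ x.1.2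
      have h3 : IsU w.F τ (g⁻¹).1 := (radF w τ).inv_mem hg
      rw [← radSL_radC τ h3, radSL_map]
      exact radSL_isU τ _
    congr 2
    exact Subtype.ext h2
  · intro m z
    change f (⟨radL τ m.1, _⟩, z) = f (m, z)
    congr 2
    exact Subtype.ext (radL_of_mem m.2)

/-- LEMMA 1, first part: the restriction from `H_τ` to `M_τ` is bijective. -/
theorem qisH (τ : Finset (Fin n)) (Z : Type) [TopologicalSpace Z] :
    (SG.rs (w := w) (sM_le_sH τ) Z).Qis := by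
  refine @GM.split_qis (((sH w τ).gs Z).gm w.W) (((sM w τ).gs Z).gm w.W) (radF w τ) (radM w τ)
    (radF_normal w τ) (radF_inf w τ) (radF_sup w τ) (radF_acyc w τ Z) ((SG.incl (sM_le_sH τ) Z).gm w.W) ?_ ?_ ?_ ?_
  · exact Subgroup.inclusion_injective (sM_le_sH (w := w) τ).P
  · exact lem1_range w τ
  · intro f hf h0
    exact lem1_u w τ Z f hf fun m z =>
      congrArg (fun c : C((sM w τ).Q × Z, w.W) => c (m, z)) h0
  · intro f
    obtain ⟨F, hF, hF'⟩ := lem1_s w τ Z f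
    exact ⟨F, hF, ContinuousMap.ext fun x => hF' x.1 x.2⟩

/-- LEMMA 1, second part: twists with values in the unipotent radical act trivially. -/
theorem twH (τ : Finset (Fin n)) (Z : Type) [TopologicalSpace Z] (u : C(Z, SL n w.A))
    (hu : ∀ z, IsU w.A τ (u z)) (m : ℕ) : ∀ x ∈ ((sH w τ).co Z).Zg m,
      (((sH w τ).tw u fun z => (hu z).mem_Hs).pull w.W).f m x - x ∈ ((sH w τ).co Z).Bg m := by
  intro x hx
  obtain ⟨y, hy, hyi, hxy⟩ := @GM.split_rep (((sH w τ).gs Z).gm w.W) (((sM w τ).gs Z).gm w.W)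
    (radF w τ) (radM w τ) (radF_normal w τ) (radF_inf w τ) (radF_sup w τ) (radF_acyc w τ Z) m x hx
  have h1 : (((sH w τ).tw u fun z => (hu z).mem_Hs).pull w.W).f m y = y := by
    funext g
    refine ContinuousMap.ext fun q => ?_
    exact lem1_inv w τ Z (y g) (hyi g) q.1 (u q.2) (hu q.2) _ q.2
  exact lem1_tw (((sH w τ).tw u fun z => (hu z).mem_Hs).pull w.W) x y h1 hxy

end Pool.Agent.BR80
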