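import Pool.Agent.BR80.Lem1

/-!
# Lemma 1 for the opposite groups, by the automorphism `g ↦ (gᵀ)⁻¹`
-/

namespace Pool.Agent.BR80

open Matrix

variable (w : World) {n : ℕ}

theorem IsUm.mem_Hms {R : Type} [CommRing R] {τ : Finset (Fin n)} {g : SL n R}
    (h : IsUm R τ g) : g ∈ Hms R τ := fun i hi j => h i j fun hc => hc.1 hi

/-- the automorphism -/
private def lem1m_s (n : ℕ) (R : Type) [CommRing R] : SL n R →* SL n R where
  toFun := fun g => (SpecialLinearGroup.transpose g)⁻¹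
  map_one' := by
    have h : SpecialLinearGroup.transpose (1 : SL n R) = 1 := Subtype.ext Matrix.transpose_one
    rw [h, inv_one]
  map_mul' := fun g h => by
    have h1 : SpecialLinearGroup.transpose (g * h) =
        SpecialLinearGroup.transpose h * SpecialLinearGroup.transpose g :=
      Subtype.ext (Matrix.transpose_mul _ _)
    rw [h1, _root_.mul_inv_rev]

private theorem lem1m_ss {R : Type} [CommRing R] (g : SL n R) :
    lem1m_s n R (lem1m_s n R g) = g := by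
  have h1 : SpecialLinearGroup.transpose (SpecialLinearGroup.transpose g)⁻¹ = g⁻¹ := by
    rw [eq_inv_iff_mul_eq_one]
    have h2 : SpecialLinearGroup.transpose (g * (SpecialLinearGroup.transpose
        (SpecialLinearGroup.transpose g)⁻¹)) = 1 := by
      apply Subtype.ext
      change (g.1 * ((SpecialLinearGroup.transpose g)⁻¹).1ᵀ)ᵀ = 1
      rw [Matrix.transpose_mul, Matrix.transpose_transpose]
      exact congrArg Subtype.val (inv_mul_cancel (SpecialLinearGroup.transpose g))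
    have h3 : g * (SpecialLinearGroup.transpose (SpecialLinearGroup.transpose g)⁻¹) = 1 := by
      apply Subtype.ext
      have h4 := congrArg (fun x : SL n R => x.1ᵀ) h2
      change ((g * (SpecialLinearGroup.transpose (SpecialLinearGroup.transpose g)⁻¹)).1ᵀ)ᵀ =
        (1 : Matrix (Fin n) (Fin n) R)ᵀ at h4
      rw [Matrix.transpose_transpose, Matrix.transpose_one] at h4
      exact h4
    exact (mul_eq_one_comm.1 h3)
  change (SpecialLinearGroup.transpose (SpecialLinearGroup.transpose g)⁻¹)⁻¹ = g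
  rw [h1, inv_inv]

private theorem lem1m_cont : Continuous (lem1m_s n w.A) := by
  have h : Continuous fun g : SL n w.A => g.1 := continuous_induced_dom
  have h1 : Continuous fun g : SL n w.A => SpecialLinearGroup.transpose g :=
    continuous_induced_rng.2 h.matrix_transpose
  exact h1.inv

private theorem lem1m_toA (g : SL n w.F) : w.toA (lem1m_s n w.F g) = lem1m_s n w.A (w.toA g) := by
  change w.toA (SpecialLinearGroup.transpose g)⁻¹ = (SpecialLinearGroup.transpose (w.toA g))⁻¹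
  rw [map_inv]
  congr 1

private theorem lem1m_Hs {R : Type} [CommRing R] {τ : Finset (Fin n)} {g : SL n R}
    (h : g ∈ Hms R τ) : lem1m_s n R g ∈ Hs R τ := by
  refine (Hs R τ).inv_mem fun i hi j => ?_
  change g.1 i j = _
  rw [h i hi j, Matrix.one_apply, Matrix.one_apply]
  simp only [eq_comm]

private theorem lem1m_Hms {R : Type} [CommRing R] {τ : Finset (Fin n)} {g : SL n R}
    (h : g ∈ Hs R τ) : lem1m_s n R g ∈ Hms R τ := by
  refine (Hms R τ).inv_mem fun i hi j => ?_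
  change g.1 j i = _
  rw [h i hi j, Matrix.one_apply, Matrix.one_apply]
  simp only [eq_comm]

private theorem lem1m_Ms {R : Type} [CommRing R] {τ : Finset (Fin n)} {g : SL n R}
    (h : g ∈ Ms R τ) : lem1m_s n R g ∈ Ms R τ := ⟨lem1m_Hs h.2, lem1m_Hms h.1⟩

private theorem lem1m_U {R : Type} [CommRing R] {τ : Finset (Fin n)} {g : SL n R}
    (h : IsUm R τ g) : IsU R τ (lem1m_s n R g) := by
  refine radU_inv fun i j hij => ?_
  change g.1 j i = _
  rw [h j i fun hc => hij ⟨hc.2, hc.1⟩, Matrix.one_apply, Matrix.one_apply]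
  simp only [eq_comm]

/-- the morphism for a pair of pairs of subgroups exchanged by the automorphism -/
private def lem1m_a (K L : SG w n) (hP : ∀ g ∈ K.P, lem1m_s n w.F g ∈ L.P)
    (hQ : ∀ g ∈ K.Q, lem1m_s n w.A g ∈ L.Q) (Z : Type) [TopologicalSpace Z] :
    GS.Hom (K.gs Z) (L.gs Z) where
  φ :=
    { toFun := fun g => ⟨lem1m_s n w.F g.1, hP g.1 g.2⟩
      map_one' := Subtype.ext (map_one _)
      map_mul' := fun g h => Subtype.ext (map_mul (lem1m_s n w.F) g.1 h.1) }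
  u := ⟨fun x => (⟨lem1m_s n w.A x.1.1, hQ x.1.1 x.1.2⟩, x.2), by
    have h := lem1m_cont w (n := n)
    fun_prop⟩
  eqv := fun g x => by
    refine Prod.ext (Subtype.ext ?_) rfl
    change lem1m_s n w.A (w.toA g.1 * x.1.1) = w.toA (lem1m_s n w.F g.1) * lem1m_s n w.A x.1.1
    rw [map_mul, lem1m_toA]

private theorem lem1m_aa (K L : SG w n) (hP : ∀ g ∈ K.P, lem1m_s n w.F g ∈ L.P)
    (hQ : ∀ g ∈ K.Q, lem1m_s n w.A g ∈ L.Q) (hP' : ∀ g ∈ L.P, lem1m_s n w.F g ∈ K.P)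
    (hQ' : ∀ g ∈ L.Q, lem1m_s n w.A g ∈ K.Q) (Z : Type) [TopologicalSpace Z] :
    (lem1m_a w L K hP' hQ' Z).comp (lem1m_a w K L hP hQ Z) = GS.Hom.id _ := by
  refine GS.Hom.ext' (fun g => ?_) (fun x => ?_)
  · exact Subtype.ext (lem1m_ss g.1)
  · exact Prod.ext (Subtype.ext (lem1m_ss x.1.1)) rfl

private theorem lem1m_qis (K L : SG w n) (hP : ∀ g ∈ K.P, lem1m_s n w.F g ∈ L.P)
    (hQ : ∀ g ∈ K.Q, lem1m_s n w.A g ∈ L.Q) (hP' : ∀ g ∈ L.P, lem1m_s n w.F g ∈ K.P)
    (hQ' : ∀ g ∈ L.Q, lem1m_s n w.A g ∈ K.Q) (Z : Type) [TopologicalSpace Z] :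
    ((lem1m_a w K L hP hQ Z).pull w.W).Qis :=
  GS.Hom.qis _ (lem1m_a w L K hP' hQ' Z) (lem1m_aa w L K hP' hQ' hP hQ Z)
    (lem1m_aa w K L hP hQ hP' hQ' Z)

private theorem lem1m_eq (τ : Finset (Fin n)) (Z : Type) [TopologicalSpace Z] :
    ((lem1m_a w (sH w τ) (sHm w τ) (fun _ => lem1m_Hms) (fun _ => lem1m_Hms) Z).comp
      (SG.incl (sM_le_sH τ) Z)).comp
      (lem1m_a w (sM w τ) (sM w τ) (fun _ => lem1m_Ms) (fun _ => lem1m_Ms) Z) =
      SG.incl (sM_le_sHm τ) Z := by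
  refine GS.Hom.ext' (fun g => ?_) (fun x => ?_)
  · exact Subtype.ext (lem1m_ss g.1)
  · exact Prod.ext (Subtype.ext (lem1m_ss x.1.1)) rfl

private theorem lem1m_eq2 (τ : Finset (Fin n)) (Z : Type) [TopologicalSpace Z]
    (u : C(Z, SL n w.A)) (hu : ∀ z, IsUm w.A τ (u z)) (v : C(Z, SL n w.A))
    (hv : ∀ z, v z = lem1m_s n w.A (u z)) (hv' : ∀ z, IsU w.A τ (v z)) :
    (lem1m_a w (sH w τ) (sHm w τ) (fun _ => lem1m_Hms) (fun _ => lem1m_Hms) Z).comp
      ((sH w τ).tw v fun z => (hv' z).mem_Hs) =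
    ((sHm w τ).tw u fun z => (hu z).mem_Hms).comp
      (lem1m_a w (sH w τ) (sHm w τ) (fun _ => lem1m_Hms) (fun _ => lem1m_Hms) Z) := by
  refine GS.Hom.ext' (fun g => ?_) (fun x => ?_)
  · rfl
  · refine Prod.ext (Subtype.ext ?_) rfl
    change lem1m_s n w.A (x.1.1 * v x.2) = lem1m_s n w.A x.1.1 * u x.2
    rw [map_mul, hv, lem1m_ss]

theorem qisHm (τ : Finset (Fin n)) (Z : Type) [TopologicalSpace Z] :
    (SG.rs (w := w) (sM_le_sHm τ) Z).Qis := by
  have h := congrArg (fun c => GS.Hom.pull w.W c) (lem1m_eq w τ Z)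
  have h1 : SG.rs (w := w) (sM_le_sHm τ) Z =
      ((lem1m_a w (sM w τ) (sM w τ) (fun _ => lem1m_Ms) (fun _ => lem1m_Ms) Z).pull w.W).comp
        ((SG.rs (w := w) (sM_le_sH τ) Z).comp
        ((lem1m_a w (sH w τ) (sHm w τ) (fun _ => lem1m_Hms) (fun _ => lem1m_Hms) Z).pull w.W)) :=
    h.symm
  rw [h1]
  have q1 := lem1m_qis w (sM w τ) (sM w τ) (fun _ => lem1m_Ms) (fun _ => lem1m_Ms)
    (fun _ => lem1m_Ms) (fun _ => lem1m_Ms) Z
  have q2 := qisH w τ Z
  have q3 := lem1m_qis w (sH w τ) (sHm w τ) (fun _ => lem1m_Hms) (fun _ => lem1m_Hms)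
    (fun _ => lem1m_Hs) (fun _ => lem1m_Hs) Z
  exact fun m => ⟨(q1 m).1.comp ((q2 m).1.comp (q3 m).1), (q1 m).2.comp ((q2 m).2.comp (q3 m).2)⟩

theorem twHm (τ : Finset (Fin n)) (Z : Type) [TopologicalSpace Z] (u : C(Z, SL n w.A))
    (hu : ∀ z, IsUm w.A τ (u z)) (m : ℕ) : ∀ x ∈ ((sHm w τ).co Z).Zg m,
      (((sHm w τ).tw u fun z => (hu z).mem_Hms).pull w.W).f m x - x ∈
        ((sHm w τ).co Z).Bg m := by
  intro x hx
  have hv' : ∀ z, IsU w.A τ (((⟨lem1m_s n w.A, lem1m_cont w⟩ : C(SL n w.A, SL n w.A)).comp u) z) :=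
    fun z => lem1m_U (hu z)
  have h := congrArg (fun c => (GS.Hom.pull w.W c).f m x)
    (lem1m_eq2 w τ Z u hu ((⟨lem1m_s n w.A, lem1m_cont w⟩ : C(SL n w.A, SL n w.A)).comp u)
      (fun _ => rfl) hv')
  have h1 := twH w τ Z _ hv' m _
    (((lem1m_a w (sH w τ) (sHm w τ) (fun _ => lem1m_Hms) (fun _ => lem1m_Hms) Z).pull
      w.W).map_Zg hx)
  refine (lem1m_qis w (sH w τ) (sHm w τ) (fun _ => lem1m_Hms) (fun _ => lem1m_Hms)
    (fun _ => lem1m_Hs) (fun _ => lem1m_Hs) Z m).1 _ ?_ ?_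
  · exact AddSubgroup.sub_mem _ (Cx.Hom.map_Zg _ hx) hx
  · rw [map_sub]
    have h2 : ((lem1m_a w (sH w τ) (sHm w τ) (fun _ => lem1m_Hms) (fun _ => lem1m_Hms) Z).pull
        w.W).f m ((((sHm w τ).tw u fun z => (hu z).mem_Hms).pull w.W).f m x) =
        (((sH w τ).tw _ fun z => (hv' z).mem_Hs).pull w.W).f m
          (((lem1m_a w (sH w τ) (sHm w τ) (fun _ => lem1m_Hms) (fun _ => lem1m_Hms) Z).pull
            w.W).f m x) := h.symm
    rw [h2]
    exact h1

end Pool.Agent.BR80
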