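import Pool.Agent.BR80.Lem1m
import Pool.Agent.BR80.GenU

/-!
# Lemma 2: twists do not change the restriction to `M_τ`
-/

namespace Pool.Agent.BR80

open Matrix

variable (w : World) {n : ℕ}

/-- The product of twists: `(a b)^* = a^* b^*`. -/
theorem twM_mul {Z : Type} [TopologicalSpace Z] (a b : C(Z, SL n w.A)) (m : ℕ)
    (x : ((sM w (∅ : Finset (Fin n))).co Z).C m) :
    (twM w (a * b)).f m x = (twM w a).f m ((twM w b).f m x) := by
  refine GS.co_ext fun g y => ?_
  refine congrArg (GS.ap x g) (Prod.ext (Subtype.ext ?_) rfl)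
  exact (mul_assoc y.1.1 (a y.2) (b y.2)).symm

theorem twM_one {Z : Type} [TopologicalSpace Z] (m : ℕ)
    (x : ((sM w (∅ : Finset (Fin n))).co Z).C m) : (twM w (1 : C(Z, SL n w.A))).f m x = x := by
  refine GS.co_ext fun g y => ?_
  refine congrArg (GS.ap x g) (Prod.ext (Subtype.ext ?_) rfl)
  exact mul_one y.1.1

/-- The twists for which the statement holds. -/
private def Lem2_P {Z : Type} [TopologicalSpace Z] (τ : Finset (Fin n)) (m : ℕ)
    (a : C(Z, SL n w.A)) : Prop :=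
  ∀ x ∈ ((sM w (∅ : Finset (Fin n))).co Z).Zg m,
      (SG.rs (w := w) (sM_le (Finset.empty_subset τ)) Z).f m ((twM w a).f m x - x) ∈
        ((sM w τ).co Z).Bg m

private theorem Lem2_P_mono {Z : Type} [TopologicalSpace Z] {σ τ : Finset (Fin n)} (h : σ ⊆ τ)
    {m : ℕ} {a : C(Z, SL n w.A)} (ha : Lem2_P w σ m a) : Lem2_P w τ m a := by
  intro x hx
  have h1 := (SG.rs (w := w) (sM_le h) Z).map_Bg (ha x hx)
  exact h1

private theorem Lem2_P_one {Z : Type} [TopologicalSpace Z] (τ : Finset (Fin n)) (m : ℕ) :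
    Lem2_P w τ m (1 : C(Z, SL n w.A)) := by
  intro x _
  rw [twM_one, sub_self, map_zero]
  exact AddSubgroup.zero_mem _

private theorem Lem2_P_mul {Z : Type} [TopologicalSpace Z] (τ : Finset (Fin n)) (m : ℕ)
    {a b : C(Z, SL n w.A)} (ha : Lem2_P w τ m a) (hb : Lem2_P w τ m b) :
    Lem2_P w τ m (a * b) := by
  intro x hx
  have h1 := ha _ ((twM w b).map_Zg hx)
  have h2 := hb x hx
  have h3 := AddSubgroup.add_mem _ h1 h2
  rw [← map_add, sub_add_sub_cancel, ← twM_mul] at h3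
  exact h3

private theorem Lem2_P_inv {Z : Type} [TopologicalSpace Z] (τ : Finset (Fin n)) (m : ℕ)
    {a : C(Z, SL n w.A)} (ha : Lem2_P w τ m a) : Lem2_P w τ m a⁻¹ := by
  intro x hx
  have h1 := ha _ ((twM w a⁻¹).map_Zg hx)
  rw [← twM_mul, mul_inv_cancel, twM_one] at h1
  have h2 := AddSubgroup.neg_mem _ h1
  rw [← map_neg, neg_sub] at h2
  exact h2

private theorem Lem2_P_U {Z : Type} [TopologicalSpace Z] (τ : Finset (Fin n)) (m : ℕ)
    {a : C(Z, SL n w.A)} (ha : ∀ z, IsU w.A τ (a z)) : Lem2_P w τ m a := by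
  intro x hx
  have hle : (sH w τ).Le (sM w (∅ : Finset (Fin n))) :=
    ⟨fun g _ => mem_Ms_empty g, fun g _ => mem_Ms_empty g⟩
  have h1 := twH w τ Z a ha m _ ((SG.rs hle Z).map_Zg hx)
  have h2 := (SG.rs (w := w) (sM_le_sH τ) Z).map_Bg h1
  exact h2

private theorem Lem2_P_Um {Z : Type} [TopologicalSpace Z] (τ : Finset (Fin n)) (m : ℕ)
    {a : C(Z, SL n w.A)} (ha : ∀ z, IsUm w.A τ (a z)) : Lem2_P w τ m a := by
  intro x hx
  have hle : (sHm w τ).Le (sM w (∅ : Finset (Fin n))) :=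
    ⟨fun g _ => mem_Ms_empty g, fun g _ => mem_Ms_empty g⟩
  have h1 := twHm w τ Z a ha m _ ((SG.rs hle Z).map_Zg hx)
  have h2 := (SG.rs (w := w) (sM_le_sHm τ) Z).map_Bg h1
  exact h2

private theorem Lem2_P_proper {Z : Type} [TopologicalSpace Z] (τ : Finset (Fin n))
    (h0 : τ.Nonempty) (h1 : τ ≠ Finset.univ) (m : ℕ) (a : C(Z, SL n w.A)) : Lem2_P w τ m a := by
  refine Subgroup.closure_induction (p := fun a _ => Lem2_P w τ m a) ?_ ?_ ?_ ?_
    (gen_UUm w τ h0 h1 Z a)
  · rintro e (he | he)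
    · exact Lem2_P_U w τ m he
    · exact Lem2_P_Um w τ m he
  · exact Lem2_P_one w τ m
  · exact fun a b _ _ ha hb => Lem2_P_mul w τ m ha hb
  · exact fun a _ ha => Lem2_P_inv w τ m ha

/-- LEMMA 2. -/
theorem lem2 (τ : Finset (Fin n)) (hτ : τ.Nonempty) (Z : Type) [TopologicalSpace Z]
    (a : C(Z, SL n w.A)) (m : ℕ) : ∀ x ∈ ((sM w (∅ : Finset (Fin n))).co Z).Zg m,
      (SG.rs (w := w) (sM_le (Finset.empty_subset τ)) Z).f m ((twM w a).f m x - x) ∈
        ((sM w τ).co Z).Bg m := by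
  obtain ⟨i, hi⟩ := hτ
  by_cases h : ({i} : Finset (Fin n)) = Finset.univ
  · have hss : Subsingleton (Fin n) := by
      refine ⟨fun a b => ?_⟩
      have ha : a ∈ ({i} : Finset (Fin n)) := h ▸ Finset.mem_univ a
      have hb : b ∈ ({i} : Finset (Fin n)) := h ▸ Finset.mem_univ b
      rw [Finset.mem_singleton] at ha hb
      rw [ha, hb]
    have h1 : a = 1 := by
      refine ContinuousMap.ext fun z => ?_
      exact Subsingleton.elim _ _
    rw [h1]
    exact Lem2_P_one w τ m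
  · have h1 : Lem2_P w {i} m a := Lem2_P_proper w {i} (Finset.singleton_nonempty i) h m a
    exact Lem2_P_mono w (Finset.singleton_subset_iff.2 hi) h1

/-- COROLLARY. -/
theorem tw_of_inj {q : ℕ} (h : InjN w n q) : TwN w n q := by
  intro Z _ a x hx
  rcases Nat.eq_zero_or_pos n with h0 | h0
  · subst h0
    have h1 : a = 1 := by
      refine ContinuousMap.ext fun z => ?_
      exact Subsingleton.elim _ _
    rw [h1, twM_one, sub_self]
    exact AddSubgroup.zero_mem _
  · exact h h0 Z _ (AddSubgroup.sub_mem _ ((twM w a).map_Zg hx) hx)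
      (lem2 w {(⟨0, h0⟩ : Fin n)} (Finset.singleton_nonempty _) Z a q x hx)

end Pool.Agent.BR80
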