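import Pool.Agent.BR80.LemU

/-!
# The uniqueness lemma for systems, the two forms used later
-/

namespace Pool.Agent.BR80

variable {ι : Type} [LinearOrder ι]

private theorem CSys.LemU2_fin (K : CSys ι) (w z : K.TC) (τ : Finset ι) (m : ℕ)
    (x : (K.K τ).C m) (h : K.ds (z - K.tot w) τ m - x ∈ (K.K τ).Bg m) :
    K.ds z τ m - x ∈ (K.K τ).Bg m := by
  have h1 := AddSubgroup.add_mem _ h (K.ds_tot_mem w τ m)
  rw [K.ds_sub] at h1
  have h2 : K.ds z τ m - K.ds (K.tot w) τ m - x + K.ds (K.tot w) τ m = K.ds z τ m - x := by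
    abel
  rwa [h2] at h1

/-- LEMMA U. For `r = 0` there is nothing to prove, for `r = 1` one has `t ∅ = z ∅`, for `2 ≤ r`
the class of `z ∅` is assumed to be zero (subtract the total coboundary of a cochain at `∅`, then
use `lemU_core` with `s = 1`). -/
theorem CSys.lemU (K : CSys ι) (V : Finset ι) (n r : ℕ)
    (hsurj : ∀ τ ⊆ V, 1 ≤ τ.card → τ.card < r → ∀ m, m + τ.card + 2 = n →
      (K.res (Finset.empty_subset τ)).Surj m)
    (hinj : ∀ τ ⊆ V, 1 < τ.card → τ.card < r → ∀ m, m + τ.card + 1 = n →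
      (K.res (Finset.empty_subset τ)).Inj m)
    (z : K.TC) (hz : K.Sys V (n - 2) r z)
    (h0 : 2 ≤ r → z ∅ (n - 2) ∈ (K.K ∅).Bg (n - 2))
    (m : ℕ) (hm : m + r + 1 = n) :
    ∃ t : Finset ι → (K.K ∅).C m, (∀ σ, t σ ∈ (K.K ∅).Zg m) ∧
      ∀ τ ⊆ V, τ.card = r → K.ds z τ m -
        (K.res (Finset.empty_subset τ)).f m (CSys.dt t τ) ∈ (K.K τ).Bg m := by
  classical
  rcases Nat.lt_or_ge r 2 with hr | hr
  · rcases (by omega : r = 0 ∨ r = 1) with rfl | rfl
    · refine ⟨fun _ => 0, fun _ => AddSubgroup.zero_mem _, fun τ _ hc => ?_⟩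
      have h1 : τ = ∅ := Finset.card_eq_zero.1 hc
      subst h1
      have h2 : K.ds z ∅ m = 0 := rfl
      have h3 : CSys.dt (fun (_ : Finset ι) => (0 : (K.K ∅).C m)) ∅ = 0 := rfl
      rw [h2, h3, map_zero, sub_zero]
      exact AddSubgroup.zero_mem _
    · refine ⟨fun _ => z ∅ m, fun _ => ?_, fun τ _ hc => ?_⟩
      · exact K.LemU_cocycle (s := 0) hz (by omega) (fun τ _ h => absurd h (Nat.not_lt_zero _)) ∅
          (Finset.empty_subset V) Finset.card_empty m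
      · refine K.LemU_ds_sub z (fun _ => z ∅ m) τ m fun i hi => ?_
        have h1 : τ.erase i = ∅ := by
          rw [← Finset.card_eq_zero, Finset.card_erase_of_mem hi, hc]
        have h2 : ∀ σ : Finset ι, σ = ∅ → ∀ h : ∅ ⊆ σ, z σ m - (K.res h).f m (z ∅ m) = 0 := by
          intro σ hσ h
          subst hσ
          rw [K.res_id, sub_self]
        rw [h2 _ h1]
        exact AddSubgroup.zero_mem _
  · have hn : n - 3 + 1 = n - 2 := by omega
    have h1 : ∀ τ ⊆ V, τ.card = 0 → ∀ k, z τ k ∈ (K.K τ).Bg k := by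
      intro τ _ hc k
      have h2 : τ = ∅ := Finset.card_eq_zero.1 hc
      subst h2
      by_cases hk : k = n - 2
      · rw [hk]
        exact h0 hr
      · rw [hz.1 ∅ k (by rw [Finset.card_empty]; omega)]
        exact AddSubgroup.zero_mem _
    obtain ⟨w, hw, hz2⟩ := K.LemU_kill (N := n - 3) (s := 0) (by rw [hn]; exact hz)
      (fun τ _ h => absurd h (Nat.not_lt_zero _)) h1
    have hz3 := K.LemU_sub_tot (by rw [hn]; exact hz) hw
    rw [hn] at hz3
    obtain ⟨t, ht, ht'⟩ := K.lemU_core V n r 1 le_rfl (by omega)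
      (fun τ hτ h5 h6 => hsurj τ hτ h5 h6) (fun τ hτ h5 h6 => hinj τ hτ h5 h6)
      (z - K.tot w) hz3 (fun τ hτ hc => hz2 τ hτ (by omega)) m hm
    refine ⟨t, ht, fun τ hτ hc => K.LemU2_fin w z τ m _ (ht' τ hτ hc)⟩

/-- LEMMA U, second form: here `z ∅ = 0` and the `z {j}` are coboundaries (subtract the total
coboundary of cochains at the `{j}`, then use `lemU_core` with `s = 2`, or for `r = 2` directly). -/
theorem CSys.lemU' (K : CSys ι) (V : Finset ι) (n r : ℕ) (hr : 2 ≤ r)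
    (hsurj : ∀ τ ⊆ V, 2 ≤ τ.card → τ.card < r → ∀ m, m + τ.card + 2 = n →
      (K.res (Finset.empty_subset τ)).Surj m)
    (hinj : ∀ τ ⊆ V, 2 < τ.card → τ.card < r → ∀ m, m + τ.card + 1 = n →
      (K.res (Finset.empty_subset τ)).Inj m)
    (z : K.TC) (hz : K.Sys V (n - 2) r z) (h0 : ∀ m, z ∅ m = 0)
    (h1 : ∀ j ∈ V, ∀ m, z {j} m ∈ (K.K {j}).Bg m)
    (m : ℕ) (hm : m + r + 1 = n) :
    ∃ t : Finset ι → (K.K ∅).C m, (∀ σ, t σ ∈ (K.K ∅).Zg m) ∧
      ∀ τ ⊆ V, τ.card = r → K.ds z τ m -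
        (K.res (Finset.empty_subset τ)).f m (CSys.dt t τ) ∈ (K.K τ).Bg m := by
  classical
  have hn : n - 3 + 1 = n - 2 := by omega
  have h2 : ∀ τ ⊆ V, τ.card < 1 → ∀ k, z τ k = 0 := by
    intro τ _ hc k
    have h3 : τ = ∅ := Finset.card_eq_zero.1 (by omega)
    subst h3
    exact h0 k
  have h3 : ∀ τ ⊆ V, τ.card = 1 → ∀ k, z τ k ∈ (K.K τ).Bg k := by
    intro τ hτ hc k
    obtain ⟨j, rfl⟩ := Finset.card_eq_one.1 hc
    exact h1 j (hτ (Finset.mem_singleton_self j)) k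
  obtain ⟨w, hw, hz2⟩ := K.LemU_kill (N := n - 3) (s := 1) (by rw [hn]; exact hz) h2 h3
  have hz3 := K.LemU_sub_tot (by rw [hn]; exact hz) hw
  rw [hn] at hz3
  rcases Nat.lt_or_ge 2 r with hr2 | hr2
  · obtain ⟨t, ht, ht'⟩ := K.lemU_core V n r 2 (by omega) hr2
      (fun τ hτ h5 h6 => hsurj τ hτ h5 h6) (fun τ hτ h5 h6 => hinj τ hτ h5 h6)
      (z - K.tot w) hz3 (fun τ hτ hc => hz2 τ hτ hc) m hm
    exact ⟨t, ht, fun τ hτ hc => K.LemU2_fin w z τ m _ (ht' τ hτ hc)⟩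
  · refine ⟨fun _ => 0, fun _ => AddSubgroup.zero_mem _, fun τ hτ hc =>
      K.LemU2_fin w z τ m _ ?_⟩
    have h4 : K.ds (z - K.tot w) τ m = 0 := by
      refine Finset.sum_eq_zero fun i hi => ?_
      rw [hz2 _ ((τ.erase_subset i).trans hτ) (by
        rw [Finset.card_erase_of_mem hi]
        omega), map_zero, smul_zero]
    have h5 : CSys.dt (fun (_ : Finset ι) => (0 : (K.K ∅).C m)) τ = 0 := by
      unfold CSys.dt
      exact Finset.sum_eq_zero fun i _ => smul_zero _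
    rw [h4, h5, map_zero, sub_zero]
    exact AddSubgroup.zero_mem _

end Pool.Agent.BR80
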