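import Pool.Agent.BR80.Trans
import Pool.Agent.BR80.ECol
import Pool.Agent.BR80.LemU2

/-!
# Lemma U for the groups `M_τ`
-/

namespace Pool.Agent.BR80

open Matrix

variable (w : World)

/-- Lemma U for the system `csM`, first form. -/
theorem lemU_M {n r m : ℕ} (hm : m + r + 1 = n) (hT : ∀ k < n, ThT w k)
    (hi : ∀ q, q + 3 ≤ n → InjN w n q) (hs : ∀ q, q + 3 ≤ n → SurN w n q)
    (Z : Type) [TopologicalSpace Z] (V : Finset (Fin n)) (z : (csM w n Z).TC)
    (hz : (csM w n Z).Sys V (n - 2) r z) (h0 : 2 ≤ r → z ∅ (n - 2) ∈ (coN w n Z).Bg (n - 2)) :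
    ∃ t : Finset (Fin n) → (coN w n Z).C m, (∀ σ, t σ ∈ (coN w n Z).Zg m) ∧
      ∀ τ ⊆ V, τ.card = r → (csM w n Z).ds z τ m -
        (SG.rs (w := w) (sM_le (Finset.empty_subset τ)) Z).f m (CSys.dt t τ) ∈
          ((sM w τ).co Z).Bg m := by
  refine (csM w n Z).lemU V n r ?_ ?_ z hz h0 m hm
  · intro τ _ h1 _ m' hm'
    refine sur_path w (Finset.empty_subset τ) (fun k hk hk' => ?_) Z
    rw [Finset.card_empty] at hk
    rcases Nat.lt_or_ge k n with h | h
    · exact (hT k h).2 m' (by omega)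
    · obtain rfl : k = n := by omega
      exact hs m' (by omega)
  · intro τ _ h1 _ m' hm'
    refine inj_path w (Finset.empty_subset τ) (fun k hk hk' => ?_) Z
    rw [Finset.card_empty] at hk
    rcases Nat.lt_or_ge k n with h | h
    · exact (hT k h).1 m' (by omega)
    · obtain rfl : k = n := by omega
      exact hi m' (by omega)

/-- Lemma U for the system `csM`, second form. -/
theorem lemU_M' {n r m : ℕ} (hm : m + r + 1 = n) (hr : 2 ≤ r) (hT : ∀ k < n, ThT w k)
    (hi : ∀ q, q + 3 ≤ n → InjN w n q) (hs : ∀ q, q + 4 ≤ n → SurN w n q)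
    (Z : Type) [TopologicalSpace Z] (V : Finset (Fin n)) (z : (csM w n Z).TC)
    (hz : (csM w n Z).Sys V (n - 2) r z) (h0 : ∀ m, z ∅ m = 0)
    (h1 : ∀ j ∈ V, ∀ m, z {j} m ∈ ((sM w {j}).co Z).Bg m) :
    ∃ t : Finset (Fin n) → (coN w n Z).C m, (∀ σ, t σ ∈ (coN w n Z).Zg m) ∧
      ∀ τ ⊆ V, τ.card = r → (csM w n Z).ds z τ m -
        (SG.rs (w := w) (sM_le (Finset.empty_subset τ)) Z).f m (CSys.dt t τ) ∈
          ((sM w τ).co Z).Bg m := by
  refine (csM w n Z).lemU' V n r hr ?_ ?_ z hz h0 h1 m hm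
  · intro τ _ h1 _ m' hm'
    refine sur_path w (Finset.empty_subset τ) (fun k hk hk' => ?_) Z
    rw [Finset.card_empty] at hk
    rcases Nat.lt_or_ge k n with h | h
    · exact (hT k h).2 m' (by omega)
    · obtain rfl : k = n := by omega
      exact hs m' (by omega)
  · intro τ _ h1 _ m' hm'
    refine inj_path w (Finset.empty_subset τ) (fun k hk hk' => ?_) Z
    rw [Finset.card_empty] at hk
    rcases Nat.lt_or_ge k n with h | h
    · exact (hT k h).1 m' (by omega)
    · obtain rfl : k = n := by omega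
      exact hi m' (by omega)

end Pool.Agent.BR80
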