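import Pool.Agent.BR80.CS

/-!
# The uniqueness lemma for systems
-/

namespace Pool.Agent.BR80

variable {ι : Type} [LinearOrder ι]

/-- The sum `(δ t)_τ` for a family `t` of cochains of one complex. -/
def CSys.dt {K : Cx} {m : ℕ} (t : Finset ι → K.C m) (τ : Finset ι) : K.C m :=
  ∑ i ∈ τ, sgn i τ • t (τ.erase i)

/-- The augmented simplicial cochain complex of a nonempty simplex is exact, here with the
coefficients `H^m(K)`. -/
theorem CSys.dt_exact {K : Cx} {m : ℕ} (V : Finset ι) (hV : V.Nonempty) (s : ℕ)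
    (t : Finset ι → K.C m) (ht : ∀ τ, t τ ∈ K.Zg m)
    (h : ∀ τ ⊆ V, τ.card = s + 2 → CSys.dt t τ ∈ K.Bg m) :
    ∃ u : Finset ι → K.C m, (∀ τ, u τ ∈ K.Zg m) ∧
      ∀ τ ⊆ V, τ.card = s + 1 → t τ - CSys.dt u τ ∈ K.Bg m := by
  classical
  obtain ⟨v, hv⟩ := hV
  refine ⟨fun σ => if v ∈ σ then 0 else sgn v (insert v σ) • t (insert v σ), fun τ => ?_,
    fun τ hτ hc => ?_⟩
  · dsimp only
    split_ifs
    · exact AddSubgroup.zero_mem _
    · exact AddSubgroup.zsmul_mem _ (ht _) _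
  by_cases hvτ : v ∈ τ
  · have h1 : CSys.dt (fun σ => if v ∈ σ then 0 else sgn v (insert v σ) • t (insert v σ)) τ =
        t τ := by
      unfold CSys.dt
      rw [Finset.sum_eq_single v]
      · beta_reduce
        rw [if_neg (Finset.notMem_erase v τ), Finset.insert_erase hvτ, smul_smul, sgn_mul_self,
          one_smul]
      · intro i _ hiv
        beta_reduce
        rw [if_pos (Finset.mem_erase.2 ⟨fun h => hiv h.symm, hvτ⟩), smul_zero]
      · intro h
        exact absurd hvτ h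
    rw [h1, sub_self]
    exact AddSubgroup.zero_mem _
  · have h1 : (insert v τ).card = s + 2 := by rw [Finset.card_insert_of_notMem hvτ, hc]
    have h2 := h (insert v τ) (Finset.insert_subset hv hτ) h1
    have h3 : t τ - CSys.dt (fun σ => if v ∈ σ then 0 else sgn v (insert v σ) •
        t (insert v σ)) τ = sgn v (insert v τ) • CSys.dt t (insert v τ) := by
      unfold CSys.dt
      rw [Finset.sum_insert hvτ, Finset.erase_insert hvτ, smul_add, smul_smul, sgn_mul_self,
        one_smul, sub_eq_add_neg, ← Finset.sum_neg_distrib, Finset.smul_sum]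
      congr 1
      refine Finset.sum_congr rfl fun i hi => ?_
      have hiv : i ≠ v := fun h => hvτ (h ▸ hi)
      have h4 : (insert v τ).erase i = insert v (τ.erase i) :=
        Finset.erase_insert_of_ne (fun h => hiv h.symm)
      have h5 : v ∉ τ.erase i := fun h => hvτ (Finset.mem_of_mem_erase h)
      have h6 := sgn_erase i v (insert v τ) (Finset.mem_insert_of_mem hi)
        (Finset.mem_insert_self v τ) hiv
      rw [Finset.erase_insert hvτ, h4] at h6
      beta_reduce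
      rw [if_neg h5, smul_smul, smul_smul, h4, ← neg_smul]
      congr 1
      have h7 : sgn i τ = -(sgn v (insert v τ) * sgn i (insert v τ) *
          sgn v (insert v (τ.erase i))) := by
        have h8 := sgn_mul_self v (insert v τ)
        calc sgn i τ = (sgn v (insert v τ) * sgn v (insert v τ)) * sgn i τ := by
              rw [h8, one_mul]
          _ = -(sgn v (insert v τ) * (-(sgn v (insert v τ) * sgn i τ))) := by ring
          _ = _ := by rw [← h6]; ring
      have h8 := sgn_mul_self v (insert v (τ.erase i))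
      calc -(sgn i τ * sgn v (insert v (τ.erase i)))
          = sgn v (insert v τ) * sgn i (insert v τ) *
            (sgn v (insert v (τ.erase i)) * sgn v (insert v (τ.erase i))) := by
            rw [h7]; ring
        _ = _ := by rw [h8, mul_one]
    rw [h3]
    exact AddSubgroup.zsmul_mem _ h2 _

/-- `δ δ = 0`. -/
theorem CSys.dt_dt {K : Cx} {m : ℕ} (t : Finset ι → K.C m) (τ : Finset ι) :
    CSys.dt (CSys.dt t) τ = 0 := by
  have h1 : CSys.dt (CSys.dt t) τ = ∑ i ∈ τ, ∑ j ∈ τ.erase i,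
      (sgn i τ * sgn j (τ.erase i)) • t ((τ.erase i).erase j) := by
    simp only [CSys.dt]
    refine Finset.sum_congr rfl fun i _ => ?_
    rw [Finset.smul_sum]
    refine Finset.sum_congr rfl fun j _ => ?_
    rw [smul_smul]
  rw [h1, Finset.sum_sigma']
  refine Finset.sum_involution (fun x _ => ⟨x.2, x.1⟩) ?_ ?_ ?_ ?_
  · rintro ⟨i, j⟩ hx
    obtain ⟨hi, hj⟩ := Finset.mem_sigma.1 hx
    obtain ⟨hji, hj⟩ := Finset.mem_erase.1 hj
    dsimp only
    rw [Finset.erase_right_comm, sgn_erase i j τ hi hj (fun h => hji h.symm), neg_smul,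
      neg_add_cancel]
  · rintro ⟨i, j⟩ hx _ h
    obtain ⟨hi, hj⟩ := Finset.mem_sigma.1 hx
    obtain ⟨hji, hj⟩ := Finset.mem_erase.1 hj
    exact hji (congrArg Sigma.fst h)
  · rintro ⟨i, j⟩ hx
    obtain ⟨hi, hj⟩ := Finset.mem_sigma.1 hx
    obtain ⟨hji, hj⟩ := Finset.mem_erase.1 hj
    exact Finset.mem_sigma.2 ⟨hj, Finset.mem_erase.2 ⟨fun h => hji h.symm, hi⟩⟩
  · rintro ⟨i, j⟩ _
    rfl

/-- The total differential raises the total degree by one. -/
theorem CSys.LemU_tot_deg (K : CSys ι) {N : ℕ} {w : K.TC} (hw : K.Deg N w) :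
    K.Deg (N + 1) (K.tot w) := by
  intro τ m hm
  have h1 : K.ds w τ m = 0 := by
    refine Finset.sum_eq_zero fun i hi => ?_
    rw [hw _ m (by
      rw [Finset.card_erase_of_mem hi]
      have := Finset.card_pos.2 ⟨i, hi⟩
      omega), map_zero, smul_zero]
  cases m with
  | zero => rw [CSys.tot_zero, h1]
  | succ m => rw [CSys.tot_succ, h1, smul_zero, add_zero, hw τ m (by omega), map_zero]

/-- Subtraction of a total coboundary. -/
theorem CSys.LemU_sub_tot (K : CSys ι) {V : Finset ι} {N r : ℕ} {z w : K.TC}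
    (hz : K.Sys V (N + 1) r z) (hw : K.Deg N w) : K.Sys V (N + 1) r (z - K.tot w) :=
  hz.sub ⟨K.LemU_tot_deg hw, fun τ _ _ m => K.tot_tot w τ m⟩

/-- The lowest nonzero members are cocycles. -/
theorem CSys.LemU_cocycle (K : CSys ι) {V : Finset ι} {N r s : ℕ} {z : K.TC}
    (hz : K.Sys V N r z) (hs : s < r) (h0 : ∀ τ ⊆ V, τ.card < s → ∀ m, z τ m = 0)
    (σ : Finset ι) (hσ : σ ⊆ V) (hc : σ.card = s) (m : ℕ) : z σ m ∈ (K.K σ).Zg m := by
  have h1 := hz.2 σ hσ (by omega) (m + 1)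
  have h2 : K.ds z σ (m + 1) = 0 := by
    refine Finset.sum_eq_zero fun i hi => ?_
    rw [h0 _ ((σ.erase_subset i).trans hσ) (by
      rw [Finset.card_erase_of_mem hi]
      have := Finset.card_pos.2 ⟨i, hi⟩
      omega), map_zero, smul_zero]
  rw [CSys.tot_succ, h2, smul_zero, add_zero] at h1
  exact h1

/-- For a member of a system `δ z` is a coboundary. -/
theorem CSys.LemU_ds_mem (K : CSys ι) {V : Finset ι} {N r : ℕ} {z : K.TC}
    (hz : K.Sys V N r z) (τ : Finset ι) (hτ : τ ⊆ V) (hc : τ.card < r) (m : ℕ)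
    (_ : 0 < m) : K.ds z τ m ∈ (K.K τ).Bg m := by
  obtain ⟨k, rfl⟩ : ∃ k, m = k + 1 := ⟨m - 1, by omega⟩
  have h1 := hz.2 τ hτ hc (k + 1)
  rw [CSys.tot_succ] at h1
  have h2 : K.ds z τ (k + 1) = -((-1 : ℤ) ^ (k + 1) • (K.K τ).d k (z τ k)) := by
    have h3 : (-1 : ℤ) ^ (k + 1) * (-1 : ℤ) ^ (k + 1) = 1 := by
      rw [← pow_add, Even.neg_one_pow ⟨k + 1, rfl⟩]
    rw [eq_neg_of_add_eq_zero_left h1, smul_neg, neg_neg, smul_smul, h3, one_smul]
  rw [h2]
  exact AddSubgroup.neg_mem _ (AddSubgroup.zsmul_mem _ (Cx.d_mem_Bg _) _)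

/-- The classes of `δ z` if the members are given by classes at `∅`. -/
theorem CSys.LemU_ds_sub (K : CSys ι) (z : K.TC) {m : ℕ} (t : Finset ι → (K.K ∅).C m)
    (τ : Finset ι) (_ : ℕ) (h : ∀ i ∈ τ, z (τ.erase i) m -
      (K.res (Finset.empty_subset (τ.erase i))).f m (t (τ.erase i)) ∈ (K.K (τ.erase i)).Bg m) :
    K.ds z τ m - (K.res (Finset.empty_subset τ)).f m (CSys.dt t τ) ∈ (K.K τ).Bg m := by
  unfold CSys.ds CSys.dt
  rw [map_sum, ← Finset.sum_sub_distrib]
  refine AddSubgroup.sum_mem _ fun i hi => ?_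
  rw [map_zsmul, ← smul_sub, ← K.res_comp (Finset.empty_subset (τ.erase i))
    (τ.erase_subset i), ← map_sub]
  exact AddSubgroup.zsmul_mem _ ((K.res _).map_Bg (h i hi)) _

/-- If the members on the subsets with `s` elements are coboundaries they can be killed. -/
theorem CSys.LemU_kill (K : CSys ι) {V : Finset ι} {N r s : ℕ} {z : K.TC}
    (hz : K.Sys V (N + 1) r z) (h0 : ∀ τ ⊆ V, τ.card < s → ∀ m, z τ m = 0)
    (h1 : ∀ τ ⊆ V, τ.card = s → ∀ m, z τ m ∈ (K.K τ).Bg m) :
    ∃ w : K.TC, K.Deg N w ∧ ∀ τ ⊆ V, τ.card < s + 1 → ∀ m, (z - K.tot w) τ m = 0 := by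
  classical
  have h2 : ∀ (τ : Finset ι) (m : ℕ), ∃ y : (K.K τ).C m,
      (τ ⊆ V → τ.card = s → (K.K τ).d m y = z τ (m + 1)) ∧
      (¬ (τ.card = s ∧ τ.card + m = N) → y = 0) := by
    intro τ m
    by_cases h3 : τ.card = s ∧ τ.card + m = N
    · by_cases h4 : τ ⊆ V
      · obtain ⟨y, hy⟩ := h1 τ h4 h3.1 (m + 1)
        exact ⟨y, fun _ _ => hy, fun h5 => absurd h3 h5⟩
      · exact ⟨0, fun h5 => absurd h5 h4, fun _ => rfl⟩
    · refine ⟨0, fun _ h5 => ?_, fun _ => rfl⟩
      rw [map_zero, hz.1 τ (m + 1) (fun h6 => h3 ⟨h5, by omega⟩)]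
  choose w hw1 hw2 using h2
  refine ⟨w, fun τ m hm => hw2 τ m (fun h3 => hm h3.2), fun τ hτ hc m => ?_⟩
  have h3 : ∀ m, K.ds w τ m = 0 := by
    intro m
    refine Finset.sum_eq_zero fun i hi => ?_
    rw [hw2 _ m (by
      rw [Finset.card_erase_of_mem hi]
      have := Finset.card_pos.2 ⟨i, hi⟩
      omega), map_zero, smul_zero]
  rw [Pi.sub_apply, Pi.sub_apply]
  cases m with
  | zero =>
    rw [CSys.tot_zero, h3, sub_zero]
    rcases Nat.lt_succ_iff_lt_or_eq.1 hc with h4 | h4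
    · exact h0 τ hτ h4 0
    · exact Cx.mem_Bg_zero.1 (h1 τ hτ h4 0)
  | succ m =>
    rw [CSys.tot_succ, h3, smul_zero, add_zero]
    rcases Nat.lt_succ_iff_lt_or_eq.1 hc with h4 | h4
    · rw [h0 τ hτ h4, hw2 τ m (fun h5 => by omega), map_zero, sub_zero]
    · rw [hw1 τ m hτ h4, sub_self]

/-- LEMMA U, general step. Let `z` be a system of total degree `n - 2` on the subsets of `V` with
less than `r` elements, zero on the subsets with less than `s` elements, `1 ≤ s < r`. Assume the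
restrictions `K ∅ → K τ` to be surjective in degree `n - 2 - |τ|` for `s ≤ |τ| < r` and injective
in degree `n - 1 - |τ|` for `s < |τ| < r`. Then the obstructions are given by classes of
`K ∅`: `o_τ(z) = res (δ t)_τ`. -/
theorem CSys.lemU_core (K : CSys ι) (V : Finset ι) (n r s : ℕ) (hs : 1 ≤ s) (hsr : s < r)
    (hsurj : ∀ τ ⊆ V, s ≤ τ.card → τ.card < r → ∀ m, m + τ.card + 2 = n →
      (K.res (Finset.empty_subset τ)).Surj m)
    (hinj : ∀ τ ⊆ V, s < τ.card → τ.card < r → ∀ m, m + τ.card + 1 = n →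
      (K.res (Finset.empty_subset τ)).Inj m)
    (z : K.TC) (hz : K.Sys V (n - 2) r z) (h0 : ∀ τ ⊆ V, τ.card < s → ∀ m, z τ m = 0)
    (m : ℕ) (hm : m + r + 1 = n) :
    ∃ t : Finset ι → (K.K ∅).C m, (∀ σ, t σ ∈ (K.K ∅).Zg m) ∧
      ∀ τ ⊆ V, τ.card = r → K.ds z τ m -
        (K.res (Finset.empty_subset τ)).f m (CSys.dt t τ) ∈ (K.K τ).Bg m := by
  classical
  obtain ⟨e, he⟩ : ∃ e, r = s + 1 + e := ⟨r - (s + 1), by omega⟩
  induction e generalizing s z with
  | zero =>
    -- `s = r - 1`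
    have hrs : r = s + 1 := by omega
    have h1 : ∀ σ : Finset ι, ∃ t ∈ (K.K ∅).Zg m, σ ⊆ V → σ.card = s →
        z σ m - (K.res (Finset.empty_subset σ)).f m t ∈ (K.K σ).Bg m := by
      intro σ
      by_cases hσ : σ ⊆ V ∧ σ.card = s
      · have h2 := K.LemU_cocycle hz (by omega) (fun τ h3 h4 => h0 τ h3 h4) σ hσ.1 hσ.2 m
        obtain ⟨t, ht, ht'⟩ := hsurj σ hσ.1 hσ.2.ge (by omega) m (by omega) _ h2
        exact ⟨t, ht, fun _ _ => ht'⟩
      · exact ⟨0, AddSubgroup.zero_mem _, fun h3 h4 => absurd ⟨h3, h4⟩ hσ⟩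
    choose t ht ht' using h1
    exact ⟨t, ht, fun τ hτ hc => K.LemU_ds_sub z t τ m fun i hi =>
      ht' _ ((τ.erase_subset i).trans hτ) (by rw [Finset.card_erase_of_mem hi]; omega)⟩
  | succ e ih =>
    by_cases hVe : V.Nonempty
    swap
    · refine ⟨fun _ => 0, fun _ => AddSubgroup.zero_mem _, fun τ hτ hc => ?_⟩
      have h1 : V = ∅ := Finset.not_nonempty_iff_eq_empty.1 hVe
      rw [h1, Finset.subset_empty] at hτ
      rw [hτ, Finset.card_empty] at hc
      omega
    obtain ⟨m', hm'⟩ : ∃ m', n = m' + s + 2 := ⟨n - s - 2, by omega⟩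
    have h1 : ∀ σ : Finset ι, ∃ t ∈ (K.K ∅).Zg m', σ ⊆ V → σ.card = s →
        z σ m' - (K.res (Finset.empty_subset σ)).f m' t ∈ (K.K σ).Bg m' := by
      intro σ
      by_cases hσ : σ ⊆ V ∧ σ.card = s
      · have h2 := K.LemU_cocycle hz (by omega) (fun τ h3 h4 => h0 τ h3 h4) σ hσ.1 hσ.2 m'
        obtain ⟨t, ht, ht'⟩ := hsurj σ hσ.1 hσ.2.ge (by omega) m' (by omega) _ h2
        exact ⟨t, ht, fun _ _ => ht'⟩
      · exact ⟨0, AddSubgroup.zero_mem _, fun h3 h4 => absurd ⟨h3, h4⟩ hσ⟩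
    choose t ht ht' using h1
    have h2 : ∀ τ ⊆ V, τ.card = s + 1 → CSys.dt t τ ∈ (K.K ∅).Bg m' := by
      intro τ hτ hc
      refine hinj τ hτ (by omega) (by omega) m' (by omega) _ ?_ ?_
      · exact AddSubgroup.sum_mem _ fun i _ => AddSubgroup.zsmul_mem _ (ht _) _
      · have h3 := K.LemU_ds_sub z t τ m' fun i hi =>
          ht' _ ((τ.erase_subset i).trans hτ) (by rw [Finset.card_erase_of_mem hi]; omega)
        have h4 : K.ds z τ m' ∈ (K.K τ).Bg m' := K.LemU_ds_mem hz τ hτ (by omega) m' (by omega)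
        have h5 := AddSubgroup.sub_mem _ h4 h3
        rwa [sub_sub_cancel] at h5
    obtain ⟨u, hu, hu'⟩ := CSys.dt_exact V hVe (s - 1) t ht (fun τ hτ hc => h2 τ hτ (by omega))
    -- the first total coboundary
    obtain ⟨w, hw⟩ : ∃ w : K.TC, w = fun σ => if σ.card + 1 = s then
        (Pi.single m' ((-1 : ℤ) ^ m' • (K.res (Finset.empty_subset σ)).f m' (u σ)) :
          ∀ m, (K.K σ).C m) else 0 := ⟨_, rfl⟩
    have hw1 : ∀ σ : Finset ι, σ.card + 1 = s → w σ m' =
        (-1 : ℤ) ^ m' • (K.res (Finset.empty_subset σ)).f m' (u σ) := by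
      intro σ h3
      rw [hw]
      simp only [if_pos h3, Pi.single_eq_same]
    have hw2 : ∀ (σ : Finset ι) (k : ℕ), ¬ (σ.card + 1 = s ∧ k = m') → w σ k = 0 := by
      intro σ k h3
      rw [hw]
      by_cases h4 : σ.card + 1 = s
      · simp only [if_pos h4]
        exact Pi.single_eq_of_ne (fun h5 => h3 ⟨h4, h5⟩) _
      · simp only [if_neg h4]
        rfl
    have hwd : K.Deg (n - 3) w := fun σ k hk => hw2 σ k (by omega)
    have hn3 : n - 3 + 1 = n - 2 := by omega
    have hz1 := K.LemU_sub_tot (by rw [hn3]; exact hz) hwd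
    rw [hn3] at hz1
    have hz1a : ∀ τ ⊆ V, τ.card < s → ∀ k, (z - K.tot w) τ k = 0 := by
      intro τ hτ hc k
      have h3 : K.tot w τ k = 0 := by
        have h5 : ∀ k, K.ds w τ k = 0 := by
          intro k
          refine Finset.sum_eq_zero fun i hi => ?_
          rw [hw2 _ k (by
            rw [Finset.card_erase_of_mem hi]
            have := Finset.card_pos.2 ⟨i, hi⟩
            omega), map_zero, smul_zero]
        cases k with
        | zero => rw [CSys.tot_zero, h5]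
        | succ k =>
          rw [CSys.tot_succ, h5, smul_zero, add_zero]
          by_cases h6 : τ.card + 1 = s ∧ k = m'
          · obtain ⟨h6, rfl⟩ := h6
            rw [hw1 τ h6, map_zsmul, ← (K.res _).comm, Cx.mem_Zg.1 (hu τ), map_zero, smul_zero]
          · rw [hw2 τ k h6, map_zero]
      rw [Pi.sub_apply, Pi.sub_apply, h0 τ hτ hc k, h3, sub_zero]
    have hz1b : ∀ τ ⊆ V, τ.card = s → ∀ k, (z - K.tot w) τ k ∈ (K.K τ).Bg k := by
      intro τ hτ hc k
      by_cases hk : k = m'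
      · subst hk
        have h3 : K.tot w τ k = (K.res (Finset.empty_subset τ)).f k (CSys.dt u τ) := by
          have h5 : K.ds w τ k =
              (-1 : ℤ) ^ k • (K.res (Finset.empty_subset τ)).f k (CSys.dt u τ) := by
            unfold CSys.ds CSys.dt
            rw [map_sum, Finset.smul_sum]
            refine Finset.sum_congr rfl fun i hi => ?_
            rw [hw1 _ (by
              rw [Finset.card_erase_of_mem hi]
              have := Finset.card_pos.2 ⟨i, hi⟩
              omega), map_zsmul, map_zsmul, K.res_comp, smul_comm]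
          have h6 : (-1 : ℤ) ^ k * (-1 : ℤ) ^ k = 1 := by
            rw [← pow_add, Even.neg_one_pow ⟨k, rfl⟩]
          cases k with
          | zero => rw [CSys.tot_zero, h5, pow_zero, one_smul]
          | succ k =>
            rw [CSys.tot_succ, h5, hw2 τ k (by omega), map_zero, zero_add, smul_smul, h6,
              one_smul]
        rw [Pi.sub_apply, Pi.sub_apply, h3]
        have h5 := AddSubgroup.add_mem _ (ht' τ hτ hc)
          ((K.res (Finset.empty_subset τ)).map_Bg (hu' τ hτ (by omega)))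
        rwa [map_sub, sub_add_sub_cancel] at h5
      · rw [hz1.1 τ k (by omega)]
        exact AddSubgroup.zero_mem _
    obtain ⟨w2, hw2d, hz2⟩ := K.LemU_kill (N := n - 3) (by rw [hn3]; exact hz1) hz1a hz1b
    have hz3 := K.LemU_sub_tot (by rw [hn3]; exact hz1) hw2d
    rw [hn3] at hz3
    obtain ⟨t', h3, h4⟩ := ih (s + 1) (by omega) (by omega)
      (fun τ hτ h5 h6 => hsurj τ hτ (by omega) h6) (fun τ hτ h5 h6 => hinj τ hτ (by omega) h6)
      (z - K.tot w - K.tot w2) hz3 hz2 (by omega)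
    refine ⟨t', h3, fun τ hτ hc => ?_⟩
    have h5 := AddSubgroup.add_mem _ (AddSubgroup.add_mem _ (h4 τ hτ hc)
      (K.ds_tot_mem w2 τ m)) (K.ds_tot_mem w τ m)
    rw [K.ds_sub, K.ds_sub] at h5
    have h6 : K.ds z τ m - K.ds (K.tot w) τ m - K.ds (K.tot w2) τ m -
        (K.res (Finset.empty_subset τ)).f m (CSys.dt t' τ) + K.ds (K.tot w2) τ m +
        K.ds (K.tot w) τ m = K.ds z τ m -
        (K.res (Finset.empty_subset τ)).f m (CSys.dt t' τ) := by abel
    rwa [h6] at h5

end Pool.Agent.BR80
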