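import Pool.Agent.BR80.E3
import Pool.Agent.BR80.ChF
import Pool.Agent.BR80.ExD
import Pool.Agent.BR80.Trans

/-!
# Repeated extension of systems
-/

namespace Pool.Agent.BR80

open Matrix

variable (w : World)

/-- If all obstructions are images of classes `h` with `δ h = 0`, the system can be completed
(`BiCx.Sys.extend_of_class`, `biE_contr`). -/
theorem run {n N r₀ : ℕ} (hr₀ : 2 ≤ r₀) (hN : N + 1 < n) (hr : r₀ ≤ N + 2) (Z : Type)
    [TopologicalSpace Z] (Y : (biD w n Z).TC) (hY : (biD w n Z).Sys N r₀ Y)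
    (H : ∀ r, r₀ ≤ r → r ≤ N + 1 → ∀ Y' : (biD w n Z).TC, (biD w n Z).Sys N r Y' →
      (∀ j, j + 1 < r₀ → ∀ m, Y' j m = Y j m) → ∀ m, m + r = N + 1 →
      ∃ h ∈ (coN w n (w.FF n r × Z)).Zg m,
        (biD w n Z).ds Y' r m - ((theta w n Z).f r).f m h ∈ (colK w n r Z).Bg m ∧
        (eδ w n r Z).f m h ∈ (coN w n (w.FF n (r + 1) × Z)).Bg m) :
    ∃ Y' : (biD w n Z).TC, (biD w n Z).Sys N (N + 2) Y' ∧
      ∀ j, j + 1 < r₀ → ∀ m, Y' j m = Y j m := by
  obtain ⟨c⟩ := biE_contr w n Z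
  have key : ∀ r, r₀ ≤ r → r ≤ N + 2 → ∃ Y' : (biD w n Z).TC, (biD w n Z).Sys N r Y' ∧
      ∀ j, j + 1 < r₀ → ∀ m, Y' j m = Y j m := by
    intro r
    induction r with
    | zero => intro h; omega
    | succ r ih =>
      intro h1 h2
      rcases Nat.lt_or_ge r r₀ with h3 | h3
      · have h4 : r + 1 = r₀ := by omega
        subst h4
        exact ⟨Y, hY, fun _ _ _ => rfl⟩
      · obtain ⟨Y', hY', hj⟩ := ih h3 (by omega)
        obtain ⟨k, rfl⟩ : ∃ k, r = k + 1 := ⟨r - 1, by omega⟩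
        obtain ⟨h, hh, ha, hb⟩ := H (k + 1) h3 (by omega) Y' hY' hj (N - k) (by omega)
        obtain ⟨Y'', hY'', hj'⟩ := BiCx.Sys.extend_of_class (theta w n Z) c (k := k) (by omega)
          hY' (N - k) (by omega) h hh ha hb
        exact ⟨Y'', hY'', fun j hj2 m => (hj' j (by omega) m).trans (hj j hj2 m)⟩
  exact key (N + 2) hr le_rfl

/-- A cocycle `x` of the column `r` with `δ x = 0` in cohomology is the image of a class `h` with
`δ h = 0`, if the restriction to `M_[r]` is surjective and that to `M_[r+1]` is injective. -/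
theorem obs_class {n r m : ℕ} (hr : r + 1 < n) (htw : TwN w n m)
    (hs : ∀ (Z' : Type) [TopologicalSpace Z'],
      (SG.rs (w := w) (sM_le (Finset.empty_subset (seg n r))) Z').Surj m)
    (hi : ∀ (Z' : Type) [TopologicalSpace Z'],
      (SG.rs (w := w) (sM_le (Finset.empty_subset (seg n (r + 1)))) Z').Inj m)
    (Z : Type) [TopologicalSpace Z] (x : (colK w n r Z).C m) (hx : x ∈ (colK w n r Z).Zg m)
    (hδ : (colδ w n r Z).f m x ∈ (colK w n (r + 1) Z).Bg m) :
    ∃ h ∈ (coN w n (w.FF n r × Z)).Zg m,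
      x - ((theta w n Z).f r).f m h ∈ (colK w n r Z).Bg m ∧
      (eδ w n r Z).f m h ∈ (coN w n (w.FF n (r + 1) × Z)).Bg m := by
  have hr' : r < n := by omega
  obtain ⟨h, hh, he⟩ := hs (w.FF n r × Z) ((evS w hr' Z).f m x) ((evS w hr' Z).map_Zg hx)
  have h1 := theta_of_ev w hr' htw Z x hx h hh he
  refine ⟨h, hh, h1, ?_⟩
  refine theta_inj w hr htw Z (hi _) _ ((eδ w n r Z).map_Zg hh) ?_
  have h2 : ((theta w n Z).f (r + 1)).f m ((eδ w n r Z).f m h) =
      (colδ w n r Z).f m (((theta w n Z).f r).f m h) := (theta w n Z).comm r m h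
  rw [h2]
  have h3 := ((colK w n (r + 1) Z).Bg m).sub_mem hδ ((colδ w n r Z).map_Bg h1)
  rw [map_sub, sub_sub_cancel] at h3
  exact h3

end Pool.Agent.BR80
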