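import Pool.Agent.BR80.Edge

/-!
# Theorem T
-/

namespace Pool.Agent.BR80

open Matrix

variable (w : World)

/-- THEOREM T. -/
theorem theoremT (n : ℕ) : ThT w n := by
  induction n using Nat.strong_induction_on with
  | _ n ih =>
    rcases Nat.lt_or_ge 2 n with hn | hn
    · have hs : ∀ q, q + 3 ≤ n → SurN w n q := fun q hq => by
        rcases Nat.lt_or_ge (q + 3) n with h | h
        · exact (low w ih q).2 h
        · exact edge_sur w (by omega) ih
      refine ⟨fun q hq => ?_, hs⟩
      rcases Nat.lt_or_ge (q + 2) n with h | h
      · exact (low w ih q).1 h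
      · exact edge_inj w (by omega) (by omega) ih hs
    · exact thT_small w n hn

/-- Twists act trivially in degrees `≤ n - 2`. -/
theorem twists_trivial {n q : ℕ} (h : q + 2 ≤ n) : TwN w n q :=
  tw_of_inj w ((theoremT w n).1 q h)

end Pool.Agent.BR80
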