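import Pool.Agent.BR80.Inv

/-!
# Split extensions
-/

namespace Pool.Agent.BR80

namespace GM

private theorem Split_qis {K L : Cx} (φ : Cx.Hom K L) (h : ∀ m, Function.Bijective (φ.f m)) :
    φ.Qis := by
  refine fun m => ⟨fun x _ hb => ?_, fun z hz => ?_⟩
  · cases m with
    | zero =>
      rw [Cx.mem_Bg_zero] at hb ⊢
      exact (h 0).1 (by rw [hb, map_zero])
    | succ m =>
      obtain ⟨y, hy⟩ := Cx.mem_Bg_succ.1 hb
      obtain ⟨y', rfl⟩ := (h m).2 y
      refine Cx.mem_Bg_succ.2 ⟨y', (h (m + 1)).1 ?_⟩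
      rw [φ.comm, hy]
  · obtain ⟨x, rfl⟩ := (h m).2 z
    refine ⟨x, ?_, ?_⟩
    · rw [Cx.mem_Zg] at hz ⊢
      exact (h (m + 1)).1 (by rw [φ.comm, hz, map_zero])
    · rw [sub_self]
      exact AddSubgroup.zero_mem _

/-- Inflation and restriction in one statement. Let `N` be a normal subgroup of `G`, `P` a
complement of `N`, and assume that the module `M` is acyclic for `N`. Then the restriction from `G`
to `P` and from the module `M` to the module of the invariants of `N` is bijective; here `T` is any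
module over `P` with a map `M → T` which is bijective on the invariants of `N`. -/
theorem split_qis (S T : GM) (N P : Subgroup S.G) [N.Normal] (hNP : N ⊓ P = ⊥) (hNP' : N ⊔ P = ⊤)
    (hac : ∀ m, (S.res N).cx.Acyc (m + 1)) (a : Hom T S) (ha : Function.Injective a.φ)
    (ha' : a.φ.range = P) (hu : ∀ x ∈ S.invSub N, a.u x = 0 → x = 0)
    (hu' : ∀ y : T.M, ∃ x ∈ S.invSub N, a.u x = y) : a.cx.Qis := by
  let b : Hom T (S.invQ N) :=
    ⟨(QuotientGroup.mk' N).comp a.φ, a.u.comp (S.invSub N).subtype, fun g x =>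
      a.comm g x.1⟩
  have hbcx : b.cx = a.cx.comp (S.infl N).cx := rfl
  have hφi : Function.Injective b.φ := by
    intro g g' h
    have h1 : (a.φ g)⁻¹ * a.φ g' ∈ N := QuotientGroup.eq.1 h
    have h2 : (a.φ g)⁻¹ * a.φ g' ∈ P := by
      rw [← ha']
      exact ⟨g⁻¹ * g', by rw [map_mul, map_inv]⟩
    have h3 : (a.φ g)⁻¹ * a.φ g' ∈ N ⊓ P := ⟨h1, h2⟩
    rw [hNP, Subgroup.mem_bot] at h3
    exact ha (inv_mul_eq_one.1 h3)
  have hφs : Function.Surjective b.φ := by
    intro q
    obtain ⟨s, rfl⟩ := QuotientGroup.mk'_surjective N q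
    have hs : s ∈ N ⊔ P := by rw [hNP']; exact Subgroup.mem_top s
    obtain ⟨n, hn, p, hp, rfl⟩ := Subgroup.mem_sup_of_normal_left.1 hs
    rw [← ha'] at hp
    obtain ⟨t, rfl⟩ := hp
    refine ⟨t, ?_⟩
    change QuotientGroup.mk' N (a.φ t) = QuotientGroup.mk' N (n * a.φ t)
    rw [map_mul, show QuotientGroup.mk' N n = 1 from (QuotientGroup.eq_one_iff n).2 hn, one_mul]
  have hui : ∀ x, b.u x = 0 → x = 0 := fun x hx => Subtype.ext (hu x.1 x.2 hx)
  have hus : Function.Surjective b.u := fun y => by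
    obtain ⟨x, hx, rfl⟩ := hu' y
    exact ⟨⟨x, hx⟩, rfl⟩
  have hb : b.cx.Qis := by
    refine Split_qis _ fun m => ⟨?_, ?_⟩
    · refine (injective_iff_map_eq_zero (b.cx.f m)).2 fun c hc => ?_
      refine funext fun (g : Fin m → (S.invQ N).G) => ?_
      choose g' hg' using fun i => hφs (g i)
      have h1 : b.u (c fun i => b.φ (g' i)) = 0 := congrFun hc g'
      have h2 : (fun i => b.φ (g' i)) = g := funext hg'
      rw [h2] at h1
      exact hui _ h1
    · intro c
      choose ui hui' using hus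
      choose φi hφi' using hφs
      refine ⟨fun (g : Fin m → (S.invQ N).G) => ui (c fun i => φi (g i)), ?_⟩
      refine funext fun (g : Fin m → T.G) => ?_
      change b.u (ui (c fun i => φi (b.φ (g i)))) = c g
      rw [hui']
      congr 1
      funext i
      exact hφi (hφi' _)
  have hi := S.infl_qis N hac
  refine fun m => ⟨fun x hx hxb => ?_, ?_⟩
  · obtain ⟨y, hy, hyb⟩ := (hi m).2 x hx
    have h1 : b.cx.f m y ∈ T.cx.Bg m := by
      have h2 := (T.cx.Bg m).sub_mem hxb (a.cx.map_Bg hyb)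
      rw [map_sub, sub_sub_cancel] at h2
      exact h2
    have h3 := (S.infl N).cx.map_Bg ((hb m).1 y hy h1)
    have h4 := (S.cx.Bg m).add_mem hyb h3
    rwa [sub_add_cancel] at h4
  · have h5 := (hb m).2
    rw [hbcx] at h5
    exact h5.of_comp

/-- Under the same assumptions every cocycle is cohomologous to one with values in the invariants
of `N`. -/
theorem split_rep (S T : GM) (N P : Subgroup S.G) [N.Normal] (hNP : N ⊓ P = ⊥) (hNP' : N ⊔ P = ⊤)
    (hac : ∀ m, (S.res N).cx.Acyc (m + 1)) (m : ℕ) (x : (Fin m → S.G) → S.M)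
    (hx : x ∈ S.cx.Zg m) : ∃ y : (Fin m → S.G) → S.M, y ∈ S.cx.Zg m ∧ (∀ g, y g ∈ S.invSub N) ∧
      ((x : S.cx.C m) - (y : S.cx.C m)) ∈ S.cx.Bg m := by
  obtain ⟨y, hy, hyb⟩ := (S.infl_qis N hac m).2 x hx
  exact ⟨(S.infl N).cx.f m y, (S.infl N).cx.map_Zg hy, fun g => (y fun i => (S.infl N).φ (g i)).2,
    hyb⟩

end GM

end Pool.Agent.BR80
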