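import Pool.Agent.BR80.SG
import Pool.Agent.BR80.Split

/-!
# The unipotent radical of `H_τ`
-/

namespace Pool.Agent.BR80

open Matrix

section rad

variable {n : ℕ} {R : Type} [CommRing R] (τ : Finset (Fin n))

/-- the index set -/
abbrev RadI (τ : Finset (Fin n)) : Type := {p : Fin n × Fin n // p.1 ∈ τ ∧ p.2 ∉ τ}

/-- the matrix -/
def radMat (c : RadI τ → R) : Matrix (Fin n) (Fin n) R := fun i j =>
  if h : i ∈ τ ∧ j ∉ τ then c ⟨(i, j), h⟩ else (1 : Matrix (Fin n) (Fin n) R) i j

theorem radMat_det (c : RadI τ → R) : (radMat τ c).det = 1 := by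
  rw [Matrix.twoBlockTriangular_det (radMat τ c) (fun i => i ∈ τ)]
  · have h1 : (radMat τ c).toSquareBlockProp (fun i => i ∈ τ) = 1 := by
      ext i j
      rw [Matrix.toSquareBlockProp_def, Matrix.of_apply, radMat,
        dif_neg fun h => h.2 j.2, Matrix.one_apply, Matrix.one_apply]
      simp only [Subtype.ext_iff]
    have h2 : (radMat τ c).toSquareBlockProp (fun i => ¬ i ∈ τ) = 1 := by
      ext i j
      rw [Matrix.toSquareBlockProp_def, Matrix.of_apply, radMat,
        dif_neg fun h => i.2 h.1, Matrix.one_apply, Matrix.one_apply]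
      simp only [Subtype.ext_iff]
    have h3 : ∀ (k : Type) (_ : Fintype k) (_ : DecidableEq k), Matrix.det (1 : Matrix k k R) = 1 :=
      fun _ _ _ => Matrix.det_one
    rw [h1, h2]
    exact (congrArg₂ (· * ·) (h3 _ _ _) (h3 _ _ _)).trans (one_mul 1)
  · intro i hi j hj
    rw [radMat, dif_neg fun h => hi h.1, Matrix.one_apply_ne]
    rintro rfl
    exact hi hj

/-- the unipotent matrix -/
def radSL (c : RadI τ → R) : SL n R := ⟨radMat τ c, radMat_det τ c⟩

theorem radSL_apply (c : RadI τ → R) (i j : Fin n) (h : i ∈ τ ∧ j ∉ τ) :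
    (radSL τ c).1 i j = c ⟨(i, j), h⟩ := dif_pos h

theorem radSL_isU (c : RadI τ → R) : IsU R τ (radSL τ c) := fun _ _ h => dif_neg h

/-- coordinates -/
def radC (g : SL n R) : RadI τ → R := fun k => g.1 k.1.1 k.1.2

theorem radSL_radC {g : SL n R} (hg : IsU R τ g) : radSL τ (radC τ g) = g := by
  apply Subtype.ext
  ext i j
  by_cases h : i ∈ τ ∧ j ∉ τ
  · rw [radSL_apply τ _ i j h]
    rfl
  · rw [radSL_isU τ _ i j h, hg i j h]

theorem radC_radSL (c : RadI τ → R) : radC τ (radSL τ c) = c := by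
  funext k
  exact radSL_apply τ c k.1.1 k.1.2 k.2

variable {τ}

theorem radU_mul_apply {g h : SL n R} (hg : IsU R τ g) (hh : IsU R τ h) (i j : Fin n) :
    (g * h).1 i j = g.1 i j + h.1 i j - (1 : Matrix (Fin n) (Fin n) R) i j := by
  have h0 : (g.1 - 1) * (h.1 - 1) = 0 := by
    ext a b
    rw [Matrix.mul_apply, Matrix.zero_apply]
    refine Finset.sum_eq_zero fun k _ => ?_
    by_cases hk : k ∈ τ
    · rw [Matrix.sub_apply, hg a k fun hc => hc.2 hk, sub_self, zero_mul]
    · rw [Matrix.sub_apply h.1, hh k b fun hc => hk hc.1, sub_self, mul_zero]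
  have h1 : g.1 * h.1 = g.1 + h.1 - 1 := by
    have h2 : (g.1 - 1) * (h.1 - 1) = g.1 * h.1 - g.1 - h.1 + 1 := by noncomm_ring
    rw [h2] at h0
    rw [← sub_eq_zero, ← h0]
    abel
  change (g.1 * h.1) i j = _
  rw [h1]
  rfl

theorem radU_mul {g h : SL n R} (hg : IsU R τ g) (hh : IsU R τ h) : IsU R τ (g * h) := by
  intro i j hij
  rw [radU_mul_apply hg hh, hg i j hij, hh i j hij]
  abel

theorem radC_mul {g h : SL n R} (hg : IsU R τ g) (hh : IsU R τ h) :
    radC τ (g * h) = radC τ g + radC τ h := by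
  funext k
  change (g * h).1 k.1.1 k.1.2 = g.1 k.1.1 k.1.2 + h.1 k.1.1 k.1.2
  rw [radU_mul_apply hg hh, Matrix.one_apply_ne, sub_zero]
  intro h
  exact k.2.2 (h ▸ k.2.1)

theorem radSL_add (c d : RadI τ → R) : radSL τ (c + d) = radSL τ c * radSL τ d := by
  rw [← radSL_radC τ (radU_mul (radSL_isU τ c) (radSL_isU τ d)),
    radC_mul (radSL_isU τ c) (radSL_isU τ d), radC_radSL, radC_radSL]

theorem radSL_zero : radSL τ (0 : RadI τ → R) = 1 := by
  have h := radSL_add (τ := τ) (0 : RadI τ → R) 0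
  rw [add_zero] at h
  exact (mul_eq_left.1 h.symm)

theorem radU_inv {g : SL n R} (hg : IsU R τ g) : IsU R τ g⁻¹ := by
  have h : g⁻¹ = radSL τ (-radC τ g) := by
    rw [inv_eq_iff_mul_eq_one]
    rw [show g * radSL τ (-radC τ g) = radSL τ (radC τ g) * radSL τ (-radC τ g) by
      rw [radSL_radC τ hg], ← radSL_add, add_neg_cancel, radSL_zero]
  rw [h]
  exact radSL_isU τ _

theorem radU_conj {x u : SL n R} (hx : x ∈ Hs R τ) (hu : IsU R τ u) : IsU R τ (x * u * x⁻¹) := by
  have h1 : x.1 * (u.1 - 1) = u.1 - 1 := by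
    ext a b
    rw [Matrix.mul_apply]
    by_cases hb : b ∈ τ
    · rw [Matrix.sub_apply, hu a b fun hc => hc.2 hb, sub_self]
      refine Finset.sum_eq_zero fun k _ => ?_
      rw [Matrix.sub_apply, hu k b fun hc => hc.2 hb, sub_self, mul_zero]
    · rw [← Matrix.mul_apply, ← Matrix.one_mul (u.1 - 1), ← Matrix.mul_assoc, Matrix.mul_one,
        Matrix.mul_apply, Matrix.mul_apply]
      refine Finset.sum_congr rfl fun k _ => ?_
      by_cases hk : k ∈ τ
      · rw [hx k hk a]
      · rw [Matrix.sub_apply, hu k b fun hc => hk hc.1, sub_self, mul_zero, mul_zero]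
  have h2 : (x * u * x⁻¹).1 = 1 + (u.1 - 1) * (x⁻¹).1 := by
    have h3 : x.1 * (x⁻¹).1 = 1 := congrArg Subtype.val (mul_inv_cancel x)
    have h4 : x.1 * u.1 = x.1 + (u.1 - 1) := by
      rw [← h1]
      noncomm_ring
    change x.1 * u.1 * (x⁻¹).1 = _
    rw [h4, Matrix.add_mul, h3]
  have hx' := (Hs R τ).inv_mem hx
  intro i j hij
  rw [h2, Matrix.add_apply, Matrix.mul_apply, add_eq_left]
  by_cases hi : i ∈ τ
  · have hj : j ∈ τ := by
      by_contra hj
      exact hij ⟨hi, hj⟩
    have h5 : ∀ k, (x⁻¹).1 k j = (1 : Matrix (Fin n) (Fin n) R) k j := hx' j hj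
    simp_rw [h5]
    rw [← Matrix.mul_apply, Matrix.mul_one, Matrix.sub_apply, hu i j hij, sub_self]
  · refine Finset.sum_eq_zero fun k _ => ?_
    rw [Matrix.sub_apply, hu i k fun hc => hi hc.1, sub_self, zero_mul]

variable (τ)

/-- the Levi part -/
def radL (x : SL n R) : SL n R := x * radSL τ (-radC τ x)

variable {τ}

theorem radL_apply {x : SL n R} (hx : x ∈ Hs R τ) (i j : Fin n) :
    (radL τ x).1 i j = if i ∈ τ then (1 : Matrix (Fin n) (Fin n) R) i j else x.1 i j := by
  have h0 : ∀ k, (radSL τ (-radC τ x)).1 k j = (1 : Matrix (Fin n) (Fin n) R) k j -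
      (if k ∈ τ ∧ j ∉ τ then x.1 k j else 0) := fun k => by
    by_cases h : k ∈ τ ∧ j ∉ τ
    · rw [radSL_apply τ _ k j h, if_pos h, Matrix.one_apply_ne, zero_sub]
      · rfl
      · intro hkj
        exact h.2 (hkj ▸ h.1)
    · rw [radSL_isU τ _ k j h, if_neg h, sub_zero]
  change (x.1 * (radSL τ (-radC τ x)).1) i j = _
  rw [Matrix.mul_apply]
  simp_rw [h0, mul_sub, Finset.sum_sub_distrib]
  rw [← Matrix.mul_apply, Matrix.mul_one]
  by_cases hj : j ∈ τ
  · have h1 : ∀ k, x.1 i k * (if k ∈ τ ∧ j ∉ τ then x.1 k j else 0) = 0 := fun k => by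
      rw [if_neg fun h => h.2 hj, mul_zero]
    simp_rw [h1]
    rw [Finset.sum_const_zero, sub_zero, hx j hj i]
    split_ifs <;> rfl
  · have h1 : ∀ k, x.1 i k * (if k ∈ τ ∧ j ∉ τ then x.1 k j else 0) =
        if k = i then (if i ∈ τ then x.1 i j else 0) else 0 := fun k => by
      by_cases hk : k ∈ τ
      · rw [if_pos ⟨hk, hj⟩, hx k hk i, Matrix.one_apply]
        by_cases hki : k = i
        · subst hki
          simp [hk]
        · rw [if_neg (Ne.symm hki), zero_mul, if_neg hki]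
      · rw [if_neg fun h => hk h.1, mul_zero]
        by_cases hki : k = i
        · subst hki
          simp [hk]
        · rw [if_neg hki]
    simp_rw [h1]
    rw [Finset.sum_ite_eq' Finset.univ i, if_pos (Finset.mem_univ i)]
    by_cases hi : i ∈ τ
    · rw [if_pos hi, if_pos hi, sub_self, Matrix.one_apply_ne]
      rintro rfl
      exact hj hi
    · rw [if_neg hi, if_neg hi, sub_zero]

theorem radL_mem {x : SL n R} (hx : x ∈ Hs R τ) : radL τ x ∈ Ms R τ := by
  refine ⟨fun i hi j => ?_, fun i hi j => ?_⟩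
  · rw [radL_apply hx]
    split_ifs
    · rfl
    · exact hx i hi j
  · rw [radL_apply hx, if_pos hi]

theorem radL_mul {u x : SL n R} (hu : IsU R τ u) (hx : x ∈ Hs R τ) :
    radL τ (u * x) = radL τ x := by
  apply Subtype.ext
  ext i j
  rw [radL_apply hx, radL_apply ((Hs R τ).mul_mem (fun a ha b => hu b a fun hc => hc.2 ha) hx)]
  by_cases hi : i ∈ τ
  · rw [if_pos hi, if_pos hi]
  · rw [if_neg hi, if_neg hi]
    change (u.1 * x.1) i j = _
    rw [Matrix.mul_apply]
    have h1 : ∀ k, u.1 i k = (1 : Matrix (Fin n) (Fin n) R) i k := fun k =>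
      hu i k fun hc => hi hc.1
    simp_rw [h1]
    rw [← Matrix.mul_apply, Matrix.one_mul]

theorem radL_of_mem {x : SL n R} (hx : x ∈ Ms R τ) : radL τ x = x := by
  apply Subtype.ext
  ext i j
  rw [radL_apply hx.1]
  by_cases hi : i ∈ τ
  · rw [if_pos hi, hx.2 i hi j]
  · rw [if_neg hi]

theorem radL_isU {x : SL n R} (hx : x ∈ Hs R τ) : IsU R τ (x * (radL τ x)⁻¹) := by
  rw [radL, _root_.mul_inv_rev, ← mul_assoc]
  exact radU_conj hx (radU_inv (radSL_isU τ _))

end rad

variable (w : World) {n : ℕ}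

theorem IsU.mem_Hs {R : Type} [CommRing R] {τ : Finset (Fin n)} {g : SL n R} (h : IsU R τ g) :
    g ∈ Hs R τ := fun i hi j => h j i fun hc => hc.2 hi

/-- The unipotent radical of `H_τ(F)`, as a subgroup of `H_τ(F)`. -/
def radF (τ : Finset (Fin n)) : Subgroup (sH w τ).P where
  carrier := {g | IsU w.F τ g.1}
  one_mem' := fun _ _ _ => rfl
  mul_mem' := by
    exact fun {_ _} ha hb => radU_mul ha hb
  inv_mem' := by
    exact fun {_} ha => radU_inv ha

/-- Normal, with the complement `M_τ(F)`. -/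
theorem radF_normal (τ : Finset (Fin n)) : (radF w τ).Normal := by
  exact ⟨fun u hu g => radU_conj g.2 hu⟩

/-- the additive group of the coordinates to the radical -/
private noncomputable def radG (τ : Finset (Fin n)) :
    Multiplicative (RadI τ → w.F) →* radF w τ where
  toFun := fun c => ⟨⟨radSL τ (Multiplicative.toAdd c), (radSL_isU τ _).mem_Hs⟩,
    radSL_isU τ _⟩
  map_one' := Subtype.ext (Subtype.ext radSL_zero)
  map_mul' := fun _ _ => Subtype.ext (Subtype.ext (radSL_add _ _))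

private theorem radSL_cont (τ : Finset (Fin n)) :
    Continuous (fun c : RadI τ → w.A => radSL τ c) := by
  refine continuous_induced_rng.2 ?_
  refine continuous_matrix fun i j => ?_
  by_cases h : i ∈ τ ∧ j ∉ τ
  · have h1 : (fun c : RadI τ → w.A => (radSL τ c).1 i j) = fun c => c ⟨(i, j), h⟩ :=
      funext fun c => radSL_apply τ c i j h
    exact h1 ▸ continuous_apply _
  · have h1 : (fun c : RadI τ → w.A => (radSL τ c).1 i j) =
        fun _ => (1 : Matrix (Fin n) (Fin n) w.A) i j :=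
      funext fun c => radSL_isU τ c i j h
    exact h1 ▸ continuous_const

private theorem radC_cont (τ : Finset (Fin n)) :
    Continuous (fun g : SL n w.A => radC τ g) := by
  refine continuous_pi fun k => ?_
  have h : Continuous fun g : SL n w.A => g.1 := continuous_induced_dom
  exact h.matrix_elem k.1.1 k.1.2

theorem radL_cont (τ : Finset (Fin n)) :
    Continuous (fun g : SL n w.A => radL τ g) :=
  continuous_id.mul ((radSL_cont w τ).comp (radC_cont w τ).neg)

theorem radSL_map (τ : Finset (Fin n)) (c : RadI τ → w.F) :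
    w.toA (radSL τ c) = radSL τ (fun k => algebraMap w.F w.A (c k)) := by
  apply Subtype.ext
  ext i j
  change algebraMap w.F w.A ((radSL τ c).1 i j) = _
  by_cases h : i ∈ τ ∧ j ∉ τ
  · rw [radSL_apply τ _ i j h, radSL_apply τ _ i j h]
  · rw [radSL_isU τ _ i j h, radSL_isU τ _ i j h]
    by_cases hij : i = j
    · subst hij; simp
    · simp [Matrix.one_apply_ne hij]

private theorem toA_isU {τ : Finset (Fin n)} {g : SL n w.F} (hg : IsU w.F τ g) :
    IsU w.A τ (w.toA g) := by
  rw [← radSL_radC τ hg, radSL_map]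
  exact radSL_isU τ _

private theorem radC_toA {τ : Finset (Fin n)} (g : SL n w.F) :
    radC τ (w.toA g) = fun k => algebraMap w.F w.A (radC τ g k) := rfl

/-- the radical acting on the space -/
private def radS (τ : Finset (Fin n)) (Z : Type) [TopologicalSpace Z] : GS where
  G := radF w τ
  X := (sH w τ).Q × Z
  act := fun g x => ((sH w τ).gs Z).act g.1 x
  act_one := ((sH w τ).gs Z).act_one
  act_mul := fun g h x => ((sH w τ).gs Z).act_mul g.1 h.1 x
  act_cont := fun g => ((sH w τ).gs Z).act_cont g.1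

/-- from the vector group -/
private noncomputable def radA (τ : Finset (Fin n)) (Z : Type) [TopologicalSpace Z] :
    GS.Hom (vecGS w.F w.A (RadI τ) ((sM w τ).Q × Z)) (radS w τ Z) where
  φ := radG w τ
  u := ⟨fun x => (⟨radSL τ x.1 * x.2.1.1,
      (Hs w.A τ).mul_mem (radSL_isU τ _).mem_Hs x.2.1.2.1⟩, x.2.2), by
    have h := radSL_cont w τ
    fun_prop⟩
  eqv := fun g x => by
    refine Prod.ext (Subtype.ext ?_) rfl
    change radSL τ ((fun k => algebraMap w.F w.A (Multiplicative.toAdd g k)) + x.1) * x.2.1.1 =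
      w.toA (radSL τ (Multiplicative.toAdd g)) * (radSL τ x.1 * x.2.1.1)
    rw [radSL_map, radSL_add, mul_assoc]
    rfl

/-- to the vector group -/
private noncomputable def radB (τ : Finset (Fin n)) (Z : Type) [TopologicalSpace Z] :
    GS.Hom (radS w τ Z) (vecGS w.F w.A (RadI τ) ((sM w τ).Q × Z)) where
  φ :=
    { toFun := fun g => Multiplicative.ofAdd (radC τ g.1.1)
      map_one' := by
        have h : radC τ (1 : SL n w.F) = 0 := by
          rw [← radSL_zero (τ := τ), radC_radSL]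
        exact congrArg Multiplicative.ofAdd h
      map_mul' := fun g h => congrArg Multiplicative.ofAdd (radC_mul g.2 h.2) }
  u := ⟨fun x => (radC τ (x.1.1 * (radL τ x.1.1)⁻¹), (⟨radL τ x.1.1, radL_mem x.1.2⟩, x.2)), by
    have h := radL_cont w τ
    have h' := radC_cont w τ
    have h1 : Continuous fun x : (sH w τ).Q × Z => radL τ x.1.1 := h.comp (by fun_prop)
    have h2 : Continuous fun x : (sH w τ).Q × Z => radC τ (x.1.1 * (radL τ x.1.1)⁻¹) :=
      h'.comp (by fun_prop)
    exact h2.prodMk ((h1.subtype_mk _).prodMk continuous_snd)⟩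
  eqv := fun g x => by
    have h1 : radL τ (w.toA g.1.1 * x.1.1) = radL τ x.1.1 := radL_mul (toA_isU w g.2) x.1.2
    have h2 : radC τ (w.toA g.1.1 * x.1.1 * (radL τ (w.toA g.1.1 * x.1.1))⁻¹) =
        radC τ (w.toA g.1.1) + radC τ (x.1.1 * (radL τ x.1.1)⁻¹) := by
      rw [h1, mul_assoc]
      exact radC_mul (toA_isU w g.2) (radL_isU x.1.2)
    exact Prod.ext h2 (Prod.ext (Subtype.ext h1) rfl)

/-- The functions on `H_τ(A) × Z` are acyclic for the unipotent radical: `H_τ(A)` is
`A^κ × M_τ(A)` with `κ` the set of the `(i, j)`, `i ∈ τ`, `j ∉ τ` (`World.acyc`). -/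
theorem radF_acyc (τ : Finset (Fin n)) (Z : Type) [TopologicalSpace Z] (m : ℕ) :
    (((((sH w τ).gs Z).gm w.W).res (radF w τ)).cx).Acyc (m + 1) := by
  have h : (radA w τ Z).comp (radB w τ Z) = GS.Hom.id _ := by
    refine GS.Hom.ext' (fun g => ?_) (fun x => ?_)
    · exact Subtype.ext (Subtype.ext (radSL_radC τ g.2))
    · refine Prod.ext (Subtype.ext ?_) rfl
      change radSL τ (radC τ (x.1.1 * (radL τ x.1.1)⁻¹)) * radL τ x.1.1 = x.1.1
      rw [radSL_radC τ (radL_isU x.1.2), inv_mul_cancel_right]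
  have hinj : ∀ m, ((radA w τ Z).pull w.W).Inj m := fun m x _ hb => by
    have h1 : ((radB w τ Z).pull w.W).f m (((radA w τ Z).pull w.W).f m x) = x := by
      have := congrArg (fun c => (GS.Hom.pull w.W c).f m x) h
      exact this
    have h2 := ((radB w τ Z).pull w.W).map_Bg hb
    rwa [h1] at h2
  intro x hx
  exact hinj (m + 1) x hx (w.acyc (RadI τ) ((sM w τ).Q × Z) m _
    (((radA w τ Z).pull w.W).map_Zg hx))

/-- A function on `H_τ(A) × Z` which is invariant under the radical over `F` is invariant under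
the radical over `A`, from the left and from the right (density; the radical is normal). -/
theorem radF_inv (τ : Finset (Fin n)) (Z : Type) [TopologicalSpace Z]
    (f : C((sH w τ).Q × Z, w.W))
    (h : ∀ g : (sH w τ).P, IsU w.F τ g.1 → ∀ x : (sH w τ).Q × Z,
      f (((sH w τ).gs Z).act g x) = f x)
    (x : (sH w τ).Q) (u : SL n w.A) (hu : IsU w.A τ u) (hu' : x.1 * u ∈ (sH w τ).Q) (z : Z) :
    f (⟨x.1 * u, hu'⟩, z) = f (x, z) := by
  have hx : x.1 * u * x.1⁻¹ = radSL τ (radC τ (x.1 * u * x.1⁻¹)) :=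
    (radSL_radC τ (radU_conj x.2 hu)).symm
  have key : ∀ c : RadI τ → w.A, f (⟨radSL τ c * x.1,
      (Hs w.A τ).mul_mem (radSL_isU τ _).mem_Hs x.2⟩, z) = f (x, z) := by
    intro c
    have hd : DenseRange (Pi.map fun _ : RadI τ => algebraMap w.F w.A) :=
      DenseRange.piMap fun _ => w.dense
    have hs := radSL_cont w τ
    refine hd.induction_on (p := fun c => f (⟨radSL τ c * x.1,
      (Hs w.A τ).mul_mem (radSL_isU τ _).mem_Hs x.2⟩, z) = f (x, z)) c ?_ ?_
    · refine isClosed_eq ?_ continuous_const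
      fun_prop
    · intro d
      have h1 := h ⟨radSL τ d, (radSL_isU τ d).mem_Hs⟩ (radSL_isU τ d) (x, z)
      have h2 : w.toA (radSL τ d) = radSL τ (Pi.map (fun _ => algebraMap w.F w.A) d) :=
        radSL_map w τ d
      have h3 : ((sH w τ).gs Z).act ⟨radSL τ d, (radSL_isU τ d).mem_Hs⟩ (x, z) =
          (⟨radSL τ (Pi.map (fun _ => algebraMap w.F w.A) d) * x.1,
            (Hs w.A τ).mul_mem (radSL_isU τ _).mem_Hs x.2⟩, z) := by
        refine Prod.ext (Subtype.ext ?_) rfl
        change w.toA (radSL τ d) * x.1 = _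
        rw [h2]
      rw [h3] at h1
      exact h1
  have h4 := key (radC τ (x.1 * u * x.1⁻¹))
  have h5 : radSL τ (radC τ (x.1 * u * x.1⁻¹)) * x.1 = x.1 * u := by
    rw [← hx, inv_mul_cancel_right]
  rw [← h4]
  congr 2
  exact Subtype.ext h5.symm

/-- The subgroup `M_τ(F)` of `H_τ(F)`. -/
def radM (τ : Finset (Fin n)) : Subgroup (sH w τ).P := (Ms w.F τ).subgroupOf (sH w τ).P

theorem radF_inf (τ : Finset (Fin n)) : radF w τ ⊓ radM w τ = ⊥ := by
  rw [eq_bot_iff]
  rintro g ⟨h1, h2⟩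
  rw [Subgroup.mem_bot]
  refine Subtype.ext (Subtype.ext ?_)
  ext i j
  have h1' : IsU w.F τ g.1 := h1
  have h2' : g.1 ∈ Ms w.F τ := h2
  by_cases hi : i ∈ τ
  · exact h2'.2 i hi j
  · exact h1' i j fun hc => hi hc.1

theorem radF_sup (τ : Finset (Fin n)) : radF w τ ⊔ radM w τ = ⊤ := by
  rw [eq_top_iff]
  intro g _
  have hg : g = (⟨g.1 * (radL τ g.1)⁻¹, (radL_isU g.2).mem_Hs⟩ : (sH w τ).P) *
      ⟨radL τ g.1, (radL_mem g.2).1⟩ := Subtype.ext (inv_mul_cancel_right _ _).symm
  rw [hg]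
  exact Subgroup.mul_mem_sup (radL_isU g.2) (radL_mem g.2)

end Pool.Agent.BR80
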