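import Pool.Agent.BR80.World
import Pool.Agent.BR80.CS

/-!
# The subgroups of `SL_n` and their cohomology
-/

namespace Pool.Agent.BR80

open Matrix

/-- The map `SL_n(F) → SL_n(A)`. -/
abbrev World.toA (w : World) {n : ℕ} : SL n w.F →* SL n w.A :=
  SpecialLinearGroup.map (algebraMap w.F w.A)

/-- A pair of subgroups of `SL_n(F)` and `SL_n(A)`. -/
structure SG (w : World) (n : ℕ) where
  /-- the subgroup of `SL_n(F)` -/
  P : Subgroup (SL n w.F)
  /-- the subgroup of `SL_n(A)` -/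
  Q : Subgroup (SL n w.A)
  map_mem : ∀ g ∈ P, w.toA g ∈ Q

namespace SG

variable {w : World} {n : ℕ}

/-- The group `K(F)` acting on `K(A) × Z`. -/
def gs (K : SG w n) (Z : Type) [TopologicalSpace Z] : GS where
  G := K.P
  X := K.Q × Z
  act := fun g x => (⟨w.toA g.1 * x.1.1, K.Q.mul_mem (K.map_mem g.1 g.2) x.1.2⟩, x.2)
  act_one := fun x => by
    ext : 1
    · exact Subtype.ext (by simp)
    · rfl
  act_mul := fun g h x => by
    ext : 1
    · exact Subtype.ext (by simp [mul_assoc])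
    · rfl
  act_cont := fun g => by fun_prop

/-- The cochains `C^m(K(F), C(K(A) × Z, W))`. -/
abbrev co (K : SG w n) (Z : Type) [TopologicalSpace Z] : Cx := (K.gs Z).co w.W

/-- Inclusion of pairs of subgroups. -/
structure Le (K L : SG w n) : Prop where
  P : K.P ≤ L.P
  Q : K.Q ≤ L.Q

theorem Le.refl (K : SG w n) : K.Le K := ⟨le_rfl, le_rfl⟩

theorem Le.trans {K L M : SG w n} (h : K.Le L) (h' : L.Le M) : K.Le M :=
  ⟨h.P.trans h'.P, h.Q.trans h'.Q⟩

/-- The inclusion. -/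
def incl {K L : SG w n} (h : K.Le L) (Z : Type) [TopologicalSpace Z] :
    GS.Hom (K.gs Z) (L.gs Z) where
  φ := Subgroup.inclusion h.P
  u := ⟨fun x => (⟨x.1.1, h.Q x.1.2⟩, x.2), by fun_prop⟩
  eqv := fun _ _ => rfl

/-- The restriction of cochains. -/
def rs {K L : SG w n} (h : K.Le L) (Z : Type) [TopologicalSpace Z] :
    Cx.Hom (L.co Z) (K.co Z) := (incl h Z).pull w.W

/-- Change of the parameter space. -/
def par (K : SG w n) {Z Z' : Type} [TopologicalSpace Z] [TopologicalSpace Z'] (ζ : C(Z', Z)) :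
    GS.Hom (K.gs Z') (K.gs Z) where
  φ := MonoidHom.id _
  u := ⟨fun x => (x.1, ζ x.2), by fun_prop⟩
  eqv := fun _ _ => rfl

/-- The twist `(g, z) ↦ (g a(z), z)`. -/
def tw (K : SG w n) {Z : Type} [TopologicalSpace Z] (a : C(Z, SL n w.A))
    (ha : ∀ z, a z ∈ K.Q) : GS.Hom (K.gs Z) (K.gs Z) where
  φ := MonoidHom.id _
  u := ⟨fun x => (⟨x.1.1 * a x.2, K.Q.mul_mem x.1.2 (ha x.2)⟩, x.2), by fun_prop⟩
  eqv := fun g x => Prod.ext (Subtype.ext (mul_assoc _ _ _)) rfl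

end SG

section subgroups

variable {n : ℕ} (R : Type) [CommRing R] (τ : Finset (Fin n))

/-- The matrices `g` with `g e_i = e_i` for `i` in `τ`. -/
def Hs : Subgroup (SL n R) where
  carrier := {g | ∀ i ∈ τ, ∀ j, g.1 j i = (1 : Matrix (Fin n) (Fin n) R) j i}
  one_mem' := fun i _ j => rfl
  mul_mem' := fun {a b} ha hb i hi j => by
    have h1 : ∀ k, b.1 k i = (1 : Matrix (Fin n) (Fin n) R) k i := hb i hi
    change (a.1 * b.1) j i = _
    rw [Matrix.mul_apply]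
    simp_rw [h1]
    rw [← Matrix.mul_apply, Matrix.mul_one, ha i hi j]
  inv_mem' := fun {a} ha i hi j => by
    have h1 : (a⁻¹).1 * a.1 = 1 := congrArg Subtype.val (inv_mul_cancel a)
    have h2 : ((a⁻¹).1 * a.1) j i = (1 : Matrix (Fin n) (Fin n) R) j i := by rw [h1]
    rw [Matrix.mul_apply] at h2
    have h3 : ∀ k, a.1 k i = (1 : Matrix (Fin n) (Fin n) R) k i := ha i hi
    simp_rw [h3] at h2
    rw [← Matrix.mul_apply, Matrix.mul_one] at h2
    exact h2

/-- The matrices with the rows of the unit matrix for the indices in `τ`. -/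
def Hms : Subgroup (SL n R) where
  carrier := {g | ∀ i ∈ τ, ∀ j, g.1 i j = (1 : Matrix (Fin n) (Fin n) R) i j}
  one_mem' := fun i _ j => rfl
  mul_mem' := fun {a b} ha hb i hi j => by
    have h1 : ∀ k, a.1 i k = (1 : Matrix (Fin n) (Fin n) R) i k := ha i hi
    change (a.1 * b.1) i j = _
    rw [Matrix.mul_apply]
    simp_rw [h1]
    rw [← Matrix.mul_apply, Matrix.one_mul, hb i hi j]
  inv_mem' := fun {a} ha i hi j => by
    have h1 : a.1 * (a⁻¹).1 = 1 := congrArg Subtype.val (mul_inv_cancel a)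
    have h2 : (a.1 * (a⁻¹).1) i j = (1 : Matrix (Fin n) (Fin n) R) i j := by rw [h1]
    rw [Matrix.mul_apply] at h2
    have h3 : ∀ k, a.1 i k = (1 : Matrix (Fin n) (Fin n) R) i k := ha i hi
    simp_rw [h3] at h2
    rw [← Matrix.mul_apply, Matrix.one_mul] at h2
    exact h2

/-- The Levi subgroup `SL` of the complement of `τ`. -/
def Ms : Subgroup (SL n R) := Hs R τ ⊓ Hms R τ

/-- The unipotent matrices: the unit matrix outside of the rows in `τ` and the columns not in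
`τ`. -/
def IsU (g : SL n R) : Prop :=
  ∀ i j, ¬ (i ∈ τ ∧ j ∉ τ) → g.1 i j = (1 : Matrix (Fin n) (Fin n) R) i j

/-- The transposed condition. -/
def IsUm (g : SL n R) : Prop :=
  ∀ i j, ¬ (i ∉ τ ∧ j ∈ τ) → g.1 i j = (1 : Matrix (Fin n) (Fin n) R) i j

end subgroups

variable (w : World) {n : ℕ}

theorem toA_mem_Hs (τ : Finset (Fin n)) {g : SL n w.F} (h : g ∈ Hs w.F τ) :
    w.toA g ∈ Hs w.A τ := fun i hi j => by
  change algebraMap w.F w.A (g.1 j i) = _
  rw [h i hi j]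
  by_cases hij : j = i
  · subst hij; simp
  · simp [Matrix.one_apply_ne hij]

theorem toA_mem_Hms (τ : Finset (Fin n)) {g : SL n w.F} (h : g ∈ Hms w.F τ) :
    w.toA g ∈ Hms w.A τ := fun i hi j => by
  change algebraMap w.F w.A (g.1 i j) = _
  rw [h i hi j]
  by_cases hij : i = j
  · subst hij; simp
  · simp [Matrix.one_apply_ne hij]

/-- The pair `H_τ`. -/
def sH (τ : Finset (Fin n)) : SG w n := ⟨Hs w.F τ, Hs w.A τ, fun _ h => toA_mem_Hs w τ h⟩

/-- The pair `H^-_τ`. -/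
def sHm (τ : Finset (Fin n)) : SG w n := ⟨Hms w.F τ, Hms w.A τ, fun _ h => toA_mem_Hms w τ h⟩

/-- The pair `M_τ`. -/
def sM (τ : Finset (Fin n)) : SG w n :=
  ⟨Ms w.F τ, Ms w.A τ, fun _ h => ⟨toA_mem_Hs w τ h.1, toA_mem_Hms w τ h.2⟩⟩

variable {w}

theorem sH_le {σ τ : Finset (Fin n)} (h : σ ⊆ τ) : (sH w τ).Le (sH w σ) :=
  ⟨fun _ hg i hi => hg i (h hi), fun _ hg i hi => hg i (h hi)⟩

theorem sHm_le {σ τ : Finset (Fin n)} (h : σ ⊆ τ) : (sHm w τ).Le (sHm w σ) :=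
  ⟨fun _ hg i hi => hg i (h hi), fun _ hg i hi => hg i (h hi)⟩

theorem sM_le {σ τ : Finset (Fin n)} (h : σ ⊆ τ) : (sM w τ).Le (sM w σ) :=
  ⟨fun _ hg => ⟨fun i hi => hg.1 i (h hi), fun i hi => hg.2 i (h hi)⟩,
    fun _ hg => ⟨fun i hi => hg.1 i (h hi), fun i hi => hg.2 i (h hi)⟩⟩

theorem sM_le_sH (τ : Finset (Fin n)) : (sM w τ).Le (sH w τ) :=
  ⟨fun _ hg => hg.1, fun _ hg => hg.1⟩

theorem sM_le_sHm (τ : Finset (Fin n)) : (sM w τ).Le (sHm w τ) :=
  ⟨fun _ hg => hg.2, fun _ hg => hg.2⟩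

theorem mem_Ms_empty {R : Type} [CommRing R] (g : SL n R) : g ∈ Ms R (∅ : Finset (Fin n)) :=
  ⟨fun i hi => absurd hi (Finset.notMem_empty i), fun i hi => absurd hi (Finset.notMem_empty i)⟩

theorem mem_Hs_empty {R : Type} [CommRing R] (g : SL n R) : g ∈ Hs R (∅ : Finset (Fin n)) :=
  (mem_Ms_empty g).1

theorem mem_Hms_empty {R : Type} [CommRing R] (g : SL n R) : g ∈ Hms R (∅ : Finset (Fin n)) :=
  (mem_Ms_empty g).2

variable (w)

/-- The coefficient system of the groups `M_τ`. -/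
abbrev csM (n : ℕ) (Z : Type) [TopologicalSpace Z] : CSys (Fin n) where
  K := fun τ => (sM w τ).co Z
  res := fun h => SG.rs (sM_le h) Z
  res_id := fun _ _ _ => rfl
  res_comp := fun _ _ _ _ => rfl

/-- The coefficient system of the groups `H_τ`. -/
abbrev csH (n : ℕ) (Z : Type) [TopologicalSpace Z] : CSys (Fin n) where
  K := fun τ => (sH w τ).co Z
  res := fun h => SG.rs (sH_le h) Z
  res_id := fun _ _ _ => rfl
  res_comp := fun _ _ _ _ => rfl

/-- The coefficient system of the groups `H^-_τ`. -/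
abbrev csHm (n : ℕ) (Z : Type) [TopologicalSpace Z] : CSys (Fin n) where
  K := fun τ => (sHm w τ).co Z
  res := fun h => SG.rs (sHm_le h) Z
  res_id := fun _ _ _ => rfl
  res_comp := fun _ _ _ _ => rfl

/-- The restriction from the groups `H_τ` to the groups `M_τ`. -/
def csHM (n : ℕ) (Z : Type) [TopologicalSpace Z] : CSys.Hom (csH w n Z) (csM w n Z) where
  f := fun τ => SG.rs (sM_le_sH τ) Z
  comm := fun _ _ _ => rfl

/-- The restriction from the groups `H^-_τ` to the groups `M_τ`. -/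
def csHmM (n : ℕ) (Z : Type) [TopologicalSpace Z] : CSys.Hom (csHm w n Z) (csM w n Z) where
  f := fun τ => SG.rs (sM_le_sHm τ) Z
  comm := fun _ _ _ => rfl

/-- The twist by `a : Z → SL_n(A)` on the cohomology of `SL_n`. -/
def twM {Z : Type} [TopologicalSpace Z] (a : C(Z, SL n w.A)) :
    Cx.Hom ((sM w (∅ : Finset (Fin n))).co Z) ((sM w (∅ : Finset (Fin n))).co Z) :=
  ((sM w ∅).tw a fun z => mem_Ms_empty (a z)).pull w.W

/-- Injectivity of `V^q(n; Z) → V^q(n - 1; Z)` for all spaces `Z`. -/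
def InjN (n q : ℕ) : Prop := ∀ (h : 0 < n) (Z : Type) [TopologicalSpace Z],
  (SG.rs (w := w) (sM_le (Finset.empty_subset {(⟨0, h⟩ : Fin n)})) Z).Inj q

/-- Surjectivity of `V^q(n; Z) → V^q(n - 1; Z)` for all spaces `Z`. -/
def SurN (n q : ℕ) : Prop := ∀ (h : 0 < n) (Z : Type) [TopologicalSpace Z],
  (SG.rs (w := w) (sM_le (Finset.empty_subset {(⟨0, h⟩ : Fin n)})) Z).Surj q

/-- THEOREM T for `n`. -/
def ThT (n : ℕ) : Prop := (∀ q, q + 2 ≤ n → InjN w n q) ∧ (∀ q, q + 3 ≤ n → SurN w n q)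

/-- The twists act trivially on `V^q(n; Z)`. -/
def TwN (n q : ℕ) : Prop := ∀ (Z : Type) [TopologicalSpace Z] (a : C(Z, SL n w.A)),
  ∀ x ∈ ((sM w (∅ : Finset (Fin n))).co Z).Zg q,
    (twM w a).f q x - x ∈ ((sM w (∅ : Finset (Fin n))).co Z).Bg q

end Pool.Agent.BR80
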