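import Pool.Agent.BR80.ECol
import Pool.Agent.BR80.Lem2

/-!
# The evaluation at the standard frame with the universal twist
-/

namespace Pool.Agent.BR80

open Matrix

/-- The first `r` indices. -/
def seg (n r : ℕ) : Finset (Fin n) := Finset.univ.filter fun i => (i : ℕ) < r

theorem mem_seg {n r : ℕ} {i : Fin n} : i ∈ seg n r ↔ (i : ℕ) < r := by simp [seg]

theorem card_seg {n r : ℕ} (h : r ≤ n) : (seg n r).card = r := by
  unfold seg
  rw [Fin.card_filter_val_lt, min_eq_right h]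

theorem seg_emb {n r : ℕ} (h : r ≤ n) (h' : (seg n r).card = r) (j : Fin r) :
    (seg n r).orderEmbOfFin h' j = Fin.castLE h j := by
  have h1 : (Fin.castLE h : Fin r → Fin n) = (seg n r).orderEmbOfFin h' :=
    Finset.orderEmbOfFin_unique h' (fun x => mem_seg.2 x.2) (Fin.strictMono_castLE h)
  rw [← h1]

variable (w : World)

/-- The function `(φ, z) ↦ s(φ)⁻¹`. -/
def psi0 {n r : ℕ} (hr : r < n) (Z : Type) [TopologicalSpace Z] : C(w.FF n r × Z, SL n w.A) :=
  ⟨fun x => (w.sec hr x.1)⁻¹, by fun_prop⟩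

/-- The second projection. -/
def prZ {n r : ℕ} (Z : Type) [TopologicalSpace Z] : C(w.FF n r × Z, Z) := ⟨Prod.snd, by fun_prop⟩

/-- The standard `r`-frame. -/
def eF {n r : ℕ} (hr : r ≤ n) : FR w n r := FR.of w (seg n r) r (card_seg hr)

theorem eF_fixed {n r : ℕ} (hr : r ≤ n) : ∀ g ∈ (sM w (seg n r)).P, g • eF w hr = eF w hr :=
  FR.of_fixedM w (seg n r) r (card_seg hr)

/-- The universal evaluation. -/
def evS {n r : ℕ} (hr : r < n) (Z : Type) [TopologicalSpace Z] :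
    Cx.Hom (colK w n r Z) ((sM w (seg n r)).co (w.FF n r × Z)) :=
  evC w (sM w (seg n r)) (psi0 w hr Z) (prZ w Z) (eF w hr.le) (eF_fixed w hr.le)

/-- The restriction from `SL_n` to a subgroup. -/
theorem leEmpty {n : ℕ} (K : SG w n) : K.Le (sM w ∅) :=
  ⟨fun g _ => mem_Ms_empty g, fun g _ => mem_Ms_empty g⟩

/-- The map `z' ↦ (ψ(z')⁻¹ X, ζ(z'))`. -/
def eta {n r : ℕ} {Z Z' : Type} [TopologicalSpace Z] [TopologicalSpace Z']
    (ψ : C(Z', SL n w.A)) (ζ : C(Z', Z)) (X : FR w n r) : C(Z', w.FF n r × Z) :=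
  ⟨fun z => (w.mul ((ψ z)⁻¹, X.toFF w), ζ z), by fun_prop⟩

private theorem seg_mul_std {n : ℕ} (τ : Finset (Fin n)) (r : ℕ) (h : τ.card = r)
    (g : Matrix (Fin n) (Fin n) w.A) (i : Fin n) (j : Fin r) :
    (g * (FR.of w τ r h).1.map (algebraMap w.F w.A)) i j = g i (τ.orderEmbOfFin h j) := by
  rw [Matrix.mul_apply]
  have h1 : ∀ k, (FR.of w τ r h).1.map (algebraMap w.F w.A) k j =
      if k = τ.orderEmbOfFin h j then 1 else 0 := by
    intro k
    change algebraMap w.F w.A ((1 : Matrix (Fin n) (Fin n) w.F) k (τ.orderEmbOfFin h j)) = _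
    simp only [Matrix.one_apply]
    split_ifs <;> simp
  simp only [h1, mul_ite, mul_one, mul_zero, Finset.sum_ite_eq', Finset.mem_univ, if_true]

/-- The adelic frame `e_τ` is fixed by `M_τ(A)`. -/
theorem toFF_fixed {n : ℕ} (τ : Finset (Fin n)) (r : ℕ) (h : τ.card = r) :
    ∀ g ∈ (sM w τ).Q, w.mul (g, (FR.of w τ r h).toFF w) = (FR.of w τ r h).toFF w := by
  intro g hg
  apply w.vec_inj
  rw [w.vec_mul]
  unfold FR.toFF
  rw [w.vec_rat]
  ext i j
  rw [seg_mul_std]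
  rw [hg.1 _ (τ.orderEmbOfFin_mem h j) i]
  change _ = algebraMap w.F w.A ((1 : Matrix (Fin n) (Fin n) w.F) i (τ.orderEmbOfFin h j))
  simp only [Matrix.one_apply]
  split_ifs <;> simp

/-- `s(φ) e = φ`. -/
theorem sec_eF {n r : ℕ} (hr : r < n) (φ : w.FF n r) :
    w.mul (w.sec hr φ, (eF w hr.le).toFF w) = φ := by
  apply w.vec_inj
  rw [w.vec_mul]
  unfold FR.toFF eF
  rw [w.vec_rat]
  ext i j
  rw [seg_mul_std, seg_emb hr.le, w.sec_spec]

end Pool.Agent.BR80
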