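import Pool.Agent.BR80.CoI

/-!
# Shapiro's lemma for modules
-/

namespace Pool.Agent.BR80

namespace GM

/-- The module of the functions on a `G`-set `X` with values in a `G`-module. -/
def fn (S : GM) (X : Type) [MulAction S.G X] : GM where
  G := S.G
  M := X → S.M
  ρ :=
    { toFun := fun g =>
        { toFun := fun f x => S.ρ g (f (g⁻¹ • x))
          map_zero' := by funext x; exact map_zero _
          map_add' := fun _ _ => by funext x; exact map_add _ _ _ }
      map_one' := by
        refine AddMonoidHom.ext fun f => ?_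
        funext x
        change S.ρ 1 (f ((1 : S.G)⁻¹ • x)) = f x
        rw [S.ρ_one, inv_one, one_smul]
      map_mul' := fun g h => by
        refine AddMonoidHom.ext fun f => ?_
        funext x
        change S.ρ (g * h) (f ((g * h)⁻¹ • x)) = S.ρ g (S.ρ h (f (h⁻¹ • g⁻¹ • x)))
        rw [S.ρ_mul, mul_inv_rev, mul_smul] }

/-- The evaluation at a point of `X`. -/
def shHom (S : GM) (X : Type) [MulAction S.G X] (x₀ : X) :
    Hom (S.res (MulAction.stabilizer S.G x₀)) (S.fn X) where
  φ := (MulAction.stabilizer S.G x₀).subtype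
  u :=
    { toFun := fun f => f x₀
      map_zero' := rfl
      map_add' := fun _ _ => rfl }
  comm := fun g f => by
    change S.ρ g.1 (f ((g.1)⁻¹ • x₀)) = S.ρ g.1 (f x₀)
    have h : (g.1)⁻¹ • x₀ = x₀ := by
      rw [inv_smul_eq_iff]
      exact g.2.symm
    rw [h]

private theorem sha_zero (S : GM) (c : (Fin 0 → S.G) → S.M) :
    (∀ g, S.dFun 0 c g = 0) ↔ ∀ g, S.ρ g (c Fin.elim0) = c Fin.elim0 := by
  have h3 : ∀ w : Fin 0 → S.G, w = Fin.elim0 := fun w => Subsingleton.elim _ _
  have h : ∀ g : Fin 1 → S.G, S.dFun 0 c g = S.ρ (g 0) (c Fin.elim0) - c Fin.elim0 := fun g => by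
    rw [dFun, Fin.sum_univ_one, h3 (fun i => g i.succ), h3 (Fin.contractNth _ _ _)]
    simp [sub_eq_add_neg]
  constructor
  · intro hc g
    have h1 := hc fun _ => g
    rw [h, sub_eq_zero] at h1
    exact h1
  · intro hc g
    rw [h, hc, sub_self]

private theorem sha_sur0' (S : GM) (X : Type) [MulAction S.G X] [MulAction.IsPretransitive S.G X]
    (x₀ : X) (z : S.M) (hz : ∀ h : S.G, h • x₀ = x₀ → S.ρ h z = z) :
    ∃ f : X → S.M, f x₀ = z ∧ ∀ g : S.G, (S.fn X).ρ g f = f := by
  choose k hk using fun x : X => MulAction.exists_smul_eq S.G x₀ x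
  have key : ∀ g x, S.ρ (k (g • x)) z = S.ρ g (S.ρ (k x) z) := fun g x => by
    have h1 : ((k (g • x))⁻¹ * g * k x) • x₀ = x₀ := by
      rw [mul_smul, mul_smul, hk, inv_smul_eq_iff, hk]
    have h2 := hz _ h1
    rw [← S.ρ_mul]
    conv_lhs => rw [← h2, ← S.ρ_mul]
    congr 2
    group
  refine ⟨fun x => S.ρ (k x) z, hz _ (hk x₀), fun g => ?_⟩
  funext x
  change S.ρ g (S.ρ (k (g⁻¹ • x)) z) = S.ρ (k x) z
  rw [← key, smul_inv_smul]

private theorem sha_sur0 (S : GM) (X : Type) [MulAction S.G X] [MulAction.IsPretransitive S.G X]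
    (x₀ : X) : (S.shHom X x₀).cx.Surj 0 := by
  intro z hz
  obtain ⟨f, hf, hf'⟩ := sha_sur0' S X x₀ _ (fun h hh =>
    (sha_zero (S.res (MulAction.stabilizer S.G x₀)) z).1 (congrFun hz) ⟨h, hh⟩)
  refine ⟨(fun _ => f : (Fin 0 → S.G) → X → S.M),
    funext ((sha_zero (S.fn X) (fun _ => f)).2 fun g => hf' g), ?_⟩
  rw [Cx.mem_Bg_zero, sub_eq_zero]
  funext g
  have h3 : g = Fin.elim0 := Subsingleton.elim _ _
  rw [h3]
  exact hf.symm

private theorem sha_inj0 (S : GM) (X : Type) [MulAction S.G X] [MulAction.IsPretransitive S.G X]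
    (x₀ : X) : (S.shHom X x₀).cx.Inj 0 := by
  intro f hf h0
  rw [Cx.mem_Bg_zero] at h0 ⊢
  have h1 := (sha_zero (S.fn X) f).1 (congrFun hf)
  have h2 : (show (Fin 0 → S.G) → X → S.M from f) Fin.elim0 x₀ = 0 := by
    have h5 : (show (Fin 0 → S.G) → X → S.M from f) (fun i : Fin 0 => ((Fin.elim0 i :
      MulAction.stabilizer S.G x₀)).1) x₀ = 0 := congrFun h0 Fin.elim0
    rwa [Subsingleton.elim (fun i : Fin 0 => ((Fin.elim0 i :
      MulAction.stabilizer S.G x₀)).1) Fin.elim0] at h5
  funext g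
  have h3 : g = Fin.elim0 := Subsingleton.elim _ _
  rw [h3]
  funext x
  obtain ⟨k, rfl⟩ := MulAction.exists_smul_eq S.G x₀ x
  have h4 : S.ρ k ((show (Fin 0 → S.G) → X → S.M from f) Fin.elim0 (k⁻¹ • k • x₀)) =
    (show (Fin 0 → S.G) → X → S.M from f) Fin.elim0 (k • x₀) := congrFun (h1 k) (k • x₀)
  rw [inv_smul_smul, h2, map_zero] at h4
  exact h4.symm

private theorem sha_ses2 (A B C : GM) (a : GM.Hom B A) (b : GM.Hom C B)
    (ha : Function.Bijective a.φ) (hb : Function.Bijective b.φ)
    (h1 : ∀ x, a.u x = 0 → x = 0) (h2 : ∀ y, b.u y = 0 → ∃ x, a.u x = y)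
    (h3 : ∀ x, b.u (a.u x) = 0) (h4 : ∀ z, ∃ y, b.u y = z) :
    ∃ s : SES A.cx B.cx C.cx, s.i = a.cx ∧ s.p = b.cx := by
  choose a' ha' using ha.2
  choose b' hb' using hb.2
  have ha2 : ∀ x, a' (a.φ x) = x := fun x => ha.1 (ha' _)
  have hb2 : ∀ x, b' (b.φ x) = x := fun x => hb.1 (hb' _)
  refine ⟨⟨a.cx, b.cx, fun m x hx => ?_, fun m y hy => ?_, fun m x => ?_, fun m z => ?_⟩, rfl, rfl⟩
  · funext g
    have e1 := congrFun hx (fun i => a' (g i))
    have e2 : a.u ((show (Fin m → A.G) → A.M from x) fun i => a.φ (a' (g i))) = 0 := e1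
    simp only [ha'] at e2
    exact h1 _ e2
  · have h : ∀ g : Fin m → B.G, ∃ x, a.u x = (show (Fin m → B.G) → B.M from y) g := fun g => by
      apply h2
      have e1 := congrFun hy (fun i => b' (g i))
      have e2 : b.u ((show (Fin m → B.G) → B.M from y) fun i => b.φ (b' (g i))) = 0 := e1
      simp only [hb'] at e2
      exact e2
    choose f hf using h
    refine ⟨(fun g => f fun i => a' (g i) : (Fin m → A.G) → A.M), funext fun g => ?_⟩
    have e3 : a.u (f fun i => a' (a.φ (g i))) = (show (Fin m → B.G) → B.M from y) g := by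
      simp only [ha2]
      exact hf g
    exact e3
  · funext g
    exact h3 _
  · have h : ∀ g : Fin m → C.G, ∃ y, b.u y = (show (Fin m → C.G) → C.M from z) g := fun g => h4 _
    choose f hf using h
    refine ⟨(fun g => f fun i => b' (g i) : (Fin m → B.G) → B.M), funext fun g => ?_⟩
    have e3 : b.u (f fun i => b' (b.φ (g i))) = (show (Fin m → C.G) → C.M from z) g := by
      simp only [hb2]
      exact hf g
    exact e3

private def sha_e (G N X : Type) [Group G] [AddCommGroup N] [iX : MulAction G X] :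
    (@fn (coind G N) X iX).M ≃+ (X × G → N) where
  toFun := fun (f : X → G → N) x => f x.1 x.2
  invFun := fun f x g => f (x, g)
  left_inv := fun _ => rfl
  right_inv := fun _ => rfl
  map_add' := fun _ _ => rfl

private theorem sha_e1 (G N X : Type) [Group G] [AddCommGroup N] [iX : MulAction G X] 
    (g : G) (f : (@fn (coind G N) X iX).M) (x : X × G) :
    sha_e G N X ((@fn (coind G N) X iX).ρ g f) x = sha_e G N X f (g⁻¹ • x.1, x.2 * g) := rfl

private theorem sha_e2 (G X : Type) [Group G] [iX : MulAction G X] 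
    (g : G) (x : X × G) :
    ((x.2 * g) • g⁻¹ • x.1, (1 : G)) = (x.2 • x.1, 1) := by
  rw [mul_smul, smul_inv_smul]

private theorem sha_acyc (G N X : Type) [Group G] [AddCommGroup N] [iX : MulAction G X] (m : ℕ) :
    (@fn (coind G N) X iX).cx.Acyc (m + 1) := by
  refine coI_acyc (@fn (coind G N) X iX) (X × G) N (sha_e G N X)
      (fun x (g : G) => (g⁻¹ • x.1, x.2 * g)) (sha_e1 G N X)
      (fun x => (x.2 • x.1, 1)) (fun x => x.2) (fun x g => sha_e2 G X g x) (fun _ _ => rfl)
      (fun x => ?_) m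
  have h : ((x.2)⁻¹ • x.2 • x.1, 1 * x.2) = x := by
    rw [inv_smul_smul, one_mul]
  exact h

private theorem sha_comm (S : GM) (g y : S.G) (x : S.M) :
    S.ρ y (S.ρ g x) = S.ρ (y * g) x := by
  rw [S.ρ_mul]

private theorem sha_one (S : GM) (x : S.M) (h : S.ρ 1 x = 0) : x = 0 := by
  rwa [S.ρ_one] at h

private def sha_a (S : GM) (X : Type) [iX : MulAction S.G X] :
    GM.Hom (@fn (coind S.G S.M) X iX) (S.fn X) where
  φ := MonoidHom.id S.G
  u :=
    { toFun := fun f x => S.emb (f x)
      map_zero' := by funext x; exact map_zero _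
      map_add' := fun _ _ => by funext x; exact map_add _ _ _ }
  comm := fun g f => by
    funext x y
    exact sha_comm S g y ((show X → S.M from f) ((show S.G from g)⁻¹ • x))

private def sha_b (S : GM) (X : Type) [iX : MulAction S.G X] :
    GM.Hom (@fn S.quo X iX) (@fn (coind S.G S.M) X iX) where
  φ := MonoidHom.id S.G
  u :=
    { toFun := fun f x => QuotientAddGroup.mk' S.emb.range (f x)
      map_zero' := by funext x; exact map_zero _
      map_add' := fun _ _ => by funext x; exact map_add _ _ _ }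
  comm := fun _ _ => rfl

private theorem sha_ses (S : GM) (X : Type) [iX : MulAction S.G X] :
    ∃ s : SES (S.fn X).cx (@fn (coind S.G S.M) X iX).cx (@fn S.quo X iX).cx,
    s.i = (sha_a S X).cx ∧ s.p = (sha_b S X).cx := by
  refine sha_ses2 _ _ _ (sha_a S X) (sha_b S X) Function.bijective_id Function.bijective_id
    (fun f hf => ?_) (fun y hy => ?_) (fun f => ?_) (fun z => ?_)
  · funext x
    have h : S.ρ 1 ((show X → S.M from f) x) = 0 := congrFun (congrFun hf x) 1
    exact sha_one S _ h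
  · have h : ∀ x, ∃ z, S.emb z = (show X → S.G → S.M from y) x := fun x =>
      (QuotientAddGroup.eq_zero_iff _).1 (congrFun hy x)
    choose f hf using h
    exact ⟨f, funext hf⟩
  · funext x
    exact (QuotientAddGroup.eq_zero_iff _).2 ⟨_, rfl⟩
  · have h : ∀ x, ∃ y, QuotientAddGroup.mk' S.emb.range y =
        (show X → (S.G → S.M) ⧸ S.emb.range from z) x := fun x =>
      QuotientAddGroup.mk'_surjective _ _
    choose f hf using h
    exact ⟨f, funext hf⟩

private def sha_a' (S : GM) (H : Subgroup S.G) :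
    GM.Hom ((coind S.G S.M).res H) (S.res H) where
  φ := MonoidHom.id H
  u := S.emb
  comm := fun g x => by
    funext y
    exact sha_comm S (g : H).1 y x

private def sha_b' (S : GM) (H : Subgroup S.G) :
    GM.Hom (S.quo.res H) ((coind S.G S.M).res H) where
  φ := MonoidHom.id H
  u := QuotientAddGroup.mk' S.emb.range
  comm := fun _ _ => rfl

private theorem sha_ses' (S : GM) (H : Subgroup S.G) :
    ∃ s : SES (S.res H).cx ((coind S.G S.M).res H).cx (S.quo.res H).cx,
    s.i = (sha_a' S H).cx ∧ s.p = (sha_b' S H).cx := by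
  refine sha_ses2 _ _ _ (sha_a' S H) (sha_b' S H) Function.bijective_id Function.bijective_id
    (fun x hx => ?_) (fun y hy => ?_) (fun x => ?_) (fun z => ?_)
  · exact sha_one S _ (congrFun hx 1)
  · exact (QuotientAddGroup.eq_zero_iff _).1 hy
  · exact (QuotientAddGroup.eq_zero_iff _).2 ⟨x, rfl⟩
  · exact QuotientAddGroup.mk'_surjective _ z

private theorem sha_main (m : ℕ) : ∀ (S : GM) (X : Type) [MulAction S.G X]
    [MulAction.IsPretransitive S.G X] (x₀ : X),
    (S.shHom X x₀).cx.Inj m ∧ (S.shHom X x₀).cx.Surj m := by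
  induction m with
  | zero => exact fun S X _ _ x₀ => ⟨sha_inj0 S X x₀, sha_sur0 S X x₀⟩
  | succ m ih =>
    intro S X iX iT x₀
    obtain ⟨s, hs1, hs2⟩ := sha_ses S X
    obtain ⟨s', hs1', hs2'⟩ := sha_ses' S (MulAction.stabilizer S.G x₀)
    obtain ⟨hc1, hc2⟩ := @ih S.quo X iX iT x₀
    refine SES.step s s' (S.shHom X x₀).cx (@shHom (coind S.G S.M) X iX x₀).cx
      (@shHom S.quo X iX x₀).cx (fun k c => ?_) (fun k c => ?_) m ?_ hc1 hc2
      (sha_acyc S.G S.M X m) (coind_res_acyc S.G S.M _ m)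
    · rw [hs1, hs1']
      rfl
    · rw [hs2, hs2']
      rfl
    · cases m with
      | zero => exact @sha_sur0 (coind S.G S.M) X iX iT x₀
      | succ m =>
        intro z hz
        refine ⟨0, AddSubgroup.zero_mem _, ?_⟩
        rw [map_zero, sub_zero]
        exact coind_res_acyc S.G S.M _ m z hz

/-- Shapiro's lemma (dimension shifting with `exists_ses` for `S`: `S ↦ S.fn X` is exact, the
module `(coind G N).fn X` is coinduced, `coind_res_acyc`). -/
theorem shapiro (S : GM) (X : Type) [MulAction S.G X] [MulAction.IsPretransitive S.G X]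
    (x₀ : X) : (S.shHom X x₀).cx.Qis := by
  exact fun m => sha_main m S X x₀

end GM

end Pool.Agent.BR80
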