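import Pool.Agent.BR80.Trip
import Pool.Agent.BR80.E3

/-!
# Step A
-/

namespace Pool.Agent.BR80

open Matrix

variable (w : World)

private theorem StA_evT_par {n : ℕ} (τ : Finset (Fin n)) (r : ℕ) (h : τ.card = r) {Z Z' : Type}
    [TopologicalSpace Z] [TopologicalSpace Z'] (ζ : C(Z', Z)) (m : ℕ) (x : (colK w n r Z).C m) :
    (evT w τ r h 1 ζ).f m x =
      (((sM w τ).par ζ).pull w.W).f m ((evT w τ r h 1 (ContinuousMap.id Z)).f m x) := by
  refine GS.co_ext fun g y => ?_
  rfl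

private theorem StA_rs_par {n : ℕ} (τ : Finset (Fin n)) {Z Z' : Type}
    [TopologicalSpace Z] [TopologicalSpace Z'] (ζ : C(Z', Z)) (m : ℕ)
    (c : (coN w n Z).C m) :
    (((sM w τ).par ζ).pull w.W).f m ((SG.rs (w := w) (sM_le (Finset.empty_subset τ)) Z).f m c) =
      (SG.rs (w := w) (sM_le (Finset.empty_subset τ)) Z').f m
        ((((sM w ∅).par ζ).pull w.W).f m c) := by
  refine GS.co_ext fun g y => ?_
  rfl

private theorem StA_dt_mem {K : Cx} {ι : Type} [LinearOrder ι] {m : ℕ} {t : Finset ι → K.C m}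
    (ht : ∀ σ, t σ ∈ K.Zg m) (τ : Finset ι) : CSys.dt t τ ∈ K.Zg m :=
  AddSubgroup.sum_mem _ fun _ _ => AddSubgroup.zsmul_mem _ (ht _) _

/-- The untwisted evaluation at `e_[r+2]` is the restriction of a class. -/
private theorem StA_one {n r m : ℕ} (hm : m + r + 1 = n) (hT : ∀ k < n + 2, ThT w k)
    (hs : ∀ q, q + 4 ≤ n + 2 → SurN w (n + 2) q)
    (Z : Type) [TopologicalSpace Z] (Y : (biD w (n + 2) Z).TC)
    (hY : (biD w (n + 2) Z).Sys n (r + 2) Y)
    (hInv : Inv w (seg (n + 2) (r + 2)) ((biD w (n + 2) Z).ds Y (r + 2) m)) :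
    ∃ c ∈ (coN w (n + 2) Z).Zg m, ∀ (τ' : Finset (Fin (n + 2))) (h : τ'.card = r + 2),
      τ' = seg (n + 2) (r + 2) →
      (evT w τ' (r + 2) h 1 (ContinuousMap.id Z)).f m ((biD w (n + 2) Z).ds Y (r + 2) m) -
        (SG.rs (w := w) (sM_le (Finset.empty_subset τ')) Z).f m c ∈ ((sM w τ').co Z).Bg m := by
  set x := (biD w (n + 2) Z).ds Y (r + 2) m with hxdef
  have hx : x ∈ (colK w (n + 2) (r + 2) Z).Zg m := BiCx.Sys.ds_mem _ hY m
  have hseg : (seg n r).card = r := card_seg (by omega)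
  have hτ : emb2 (seg n r) = seg (n + 2) (r + 2) := emb2_seg
  -- the classes of the invariance
  have h1 : ∀ i : Fin 3, ∃ a ∈ (coN w (n + 2) Z).Zg m,
      (evg w i (emb2 (seg n r)) (zero_mem_emb2 _) (one_mem_emb2 _) (r + 2)
        (emb2_card _ r hseg) Z).f m x -
      (evT w (emb2 (seg n r)) (r + 2) (emb2_card _ r hseg) 1 (ContinuousMap.id Z)).f m x -
      (SG.rs (w := w) (sM_le (Finset.empty_subset (emb2 (seg n r)))) Z).f m a ∈
        ((sM w (emb2 (seg n r))).co Z).Bg m := by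
    intro i
    have h2 := evg_eq w i (emb2 (seg n r)) (zero_mem_emb2 _) (one_mem_emb2 _) (r + 2)
      (emb2_card _ r hseg) Z m x hx
    obtain ⟨t, ht, ht'⟩ := hInv Z (ContinuousMap.const Z (gam n w.A i)⁻¹) (ContinuousMap.id Z)
    have h3 := ht' (emb2 (seg n r)) (by rw [hτ]) (emb2_card _ r hseg)
    refine ⟨CSys.dt t (emb2 (seg n r)), StA_dt_mem ht _, ?_⟩
    have h4 := AddSubgroup.add_mem _ h2 h3
    refine (congrArg (· ∈ ((sM w (emb2 (seg n r))).co Z).Bg m) ?_).mp h4
    abel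
  choose a ha ha' using h1
  obtain ⟨t, ht, ht'⟩ := triple w hm hT Z Y hY
  have h2 := ht' (seg n r) hseg
  rw [← hxdef] at h2
  -- the class b
  have h3 : ∃ b ∈ (coN w (n + 2) Z).Zg m,
      (SG.rs (w := w) (sM_le (emb2_mono (Finset.empty_subset (seg n r)))) Z).f m
        (CSys.dt t (seg n r)) -
      (SG.rs (w := w) (sM_le (Finset.empty_subset (emb2 (seg n r)))) Z).f m b ∈
        ((sM w (emb2 (seg n r))).co Z).Bg m := by
    rcases Nat.eq_zero_or_pos r with hr | hr
    · subst hr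
      have h4 : seg n 0 = ∅ := Finset.card_eq_zero.1 hseg
      have h5 : CSys.dt t (seg n 0) = 0 := by
        rw [h4]
        rfl
      refine ⟨0, AddSubgroup.zero_mem _, ?_⟩
      rw [h5, map_zero, map_zero, sub_zero]
      exact AddSubgroup.zero_mem _
    · have h4 : (SG.rs (w := w) (sM_le (Finset.empty_subset
          (emb2 (∅ : Finset (Fin n))))) Z).Surj m := by
        refine sur_path w (Finset.empty_subset (emb2 (∅ : Finset (Fin n)))) (fun k hk1 hk2 => ?_) Z
        rw [emb2_card ∅ 0 Finset.card_empty] at hk2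
        rw [Finset.card_empty] at hk1
        rcases (by omega : k = n + 2 ∨ k = n + 1) with rfl | rfl
        · exact hs m (by omega)
        · exact (hT (n + 1) (by omega)).2 m (by omega)
      obtain ⟨b, hb, hb'⟩ := h4 _ (StA_dt_mem ht (seg n r))
      refine ⟨b, hb, ?_⟩
      have h5 := (SG.rs (w := w) (sM_le (emb2_mono (Finset.empty_subset (seg n r)))) Z).map_Bg hb'
      rw [map_sub] at h5
      exact h5
  obtain ⟨b, hb, hb'⟩ := h3
  -- together
  refine ⟨b - (a 0 - a 1 + a 2), ?_, ?_⟩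
  · exact AddSubgroup.sub_mem _ hb (AddSubgroup.add_mem _ (AddSubgroup.sub_mem _ (ha 0) (ha 1)) (ha 2))
  · rintro τ' h hτ'
    have h5 : ∀ (σ : Finset (Fin (n + 2))) (hσ : σ.card = r + 2), σ = emb2 (seg n r) →
        (evT w σ (r + 2) hσ 1 (ContinuousMap.id Z)).f m x -
          (SG.rs (w := w) (sM_le (Finset.empty_subset σ)) Z).f m (b - (a 0 - a 1 + a 2)) ∈
            ((sM w σ).co Z).Bg m := by
      rintro σ hσ rfl
      have h6 : ((triD w n Z).f (seg n r) r hseg).f m x =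
          (evg w 0 (emb2 (seg n r)) (zero_mem_emb2 _) (one_mem_emb2 _) (r + 2)
            (emb2_card _ r hseg) Z).f m x -
          (evg w 1 (emb2 (seg n r)) (zero_mem_emb2 _) (one_mem_emb2 _) (r + 2)
            (emb2_card _ r hseg) Z).f m x +
          (evg w 2 (emb2 (seg n r)) (zero_mem_emb2 _) (one_mem_emb2 _) (r + 2)
            (emb2_card _ r hseg) Z).f m x := by
        show (Cx.Hom.lin Finset.univ (fun i : Fin 3 => (-1 : ℤ) ^ (i : ℕ)) fun i =>
          evg w i (emb2 (seg n r)) (zero_mem_emb2 _) (one_mem_emb2 _) (r + 2)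
            (emb2_card _ r hseg) Z).f m x = _
        rw [Cx.Hom.lin_f, Fin.sum_univ_three]
        simp only [Fin.val_zero, Fin.val_one, Fin.val_two, pow_zero, pow_one, one_smul,
          neg_smul, neg_one_sq]
        abel
      rw [h6] at h2
      have h7 := AddSubgroup.add_mem _ h2 hb'
      have h8 := AddSubgroup.sub_mem _ h7 (ha' 0)
      have h9 := AddSubgroup.add_mem _ h8 (ha' 1)
      have h10 := AddSubgroup.sub_mem _ h9 (ha' 2)
      refine (congrArg (· ∈ ((sM w (emb2 (seg n r))).co Z).Bg m) ?_).mp h10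
      rw [map_sub, map_add, map_sub]
      abel
    exact h5 τ' h (hτ'.trans hτ.symm)

/-- STEP A: the obstruction is the image of a class `h`. Put `x` = the obstruction,
`i₀` = its evaluation at `e_[r+2]`, modulo the image of `V(n + 2; Z)`. By the invariance and
`evg_eq` the evaluations at the three frames are all `i₀`, so their alternating sum is `i₀`; by
`triple` it is zero (for `r = 0` it is zero, for `r ≥ 1` the restriction from `SL_(n+2)` to
`SL_n` is surjective). Then the universal evaluation of `x` is, by the invariance, the restriction of a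
class `h`, and `x ~ θ(h)` by `theta_of_ev`. -/
theorem stepA {n r m : ℕ} (hm : m + r + 1 = n) (hT : ∀ k < n + 2, ThT w k)
    (hi : ∀ q, q + 3 ≤ n + 2 → InjN w (n + 2) q) (hs : ∀ q, q + 4 ≤ n + 2 → SurN w (n + 2) q)
    (Z : Type) [TopologicalSpace Z] (Y : (biD w (n + 2) Z).TC)
    (hY : (biD w (n + 2) Z).Sys n (r + 2) Y)
    (hInv : Inv w (seg (n + 2) (r + 2)) ((biD w (n + 2) Z).ds Y (r + 2) m)) :
    ∃ h ∈ (coN w (n + 2) (w.FF (n + 2) (r + 2) × Z)).Zg m,
      (biD w (n + 2) Z).ds Y (r + 2) m - ((theta w (n + 2) Z).f (r + 2)).f m h ∈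
        (colK w (n + 2) (r + 2) Z).Bg m := by
  have hx : (biD w (n + 2) Z).ds Y (r + 2) m ∈ (colK w (n + 2) (r + 2) Z).Zg m :=
    BiCx.Sys.ds_mem _ hY m
  obtain ⟨c, hc, hc'⟩ := StA_one w hm hT hs Z Y hY hInv
  have hlt : r + 2 < n + 2 := by omega
  have htw : TwN w (n + 2) m := tw_of_inj w (hi m (by omega))
  obtain ⟨t, ht, ht'⟩ := hInv (w.FF (n + 2) (r + 2) × Z) (psi0 w hlt Z) (prZ w Z)
  have h1 := ht' (seg (n + 2) (r + 2)) (Finset.Subset.refl _) (card_seg hlt.le)
  have h2 := hc' (seg (n + 2) (r + 2)) (card_seg hlt.le) rfl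
  have h3 := (((sM w (seg (n + 2) (r + 2))).par
    (prZ (n := n + 2) (r := r + 2) w Z)).pull w.W).map_Bg h2
  rw [map_sub, ← StA_evT_par, StA_rs_par] at h3
  refine ⟨(((sM w ∅).par (prZ w Z)).pull w.W).f m c +
    CSys.dt t (seg (n + 2) (r + 2)), ?_, ?_⟩
  · exact AddSubgroup.add_mem _ ((((sM w ∅).par (prZ w Z)).pull w.W).map_Zg hc) (StA_dt_mem ht _)
  · refine theta_of_ev w hlt htw Z _ hx _ ?_ ?_
    · exact AddSubgroup.add_mem _ ((((sM w ∅).par (prZ w Z)).pull w.W).map_Zg hc)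
        (StA_dt_mem ht _)
    · have h4 := AddSubgroup.add_mem _ h1 h3
      refine (congrArg (· ∈ ((sM w (seg (n + 2) (r + 2))).co
        (w.FF (n + 2) (r + 2) × Z)).Bg m) ?_).mp h4
      rw [map_add]
      show _ = (evT w (seg (n + 2) (r + 2)) (r + 2) (card_seg hlt.le) (psi0 w hlt Z)
        (prZ w Z)).f m ((biD w (n + 2) Z).ds Y (r + 2) m) - _
      abel

end Pool.Agent.BR80
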