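import Pool.Agent.BR80.Trip
import Pool.Agent.BR80.E3

/-!
# Step B, first half
-/

namespace Pool.Agent.BR80

open Matrix

variable (w : World)

private theorem StB1_face {n r : ℕ} (hr : r + 1 < n) (h : (seg n (r + 1)).card = r + 1)
    (j : Fin (r + 1)) (h' : ((seg n (r + 1)).erase ((seg n (r + 1)).orderEmbOfFin h j)).card = r)
    (φ : w.FF n (r + 1)) :
    w.mul (w.sec hr φ, (FR.of w ((seg n (r + 1)).erase ((seg n (r + 1)).orderEmbOfFin h j)) r
      h').toFF w) = w.face j φ := by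
  have h1 : w.mul (w.sec hr φ, (FR.of w (seg n (r + 1)) (r + 1) h).toFF w) = φ := sec_eF w hr φ
  have h2 : (FR.of w ((seg n (r + 1)).erase ((seg n (r + 1)).orderEmbOfFin h j)) r h').toFF w =
      w.face j ((FR.of w (seg n (r + 1)) (r + 1) h).toFF w) := by
    refine w.vec_inj ?_
    rw [w.vec_face, FR.toFF, FR.toFF, w.vec_rat, w.vec_rat, ← FR.face_of (w := w) _ r h j h']
    rfl
  refine w.vec_inj ?_
  rw [w.vec_mul, h2, w.vec_face, w.vec_face]
  conv_rhs => rw [← h1]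
  rw [w.vec_mul]
  rfl

private theorem StB1_one {n r : ℕ} (X : w.FF n r) : w.mul ((1 : SL n w.A)⁻¹, X) = X := by
  refine w.vec_inj ?_
  rw [w.vec_mul, inv_one]
  exact Matrix.one_mul _

private theorem StB1_sgn {n : ℕ} (τ : Finset (Fin n)) (r : ℕ) (h : τ.card = r + 1)
    (j : Fin (r + 1)) : sgn (τ.orderEmbOfFin h j) τ = (-1 : ℤ) ^ (j : ℕ) := by
  unfold sgn
  have h4 : τ.filter (· < τ.orderEmbOfFin h j) =
      (Finset.univ.filter fun k : Fin (r + 1) => k < j).map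
        (τ.orderEmbOfFin h).toEmbedding := by
    ext i
    rw [Finset.mem_filter, Finset.mem_map]
    constructor
    · rintro ⟨hi, hij⟩
      obtain ⟨k, hk⟩ : ∃ k, τ.orderEmbOfFin h k = i := by
        have h5 : i ∈ Set.range (τ.orderEmbOfFin h) := by
          rw [Finset.range_orderEmbOfFin]
          exact hi
        exact h5
      refine ⟨k, ?_, hk⟩
      rw [Finset.mem_filter]
      refine ⟨Finset.mem_univ _, ?_⟩
      rw [← hk] at hij
      exact (τ.orderEmbOfFin h).lt_iff_lt.1 hij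
    · rintro ⟨k, hk, rfl⟩
      rw [Finset.mem_filter] at hk
      exact ⟨Finset.orderEmbOfFin_mem τ h k, (τ.orderEmbOfFin h).lt_iff_lt.2 hk.2⟩
  rw [h4, Finset.card_map]
  congr 1
  have h5 : (Finset.univ.filter fun k : Fin (r + 1) => k < j) = Finset.Iio j := by
    ext k
    simp
  rw [h5, Fin.card_Iio]

private theorem StB1_dt {n : ℕ} {K : Cx} {m : ℕ} (t : Finset (Fin n) → K.C m)
    (τ : Finset (Fin n)) (r : ℕ) (h : τ.card = r + 1) :
    CSys.dt t τ = ∑ j : Fin (r + 1), (-1 : ℤ) ^ (j : ℕ) • t (τ.erase (τ.orderEmbOfFin h j)) := by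
  unfold CSys.dt
  rw [← Finset.sum_coe_sort]
  symm
  refine Fintype.sum_equiv (τ.orderIsoOfFin h).toEquiv _ _ fun j => ?_
  have h2 : (((τ.orderIsoOfFin h).toEquiv j : {i // i ∈ τ}) : Fin n) = τ.orderEmbOfFin h j :=
    rfl
  rw [h2, StB1_sgn]

/-- First half of STEP B: `δ h` is the pull back of a class `η₀` of `V(n + 2; Z)`. Over
`Z' = FF (r+3) × Z` the evaluations of `x` at the `e_τ`, `τ ⊆ [r+3]`, `|τ| = r + 2`, twisted by
`s⁻¹`, are the restrictions of the pull backs of `h` along the faces (`ev_theta`), the untwisted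
ones those of the constant classes; by the invariance they differ by a simplicial coboundary,
which does not contribute to the alternating sum (`CSys.dt_dt`); the restriction to `M_τ` is
injective. -/
theorem stepB1 {n r m : ℕ} (hm : m + r + 1 = n) (hm' : 0 < m) (hT : ∀ k < n + 2, ThT w k)
    (hi : ∀ q, q + 3 ≤ n + 2 → InjN w (n + 2) q)
    (Z : Type) [TopologicalSpace Z] (x : (colK w (n + 2) (r + 2) Z).C m)
    (hx : x ∈ (colK w (n + 2) (r + 2) Z).Zg m)
    (hInv : Inv w (seg (n + 2) (r + 3)) x)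
    (h : (coN w (n + 2) (w.FF (n + 2) (r + 2) × Z)).C m)
    (hh : h ∈ (coN w (n + 2) (w.FF (n + 2) (r + 2) × Z)).Zg m)
    (hxh : x - ((theta w (n + 2) Z).f (r + 2)).f m h ∈ (colK w (n + 2) (r + 2) Z).Bg m) :
    ∃ η₀ ∈ (coN w (n + 2) Z).Zg m, (eδ w (n + 2) (r + 2) Z).f m h -
      (((sM w ∅).par (prZ w Z)).pull w.W).f m η₀ ∈
        (coN w (n + 2) (w.FF (n + 2) (r + 3) × Z)).Bg m := by
  have hlt : r + 2 + 1 < n + 2 := by omega
  have htw : TwN w (n + 2) m := tw_of_inj w (hi m (by omega))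
  set V := seg (n + 2) (r + 2 + 1) with hV
  have hVc : V.card = r + 2 + 1 := card_seg hlt.le
  obtain ⟨t, ht, ht'⟩ := hInv (w.FF (n + 2) (r + 3) × Z) (psi0 w hlt Z) (prZ w Z)
  -- the subsets
  have hτc : ∀ j : Fin (r + 2 + 1), (V.erase (V.orderEmbOfFin hVc j)).card = r + 2 := by
    intro j
    rw [Finset.card_erase_of_mem (Finset.orderEmbOfFin_mem V hVc j), hVc]
    rfl
  -- the constant classes
  let k : Fin (r + 2 + 1) → (coN w (n + 2) Z).C m := fun j =>
    (ptE w (FR.of w (V.erase (V.orderEmbOfFin hVc j)) (r + 2) (hτc j)) Z).f m h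
  have hk : ∀ j, k j ∈ (coN w (n + 2) Z).Zg m := fun j => Cx.Hom.map_Zg _ hh
  have hinj : ∀ j : Fin (r + 2 + 1), (SG.rs (w := w) (sM_le (Finset.empty_subset
      (V.erase (V.orderEmbOfFin hVc j)))) (w.FF (n + 2) (r + 3) × Z)).Inj m := by
    intro j
    refine inj_path w (Finset.empty_subset (V.erase (V.orderEmbOfFin hVc j))) (fun k hk1 hk2 => ?_) _
    rw [hτc j] at hk2
    rw [Finset.card_empty] at hk1
    rcases (by omega : k = n + 2 ∨ k < n + 2) with rfl | hk3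
    · exact hi m (by omega)
    · exact (hT k hk3).1 m (by omega)
  have hmain : ∀ j : Fin (r + 2 + 1),
      ((((sM w ∅).par (parFace w j Z)).pull w.W).f m h : (coN w (n + 2)
        (w.FF (n + 2) (r + 3) × Z)).C m) - (((sM w ∅).par (prZ w Z)).pull w.W).f m (k j) -
        CSys.dt t (V.erase (V.orderEmbOfFin hVc j)) ∈
          (coN w (n + 2) (w.FF (n + 2) (r + 3) × Z)).Bg m := by
    intro j
    set τ := V.erase (V.orderEmbOfFin hVc j) with hτ
    have h1 := ht' τ (Finset.erase_subset _ _) (hτc j)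
    have hXA := toFF_fixed w τ (r + 2) (hτc j)
    have hXF := FR.of_fixedM w τ (r + 2) (hτc j)
    have htwψ : ∀ y ∈ (coN w (n + 2) (w.FF (n + 2) (r + 3) × Z)).Zg m,
        (twM w (psi0 w hlt Z)).f m y - y ∈ (coN w (n + 2) (w.FF (n + 2) (r + 3) × Z)).Bg m :=
      htw _ (psi0 w hlt Z)
    -- the twisted one
    have h2 := (evT w τ (r + 2) (hτc j) (psi0 w hlt Z) (prZ w Z)).map_Bg hxh
    rw [map_sub] at h2
    have h3 : (evT w τ (r + 2) (hτc j) (psi0 w hlt Z) (prZ w Z)).f m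
        (((theta w (n + 2) Z).f (r + 2)).f m h) =
        (SG.rs (leEmpty w (sM w τ)) (w.FF (n + 2) (r + 3) × Z)).f m
          ((twM w (psi0 w hlt Z)).f m ((((sM w ∅).par (parFace w j Z)).pull w.W).f m h)) := by
      have h4 := ev_theta w (sM w τ) (psi0 w hlt Z) (prZ w Z) (FR.of w τ (r + 2) (hτc j)) hXF hXA m h
      have h5 : eta w (psi0 w hlt Z) (prZ w Z) (FR.of w τ (r + 2) (hτc j)) = parFace w j Z := by
        refine ContinuousMap.ext fun y => ?_
        refine Prod.ext ?_ rfl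
        show w.mul (((w.sec hlt y.1)⁻¹)⁻¹, (FR.of w τ (r + 2) (hτc j)).toFF w) = w.face j y.1
        rw [inv_inv]
        exact StB1_face w hlt hVc j (hτc j) y.1
      rw [h5] at h4
      exact h4
    have h4 := htwψ _ ((((sM w ∅).par (parFace w j Z)).pull w.W).map_Zg hh)
    have h5 := (SG.rs (leEmpty w (sM w τ)) (w.FF (n + 2) (r + 3) × Z)).map_Bg h4
    rw [map_sub] at h5
    -- the untwisted one
    have h6 := (evT w τ (r + 2) (hτc j) 1 (prZ (n := n + 2) (r := r + 3) w Z)).map_Bg hxh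
    rw [map_sub] at h6
    have h7 : (evT w τ (r + 2) (hτc j) 1 (prZ (n := n + 2) (r := r + 3) w Z)).f m
        (((theta w (n + 2) Z).f (r + 2)).f m h) =
        (SG.rs (leEmpty w (sM w τ)) (w.FF (n + 2) (r + 3) × Z)).f m
          ((((sM w ∅).par (prZ w Z)).pull w.W).f m (k j)) := by
      have h8 := ev_theta w (sM w τ) (1 : C(w.FF (n + 2) (r + 3) × Z, SL (n + 2) w.A)) (prZ w Z)
        (FR.of w τ (r + 2) (hτc j)) hXF hXA m h
      refine h8.trans ?_
      rw [twM_one]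
      congr 1
      refine GS.co_ext fun g y => ?_
      have h9 : eta w (1 : C(w.FF (n + 2) (r + 3) × Z, SL (n + 2) w.A)) (prZ w Z)
          (FR.of w τ (r + 2) (hτc j)) y.2 = ((FR.of w τ (r + 2) (hτc j)).toFF w, y.2.2) := by
        exact Prod.ext (StB1_one w _) rfl
      show GS.ap h _ (y.1, eta w (1 : C(w.FF (n + 2) (r + 3) × Z, SL (n + 2) w.A)) (prZ w Z)
          (FR.of w τ (r + 2) (hτc j)) y.2) = GS.ap h _ (y.1, _)
      rw [h9]
      rfl
    rw [h3] at h2
    rw [h7] at h6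
    refine hinj j _ ?_ ?_
    · exact AddSubgroup.sub_mem _ (AddSubgroup.sub_mem _ (Cx.Hom.map_Zg _ hh)
        (Cx.Hom.map_Zg _ (hk j)))
        (AddSubgroup.sum_mem _ fun _ _ => AddSubgroup.zsmul_mem _ (ht _) _)
    · have h10 := AddSubgroup.sub_mem _ (AddSubgroup.add_mem _ h1 h6) (AddSubgroup.add_mem _ h2 h5)
      refine (congrArg (· ∈ ((sM w τ).co (w.FF (n + 2) (r + 3) × Z)).Bg m) ?_).mp h10
      rw [map_sub, map_sub]
      abel
  refine ⟨∑ j : Fin (r + 2 + 1), (-1 : ℤ) ^ (j : ℕ) • k j,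
    AddSubgroup.sum_mem _ fun j _ => AddSubgroup.zsmul_mem _ (hk j) _, ?_⟩
  have h1 : ∑ j : Fin (r + 2 + 1), (-1 : ℤ) ^ (j : ℕ) •
      CSys.dt t (V.erase (V.orderEmbOfFin hVc j)) = 0 := by
    rw [← StB1_dt (CSys.dt t) V (r + 2) hVc, CSys.dt_dt]
  have h2 : ∑ j : Fin (r + 2 + 1), (-1 : ℤ) ^ (j : ℕ) •
      (((((sM w ∅).par (parFace w j Z)).pull w.W).f m h : (coN w (n + 2)
        (w.FF (n + 2) (r + 3) × Z)).C m) - (((sM w ∅).par (prZ w Z)).pull w.W).f m (k j) -
        CSys.dt t (V.erase (V.orderEmbOfFin hVc j))) ∈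
          (coN w (n + 2) (w.FF (n + 2) (r + 3) × Z)).Bg m :=
    AddSubgroup.sum_mem _ fun j _ => AddSubgroup.zsmul_mem _ (hmain j) _
  refine (congrArg (· ∈ (coN w (n + 2) (w.FF (n + 2) (r + 3) × Z)).Bg m) ?_).mp h2
  simp only [smul_sub, Finset.sum_sub_distrib]
  rw [h1, sub_zero, map_sum]
  simp only [map_zsmul]
  unfold eδ
  rw [Cx.Hom.lin_f]

end Pool.Agent.BR80
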