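import Pool.Agent.BR80.Cx

/-!
# Short exact sequences of complexes: two diagram chases
-/

namespace Pool.Agent.BR80

/-- A short exact sequence of complexes. -/
structure SES (K L M : Cx) where
  /-- the injection -/
  i : Cx.Hom K L
  /-- the surjection -/
  p : Cx.Hom L M
  inj : ∀ m x, i.f m x = 0 → x = 0
  exact : ∀ m y, p.f m y = 0 → ∃ x, i.f m x = y
  pi : ∀ m x, p.f m (i.f m x) = 0
  surj : ∀ m z, ∃ y, p.f m y = z

/-- `K` has no cohomology in degree `m`. -/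
def Cx.Acyc (K : Cx) (m : ℕ) : Prop := ∀ x ∈ K.Zg m, x ∈ K.Bg m

private theorem SES.inj' {K L M : Cx} (s : SES K L M) {m : ℕ} {x y : K.C m}
    (h : s.i.f m x = s.i.f m y) : x = y := by
  rw [← sub_eq_zero]
  refine s.inj m _ ?_
  rw [map_sub, h, sub_self]

private theorem SES.lift_aux {K L M : Cx} (s : SES K L M) {m : ℕ} (w : L.C m)
    (h : s.p.f m w ∈ M.Bg m) : ∃ k, L.d m w = L.d m (s.i.f m k) := by
  cases m with
  | zero =>
    rw [Cx.mem_Bg_zero] at h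
    obtain ⟨k, hk⟩ := s.exact 0 w h
    exact ⟨k, by rw [hk]⟩
  | succ m =>
    obtain ⟨μ, hμ⟩ := h
    obtain ⟨ν, rfl⟩ := s.surj m μ
    obtain ⟨k, hk⟩ := s.exact (m + 1) (w - L.d m ν) (by rw [map_sub, s.p.comm, hμ, sub_self])
    exact ⟨k, by rw [hk, map_sub, L.dd, sub_zero]⟩

/-- Dimension shifting for a morphism of short exact sequences. -/
theorem SES.step {K L M K' L' M' : Cx} (s : SES K L M) (s' : SES K' L' M') (a : Cx.Hom K K')
    (b : Cx.Hom L L') (c : Cx.Hom M M') (h1 : ∀ m x, b.f m (s.i.f m x) = s'.i.f m (a.f m x))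
    (h2 : ∀ m y, c.f m (s.p.f m y) = s'.p.f m (b.f m y)) (m : ℕ) (hb : b.Surj m)
    (hci : c.Inj m) (hcs : c.Surj m) (hL : L.Acyc (m + 1)) (hL' : L'.Acyc (m + 1)) :
    a.Inj (m + 1) ∧ a.Surj (m + 1) := by
  constructor
  · intro x hx hax
    obtain ⟨k', hk'⟩ := hax
    obtain ⟨y, hy⟩ := hL (s.i.f (m + 1) x) (s.i.map_Zg hx)
    have h3 : b.f m y - s'.i.f m k' ∈ L'.Zg m := by
      rw [Cx.mem_Zg, map_sub, ← b.comm, hy, h1, ← s'.i.comm, hk', sub_self]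
    obtain ⟨l, hl, hl'⟩ := hb _ h3
    have h4 : c.f m (s.p.f m (y - l)) ∈ M'.Bg m := by
      have h5 := s'.p.map_Bg hl'
      rw [map_sub, map_sub, s'.pi, sub_zero, ← h2, ← h2, ← map_sub, ← map_sub] at h5
      exact h5
    have h5 : s.p.f m (y - l) ∈ M.Zg m := by
      rw [Cx.mem_Zg, ← s.p.comm, map_sub, Cx.mem_Zg.1 hl, sub_zero, hy, s.pi]
    obtain ⟨k, hk⟩ := s.lift_aux _ (hci _ h5 h4)
    refine ⟨k, s.inj' ?_⟩
    rw [s.i.comm, ← hk, map_sub, Cx.mem_Zg.1 hl, sub_zero, hy]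
  · intro z hz
    obtain ⟨y', hy'⟩ := hL' (s'.i.f (m + 1) z) (s'.i.map_Zg hz)
    have h3 : s'.p.f m y' ∈ M'.Zg m := by
      rw [Cx.mem_Zg, ← s'.p.comm, hy', s'.pi]
    obtain ⟨μ, hμ, hμ'⟩ := hcs _ h3
    obtain ⟨y, rfl⟩ := s.surj m μ
    obtain ⟨x, hx⟩ := s.exact (m + 1) (L.d m y) (by rw [s.p.comm, Cx.mem_Zg.1 hμ])
    have h4 : x ∈ K.Zg (m + 1) := by
      rw [Cx.mem_Zg]
      refine s.inj' ?_
      rw [s.i.comm, hx, L.dd, map_zero]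
    refine ⟨x, h4, ?_⟩
    have h5 : s'.p.f m (y' - b.f m y) ∈ M'.Bg m := by
      rw [map_sub, ← h2]
      exact hμ'
    obtain ⟨k, hk⟩ := s'.lift_aux _ h5
    refine ⟨k, s'.inj' ?_⟩
    rw [s'.i.comm, ← hk, map_sub, hy', ← b.comm, ← hx, h1, ← map_sub]

/-- The same for an endomorphism that is the identity in cohomology. -/
theorem SES.step_id {K L M : Cx} (s : SES K L M) (a : Cx.Hom K K)
    (b : Cx.Hom L L) (c : Cx.Hom M M) (h1 : ∀ m x, b.f m (s.i.f m x) = s.i.f m (a.f m x))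
    (h2 : ∀ m y, c.f m (s.p.f m y) = s.p.f m (b.f m y)) (m : ℕ)
    (hc : ∀ z ∈ M.Zg m, c.f m z - z ∈ M.Bg m) (hL : L.Acyc (m + 1)) :
    ∀ x ∈ K.Zg (m + 1), a.f (m + 1) x - x ∈ K.Bg (m + 1) := by
  intro x hx
  obtain ⟨y, hy⟩ := hL (s.i.f (m + 1) x) (s.i.map_Zg hx)
  have h3 : s.p.f m y ∈ M.Zg m := by
    rw [Cx.mem_Zg, ← s.p.comm, hy, s.pi]
  have h4 : s.p.f m (b.f m y - y) ∈ M.Bg m := by
    rw [map_sub, ← h2]
    exact hc _ h3
  obtain ⟨k, hk⟩ := s.lift_aux _ h4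
  refine ⟨k, s.inj' ?_⟩
  rw [s.i.comm, ← hk, map_sub, ← b.comm, hy, h1, ← map_sub]

/-- If `K` and `L` have no cohomology in degree `m + 1` and `m` then `M` has none in degree `m`. -/
theorem SES.acyc_right {K L M : Cx} (s : SES K L M) (m : ℕ) (hK : K.Acyc (m + 1))
    (hL : L.Acyc m) : M.Acyc m := by
  intro z hz
  obtain ⟨y, rfl⟩ := s.surj m z
  obtain ⟨x, hx⟩ := s.exact (m + 1) (L.d m y) (by rw [s.p.comm, Cx.mem_Zg.1 hz])
  have h4 : x ∈ K.Zg (m + 1) := by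
    rw [Cx.mem_Zg]
    refine s.inj' ?_
    rw [s.i.comm, hx, L.dd, map_zero]
  obtain ⟨k, hk⟩ := hK x h4
  have h5 : y - s.i.f m k ∈ L.Zg m := by
    rw [Cx.mem_Zg, map_sub, ← s.i.comm, hk, hx, sub_self]
  have h6 := s.p.map_Bg (hL _ h5)
  rwa [map_sub, s.pi, sub_zero] at h6

end Pool.Agent.BR80
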