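import Pool.Agent.BR80.Gam2

/-!
# The triple of a system is a system for `SL_(n-2)`
-/

namespace Pool.Agent.BR80

open Matrix

variable (w : World)

private theorem Trip_card {n : ℕ} : (emb2 (∅ : Finset (Fin n))).card = 2 :=
  emb2_card ∅ 0 Finset.card_empty

/-- TRIPLE. The alternating sum of the evaluations of the obstruction at the three frames is
given by classes of `V(M_01; Z)`, `M_01 = SL_n`, by the uniqueness lemma `CSys.lemU` for
`(triD w n Z).ev Y` (total degree `n - 2`), where `n + 2` is the size of the matrices. For `r = 0` the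
alternating sum is zero (`Eval2.ds_ev`, `Eval2.zero`); for `r ≥ 2` the class at `∅` restricts to
zero on `SL_(n-1)`, so it is zero by Theorem T for `n`. -/
theorem triple {n r m : ℕ} (hm : m + r + 1 = n) (hT : ∀ k < n + 2, ThT w k)
    (Z : Type) [TopologicalSpace Z] (Y : (biD w (n + 2) Z).TC)
    (hY : (biD w (n + 2) Z).Sys n (r + 2) Y) :
    ∃ t : Finset (Fin n) → ((sM w (emb2 (∅ : Finset (Fin n)))).co Z).C m,
      (∀ σ, t σ ∈ ((sM w (emb2 (∅ : Finset (Fin n)))).co Z).Zg m) ∧
      ∀ (τ : Finset (Fin n)) (h : τ.card = r),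
        ((triD w n Z).f τ r h).f m ((biD w (n + 2) Z).ds Y (r + 2) m) -
          (SG.rs (sM_le (emb2_mono (Finset.empty_subset τ))) Z).f m (CSys.dt t τ) ∈
            ((sM w (emb2 τ)).co Z).Bg m := by
  rcases Nat.eq_zero_or_pos r with hr | hr
  · subst hr
    refine ⟨fun _ => 0, fun _ => AddSubgroup.zero_mem _, fun τ h => ?_⟩
    have h1 : τ = ∅ := Finset.card_eq_zero.1 h
    subst h1
    have h2 : ((triD w n Z).f ∅ 0 h).f m ((biD w (n + 2) Z).ds Y (0 + 2) m) = 0 :=
      (triD w n Z).zero h m (Y 1 m)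
    have h3 : CSys.dt (fun (_ : Finset (Fin n)) =>
        (0 : ((sM w (emb2 (∅ : Finset (Fin n)))).co Z).C m)) ∅ = 0 := rfl
    rw [h2, h3, map_zero, sub_zero]
    exact AddSubgroup.zero_mem _
  · have hn2 : n - 2 + 2 = n := by omega
    have hY' : (biD w (n + 2) Z).Sys (n - 2 + 2) (r + 2) Y := by rw [hn2]; exact hY
    have hz : (csM2 w n Z).Sys Finset.univ (n - 2) r ((triD w n Z).ev Y) :=
      (triD w n Z).sys Finset.univ hY'
    have hcard : ∀ τ : Finset (Fin n), (emb2 τ).card = τ.card + 2 := fun τ => emb2_card τ _ rfl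
    have hsurj : ∀ τ ⊆ (Finset.univ : Finset (Fin n)), 1 ≤ τ.card → τ.card < r → ∀ m',
        m' + τ.card + 2 = n → ((csM2 w n Z).res (Finset.empty_subset τ)).Surj m' := by
      intro τ _ h1 h2 m' h3
      refine sur_path w (emb2_mono (Finset.empty_subset τ)) (fun k hk1 hk2 => ?_) Z
      rw [Trip_card] at hk1
      rw [hcard] at hk2
      exact (hT k (by omega)).2 m' (by omega)
    have hinj : ∀ τ ⊆ (Finset.univ : Finset (Fin n)), 1 < τ.card → τ.card < r → ∀ m',
        m' + τ.card + 1 = n → ((csM2 w n Z).res (Finset.empty_subset τ)).Inj m' := by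
      intro τ _ h1 h2 m' h3
      refine inj_path w (emb2_mono (Finset.empty_subset τ)) (fun k hk1 hk2 => ?_) Z
      rw [Trip_card] at hk1
      rw [hcard] at hk2
      exact (hT k (by omega)).1 m' (by omega)
    have h0 : 2 ≤ r → (triD w n Z).ev Y ∅ (n - 2) ∈ ((csM2 w n Z).K ∅).Bg (n - 2) := by
      intro hr2
      set z := (triD w n Z).ev Y with hzdef
      have hzz : z ∅ (n - 2) ∈ ((csM2 w n Z).K ∅).Zg (n - 2) :=
        (csM2 w n Z).LemU_cocycle (s := 0) hz hr (fun τ _ h => absurd h (Nat.not_lt_zero _)) ∅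
          (Finset.empty_subset _) Finset.card_empty _
      obtain ⟨j⟩ : Nonempty (Fin n) := ⟨⟨0, by omega⟩⟩
      have h1 : (csM2 w n Z).ds z {j} (n - 2) ∈ ((csM2 w n Z).K {j}).Bg (n - 2) :=
        (csM2 w n Z).LemU_ds_mem hz {j} (Finset.subset_univ _) (by
          rw [Finset.card_singleton]; omega) (n - 2) (by omega)
      have h2 : (csM2 w n Z).ds z {j} (n - 2) =
          ((csM2 w n Z).res (Finset.empty_subset {j})).f (n - 2) (z ∅ (n - 2)) := by
        unfold CSys.ds
        rw [Finset.sum_singleton]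
        have h3 : sgn j ({j} : Finset (Fin n)) = 1 := by
          unfold sgn
          have h4 : ({j} : Finset (Fin n)).filter (· < j) = ∅ := by
            ext x
            simp only [Finset.mem_filter, Finset.mem_singleton, Finset.notMem_empty, iff_false]
            rintro ⟨rfl, h⟩
            exact lt_irrefl _ h
          rw [h4, Finset.card_empty, pow_zero]
        rw [h3, one_smul]
        have h4 : ∀ (σ : Finset (Fin n)) (hσ : σ = ∅) (h : σ ⊆ {j}),
            ((csM2 w n Z).res h).f (n - 2) (z σ (n - 2)) =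
              ((csM2 w n Z).res (Finset.empty_subset {j})).f (n - 2) (z ∅ (n - 2)) := by
          intro σ hσ h
          subst hσ
          rfl
        exact h4 _ (by rw [Finset.erase_singleton]) _
      rw [h2] at h1
      refine (inj_path w (emb2_mono (Finset.empty_subset {j})) (fun k hk1 hk2 => ?_) Z) _ hzz h1
      rw [Trip_card] at hk1
      rw [hcard, Finset.card_singleton] at hk2
      exact (hT k (by omega)).1 (n - 2) (by omega)
    obtain ⟨t, ht, ht'⟩ := (csM2 w n Z).lemU Finset.univ n r hsurj hinj ((triD w n Z).ev Y) hz h0 m hm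
    refine ⟨t, ht, fun τ h => ?_⟩
    have h1 := ht' τ (Finset.subset_univ τ) h
    rw [(triD w n Z).ds_ev Y τ r h] at h1
    exact h1

end Pool.Agent.BR80
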