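import Pool.Agent.BR80.GS

/-!
# The situation: a field `F`, a topological ring `A` (the finite adeles), coefficients `W`,
and the spaces `FF n r` of adelic frames
-/

namespace Pool.Agent.BR80

open Matrix

/-- The group `SL_n`. -/
abbrev SL (n : ℕ) (R : Type) [CommRing R] : Type := SpecialLinearGroup (Fin n) R

/-- The additive group `F^κ` acting on `A^κ × Z` by translation of the first factor. -/
def vecGS (F A : Type) [Field F] [CommRing A] [TopologicalSpace A] [IsTopologicalRing A]
    [Algebra F A] (κ Z : Type) [TopologicalSpace Z] : GS where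
  G := Multiplicative (κ → F)
  X := (κ → A) × Z
  act := fun g x => (fun k => algebraMap F A (Multiplicative.toAdd g k) + x.1 k, x.2)
  act_one := fun x => by
    ext <;> simp
  act_mul := fun g h x => by
    ext <;> simp [add_assoc]
  act_cont := fun g => by fun_prop

/-- The transvection with entry `c` at the place `(i, j)`, as an element of `SL_n`. -/
def elt {n : ℕ} {R : Type} [CommRing R] (i j : Fin n) (h : i ≠ j) (c : R) : SL n R :=
  ⟨Matrix.transvection i j c, Matrix.det_transvection_of_ne i j h c⟩

/-- The situation. -/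
structure World where
  /-- the field, a number field in the application -/
  F : Type
  [fieldF : Field F]
  [infF : Infinite F]
  /-- the ring of finite adeles in the application -/
  A : Type
  [ringA : CommRing A]
  [topA : TopologicalSpace A]
  [trA : IsTopologicalRing A]
  [algA : Algebra F A]
  /-- the coefficients -/
  W : Type
  [acgW : AddCommGroup W]
  [topW : TopologicalSpace W]
  [tgW : IsTopologicalAddGroup W]
  [t2W : T2Space W]
  dense : DenseRange (algebraMap F A)
  inj : Function.Injective (algebraMap F A)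
  /-- the space of adelic `r`-frames in dimension `n` -/
  FF : ℕ → ℕ → Type
  [topFF : ∀ n r, TopologicalSpace (FF n r)]
  /-- the matrix of a frame; its columns are the vectors of the frame -/
  vec : ∀ {n r : ℕ}, FF n r → Matrix (Fin n) (Fin r) A
  vec_inj : ∀ {n r : ℕ}, Function.Injective (vec (n := n) (r := r))
  /-- omit a vector -/
  face : ∀ {n r : ℕ}, Fin (r + 1) → C(FF n (r + 1), FF n r)
  vec_face : ∀ {n r : ℕ} (j : Fin (r + 1)) (φ : FF n (r + 1)),
    vec (face j φ) = (vec φ).submatrix id j.succAbove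
  /-- the action of `SL_n(A)` on the frames -/
  mul : ∀ {n r : ℕ}, C(SL n A × FF n r, FF n r)
  vec_mul : ∀ {n r : ℕ} (g : SL n A) (φ : FF n r), vec (mul (g, φ)) = g.1 * vec φ
  /-- rational frames -/
  rat : ∀ {n r : ℕ} (X : Matrix (Fin n) (Fin r) F), LinearIndependent F X.col → FF n r
  vec_rat : ∀ {n r : ℕ} (X : Matrix (Fin n) (Fin r) F) (h : LinearIndependent F X.col),
    vec (rat X h) = X.map (algebraMap F A)
  /-- the columns of an invertible matrix -/
  ofGL : ∀ {n : ℕ}, C(GL (Fin n) A, FF n n)
  vec_ofGL : ∀ {n : ℕ} (g : GL (Fin n) A), vec (ofGL g) = g.1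
  isUnit_det : ∀ {n : ℕ} (φ : FF n n), IsUnit (vec φ).det
  /-- a section -/
  sec : ∀ {n r : ℕ}, r < n → C(FF n r, SL n A)
  sec_spec : ∀ {n r : ℕ} (h : r < n) (φ : FF n r) (i : Fin n) (j : Fin r),
    (sec h φ).1 i (Fin.castLE h.le j) = vec φ i j
  /-- general position -/
  gp : ∀ {n r : ℕ}, r < n → ∀ (Y : Type) [TopologicalSpace Y] (I : Type) [Finite I]
    (φ : I → C(Y, FF n r)), ∃ ψ : I → C(Y, FF n (r + 1)),
      (∀ i, (face 0).comp (ψ i) = φ i) ∧
      ∀ (i i' : I) (y : Y) (k : Fin n), vec (ψ i y) k 0 = vec (ψ i' y) k 0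
  /-- continuous generation of `SL_n(A)` by transvections -/
  gen : ∀ (n : ℕ) (Z : Type) [TopologicalSpace Z] (a : C(Z, SL n A)),
    a ∈ Subgroup.closure {e : C(Z, SL n A) | ∃ (i j : Fin n) (h : i ≠ j) (c : C(Z, A)),
      ∀ z, e z = elt i j h (c z)}
  /-- vector groups are acyclic -/
  acyc : ∀ (κ : Type) [Finite κ] (Z : Type) [TopologicalSpace Z] (m : ℕ),
    ∀ x ∈ ((vecGS F A κ Z).co W).Zg (m + 1), x ∈ ((vecGS F A κ Z).co W).Bg (m + 1)

attribute [instance] World.fieldF World.infF World.ringA World.topA World.trA World.algA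
  World.acgW World.topW World.tgW World.t2W World.topFF

end Pool.Agent.BR80
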